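import Pool.Agent.H.MP_4bdd60_an.Defs

/-!
# MP_4bdd60_an, part A: definitions for the construction of the holomorphic form

`K`, `L` closed (compact) sets, `f` a homeomorphism of the plane, holomorphic off `K ∪ L`.
The construction is one orthogonal projection in the real Hilbert space `L²(mu K L f)`, where `mu` is the
area on the complement of `K` plus the area of the image of `K \ L` under `f`, carried back to `K \ L`.
-/

open Set Filter Topology Metric MeasureTheory
open scoped Real ContDiff

namespace Pool.Agent.H.MP_4bdd60_an

/-- `u_x - i u_y` (twice the derivative with respect to `z`) of a real function -/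
noncomputable def gr (u : ℂ → ℝ) (z : ℂ) : ℂ := ⟨fderiv ℝ u z 1, -fderiv ℝ u z Complex.I⟩

/-- real test functions of an open set -/
structure Test (U : Set ℂ) (u : ℂ → ℝ) : Prop where
  smooth : ContDiff ℝ ∞ u
  cpt : HasCompactSupport u
  sub : tsupport u ⊆ U

open Classical in
/-- pull back by `f` of the form `p dw` on the image of the complement of `L`: `p(f z) f'(z)` off `K ∪ L`,
`p (f z)` on `K \ L` (only its size matters there), and zero on `L` -/
noncomputable def pb (K L : Set ℂ) (f : ℂ ≃ₜ ℂ) (p : ℂ → ℂ) (z : ℂ) : ℂ :=
  if z ∈ L then 0 else if z ∈ K then p (f z) else p (f z) * deriv f z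

/-- extension by zero on `K` -/
noncomputable def ex (K : Set ℂ) (p : ℂ → ℂ) : ℂ → ℂ := Kᶜ.indicator p

/-- the measure -/
noncomputable def mu (K L : Set ℂ) (f : ℂ ≃ₜ ℂ) : Measure ℂ :=
  volume.restrict Kᶜ + (volume.restrict (f '' (K \ L))).map f.symm

end Pool.Agent.H.MP_4bdd60_an
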