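import Mathlib

/-!
# MP_4bdd60_an, part A: a real orthogonal projection in `L²`
-/

open MeasureTheory

namespace Pool.Agent.H.MP_4bdd60_an

theorem A1a_normsq {α : Type*} [MeasurableSpace α] (μ : Measure α) (u : Lp ℂ 2 μ) :
    ‖u‖ ^ 2 = ∫ z, ‖u z‖ ^ 2 ∂μ := by
  have h : inner ℝ u u = ‖u‖ ^ 2 := real_inner_self_eq_norm_sq u
  rw [← h, L2.inner_def]
  refine integral_congr_ae (Filter.Eventually.of_forall fun z => ?_)
  exact real_inner_self_eq_norm_sq (u z)

/-- Projection of `W` to the closure of a real-linear set `P` of complex square integrable functions, for the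
real scalar product `Re ∫ g conj h`.
Proof: `Lp ℂ 2 μ` is a Hilbert space over `ℝ` (`InnerProductSpace ℝ ℂ`, `L2.innerProductSpace` with scalars `ℝ`;
complete).  The classes of the elements of `P` form a real submodule `M`; take the closure of `M` and its orthogonal
projection (`Submodule.topologicalClosure`, `Submodule.starProjection` or
`Submodule.exists_norm_eq_iInf_of_complete_submodule` with `Submodule.norm_eq_iInf_iff_real_inner_eq_zero`), let `om` be
a representative of the projection of the class of `W`.  The inner product of `L²` over `ℝ` is the integral of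
`inner ℝ (g z) (h z) = Re (g z * conj (h z))` up to symmetry, the squared norm of the difference is the
integral of `‖om z - g z‖ ^ 2` (`L2.inner_def`, or `MemLp.eLpNorm_eq_integral_rpow_norm`). -/
theorem real_projection {α : Type*} [MeasurableSpace α] (μ : Measure α) (P : Set (α → ℂ))
    (hP : ∀ g ∈ P, MemLp g 2 μ) (h0 : (fun _ => 0) ∈ P)
    (hadd : ∀ g ∈ P, ∀ h ∈ P, (fun z => g z + h z) ∈ P)
    (hsmul : ∀ c : ℝ, ∀ g ∈ P, (fun z => (c : ℂ) * g z) ∈ P) (W : α → ℂ) (hW : MemLp W 2 μ) :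
    ∃ om : α → ℂ, MemLp om 2 μ ∧
      (∀ ε > 0, ∃ g ∈ P, ∫ z, ‖om z - g z‖ ^ 2 ∂μ < ε) ∧
      (∀ g ∈ P, (∫ z, (W z - om z) * (starRingEnd ℂ) (g z) ∂μ).re = 0) := by
  classical
  let M : Submodule ℝ (Lp ℂ 2 μ) :=
    { carrier := {u | ∃ g ∈ P, ⇑u =ᵐ[μ] g}
      zero_mem' := ⟨_, h0, Lp.coeFn_zero ℂ 2 μ⟩
      add_mem' := by
        rintro a b ⟨g, hg, hag⟩ ⟨h, hh, hbh⟩
        refine ⟨_, hadd g hg h hh, ?_⟩
        filter_upwards [Lp.coeFn_add a b, hag, hbh] with z h1 h2 h3
        rw [h1, Pi.add_apply, h2, h3]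
      smul_mem' := by
        rintro c a ⟨g, hg, hag⟩
        refine ⟨_, hsmul c g hg, ?_⟩
        filter_upwards [Lp.coeFn_smul c a, hag] with z h1 h2
        rw [h1, Pi.smul_apply, h2, Complex.real_smul] }
  have hMP : ∀ g (hg : g ∈ P), (hP g hg).toLp g ∈ M := fun g hg =>
    ⟨g, hg, (hP g hg).coeFn_toLp⟩
  let K := M.topologicalClosure
  haveI : CompleteSpace K := M.isClosed_topologicalClosure.completeSpace_coe
  let w : Lp ℂ 2 μ := hW.toLp W
  let p : Lp ℂ 2 μ := K.starProjection w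
  have hpK : p ∈ K := K.starProjection_apply_mem w
  have hort : w - p ∈ Kᗮ := K.sub_starProjection_mem_orthogonal w
  refine ⟨p, Lp.memLp p, ?_, ?_⟩
  · intro ε hε
    have hcl : p ∈ closure (M : Set (Lp ℂ 2 μ)) := hpK
    obtain ⟨b, ⟨g, hg, hbg⟩, hb⟩ := Metric.mem_closure_iff.1 hcl (Real.sqrt ε) (Real.sqrt_pos.2 hε)
    refine ⟨g, hg, ?_⟩
    have h1 : ∫ z, ‖p z - g z‖ ^ 2 ∂μ = ‖p - b‖ ^ 2 := by
      rw [A1a_normsq]
      refine integral_congr_ae ?_
      filter_upwards [Lp.coeFn_sub p b, hbg] with z h1 h2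
      rw [h1, Pi.sub_apply, h2]
    rw [h1]
    rw [dist_eq_norm] at hb
    have h2 : ‖p - b‖ ^ 2 < (Real.sqrt ε) ^ 2 := by
      have := norm_nonneg (p - b)
      nlinarith
    rwa [Real.sq_sqrt hε.le] at h2
  · intro g hg
    have hgM : (hP g hg).toLp g ∈ K := M.le_topologicalClosure (hMP g hg)
    have h1 : inner ℝ ((hP g hg).toLp g) (w - p) = 0 :=
      (Submodule.mem_orthogonal K (w - p)).1 hort _ hgM
    rw [L2.inner_def] at h1
    have hdiff : MemLp (fun z => W z - p z) 2 μ := hW.sub (Lp.memLp p)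
    have hstar : MemLp (fun z => (starRingEnd ℂ) (g z)) 2 μ := (hP g hg).star
    have hint : Integrable (fun z => (W z - p z) * (starRingEnd ℂ) (g z)) μ :=
      hdiff.integrable_mul hstar
    have h2 : (∫ z, (W z - p z) * (starRingEnd ℂ) (g z) ∂μ).re
        = ∫ z, ((W z - p z) * (starRingEnd ℂ) (g z)).re ∂μ := (integral_re hint).symm
    rw [h2, ← h1]
    refine integral_congr_ae ?_
    filter_upwards [Lp.coeFn_sub w p, hW.coeFn_toLp, (hP g hg).coeFn_toLp] with z h3 h4 h5
    rw [h3, Pi.sub_apply, h5]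
    have h6 : (w : α → ℂ) z = W z := h4
    rw [h6, Complex.inner]

end Pool.Agent.H.MP_4bdd60_an
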