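import Mathlib
import Pool.Agent.H.MP_4bdd60_an.A1a

/-!
# MP_4bdd60_an, part A: a real orthogonal projection in `L²`
-/

open MeasureTheory

namespace Pool.Agent.H.MP_4bdd60_an

theorem A1_int {α : Type*} [MeasurableSpace α] {μ : Measure α} {u h : α → ℂ} (hu : MemLp u 2 μ)
    (hh : MemLp h 2 μ) : Integrable (fun z => u z * (starRingEnd ℂ) (h z)) μ := by
  have h1 : MemLp (fun z => (starRingEnd ℂ) (h z)) 2 μ := by
    have := hh.star
    exact this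
  exact hu.integrable_mul h1

/-- the arithmetic-geometric form of the Cauchy-Schwarz inequality -/
theorem A1_bound {α : Type*} [MeasurableSpace α] {μ : Measure α} {u h : α → ℂ} (hu : MemLp u 2 μ)
    (hh : MemLp h 2 μ) {t : ℝ} (ht : 0 < t) :
    ‖∫ z, u z * (starRingEnd ℂ) (h z) ∂μ‖ ≤
      t * ∫ z, ‖u z‖ ^ 2 ∂μ + t⁻¹ * ∫ z, ‖h z‖ ^ 2 ∂μ := by
  have hu2 : Integrable (fun z => ‖u z‖ ^ 2) μ := hu.norm.integrable_sq
  have hh2 : Integrable (fun z => ‖h z‖ ^ 2) μ := hh.norm.integrable_sq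
  calc ‖∫ z, u z * (starRingEnd ℂ) (h z) ∂μ‖ ≤ ∫ z, ‖u z * (starRingEnd ℂ) (h z)‖ ∂μ :=
        norm_integral_le_integral_norm _
    _ ≤ ∫ z, (t * ‖u z‖ ^ 2 + t⁻¹ * ‖h z‖ ^ 2) ∂μ := by
        apply integral_mono (A1_int hu hh).norm ((hu2.const_mul t).add (hh2.const_mul t⁻¹))
        intro z
        have e : ‖u z * (starRingEnd ℂ) (h z)‖ = ‖u z‖ * ‖h z‖ := by
          rw [norm_mul, RCLike.norm_conj]
        simp only [Pi.add_apply]
        rw [e]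
        have h1 : 0 ≤ ‖u z‖ := norm_nonneg _
        have h2 : 0 ≤ ‖h z‖ := norm_nonneg _
        have h3 : t * ‖u z‖ ^ 2 + t⁻¹ * ‖h z‖ ^ 2 - ‖u z‖ * ‖h z‖ =
            t⁻¹ * ((t * ‖u z‖ - ‖h z‖) ^ 2 + t * (‖u z‖ * ‖h z‖)) := by
          field_simp
          ring
        have h4 : 0 ≤ t⁻¹ * ((t * ‖u z‖ - ‖h z‖) ^ 2 + t * (‖u z‖ * ‖h z‖)) := by positivity
        linarith
    _ = t * ∫ z, ‖u z‖ ^ 2 ∂μ + t⁻¹ * ∫ z, ‖h z‖ ^ 2 ∂μ := by
        rw [integral_add (hu2.const_mul t) (hh2.const_mul t⁻¹), integral_const_mul,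
          integral_const_mul]

/-- If `om` is a limit in the mean of elements `g` of `P` with `Im ∫ g conj h = 0`, then
`Im ∫ om conj h = 0`: by Cauchy-Schwarz `|∫ (om - g) conj h| ≤ (∫ |om - g|²)^(1/2) (∫ |h|²)^(1/2)`. -/
theorem im_limit {α : Type*} [MeasurableSpace α] (μ : Measure α) (P : Set (α → ℂ))
    (hP : ∀ g ∈ P, MemLp g 2 μ) (om h : α → ℂ) (hom : MemLp om 2 μ) (hh : MemLp h 2 μ)
    (happ : ∀ ε > 0, ∃ g ∈ P, ∫ z, ‖om z - g z‖ ^ 2 ∂μ < ε)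
    (him : ∀ g ∈ P, (∫ z, g z * (starRingEnd ℂ) (h z) ∂μ).im = 0) :
    (∫ z, om z * (starRingEnd ℂ) (h z) ∂μ).im = 0 := by
  have key : ∀ δ : ℝ, 0 < δ → |(∫ z, om z * (starRingEnd ℂ) (h z) ∂μ).im| ≤ δ := by
    intro δ hδ
    set H : ℝ := ∫ z, ‖h z‖ ^ 2 ∂μ with hH
    have hH0 : 0 ≤ H := integral_nonneg fun z => by positivity
    set t : ℝ := 2 * (H + 1) / δ with ht
    have ht0 : 0 < t := by positivity
    obtain ⟨g, hg, hε⟩ := happ (δ / (2 * t)) (by positivity)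
    have hd : MemLp (fun z => om z - g z) 2 μ := hom.sub (hP g hg)
    have e : ∫ z, om z * (starRingEnd ℂ) (h z) ∂μ =
        ∫ z, (om z - g z) * (starRingEnd ℂ) (h z) ∂μ + ∫ z, g z * (starRingEnd ℂ) (h z) ∂μ := by
      rw [← integral_add (A1_int hd hh) (A1_int (hP g hg) hh)]
      congr 1
      funext z
      ring
    rw [e, Complex.add_im, him g hg, add_zero]
    refine (Complex.abs_im_le_norm _).trans ((A1_bound hd hh ht0).trans ?_)
    have h1 : t * ∫ z, ‖om z - g z‖ ^ 2 ∂μ ≤ δ / 2 := by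
      have h2 : t * ∫ z, ‖om z - g z‖ ^ 2 ∂μ ≤ t * (δ / (2 * t)) :=
        mul_le_mul_of_nonneg_left hε.le ht0.le
      have h3 : t * (δ / (2 * t)) = δ / 2 := by field_simp
      linarith
    have h4 : t⁻¹ * H ≤ δ / 2 := by
      rw [ht, inv_div]
      rw [div_mul_eq_mul_div, div_le_iff₀ (by positivity)]
      nlinarith
    linarith
  by_contra hne
  have hpos : 0 < |(∫ z, om z * (starRingEnd ℂ) (h z) ∂μ).im| := abs_pos.mpr hne
  have := key (|(∫ z, om z * (starRingEnd ℂ) (h z) ∂μ).im| / 2) (by positivity)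
  linarith

end Pool.Agent.H.MP_4bdd60_an
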