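import Mathlib

/-!
# MP_4bdd60_an, part B: decay at infinity
-/

open Set Filter Topology Metric MeasureTheory
open scoped ENNReal Real

namespace Pool.Agent.H.MP_4bdd60_an

/-- mean value over a circle, as a lower bound for the mean of the norm -/
theorem B1_circle {f : ℂ → ℂ} {z : ℂ} {r ρ : ℝ} (hρ : 0 < ρ) (hρr : ρ < r)
    (hf : DifferentiableOn ℂ f (ball z r)) :
    ENNReal.ofReal (2 * π) * ‖f z‖ₑ ≤
      ∫⁻ θ in Ioo (-π) π, ‖f (z + (ρ : ℂ) * (Real.cos θ + Real.sin θ * Complex.I))‖ₑ := by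
  have habs : |ρ| = ρ := abs_of_pos hρ
  have h1 : Real.circleAverage f z ρ = f z := by
    refine DiffContOnCl.circleAverage ?_
    rw [habs]
    refine DifferentiableOn.diffContOnCl ?_
    refine hf.mono ?_
    refine (closure_ball_subset_closedBall).trans (closedBall_subset_ball hρr)
  have h2 : ∀ θ : ℝ, circleMap z ρ θ = z + (ρ : ℂ) * (Real.cos θ + Real.sin θ * Complex.I) := by
    intro θ
    rw [circleMap, Complex.exp_mul_I, Complex.ofReal_cos, Complex.ofReal_sin]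
  have hper : Function.Periodic (fun θ : ℝ => f (circleMap z ρ θ)) (2 * π) := fun θ => by
    show f (circleMap z ρ (θ + 2 * π)) = f (circleMap z ρ θ)
    rw [periodic_circleMap z ρ θ]
  have h3 : ∫ θ in (-π)..π, f (circleMap z ρ θ) = (2 * π : ℝ) • f z := by
    have h4 := hper.intervalIntegral_add_eq (-π) 0
    rw [show -π + 2 * π = π by ring, zero_add] at h4
    rw [h4, ← h1, Real.circleAverage_def, smul_smul, mul_inv_cancel₀ (by positivity), one_smul]
  have h4 : ‖(2 * π : ℝ) • f z‖ₑ = ENNReal.ofReal (2 * π) * ‖f z‖ₑ := by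
    rw [enorm_smul, Real.enorm_eq_ofReal (by positivity)]
  rw [← h4, ← h3, intervalIntegral.integral_of_le (by linarith [Real.pi_pos]),
    ← restrict_Ioo_eq_restrict_Ioc]
  simp_rw [← h2]
  exact enorm_integral_le_lintegral_enorm _

/-- the mean value inequality over a disc -/
theorem B1_point {f : ℂ → ℂ} {z : ℂ} {r : ℝ} (hr : 0 < r) (hf : DifferentiableOn ℂ f (ball z r)) :
    ENNReal.ofReal (π * r ^ 2) * ‖f z‖ₑ ≤ ∫⁻ w in ball z r, ‖f w‖ₑ := by
  classical
  obtain ⟨h, hh⟩ : ∃ h : ℂ → ℝ≥0∞, h = (ball (0 : ℂ) r).indicator (fun w => ‖f (z + w)‖ₑ) :=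
    ⟨_, rfl⟩
  have h1 : ∫⁻ w in ball z r, ‖f w‖ₑ = ∫⁻ w, h w := by
    rw [← lintegral_indicator measurableSet_ball, ← lintegral_add_left_eq_self _ z]
    refine lintegral_congr fun w => ?_
    rw [hh]
    by_cases hw : w ∈ ball (0 : ℂ) r
    · have hw' : z + w ∈ ball z r := by
        rw [mem_ball_zero_iff] at hw
        rwa [mem_ball, dist_eq_norm, add_sub_cancel_left]
      rw [indicator_of_mem hw, indicator_of_mem hw']
    · have hw' : z + w ∉ ball z r := by
        rw [mem_ball_zero_iff] at hw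
        rwa [mem_ball, dist_eq_norm, add_sub_cancel_left]
      rw [indicator_of_notMem hw, indicator_of_notMem hw']
  have hm : Measurable h := by
    rw [hh, ← piecewise_eq_indicator]
    refine ContinuousOn.measurable_piecewise ?_ continuousOn_const measurableSet_ball
    refine ContinuousOn.enorm ?_
    refine hf.continuousOn.comp (by fun_prop) ?_
    intro w hw
    rw [mem_ball_zero_iff] at hw
    rwa [mem_ball, dist_eq_norm, add_sub_cancel_left]
  rw [h1, ← Complex.lintegral_comp_polarCoord_symm, polarCoord_target, Measure.volume_eq_prod,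
    ← Measure.prod_restrict, lintegral_prod]
  · have h2 : ∀ ρ ∈ Ioo 0 r, ENNReal.ofReal ρ * (ENNReal.ofReal (2 * π) * ‖f z‖ₑ) ≤
        ∫⁻ θ in Ioo (-π) π, ENNReal.ofReal (ρ, θ).1 • h (Complex.polarCoord.symm (ρ, θ)) := by
      intro ρ hρ
      simp only [smul_eq_mul]
      rw [lintegral_const_mul' _ _ ENNReal.ofReal_ne_top]
      gcongr
      refine (B1_circle hρ.1 hρ.2 hf).trans (le_of_eq ?_)
      refine setLIntegral_congr_fun measurableSet_Ioo fun θ _ => ?_
      rw [Complex.polarCoord_symm_apply, hh, indicator_of_mem]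
      rw [mem_ball_zero_iff]
      have h5 : (Real.cos θ + Real.sin θ * Complex.I : ℂ) = Complex.exp (θ * Complex.I) := by
        rw [Complex.exp_mul_I, Complex.ofReal_cos, Complex.ofReal_sin]
      rw [h5, norm_mul, Complex.norm_exp_ofReal_mul_I, mul_one, Complex.norm_real,
        Real.norm_of_nonneg hρ.1.le]
      exact hρ.2
    calc ENNReal.ofReal (π * r ^ 2) * ‖f z‖ₑ
        = ∫⁻ ρ in Ioo 0 r, ENNReal.ofReal ρ * (ENNReal.ofReal (2 * π) * ‖f z‖ₑ) := by
          rw [lintegral_mul_const _ (by fun_prop)]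
          have h6 : ∫⁻ ρ in Ioo 0 r, ENNReal.ofReal ρ = ENNReal.ofReal (r ^ 2 / 2) := by
            rw [← ofReal_integral_eq_lintegral_ofReal]
            · rw [← integral_Ioc_eq_integral_Ioo, ← intervalIntegral.integral_of_le hr.le,
                integral_id]
              congr 1
              ring
            · exact (continuous_id.integrableOn_Icc (a := 0) (b := r)).mono_set Ioo_subset_Icc_self
            · refine (ae_restrict_iff' measurableSet_Ioo).2 (ae_of_all _ fun x hx => hx.1.le)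
          rw [h6, ← mul_assoc, ← ENNReal.ofReal_mul (by positivity)]
          congr 2
          ring
      _ ≤ ∫⁻ ρ in Ioo 0 r, ∫⁻ θ in Ioo (-π) π,
          ENNReal.ofReal (ρ, θ).1 • h (Complex.polarCoord.symm (ρ, θ)) :=
          setLIntegral_mono' measurableSet_Ioo h2
      _ ≤ _ := lintegral_mono_set Ioo_subset_Ioi_self
  · refine Measurable.aemeasurable ?_
    simp only [smul_eq_mul, Complex.polarCoord_symm_apply]
    refine Measurable.mul (by fun_prop) (hm.comp ?_)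
    fun_prop

/-- the tail of an integral tends to zero -/
theorem B1_tail (k : ℂ → ℂ) (R : ℝ) (hi : ∫⁻ z in (closedBall 0 R)ᶜ, ‖k z‖ₑ ^ 2 < ∞) {ε : ℝ≥0∞}
    (hε : 0 < ε) : ∃ S : ℝ, R ≤ S ∧ ∫⁻ z in (closedBall 0 S)ᶜ, ‖k z‖ₑ ^ 2 < ε := by
  obtain ⟨ν, hν⟩ : ∃ ν : Measure ℂ,
      ν = (volume.restrict (closedBall 0 R)ᶜ).withDensity (fun z => ‖k z‖ₑ ^ 2) := ⟨_, rfl⟩
  have hms : ∀ S : ℝ, MeasurableSet (closedBall (0 : ℂ) S)ᶜ := fun S =>
    measurableSet_closedBall.compl
  have hfin : ν (closedBall 0 R)ᶜ ≠ ∞ := by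
    rw [hν, withDensity_apply _ (hms R), Measure.restrict_restrict (hms R), inter_self]
    exact hi.ne
  have hanti : Antitone fun n : ℕ => (closedBall (0 : ℂ) (R + n))ᶜ := by
    intro m n hmn
    refine compl_subset_compl.2 (closedBall_subset_closedBall ?_)
    have : (m : ℝ) ≤ n := by exact_mod_cast hmn
    linarith
  have hlim := tendsto_measure_iInter_atTop (μ := ν)
    (s := fun n : ℕ => (closedBall (0 : ℂ) (R + n))ᶜ) (fun n => (hms _).nullMeasurableSet) hanti
    ⟨0, by simpa using hfin⟩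
  have hempty : ⋂ n : ℕ, (closedBall (0 : ℂ) (R + n))ᶜ = ∅ := by
    ext w
    simp only [mem_iInter, mem_compl_iff, mem_closedBall_zero_iff, not_le, mem_empty_iff_false,
      iff_false, not_forall, not_lt]
    obtain ⟨n, hn⟩ := exists_nat_gt (‖w‖ - R)
    exact ⟨n, by linarith⟩
  rw [hempty, measure_empty] at hlim
  obtain ⟨n, hn⟩ := ((tendsto_order.1 hlim).2 ε hε).exists
  have hRn : R ≤ R + n := by
    have : (0 : ℝ) ≤ n := Nat.cast_nonneg n
    linarith
  refine ⟨R + n, hRn, lt_of_le_of_lt (le_of_eq ?_) hn⟩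
  rw [hν, Function.comp_apply, withDensity_apply _ (hms _), Measure.restrict_restrict (hms _),
    inter_eq_self_of_subset_left (compl_subset_compl.2 (closedBall_subset_closedBall hRn))]

/-- A square integrable holomorphic function near infinity is `O(|z|^(-2))`.
Proof.  Mean value property on the disc of radius `‖z‖ / 2` round `z` (or Cauchy estimates / subharmonicity of `|k|²`):
`‖k z‖² ≤ (4 / (π ‖z‖²)) ∫_{ball z (‖z‖/2)} ‖k‖²` and the integral tends to `0` as `z → ∞`, so `z k(z) → 0`.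
Hence `m(u) = k(1/u)` satisfies `m(u)/u → 0` as `u → 0`; `m(u)/u` is holomorphic in a punctured disc and bounded, so it
extends (`Complex.differentiableOn_update_limUnder_of_bddAbove`) to a holomorphic function `n` with `n(0) = 0`;
`n(u) = O(u)` near `0` and `k(z) = n(1/z)/z = O(|z|^(-2))`. -/
theorem decay (k : ℂ → ℂ) (R : ℝ) (hk : DifferentiableOn ℂ k (closedBall 0 R)ᶜ)
    (hi : ∫⁻ z in (closedBall 0 R)ᶜ, ‖k z‖ₑ ^ 2 < ∞) :
    ∃ C R' : ℝ, 0 < R' ∧ R ≤ R' ∧ ∀ z, R' < ‖z‖ → ‖k z‖ ≤ C / ‖z‖ ^ 2 := by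
  classical
  -- `z k(z)` tends to zero
  have hz : ∀ δ : ℝ, 0 < δ → ∃ S : ℝ, 0 < S ∧ ∀ z : ℂ, S < ‖z‖ → ‖k z * z‖ < δ := by
    intro δ hδ
    obtain ⟨S, hRS, hS⟩ := B1_tail k R hi (ε := ENNReal.ofReal (π / 4 * δ ^ 2))
      (ENNReal.ofReal_pos.2 (by positivity))
    refine ⟨max (2 * S) 1, lt_max_of_lt_right one_pos, fun z hz => ?_⟩
    have hz1 : 2 * S < ‖z‖ := (le_max_left _ _).trans_lt hz
    have hz2 : 1 < ‖z‖ := (le_max_right _ _).trans_lt hz
    have hsub : ball z (‖z‖ / 2) ⊆ (closedBall 0 S)ᶜ := by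
      intro w hw
      rw [mem_ball, dist_eq_norm] at hw
      rw [mem_compl_iff, mem_closedBall_zero_iff, not_le]
      have h1 : ‖z‖ ≤ ‖w‖ + ‖w - z‖ := by
        calc ‖z‖ = ‖w - (w - z)‖ := by congr 1; ring
          _ ≤ _ := norm_sub_le _ _
      linarith
    have hd : DifferentiableOn ℂ (fun w => k w ^ 2) (ball z (‖z‖ / 2)) :=
      (hk.mono (hsub.trans (compl_subset_compl.2 (closedBall_subset_closedBall hRS)))).pow 2
    have h1 := B1_point (by linarith) hd
    have h2 : ∫⁻ w in ball z (‖z‖ / 2), ‖k w ^ 2‖ₑ < ENNReal.ofReal (π / 4 * δ ^ 2) := by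
      refine lt_of_le_of_lt ?_ hS
      simp only [enorm_pow]
      exact lintegral_mono_set hsub
    have h3 := lt_of_le_of_lt h1 h2
    rw [← ofReal_norm, ← ENNReal.ofReal_mul (by positivity),
      ENNReal.ofReal_lt_ofReal_iff (by positivity), norm_pow] at h3
    have h4 : ‖k z * z‖ ^ 2 < δ ^ 2 := by
      rw [norm_mul]
      have h5 : π * (‖z‖ / 2) ^ 2 * ‖k z‖ ^ 2 = π / 4 * (‖k z‖ * ‖z‖) ^ 2 := by ring
      rw [h5] at h3
      exact lt_of_mul_lt_mul_left h3 (by positivity)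
    exact lt_of_pow_lt_pow_left₀ 2 hδ.le h4
  -- the function at infinity
  obtain ⟨g, hg⟩ : ∃ g : ℂ → ℂ, ∀ u, g u = k u⁻¹ * u⁻¹ ∨ (u = 0 ∧ g u = 0) :=
    ⟨fun u => if u = 0 then 0 else k u⁻¹ * u⁻¹, fun u => by
      by_cases h : u = 0
      · right; exact ⟨h, by simp [h]⟩
      · left; simp [h]⟩
  have hg0 : g 0 = 0 := by
    rcases hg 0 with h | h
    · rw [h, inv_zero, mul_zero]
    · exact h.2
  have hg1 : ∀ u, g u = k u⁻¹ * u⁻¹ := by
    intro u
    rcases hg u with h | ⟨rfl, h⟩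
    · exact h
    · rw [h, inv_zero, mul_zero]
  obtain ⟨R₁, hR₁⟩ : ∃ R₁ : ℝ, R₁ = max R 1 := ⟨_, rfl⟩
  have hR₁0 : 0 < R₁ := by rw [hR₁]; exact lt_max_of_lt_right one_pos
  have hcont : ContinuousAt g 0 := by
    rw [Metric.continuousAt_iff]
    intro δ hδ
    obtain ⟨S, hS0, hS⟩ := hz δ hδ
    refine ⟨S⁻¹, by positivity, fun {u} hu => ?_⟩
    rw [hg0, dist_zero_right]
    rw [dist_zero_right] at hu
    by_cases h0 : u = 0
    · rw [h0, hg0, norm_zero]
      exact hδ
    · rw [hg1]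
      apply hS
      rw [norm_inv, lt_inv_comm₀ hS0 (norm_pos_iff.2 h0)]
      exact hu
  have hdiff : DifferentiableOn ℂ g (ball 0 R₁⁻¹ \ {0}) := by
    have h1 : DifferentiableOn ℂ (fun u : ℂ => k u⁻¹ * u⁻¹) (ball 0 R₁⁻¹ \ {0}) := by
      have h2 : DifferentiableOn ℂ (fun u : ℂ => u⁻¹) (ball 0 R₁⁻¹ \ {0}) := fun u hu =>
        (differentiableAt_inv hu.2).differentiableWithinAt
      refine DifferentiableOn.mul ?_ h2
      refine hk.comp h2 ?_
      intro u hu
      have hu1 : ‖u‖ < R₁⁻¹ := by simpa using hu.1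
      have hu0 : u ≠ 0 := hu.2
      rw [mem_compl_iff, mem_closedBall_zero_iff, not_le, norm_inv]
      have h3 : R₁ < ‖u‖⁻¹ := by
        rw [lt_inv_comm₀ hR₁0 (norm_pos_iff.2 hu0)]
        exact hu1
      exact lt_of_le_of_lt (by rw [hR₁]; exact le_max_left _ _) h3
    exact h1.congr fun u _ => hg1 u
  have hd0 : DifferentiableOn ℂ g (ball 0 R₁⁻¹) :=
    (Complex.differentiableOn_compl_singleton_and_continuousAt_iff
      (ball_mem_nhds _ (by positivity))).1 ⟨hdiff, hcont⟩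
  have hd1 : DifferentiableAt ℂ g 0 := hd0.differentiableAt (ball_mem_nhds _ (by positivity))
  obtain ⟨C, hC⟩ := hd1.isBigO_sub.bound
  obtain ⟨η, hη, hη'⟩ := Metric.eventually_nhds_iff.1 hC
  refine ⟨C, max R₁ η⁻¹, lt_max_of_lt_left hR₁0,
    le_trans (by rw [hR₁]; exact le_max_left _ _) (le_max_left _ _), fun z hz => ?_⟩
  have hz0 : 0 < ‖z‖ := (lt_max_of_lt_left hR₁0).trans hz
  have hzη : ‖z⁻¹‖ < η := by
    rw [norm_inv, inv_lt_comm₀ hz0 hη]
    exact (le_max_right _ _).trans_lt hz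
  have h1 := hη' (y := z⁻¹) (by rwa [dist_zero_right])
  rw [hg0, sub_zero, sub_zero, hg1, inv_inv, norm_mul, norm_inv] at h1
  rw [le_div_iff₀ (by positivity)]
  calc ‖k z‖ * ‖z‖ ^ 2 = (‖k z‖ * ‖z‖) * ‖z‖ := by ring
    _ ≤ (C * ‖z‖⁻¹) * ‖z‖ := by gcongr
    _ = C := by rw [mul_assoc, inv_mul_cancel₀ hz0.ne', mul_one]

end Pool.Agent.H.MP_4bdd60_an
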