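import Mathlib

/-!
# MP_4bdd60_an, part I: the inverse of a holomorphic homeomorphism
-/

open Set Filter Topology Metric

namespace Pool.Agent.H.MP_4bdd60_an

/-- The zeros of the derivative of an injective holomorphic function are isolated. -/
theorem I1_isolated (f : ℂ ≃ₜ ℂ) {U : Set ℂ} (hU : IsOpen U) (hf : DifferentiableOn ℂ f U)
    {z0 : ℂ} (hz0 : z0 ∈ U) : ∀ᶠ z in 𝓝[≠] z0, deriv f z ≠ 0 := by
  have ha : AnalyticAt ℂ f z0 := hf.analyticAt (hU.mem_nhds hz0)
  rcases ha.deriv.eventually_eq_zero_or_eventually_ne_zero with h | h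
  · exfalso
    obtain ⟨r, hr, hball⟩ := Metric.eventually_nhds_iff_ball.1 (h.and (hU.mem_nhds hz0))
    have hd : DifferentiableOn ℂ f (ball z0 r) := hf.mono fun z hz => (hball z hz).2
    have hpt : z0 + (r / 2 : ℝ) ∈ ball z0 r := by
      rw [mem_ball, dist_eq_norm, add_sub_cancel_left, Complex.norm_real, Real.norm_eq_abs,
        abs_of_pos (by linarith)]
      linarith
    have h1 : f z0 = f (z0 + (r / 2 : ℝ)) :=
      Metric.isOpen_ball.is_const_of_deriv_eq_zero (convex_ball z0 r).isPreconnected hd
        (fun z hz => (hball z hz).1) (mem_ball_self hr) hpt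
    have h2 := f.injective h1
    have h3 : ((r / 2 : ℝ) : ℂ) = 0 := by
      have h4 : z0 + 0 = z0 + ((r / 2 : ℝ) : ℂ) := by rw [add_zero]; exact h2
      exact (add_left_cancel h4).symm
    have h4 : r / 2 = 0 := by exact_mod_cast h3
    linarith
  · exact h

theorem I1_at (f : ℂ ≃ₜ ℂ) {U : Set ℂ} (hU : IsOpen U) (hf : DifferentiableOn ℂ f U)
    {z : ℂ} (hz : z ∈ U) (hd : deriv f z ≠ 0) : DifferentiableAt ℂ f.symm (f z) := by
  have h1 : HasDerivAt f (deriv f z) (f.symm (f z)) := by
    rw [f.symm_apply_apply]
    exact (hf.differentiableAt (hU.mem_nhds hz)).hasDerivAt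
  exact (HasDerivAt.of_local_left_inverse f.symm.continuous.continuousAt h1 hd
    (Eventually.of_forall fun w => f.apply_symm_apply w)).differentiableAt

/-- An injective holomorphic function on an open set has nonvanishing derivative, and the inverse of a homeomorphism
of the plane which is holomorphic on an open set `U` is holomorphic on `f '' U`.
Proof.  The derivative is not identically zero near any point of `U` (otherwise `f` is constant on a disc), so its zeros
are isolated (`AnalyticAt.eventually_eq_zero_or_eventually_ne_zero`).  At points with nonzero derivative `f.symm`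
has a derivative (`HasDerivAt.of_local_left_inverse` or `HasStrictDerivAt.to_localInverse`).  So near `w0 = f z0` the
function `f.symm` is continuous and holomorphic except possibly at `w0`, hence holomorphic at `w0`
(`Complex.differentiableOn_compl_singleton_and_continuousAt_iff`).  The chain rule for `f.symm (f z) = z` gives
`f'(z) ≠ 0`. -/
theorem symm_hol (f : ℂ ≃ₜ ℂ) {U : Set ℂ} (hU : IsOpen U) (hf : DifferentiableOn ℂ f U) :
    (∀ z ∈ U, deriv f z ≠ 0) ∧ DifferentiableOn ℂ f.symm (f '' U) := by
  have hsd : ∀ z ∈ U, DifferentiableAt ℂ f.symm (f z) := by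
    intro z0 hz0
    have h1 : ∀ᶠ z in 𝓝[≠] z0, deriv f z ≠ 0 ∧ z ∈ U :=
      (I1_isolated f hU hf hz0).and (mem_nhdsWithin_of_mem_nhds (hU.mem_nhds hz0))
    have h2 : Tendsto f.symm (𝓝[≠] (f z0)) (𝓝[≠] z0) := by
      refine tendsto_nhdsWithin_iff.2 ⟨?_, ?_⟩
      · have h3 : Tendsto f.symm (𝓝 (f z0)) (𝓝 z0) := by
          have := f.symm.continuous.tendsto (f z0)
          rwa [f.symm_apply_apply] at this
        exact h3.mono_left nhdsWithin_le_nhds
      · filter_upwards [self_mem_nhdsWithin] with w hw
        intro h4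
        apply hw
        have h5 : f.symm w = z0 := h4
        rw [mem_singleton_iff, ← h5, f.apply_symm_apply]
    have h3 := h2.eventually h1
    refine (Complex.analyticAt_of_differentiable_on_punctured_nhds_of_continuousAt ?_
      f.symm.continuous.continuousAt).differentiableAt
    filter_upwards [h3] with w hw
    have h4 := I1_at f hU hf hw.2 hw.1
    rwa [f.apply_symm_apply] at h4
  refine ⟨?_, ?_⟩
  · intro z hz h0
    have h1 := (hsd z hz).hasDerivAt
    have h2 := (hf.differentiableAt (hU.mem_nhds hz)).hasDerivAt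
    have h3 := h1.comp z h2
    have h4 : (f.symm ∘ f : ℂ → ℂ) = id := by
      funext w
      exact f.symm_apply_apply w
    rw [h4, h0, mul_zero] at h3
    have h5 := h3.unique (hasDerivAt_id z)
    exact zero_ne_one h5
  · rintro _ ⟨z, hz, rfl⟩
    exact (hsd z hz).differentiableWithinAt

/-- The end of the proof: let `F` be a homeomorphism of the plane, holomorphic off `K`, such that `F ∘ f⁻¹` is
holomorphic on `f (Lᶜ)`.  If `F` is entire then `f` is holomorphic off `L`: `F.symm` is entire (`symm_hol`), so
`f.symm = F.symm ∘ (F ∘ f.symm)` is holomorphic on `f '' Lᶜ`, and `f` is holomorphic on `Lᶜ`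
(`symm_hol` for `f.symm`). -/
theorem endgame (f F : ℂ ≃ₜ ℂ) {L : Set ℂ} (hL : IsClosed L) (hF : Differentiable ℂ F)
    (hm : DifferentiableOn ℂ (fun w => F (f.symm w)) (f '' Lᶜ)) : DifferentiableOn ℂ f Lᶜ := by
  have h1 := (symm_hol F isOpen_univ hF.differentiableOn).2
  rw [image_univ, F.surjective.range_eq] at h1
  have hFs : Differentiable ℂ F.symm := differentiableOn_univ.1 h1
  have hopen : IsOpen (f '' Lᶜ) := f.isOpenMap _ hL.isOpen_compl
  have h2 : DifferentiableOn ℂ f.symm (f '' Lᶜ) := by
    have h3 : DifferentiableOn ℂ (fun w => F.symm (F (f.symm w))) (f '' Lᶜ) := fun w hw =>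
      (hFs _).comp_differentiableWithinAt w (hm w hw)
    refine h3.congr fun w _ => ?_
    rw [F.symm_apply_apply]
  have h3 := (symm_hol f.symm hopen h2).2
  rw [f.symm_symm, ← image_comp] at h3
  have h4 : (f.symm ∘ f : ℂ → ℂ) = id := by
    funext w
    exact f.symm_apply_apply w
  rw [h4, image_id] at h3
  exact h3

end Pool.Agent.H.MP_4bdd60_an
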