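import Pool.Agent.H.MP_4bdd60_an.A9
import Pool.Agent.H.MP_4bdd60_an.B1
import Pool.Agent.H.MP_4bdd60_an.I1

/-!
# MP_4bdd60_an, part A: existence of the form
-/

open Set Filter Topology Metric MeasureTheory
open scoped Real ContDiff

namespace Pool.Agent.H.MP_4bdd60_an

/-- Combine `exists_om`, `exists_k1`, `exists_k2`, `decay` (for `k1 - 1`) and `symm_hol`.  The relation
`k1 z = k2 (f z) f'(z)` holds almost everywhere on the open set `(K ∪ L)ᶜ` and both sides are continuous there, so it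
holds everywhere. -/
theorem exists_form (K L : Set ℂ) (hK : IsCompact K) (hL : IsCompact L) (f : ℂ ≃ₜ ℂ)
    (hf : DifferentiableOn ℂ f (K ∪ L)ᶜ) : ∃ k1 k2 : ℂ → ℂ, Form K L f k1 k2 := by
  have hU : IsOpen (K ∪ L)ᶜ := (hK.union hL).isClosed.isOpen_compl
  have hf' := (symm_hol f hU hf).1
  have hmem : ∀ z, z ∉ K → z ∉ L → z ∈ (K ∪ L)ᶜ := by
    intro z h1 h2 h
    rcases h with h | h
    · exact h1 h
    · exact h2 h
  have hsubK : (K ∪ L)ᶜ ⊆ Kᶜ := compl_subset_compl.2 subset_union_left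
  have hsubL : (K ∪ L)ᶜ ⊆ Lᶜ := compl_subset_compl.2 subset_union_right
  obtain ⟨s, om, R, hR, hKL, hs, hsR, hom, h1, h2⟩ := exists_om K L hK hL f hf
  obtain ⟨k1, hk1, hae1, hfin, hinf⟩ := exists_k1 K L hK hL f s om R hR hKL hs hsR hom h1
  obtain ⟨k2, hk2, hae2⟩ := exists_k2 K L hK hL f hf
    (fun z hz1 hz2 => hf' z (hmem z hz1 hz2)) s om hs hom h2
  have hrel : EqOn k1 (fun z => k2 (f z) * deriv f z) (K ∪ L)ᶜ := by
    apply MeasureTheory.Measure.eqOn_open_of_ae_eq (μ := volume) _ hU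
    · exact hk1.continuousOn.mono hsubK
    · apply ContinuousOn.mul
      · apply hk2.continuousOn.comp f.continuous.continuousOn
        intro z hz
        exact mem_image_of_mem f (hsubL hz)
      · exact (hf.deriv hU).continuousOn
    · have h3 : ∀ᵐ z ∂(volume.restrict (K ∪ L)ᶜ), gr s z - om z = k1 z :=
        ae_restrict_of_ae_restrict_of_subset hsubK hae1
      filter_upwards [h3, hae2] with z hz1 hz2
      rw [← hz1, hz2]
  have hout : ∀ z : ℂ, R < ‖z‖ → z ∉ K ∧ z ∉ L := by
    intro z hz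
    constructor
    · intro h
      have := hKL (Or.inl h)
      rw [mem_ball_zero_iff] at this
      linarith
    · intro h
      have := hKL (Or.inr h)
      rw [mem_ball_zero_iff] at this
      linarith
  have hd : DifferentiableOn ℂ (fun z => k1 z - 1) (closedBall 0 (R + 1))ᶜ := by
    apply (hk1.mono _).sub (differentiableOn_const 1)
    intro z hz
    have hz' : R + 1 < ‖z‖ := by
      rw [mem_compl_iff, mem_closedBall_zero_iff, not_le] at hz
      exact hz
    exact (hout z (by linarith)).1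
  obtain ⟨C, R', hR', hRR', hdec⟩ := decay (fun z => k1 z - 1) (R + 1) hd hinf
  refine ⟨k1, k2, hk1, hk2, ?_, hfin, C, R', hR', ?_⟩
  · intro z hz1 hz2
    exact hrel (hmem z hz1 hz2)
  · intro z hz
    have h4 := hout z (by linarith)
    exact ⟨h4.1, h4.2, hdec z hz⟩

end Pool.Agent.H.MP_4bdd60_an
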