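import Pool.Agent.H.MP_4bdd60_an.A0
import Pool.Agent.H.MP_09f213_an.CoV

/-!
# MP_4bdd60_an, part A: integrals with respect to `mu`, and change of variables
-/

open Set Filter Topology Metric MeasureTheory
open scoped ENNReal Real

namespace Pool.Agent.H.MP_4bdd60_an

theorem A2_restrict (K L : Set ℂ) (hK : IsClosed K) (f : ℂ ≃ₜ ℂ) :
    (mu K L f).restrict Kᶜ = volume.restrict Kᶜ := by
  have hm : MeasurableSet Kᶜ := hK.isOpen_compl.measurableSet
  have h2 : ((volume.restrict (f '' (K \ L))).map f.symm).restrict Kᶜ = 0 := by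
    rw [Measure.restrict_eq_zero, Measure.map_apply f.symm.continuous.measurable hm,
      Measure.restrict_apply (f.symm.continuous.measurable hm)]
    have h3 : f.symm ⁻¹' Kᶜ ∩ f '' (K \ L) = ∅ := by
      ext w
      simp only [mem_inter_iff, mem_preimage, mem_compl_iff, mem_image, mem_empty_iff_false,
        iff_false, not_and]
      rintro h1 ⟨z, hz, rfl⟩
      rw [f.symm_apply_apply] at h1
      exact h1 hz.1
    rw [h3, measure_empty]
  rw [mu, Measure.restrict_add, h2, add_zero, Measure.restrict_restrict hm, inter_self]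

/-- `f.symm` is a measurable equivalence: `lintegral_map_equiv`, and `(f.symm) w ∈ K \ L` for `w` in the image. -/
theorem lintegral_mu (K L : Set ℂ) (f : ℂ ≃ₜ ℂ) (g : ℂ → ℝ≥0∞) :
    ∫⁻ z, g z ∂(mu K L f) = (∫⁻ z in Kᶜ, g z) + ∫⁻ w in f '' (K \ L), g (f.symm w) := by
  rw [mu, lintegral_add_measure]
  congr 1
  exact lintegral_map_equiv g f.symm.toMeasurableEquiv

/-- Square integrable functions of the first kind: the second part of `mu` lives on `K`. -/
theorem memLp_ex (K L : Set ℂ) (hK : IsClosed K) (hL : IsClosed L) (f : ℂ ≃ₜ ℂ) (p : ℂ → ℂ)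
    (hp : MemLp p 2 (volume.restrict Kᶜ)) : MemLp (ex K p) 2 (mu K L f) := by
  rw [ex, memLp_indicator_iff_restrict hK.isOpen_compl.measurableSet, A2_restrict K L hK f]
  exact hp

/-- `∫ ex p conj h dmu = ∫_{Kᶜ} p conj h` (both sides are zero if not integrable). -/
theorem integral_ex (K L : Set ℂ) (hK : IsClosed K) (hL : IsClosed L) (f : ℂ ≃ₜ ℂ) (p h : ℂ → ℂ)
    (hi : IntegrableOn (fun z => p z * (starRingEnd ℂ) (h z)) Kᶜ) :
    ∫ z, ex K p z * (starRingEnd ℂ) (h z) ∂(mu K L f) = ∫ z in Kᶜ, p z * (starRingEnd ℂ) (h z) := by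
  have e : (fun z => ex K p z * (starRingEnd ℂ) (h z)) =
      Kᶜ.indicator (fun z => p z * (starRingEnd ℂ) (h z)) := by
    funext z
    by_cases hz : z ∈ Kᶜ
    · rw [ex, indicator_of_mem hz, indicator_of_mem hz]
    · rw [ex, indicator_of_notMem hz, indicator_of_notMem hz, zero_mul]
  rw [e, integral_indicator hK.isOpen_compl.measurableSet, A2_restrict K L hK f]

/-- The same with the conjugate on the other factor. -/
theorem integral_ex' (K L : Set ℂ) (hK : IsClosed K) (hL : IsClosed L) (f : ℂ ≃ₜ ℂ) (p h : ℂ → ℂ)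
    (hi : IntegrableOn (fun z => h z * (starRingEnd ℂ) (p z)) Kᶜ) :
    ∫ z, h z * (starRingEnd ℂ) (ex K p z) ∂(mu K L f) = ∫ z in Kᶜ, h z * (starRingEnd ℂ) (p z) := by
  have e : (fun z => h z * (starRingEnd ℂ) (ex K p z)) =
      Kᶜ.indicator (fun z => h z * (starRingEnd ℂ) (p z)) := by
    funext z
    by_cases hz : z ∈ Kᶜ
    · rw [ex, indicator_of_mem hz, indicator_of_mem hz]
    · rw [ex, indicator_of_notMem hz, indicator_of_notMem hz, map_zero, mul_zero]
  rw [e, integral_indicator hK.isOpen_compl.measurableSet, A2_restrict K L hK f]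

end Pool.Agent.H.MP_4bdd60_an
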