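import Pool.Agent.H.MP_4bdd60_an.A2

/-!
# MP_4bdd60_an, part A: the pull back is an isometry

`f` is holomorphic and injective on the open set `(K ∪ L)ᶜ`, so
`∫_{f(A)} g = ∫_A g(f z) |f'(z)|²` for `A` in `(K ∪ L)ᶜ` (file `CoV` of `MP_09f213_an`, or
`integral_image_eq_integral_abs_det_fderiv_smul`), and `f(Lᶜ)` is the disjoint union of `f((K ∪ L)ᶜ)` and
`f(K \ L)`.
-/

open Set Filter Topology Metric MeasureTheory
open scoped ENNReal Real

namespace Pool.Agent.H.MP_4bdd60_an

theorem A3a_union (K L : Set ℂ) (f : ℂ ≃ₜ ℂ) :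
    f '' Lᶜ = f '' (K ∪ L)ᶜ ∪ f '' (K \ L) := by
  rw [← Set.image_union]
  congr 1
  ext z
  simp only [mem_compl_iff, mem_union, mem_diff]
  tauto

theorem A3a_indicator {α : Type*} [Zero α] (K L : Set ℂ) (F : ℂ → α) (hF : ∀ z ∈ L, F z = 0) :
    Kᶜ.indicator F = ((K ∪ L)ᶜ).indicator F := by
  ext z
  by_cases hz : z ∈ (K ∪ L)ᶜ
  · rw [indicator_of_mem hz, indicator_of_mem (show z ∈ Kᶜ from fun h => hz (Or.inl h))]
  · rw [indicator_of_notMem hz]
    by_cases hz2 : z ∈ Kᶜ
    · rw [indicator_of_mem hz2]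
      apply hF
      by_contra h3
      exact hz (fun h4 => h4.elim hz2 h3)
    · rw [indicator_of_notMem hz2]

theorem A3a_null {Ψ : ℂ → ℂ} {U S : Set ℂ} (hU : IsOpen U) (hΨ : DifferentiableOn ℂ Ψ U)
    (hinj : InjOn Ψ U) (hSm : MeasurableSet S) (hS0 : volume S = 0) :
    ∀ᵐ w ∂(volume.restrict U), deriv Ψ w = 0 ∨ Ψ w ∉ S := by
  have h1 := Pool.Agent.H.MP_09f213_an.lintegral_comp_holomorphic hU hΨ hinj
    (S.indicator fun _ => 1)
  have h2 : ∫⁻ z in Ψ '' U, S.indicator (fun _ => (1 : ℝ≥0∞)) z = 0 := by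
    rw [lintegral_indicator hSm]
    simp only [lintegral_const, one_mul, Measure.restrict_apply MeasurableSet.univ, univ_inter]
    rw [Measure.restrict_apply hSm]
    exact measure_mono_null inter_subset_left hS0
  rw [h2] at h1
  have hΨm : AEMeasurable Ψ (volume.restrict U) := hΨ.continuousOn.aemeasurable hU.measurableSet
  have hm : AEMeasurable (fun w => ENNReal.ofReal (‖deriv Ψ w‖ ^ 2) *
      S.indicator (fun _ => (1 : ℝ≥0∞)) (Ψ w)) (volume.restrict U) := by
    refine AEMeasurable.mul ?_ ?_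
    · exact ((measurable_deriv Ψ).norm.pow_const 2).ennreal_ofReal.aemeasurable
    · exact (measurable_const.indicator hSm).comp_aemeasurable hΨm
  rw [lintegral_eq_zero_iff' hm] at h1
  filter_upwards [h1] with w hw
  simp only [Pi.zero_apply, mul_eq_zero, ENNReal.ofReal_eq_zero] at hw
  rcases hw with hw | hw
  · left
    have h3 : ‖deriv Ψ w‖ ^ 2 = 0 := le_antisymm hw (by positivity)
    exact norm_eq_zero.1 (pow_eq_zero_iff (two_ne_zero)|>.1 h3)
  · right
    intro hmem
    rw [indicator_of_mem hmem] at hw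
    exact one_ne_zero hw

/-- The norm identity. -/
theorem lintegral_pb (K L : Set ℂ) (hK : IsClosed K) (hL : IsClosed L) (f : ℂ ≃ₜ ℂ)
    (hf : DifferentiableOn ℂ f (K ∪ L)ᶜ) (p : ℂ → ℂ) :
    ∫⁻ z, ‖pb K L f p z‖ₑ ^ 2 ∂(mu K L f) = ∫⁻ w in f '' Lᶜ, ‖p w‖ₑ ^ 2 := by
  have hUo : IsOpen (K ∪ L)ᶜ := (hK.union hL).isOpen_compl
  have hUm : MeasurableSet (K ∪ L)ᶜ := hUo.measurableSet
  have hKLm : MeasurableSet (K \ L) := hK.measurableSet.diff hL.measurableSet
  have hfe : MeasurableEmbedding f := f.measurableEmbedding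
  have hfKLm : MeasurableSet (f '' (K \ L)) := hfe.measurableSet_image.2 hKLm
  have hdisj : Disjoint (f '' (K ∪ L)ᶜ) (f '' (K \ L)) := by
    rw [Set.disjoint_image_iff f.injective, Set.disjoint_left]
    intro z hz hz'
    exact hz (Or.inl hz'.1)
  have hL0 : ∀ z ∈ L, ‖pb K L f p z‖ₑ ^ 2 = 0 := by
    intro z hz
    simp only [pb, if_pos hz, enorm_zero]
    norm_num
  rw [lintegral_mu, A3a_union K L f, lintegral_union hfKLm hdisj]
  congr 1
  · rw [← lintegral_indicator hK.isOpen_compl.measurableSet,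
      A3a_indicator K L (fun z => ‖pb K L f p z‖ₑ ^ 2) hL0, lintegral_indicator hUm,
      ← Pool.Agent.H.MP_09f213_an.lintegral_comp_holomorphic hUo hf f.injective.injOn
        (fun w => ‖p w‖ₑ ^ 2)]
    refine setLIntegral_congr_fun hUm ?_
    intro z hz
    have hz1 : z ∉ L := fun h => hz (Or.inr h)
    have hz2 : z ∉ K := fun h => hz (Or.inl h)
    simp only [pb, if_neg hz1, if_neg hz2]
    rw [enorm_mul, mul_pow, mul_comm]
    congr 1
    rw [ENNReal.ofReal_pow (norm_nonneg _), ofReal_norm]
  · refine setLIntegral_congr_fun hfKLm ?_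
    rintro w ⟨z, hz, rfl⟩
    have e : pb K L f p z = p (f z) := by simp only [pb, if_neg hz.2, if_pos hz.1]
    show ‖pb K L f p (f.symm (f z))‖ₑ ^ 2 = ‖p (f z)‖ₑ ^ 2
    rw [f.symm_apply_apply, e]

/-- Measurability: `p ∘ f` is almost everywhere measurable on `(K ∪ L)ᶜ` because `f⁻¹` of a null set is a null set
there (`f` is holomorphic, its derivative vanishes on a countable set), and on `K \ L` for the transported measure
by definition. -/
theorem memLp_pb (K L : Set ℂ) (hK : IsClosed K) (hL : IsClosed L) (f : ℂ ≃ₜ ℂ)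
    (hf : DifferentiableOn ℂ f (K ∪ L)ᶜ) (p : ℂ → ℂ)
    (hp : MemLp p 2 (volume.restrict (f '' Lᶜ))) : MemLp (pb K L f p) 2 (mu K L f) := by
  have hUo : IsOpen (K ∪ L)ᶜ := (hK.union hL).isOpen_compl
  have hUm : MeasurableSet (K ∪ L)ᶜ := hUo.measurableSet
  have hKLm : MeasurableSet (K \ L) := hK.measurableSet.diff hL.measurableSet
  have hfe : MeasurableEmbedding f := f.measurableEmbedding
  have hfKLm : MeasurableSet (f '' (K \ L)) := hfe.measurableSet_image.2 hKLm
  refine ⟨?_, ?_⟩
  · rw [mu, aestronglyMeasurable_add_measure_iff]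
    constructor
    · -- the part off `K`
      have h0 : AEStronglyMeasurable p (volume.restrict (f '' (K ∪ L)ᶜ)) :=
        hp.1.mono_measure (Measure.restrict_mono
          (image_mono (compl_subset_compl.2 subset_union_right)) le_rfl)
      obtain ⟨p', hp', hpp'⟩ := h0
      have hVm : MeasurableSet (f '' (K ∪ L)ᶜ) := hfe.measurableSet_image.2 hUm
      rw [Filter.EventuallyEq, ae_restrict_iff' hVm, ae_iff] at hpp'
      set S := toMeasurable volume {w | ¬(w ∈ f '' (K ∪ L)ᶜ → p w = p' w)} with hS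
      have hSm : MeasurableSet S := measurableSet_toMeasurable _ _
      have hS0 : volume S = 0 := by rw [hS, measure_toMeasurable, hpp']
      have hnull := A3a_null hUo hf f.injective.injOn hSm hS0
      have hfm : Measurable f := f.continuous.measurable
      have hF' : AEStronglyMeasurable (fun z => p' (f z) * deriv f z)
          (volume.restrict (K ∪ L)ᶜ) :=
        ((hp'.comp_measurable hfm).mul (stronglyMeasurable_deriv f)).aestronglyMeasurable
      have hF : AEStronglyMeasurable (fun z => p (f z) * deriv f z)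
          (volume.restrict (K ∪ L)ᶜ) := by
        refine hF'.congr ?_
        filter_upwards [hnull, ae_restrict_mem hUm] with z hz hzU
        rcases hz with hz | hz
        · rw [hz, mul_zero, mul_zero]
        · have h1 : f z ∈ f '' (K ∪ L)ᶜ → p (f z) = p' (f z) := by
            by_contra hcon
            exact hz (subset_toMeasurable _ _ hcon)
          rw [h1 ⟨z, hzU, rfl⟩]
      have hL0 : ∀ z ∈ L, pb K L f p z = 0 := by
        intro z hz
        simp only [pb, if_pos hz]
      have e1 : AEStronglyMeasurable (pb K L f p) (volume.restrict (K ∪ L)ᶜ) := by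
        refine hF.congr ?_
        filter_upwards [ae_restrict_mem hUm] with z hz
        have hz1 : z ∉ L := fun h => hz (Or.inr h)
        have hz2 : z ∉ K := fun h => hz (Or.inl h)
        simp only [pb, if_neg hz1, if_neg hz2]
      rw [← aestronglyMeasurable_indicator_iff hUm,
        ← A3a_indicator K L (pb K L f p) hL0] at e1
      exact (aestronglyMeasurable_indicator_iff hK.isOpen_compl.measurableSet).1 e1
    · -- the transported part
      have hmap : (volume.restrict (f '' (K \ L))).map f.symm =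
          (volume.restrict (f '' (K \ L))).map f.symm.toMeasurableEquiv := rfl
      rw [hmap, f.symm.toMeasurableEquiv.measurableEmbedding.aestronglyMeasurable_map_iff]
      have h0 : AEStronglyMeasurable p (volume.restrict (f '' (K \ L))) :=
        hp.1.mono_measure (Measure.restrict_mono (image_mono fun z hz => hz.2) le_rfl)
      refine h0.congr ?_
      filter_upwards [ae_restrict_mem hfKLm] with w hw
      obtain ⟨z, hz, rfl⟩ := hw
      have e : pb K L f p z = p (f z) := by simp only [pb, if_neg hz.2, if_pos hz.1]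
      show p (f z) = pb K L f p (f.symm (f z))
      rw [f.symm_apply_apply, e]
  · have h1 := hp.2
    rw [eLpNorm_lt_top_iff_lintegral_rpow_enorm_lt_top (by norm_num) (by norm_num)] at h1 ⊢
    have h2 : (2 : ℝ≥0∞).toReal = 2 := by norm_num
    simp only [h2, ENNReal.rpow_two] at h1 ⊢
    rw [lintegral_pb K L hK hL f hf p]
    exact h1

end Pool.Agent.H.MP_4bdd60_an
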