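import Pool.Agent.H.MP_4bdd60_an.A2
import Pool.Agent.H.MP_4bdd60_an.A3a

/-!
# MP_4bdd60_an, part A: the pull back is an isometry

`f` is holomorphic and injective on the open set `(K ∪ L)ᶜ`, so
`∫_{f(A)} g = ∫_A g(f z) |f'(z)|²` for `A` in `(K ∪ L)ᶜ` (file `CoV` of `MP_09f213_an`, or
`integral_image_eq_integral_abs_det_fderiv_smul`), and `f(Lᶜ)` is the disjoint union of `f((K ∪ L)ᶜ)` and
`f(K \ L)`.
-/

open Set Filter Topology Metric MeasureTheory
open scoped ENNReal Real

namespace Pool.Agent.H.MP_4bdd60_an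

/-- The scalar product identity. -/
theorem integral_pb (K L : Set ℂ) (hK : IsClosed K) (hL : IsClosed L) (f : ℂ ≃ₜ ℂ)
    (hf : DifferentiableOn ℂ f (K ∪ L)ᶜ) (p q : ℂ → ℂ)
    (hi : IntegrableOn (fun w => p w * (starRingEnd ℂ) (q w)) (f '' Lᶜ)) :
    ∫ z, pb K L f p z * (starRingEnd ℂ) (pb K L f q z) ∂(mu K L f) =
      ∫ w in f '' Lᶜ, p w * (starRingEnd ℂ) (q w) := by
  classical
  set G : ℂ → ℂ := fun w => p w * (starRingEnd ℂ) (q w) with hG
  set F : ℂ → ℂ := fun z => pb K L f p z * (starRingEnd ℂ) (pb K L f q z) with hF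
  set U : Set ℂ := (K ∪ L)ᶜ with hU
  have hUo : IsOpen U := (hK.union hL).isOpen_compl
  have hUm : MeasurableSet U := hUo.measurableSet
  have hKLm : MeasurableSet (K \ L) := hK.measurableSet.diff hL.measurableSet
  have hfe : MeasurableEmbedding f := f.measurableEmbedding
  have hfUm : MeasurableSet (f '' U) := hfe.measurableSet_image.2 hUm
  have hfKLm : MeasurableSet (f '' (K \ L)) := hfe.measurableSet_image.2 hKLm
  have hdisj : Disjoint (f '' U) (f '' (K \ L)) := by
    rw [Set.disjoint_image_iff f.injective]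
    rw [Set.disjoint_left]
    intro z hz hz'
    exact hz (Or.inl hz'.1)
  have hunion : f '' Lᶜ = f '' U ∪ f '' (K \ L) := by
    rw [← Set.image_union]
    congr 1
    ext z
    simp only [hU, mem_compl_iff, mem_union, mem_diff]
    tauto
  have hinj : InjOn f U := f.injective.injOn
  have hd : ∀ w ∈ U, HasFDerivWithinAt f
      ((ContinuousLinearMap.toSpanSingleton ℂ (deriv f w)).restrictScalars ℝ) U w := by
    intro w hw
    have h1 : HasDerivAt f (deriv f w) w :=
      ((hf w hw).differentiableAt (hUo.mem_nhds hw)).hasDerivAt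
    exact (h1.hasFDerivAt.restrictScalars ℝ).hasFDerivWithinAt
  have hFU : ∀ z ∈ U,
      |((ContinuousLinearMap.toSpanSingleton ℂ (deriv f z)).restrictScalars ℝ :
        ℂ →L[ℝ] ℂ).det| • G (f z) = F z := by
    intro z hz
    have hz1 : z ∉ L := fun h => hz (Or.inr h)
    have hz2 : z ∉ K := fun h => hz (Or.inl h)
    rw [Pool.Agent.H.MP_09f213_an.det_of_mul (a := deriv f z), abs_of_nonneg (by positivity)]
    · simp only [hF, hG, pb, if_neg hz1, if_neg hz2, map_mul]
      have h2 : ((‖deriv f z‖ ^ 2 : ℝ) : ℂ) = deriv f z * (starRingEnd ℂ) (deriv f z) := by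
        rw [Complex.mul_conj, Complex.normSq_eq_norm_sq]
      rw [Complex.real_smul, h2]
      ring
    · intro x
      simp [mul_comm]
  have hFKL : ∀ z ∈ K \ L, F z = G (f z) := by
    intro z hz
    simp only [hF, hG, pb, if_neg hz.2, if_pos hz.1]
  have hFL : ∀ z ∈ L, F z = 0 := by
    intro z hz
    simp only [hF, pb, if_pos hz, zero_mul]
  rw [hunion] at hi
  have hiU : IntegrableOn G (f '' U) := hi.mono_set subset_union_left
  have hiKL : IntegrableOn G (f '' (K \ L)) := hi.mono_set subset_union_right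
  -- first part
  have hUsub : U ⊆ Kᶜ := fun z hz h => hz (Or.inl h)
  have hind : Kᶜ.indicator F = U.indicator F := by
    ext z
    by_cases hz : z ∈ U
    · rw [indicator_of_mem hz, indicator_of_mem (hUsub hz)]
    · rw [indicator_of_notMem hz]
      by_cases hz2 : z ∈ Kᶜ
      · rw [indicator_of_mem hz2]
        apply hFL
        by_contra h3
        exact hz (fun h4 => h4.elim hz2 h3)
      · rw [indicator_of_notMem hz2]
  have hiFU : IntegrableOn F U := by
    have h1 := (integrableOn_image_iff_integrableOn_abs_det_fderiv_smul volume hUm hd hinj G).1 hiU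
    exact h1.congr_fun hFU hUm
  have hiFK : IntegrableOn F Kᶜ := by
    have h1 : Integrable (U.indicator F) := (integrable_indicator_iff hUm).2 hiFU
    rw [← hind] at h1
    exact (integrable_indicator_iff hK.isOpen_compl.measurableSet).1 h1
  have hI1 : ∫ z in Kᶜ, F z = ∫ w in f '' U, G w := by
    rw [integral_image_eq_integral_abs_det_fderiv_smul volume hUm hd hinj G,
      setIntegral_congr_fun hUm hFU, ← integral_indicator hK.isOpen_compl.measurableSet, hind,
      integral_indicator hUm]
  -- second part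
  have hFs : ∀ w ∈ f '' (K \ L), F (f.symm w) = G w := by
    rintro w ⟨z, hz, rfl⟩
    rw [f.symm_apply_apply]
    exact hFKL z hz
  have hmap : (volume.restrict (f '' (K \ L))).map f.symm =
      (volume.restrict (f '' (K \ L))).map f.symm.toMeasurableEquiv := rfl
  have hI2 : ∫ z, F z ∂((volume.restrict (f '' (K \ L))).map f.symm) =
      ∫ w in f '' (K \ L), G w := by
    rw [hmap, integral_map_equiv]
    exact setIntegral_congr_fun hfKLm hFs
  have hiF2 : Integrable F ((volume.restrict (f '' (K \ L))).map f.symm) := by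
    rw [hmap, integrable_map_equiv]
    exact (integrableOn_congr_fun hFs hfKLm).2 hiKL
  rw [hunion, setIntegral_union hdisj hfKLm hiU hiKL, ← hI1, ← hI2, mu]
  exact integral_add_measure hiFK hiF2

end Pool.Agent.H.MP_4bdd60_an
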