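import Pool.Agent.H.MP_4bdd60_an.A0

/-!
# MP_4bdd60_an, part A: composition of test functions with `f`, square integrability
-/

open Set Filter Topology Metric MeasureTheory
open scoped Real ContDiff

namespace Pool.Agent.H.MP_4bdd60_an

/-- `gr` only depends on the derivative -/
theorem A4_gr_zero {u : ℂ → ℝ} {z : ℂ} (h : u =ᶠ[𝓝 z] fun _ => 0) : gr u z = 0 := by
  have h1 : fderiv ℝ u z = 0 := by
    rw [h.fderiv_eq]
    exact fderiv_const_apply (0 : ℝ)
  apply Complex.ext
  · show fderiv ℝ u z 1 = 0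
    rw [h1]
    rfl
  · show -fderiv ℝ u z Complex.I = 0
    rw [h1]
    exact neg_zero

/-- `gr u` of a test function is continuous with compact support inside the open set. -/
theorem gr_test {U : Set ℂ} {u : ℂ → ℝ} (hu : Test U u) :
    Continuous (gr u) ∧ HasCompactSupport (gr u) ∧ ∀ z, z ∉ tsupport u → gr u z = 0 := by
  have h0 : ∀ z, z ∉ tsupport u → gr u z = 0 := fun z hz =>
    A4_gr_zero (notMem_tsupport_iff_eventuallyEq.1 hz)
  have hc : Continuous (fderiv ℝ u) := hu.smooth.continuous_fderiv (by simp)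
  refine ⟨?_, HasCompactSupport.intro hu.cpt h0, h0⟩
  have h1 : gr u = fun z => ((fderiv ℝ u z 1 : ℝ) : ℂ) +
      ((-fderiv ℝ u z Complex.I : ℝ) : ℂ) * Complex.I := by
    funext z
    exact (Complex.mk_eq_add_mul_I _ _)
  rw [h1]
  have h2 : Continuous fun z => fderiv ℝ u z 1 := hc.clm_apply continuous_const
  have h3 : Continuous fun z => fderiv ℝ u z Complex.I := hc.clm_apply continuous_const
  exact (Complex.continuous_ofReal.comp h2).add
    ((Complex.continuous_ofReal.comp h3.neg).mul continuous_const)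

/-- linearity -/
theorem gr_add {u v : ℂ → ℝ} {z : ℂ} (hu : DifferentiableAt ℝ u z) (hv : DifferentiableAt ℝ v z) :
    gr (fun y => u y + v y) z = gr u z + gr v z := by
  have h : fderiv ℝ (fun y => u y + v y) z = fderiv ℝ u z + fderiv ℝ v z := fderiv_fun_add hu hv
  apply Complex.ext
  · show fderiv ℝ (fun y => u y + v y) z 1 = fderiv ℝ u z 1 + fderiv ℝ v z 1
    rw [h]
    rfl
  · show -fderiv ℝ (fun y => u y + v y) z Complex.I =
      -fderiv ℝ u z Complex.I + -fderiv ℝ v z Complex.I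
    rw [h]
    show -(fderiv ℝ u z Complex.I + fderiv ℝ v z Complex.I) = _
    ring

/-- linearity -/
theorem gr_smul (c : ℝ) (u : ℂ → ℝ) (z : ℂ) : gr (fun y => c * u y) z = (c : ℂ) * gr u z := by
  have h : fderiv ℝ (fun y => c * u y) z = c • fderiv ℝ u z := by
    have h1 : fderiv ℝ (c • u) z = c • fderiv ℝ u z := by
      rw [fderiv_const_smul_field]
      rfl
    exact h1
  apply Complex.ext
  · show fderiv ℝ (fun y => c * u y) z 1 = ((c : ℂ) * gr u z).re
    rw [h, Complex.re_ofReal_mul]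
    rfl
  · show -fderiv ℝ (fun y => c * u y) z Complex.I = ((c : ℂ) * gr u z).im
    rw [h, Complex.im_ofReal_mul]
    show -(c * fderiv ℝ u z Complex.I) = c * -fderiv ℝ u z Complex.I
    ring

/-- the chain rule for `gr` -/
theorem A4_chain {u : ℂ → ℝ} {f : ℂ → ℂ} {z d : ℂ} (hu : DifferentiableAt ℝ u (f z))
    (hf : HasDerivAt f d z) : gr (fun y => u (f y)) z = gr u (f z) * d := by
  have h1 : HasFDerivAt (𝕜 := ℝ) (fun y => u (f y))
      ((fderiv ℝ u (f z)).comp ((ContinuousLinearMap.toSpanSingleton ℂ d).restrictScalars ℝ)) z :=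
    hu.hasFDerivAt.comp z (hf.hasFDerivAt.restrictScalars ℝ)
  have h2 : ∀ v : ℂ, fderiv ℝ (fun y => u (f y)) z v = fderiv ℝ u (f z) (v * d) := by
    intro v
    rw [h1.fderiv]
    rfl
  have h3 : ∀ v : ℂ, fderiv ℝ u (f z) v =
      v.re * fderiv ℝ u (f z) 1 + v.im * fderiv ℝ u (f z) Complex.I := by
    intro v
    have h4 : v = v.re • (1 : ℂ) + v.im • Complex.I := by
      apply Complex.ext <;> simp
    conv_lhs => rw [h4]
    rw [map_add, map_smul, map_smul]
    rfl
  apply Complex.ext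
  · show fderiv ℝ (fun y => u (f y)) z 1 = (gr u (f z) * d).re
    rw [h2, h3, one_mul, Complex.mul_re (gr u (f z)) d]
    show _ = fderiv ℝ u (f z) 1 * d.re - -fderiv ℝ u (f z) Complex.I * d.im
    ring
  · show -fderiv ℝ (fun y => u (f y)) z Complex.I = (gr u (f z) * d).im
    have h5 : (Complex.I * d).re = -d.im := by simp
    have h6 : (Complex.I * d).im = d.re := by simp
    rw [h2, h3, h5, h6, Complex.mul_im (gr u (f z)) d]
    show _ = fderiv ℝ u (f z) 1 * d.im + -fderiv ℝ u (f z) Complex.I * d.re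
    ring

/-- `u ∘ f` for a test function `u` of `f '' Lᶜ`: it vanishes near `L` (the inverse image of the support of `u`
is a compact set disjoint from `L`), and is smooth on `(K ∪ L)ᶜ` because `f` is holomorphic there; its support is
compact.  Chain rule for `gr`: for `u` real and `f` holomorphic at `z`, `gr (u ∘ f) z = gr u (f z) * f'(z)`. -/
theorem comp_test (K L : Set ℂ) (hK : IsClosed K) (hL : IsClosed L) (f : ℂ ≃ₜ ℂ)
    (hf : DifferentiableOn ℂ f (K ∪ L)ᶜ) {u : ℂ → ℝ} (hu : Test (f '' Lᶜ) u) :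
    ContDiffOn ℝ ∞ (fun z => u (f z)) Kᶜ ∧ HasCompactSupport (fun z => u (f z)) ∧
      (∀ z ∈ L, ∀ᶠ y in 𝓝 z, u (f y) = 0) ∧
      (∀ z, z ∉ K → gr (fun y => u (f y)) z = pb K L f (gr u) z) := by
  have hL0 : ∀ z ∈ L, ∀ᶠ y in 𝓝 z, u (f y) = 0 := by
    intro z hz
    have h1 : f z ∉ tsupport u := by
      intro h2
      obtain ⟨w, hw, hwz⟩ := hu.sub h2
      exact hw (f.injective hwz ▸ hz)
    have h3 : ∀ᶠ w in 𝓝 (f z), u w = 0 := notMem_tsupport_iff_eventuallyEq.1 h1
    exact f.continuous.continuousAt.eventually h3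
  have hopen : IsOpen (K ∪ L)ᶜ := (hK.union hL).isOpen_compl
  refine ⟨?_, hu.cpt.comp_homeomorph f, hL0, ?_⟩
  · intro z hz
    refine ContDiffAt.contDiffWithinAt ?_
    by_cases hzL : z ∈ L
    · have h0 : ContDiffAt ℝ ∞ (fun _ : ℂ => (0 : ℝ)) z := contDiffAt_const
      exact h0.congr_of_eventuallyEq (hL0 z hzL)
    · have hz' : z ∈ (K ∪ L)ᶜ := fun h => h.elim hz hzL
      have h1 : ContDiffAt ℂ ∞ f z := (hf.contDiffOn hopen).contDiffAt (hopen.mem_nhds hz')
      have h2 : ContDiffAt ℝ ∞ f z := h1.restrict_scalars ℝ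
      exact ContDiffAt.comp z hu.smooth.contDiffAt h2
  · intro z hz
    by_cases hzL : z ∈ L
    · have h1 : pb K L f (gr u) z = 0 := if_pos hzL
      rw [h1]
      exact A4_gr_zero (hL0 z hzL)
    · have h1 : pb K L f (gr u) z = gr u (f z) * deriv f z := by
        unfold pb
        rw [if_neg hzL, if_neg hz]
      have hz' : z ∈ (K ∪ L)ᶜ := fun h => h.elim hz hzL
      rw [h1]
      exact A4_chain ((hu.smooth.differentiable (by simp)) (f z))
        ((hf.differentiableAt (hopen.mem_nhds hz')).hasDerivAt)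

end Pool.Agent.H.MP_4bdd60_an
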