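import Pool.Agent.H.MP_4bdd60_an.A0

/-!
# MP_4bdd60_an, part A: the curl of a gradient
-/

open Set Filter Topology Metric MeasureTheory
open scoped Real ContDiff

namespace Pool.Agent.H.MP_4bdd60_an

theorem A5a_fd (v : ℂ → ℝ) (hv : ContDiff ℝ 2 v) (a : ℂ) :
    Differentiable ℝ (fun z => fderiv ℝ v z a) := by
  have h1 : ContDiff ℝ 1 (fderiv ℝ v) := hv.fderiv_right (by norm_num)
  exact (h1.clm_apply contDiff_const).differentiable (by norm_num)

theorem A5a_snd (v : ℂ → ℝ) (hv : ContDiff ℝ 2 v) (a b : ℂ) (z : ℂ) :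
    fderiv ℝ (fun z => fderiv ℝ v z a) z b = fderiv ℝ (fun z => fderiv ℝ v z b) z a := by
  have h1 : ContDiff ℝ 1 (fderiv ℝ v) := hv.fderiv_right (by norm_num)
  have h2 : DifferentiableAt ℝ (fderiv ℝ v) z := (h1.differentiable (by norm_num)) z
  have key : ∀ c d : ℂ, fderiv ℝ (fun z => fderiv ℝ v z c) z d = fderiv ℝ (fderiv ℝ v) z d c := by
    intro c d
    rw [fderiv_clm_apply h2 (differentiableAt_const c)]
    simp
  have hs : IsSymmSndFDerivAt ℝ v z := (hv.contDiffAt).isSymmSndFDerivAt (by simp)
  rw [key, key]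
  exact hs b a

theorem A5a_cs1 (v : ℂ → ℝ) (hvc : HasCompactSupport v) (a : ℂ) :
    HasCompactSupport (fun z => fderiv ℝ v z a) := hvc.fderiv_apply (𝕜 := ℝ) a

theorem A5a_parts (s v : ℂ → ℝ) (hs : ContDiff ℝ 2 s) (hv : ContDiff ℝ 2 v)
    (hsc : HasCompactSupport s) (hvc : HasCompactSupport v) (a b : ℂ) :
    ∫ z, fderiv ℝ s z a * fderiv ℝ v z b
      = - ∫ z, s z * fderiv ℝ (fun z => fderiv ℝ v z b) z a := by
  have hfd : Differentiable ℝ (fun z => fderiv ℝ v z b) := A5a_fd v hv b
  have hs1 : ContDiff ℝ 1 (fderiv ℝ s) := hs.fderiv_right (by norm_num)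
  have hv1 : ContDiff ℝ 1 (fderiv ℝ v) := hv.fderiv_right (by norm_num)
  have hvb : ContDiff ℝ 1 (fun z => fderiv ℝ v z b) := hv1.clm_apply contDiff_const
  have hv2 : Continuous (fun z => fderiv ℝ (fun z => fderiv ℝ v z b) z a) :=
    (hvb.continuous_fderiv (by norm_num)).clm_apply continuous_const
  have hsa : Continuous (fun z => fderiv ℝ s z a) := hs1.continuous.clm_apply continuous_const
  have i1 : Integrable (fun z => fderiv ℝ s z a * fderiv ℝ v z b) := by
    refine Continuous.integrable_of_hasCompactSupport (hsa.mul hvb.continuous) ?_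
    exact (A5a_cs1 v hvc b).mul_left
  have i2 : Integrable (fun z => s z * fderiv ℝ (fun z => fderiv ℝ v z b) z a) := by
    refine Continuous.integrable_of_hasCompactSupport (hs.continuous.mul hv2) ?_
    exact hsc.mul_right
  have i3 : Integrable (fun z => s z * fderiv ℝ v z b) := by
    refine Continuous.integrable_of_hasCompactSupport (hs.continuous.mul hvb.continuous) ?_
    exact hsc.mul_right
  have := integral_mul_fderiv_eq_neg_fderiv_mul_of_integrable (𝕜 := ℝ) (μ := volume) (v := a) i1 i2 i3
    (fun x _ => (hs.differentiable (by norm_num)) x) (fun x _ => hfd x)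
  rw [this, neg_neg]

/-- For smooth `s`, `v` on the whole plane with compact supports: `Im (gr s * conj (gr v)) = s_x v_y - s_y v_x`
is the divergence of a smooth field with compact support (`(s v_y)_x - (s v_x)_y`, second derivatives are
symmetric), so its integral is zero (`integral_mul_fderiv_eq_neg_fderiv_mul_of_integrable` or
`integral_bilinear_hasLineDerivAt_right_eq_neg_left_of_integrable`). -/
theorem curl_global (s v : ℂ → ℝ) (hs : ContDiff ℝ 2 s) (hv : ContDiff ℝ 2 v)
    (hsc : HasCompactSupport s) (hvc : HasCompactSupport v) :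
    (∫ z, gr s z * (starRingEnd ℂ) (gr v z)).im = 0 := by
  have hs1 : ContDiff ℝ 1 (fderiv ℝ s) := hs.fderiv_right (by norm_num)
  have hv1 : ContDiff ℝ 1 (fderiv ℝ v) := hv.fderiv_right (by norm_num)
  have hsa : ∀ a : ℂ, Continuous (fun z => fderiv ℝ s z a) := fun a => hs1.continuous.clm_apply continuous_const
  have hva : ∀ a : ℂ, Continuous (fun z => fderiv ℝ v z a) := fun a => hv1.continuous.clm_apply continuous_const
  have hgs : Continuous (gr s) := by
    have : gr s = fun z => ((fderiv ℝ s z 1 : ℝ) : ℂ) + ((-fderiv ℝ s z Complex.I : ℝ) : ℂ) * Complex.I := by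
      funext z; apply Complex.ext <;> simp [gr]
    rw [this]
    exact (Complex.continuous_ofReal.comp (hsa 1)).add
      ((Complex.continuous_ofReal.comp (hsa Complex.I).neg).mul continuous_const)
  have hgv : Continuous (gr v) := by
    have : gr v = fun z => ((fderiv ℝ v z 1 : ℝ) : ℂ) + ((-fderiv ℝ v z Complex.I : ℝ) : ℂ) * Complex.I := by
      funext z; apply Complex.ext <;> simp [gr]
    rw [this]
    exact (Complex.continuous_ofReal.comp (hva 1)).add
      ((Complex.continuous_ofReal.comp (hva Complex.I).neg).mul continuous_const)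
  have hgsc : HasCompactSupport (gr s) := by
    refine HasCompactSupport.intro hsc (fun z hz => ?_)
    have h0 : fderiv ℝ s z = 0 := by
      have := (hsc.fderiv (𝕜 := ℝ))
      by_contra hne
      exact hz (support_fderiv_subset ℝ (Function.mem_support.mpr hne))
    simp [gr, h0]
    rfl
  have int1 : Integrable (fun z => gr s z * (starRingEnd ℂ) (gr v z)) := by
    refine Continuous.integrable_of_hasCompactSupport (hgs.mul (Complex.continuous_conj.comp hgv)) ?_
    exact hgsc.mul_right
  have e1 : (∫ z, gr s z * (starRingEnd ℂ) (gr v z)).im = ∫ z, (gr s z * (starRingEnd ℂ) (gr v z)).im := by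
    have := (Complex.imCLM.integral_comp_comm int1)
    simpa using this.symm
  have e2 : ∀ z, (gr s z * (starRingEnd ℂ) (gr v z)).im
      = fderiv ℝ s z 1 * fderiv ℝ v z Complex.I - fderiv ℝ s z Complex.I * fderiv ℝ v z 1 := by
    intro z; simp [gr, Complex.mul_im]; ring
  rw [e1]
  simp_rw [e2]
  have j1 : Integrable (fun z => fderiv ℝ s z 1 * fderiv ℝ v z Complex.I) := by
    refine Continuous.integrable_of_hasCompactSupport ((hsa 1).mul (hva Complex.I)) ?_
    exact (A5a_cs1 s hsc 1).mul_right
  have j2 : Integrable (fun z => fderiv ℝ s z Complex.I * fderiv ℝ v z 1) := by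
    refine Continuous.integrable_of_hasCompactSupport ((hsa Complex.I).mul (hva 1)) ?_
    exact (A5a_cs1 s hsc Complex.I).mul_right
  rw [integral_sub j1 j2, A5a_parts s v hs hv hsc hvc 1 Complex.I, A5a_parts s v hs hv hsc hvc Complex.I 1]
  have : ∀ z, fderiv ℝ (fun z => fderiv ℝ v z Complex.I) z 1 = fderiv ℝ (fun z => fderiv ℝ v z 1) z Complex.I :=
    fun z => A5a_snd v hv Complex.I 1 z
  simp_rw [this]
  ring

end Pool.Agent.H.MP_4bdd60_an
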