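import Pool.Agent.H.MP_4bdd60_an.A0
import Pool.Agent.H.MP_4bdd60_an.A5a

/-!
# MP_4bdd60_an, part A: the curl of a gradient
-/

open Set Filter Topology Metric MeasureTheory
open scoped Real ContDiff

namespace Pool.Agent.H.MP_4bdd60_an

theorem A5_gr_congr (s t : ℂ → ℝ) (z : ℂ) (h : s =ᶠ[𝓝 z] t) : gr s z = gr t z := by
  unfold gr
  rw [h.fderiv_eq]

theorem A5_gr_zero (s : ℂ → ℝ) (z : ℂ) (h : ∀ᶠ y in 𝓝 z, s y = 0) : gr s z = 0 := by
  have h1 : gr s z = gr (fun _ => (0 : ℝ)) z := A5_gr_congr s (fun _ => 0) z h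
  rw [h1]
  unfold gr
  simp
  rfl

theorem A5_cut (U L : Set ℂ) (hU : IsOpen U) (hL : IsCompact L) (hLU : L ⊆ U) (c s : ℂ → ℝ)
    (hc : ContDiff ℝ ∞ c) (hc0 : ∀ x ∉ L, c x = 0) (hs : ContDiffOn ℝ ∞ s U) :
    ContDiff ℝ ∞ (fun z => c z * s z) ∧ HasCompactSupport (fun z => c z * s z) := by
  constructor
  · rw [contDiff_iff_contDiffAt]
    intro z
    by_cases hz : z ∈ U
    · exact hc.contDiffAt.mul (hs.contDiffAt (hU.mem_nhds hz))
    · have hzL : z ∈ Lᶜ := fun h => hz (hLU h)
      have h0 : (fun z => c z * s z) =ᶠ[𝓝 z] fun _ => 0 := by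
        filter_upwards [hL.isClosed.isOpen_compl.mem_nhds hzL] with y hy
        rw [hc0 y hy, zero_mul]
      exact (contDiffAt_const (c := (0 : ℝ))).congr_of_eventuallyEq h0
  · refine HasCompactSupport.intro hL (fun x hx => ?_)
    rw [hc0 x hx, zero_mul]

/-- Version on an open set: every point outside a compact subset `C` of `U` has a neighbourhood where `s = 0` or a
neighbourhood where `v = 0`.  Proof: multiply both by a smooth cut off function which is `1` near `C` and has compact
support in `U` (`exists_contDiff_tsupport_subset` or `exists_contMDiff_...`; extend by zero); near points of `C` nothing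
changes, and at the other points both products of gradients vanish. -/
theorem curl_zero (U C : Set ℂ) (hU : IsOpen U) (hC : IsCompact C) (hCU : C ⊆ U) (s v : ℂ → ℝ)
    (hs : ContDiffOn ℝ ∞ s U) (hv : ContDiffOn ℝ ∞ v U)
    (hsv : ∀ z, z ∉ C → (∀ᶠ y in 𝓝 z, s y = 0) ∨ (∀ᶠ y in 𝓝 z, v y = 0)) :
    (∫ z, gr s z * (starRingEnd ℂ) (gr v z)).im = 0 := by
  obtain ⟨L, hL, hCL, hLU⟩ := exists_compact_between hC hU hCU
  obtain ⟨c, hc1, hc0, _⟩ := exists_contMDiffMap_one_nhds_of_subset_interior
    (n := ⊤) (modelWithCornersSelf ℝ ℂ) hC.isClosed hCL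
  have hc : ContDiff ℝ ∞ c := c.contMDiff.contDiff
  have hs' := A5_cut U L hU hL hLU c s hc hc0 hs
  have hv' := A5_cut U L hU hL hLU c v hc hc0 hv
  have key := curl_global (fun z => c z * s z) (fun z => c z * v z)
    (hs'.1.of_le (by norm_cast)) (hv'.1.of_le (by norm_cast)) hs'.2 hv'.2
  rw [← key]
  congr 2
  funext z
  by_cases hz : z ∈ C
  · have h1 : ∀ᶠ x in 𝓝 z, c x = 1 := hc1.filter_mono (nhds_le_nhdsSet hz)
    have e1 : gr (fun z => c z * s z) z = gr s z := by
      apply A5_gr_congr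
      filter_upwards [h1] with y hy
      rw [hy, one_mul]
    have e2 : gr (fun z => c z * v z) z = gr v z := by
      apply A5_gr_congr
      filter_upwards [h1] with y hy
      rw [hy, one_mul]
    rw [e1, e2]
  · rcases hsv z hz with h | h
    · have e1 : gr s z = 0 := A5_gr_zero s z h
      have e2 : gr (fun z => c z * s z) z = 0 := by
        apply A5_gr_zero
        filter_upwards [h] with y hy
        rw [hy, mul_zero]
      rw [e1, e2, zero_mul, zero_mul]
    · have e1 : gr v z = 0 := A5_gr_zero v z h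
      have e2 : gr (fun z => c z * v z) z = 0 := by
        apply A5_gr_zero
        filter_upwards [h] with y hy
        rw [hy, mul_zero]
      rw [e1, e2, map_zero, mul_zero, mul_zero]

end Pool.Agent.H.MP_4bdd60_an
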