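import Pool.Agent.H.MP_4bdd60_an.A0
import Pool.Agent.H.MP_09f213_an.Weyl

/-!
# MP_4bdd60_an, part A: cut off functions; Weyl's lemma on an open set
-/

open Set Filter Topology Metric MeasureTheory
open scoped Real ContDiff

namespace Pool.Agent.H.MP_4bdd60_an

/-- `s = χ x`, `t = χ y` with a smooth function `χ`, zero on `‖z‖ ≤ R` and one on `‖z‖ ≥ R + 1`
(one minus a `ContDiffBump` at `0`). -/
theorem cutoffs (R : ℝ) (hR : 0 < R) : ∃ s t : ℂ → ℝ, ContDiff ℝ ∞ s ∧ ContDiff ℝ ∞ t ∧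
    (∀ z, ‖z‖ ≤ R → s z = 0 ∧ t z = 0) ∧ (∀ z, R + 1 ≤ ‖z‖ → s z = z.re ∧ t z = z.im) := by
  let b : ContDiffBump (0 : ℂ) := ⟨R, R + 1, hR, by linarith⟩
  have hb1 : ∀ z : ℂ, ‖z‖ ≤ R → b z = 1 := by
    intro z hz
    exact b.one_of_mem_closedBall (by simpa [b] using hz)
  have hb0 : ∀ z : ℂ, R + 1 ≤ ‖z‖ → b z = 0 := by
    intro z hz
    exact b.zero_of_le_dist (by simpa [b] using hz)
  have hbs : ContDiff ℝ ∞ (fun z : ℂ => b z) := b.contDiff
  have hre : ContDiff ℝ ∞ (fun z : ℂ => z.re) := Complex.reCLM.contDiff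
  have him : ContDiff ℝ ∞ (fun z : ℂ => z.im) := Complex.imCLM.contDiff
  refine ⟨fun z => (1 - b z) * z.re, fun z => (1 - b z) * z.im,
    (contDiff_const.sub hbs).mul hre, (contDiff_const.sub hbs).mul him, ?_, ?_⟩
  · intro z hz
    simp [hb1 z hz]
  · intro z hz
    simp [hb0 z hz]

end Pool.Agent.H.MP_4bdd60_an
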