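import Pool.Agent.H.MP_4bdd60_an.A0
import Pool.Agent.H.MP_09f213_an.Weyl
import Pool.Agent.H.MP_4bdd60_an.A6a
import Pool.Agent.H.MP_4bdd60_an.A4

/-!
# MP_4bdd60_an, part A: cut off functions; Weyl's lemma on an open set
-/

open Set Filter Topology Metric MeasureTheory
open scoped Real ContDiff

namespace Pool.Agent.H.MP_4bdd60_an

/-- real and imaginary parts of a complex test function -/
theorem A6_parts {U : Set ℂ} {φ : ℂ → ℂ} (h1 : ContDiff ℝ ((⊤ : ℕ∞) : WithTop ℕ∞) φ)
    (h2 : HasCompactSupport φ) (h3 : tsupport φ ⊆ U) :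
    Test U (fun z => (φ z).re) ∧ Test U (fun z => (φ z).im) := by
  have hre : tsupport (fun z => (φ z).re) ⊆ tsupport φ := by
    apply closure_mono
    intro z hz hz'
    exact hz (by show (φ z).re = 0; rw [hz']; rfl)
  have him : tsupport (fun z => (φ z).im) ⊆ tsupport φ := by
    apply closure_mono
    intro z hz hz'
    exact hz (by show (φ z).im = 0; rw [hz']; rfl)
  refine ⟨⟨Complex.reCLM.contDiff.comp h1, h2.of_isClosed_subset (isClosed_tsupport _) hre,
    hre.trans h3⟩, ⟨Complex.imCLM.contDiff.comp h1,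
    h2.of_isClosed_subset (isClosed_tsupport _) him, him.trans h3⟩⟩

theorem A6_dzb {φ : ℂ → ℂ} {z : ℂ} (h : DifferentiableAt ℝ φ z) :
    MP_09f213_an.dzb φ z = ((starRingEnd ℂ) (gr (fun z => (φ z).re) z) +
      Complex.I * (starRingEnd ℂ) (gr (fun z => (φ z).im) z)) / 2 := by
  have hre : ∀ v : ℂ, fderiv ℝ (fun z => (φ z).re) z v = (fderiv ℝ φ z v).re := by
    intro v
    have h1 : HasFDerivAt (fun z => (φ z).re) (Complex.reCLM ∘L fderiv ℝ φ z) z :=
      Complex.reCLM.hasFDerivAt.comp z h.hasFDerivAt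
    rw [h1.fderiv]
    rfl
  have him : ∀ v : ℂ, fderiv ℝ (fun z => (φ z).im) z v = (fderiv ℝ φ z v).im := by
    intro v
    have h1 : HasFDerivAt (fun z => (φ z).im) (Complex.imCLM ∘L fderiv ℝ φ z) z :=
      Complex.imCLM.hasFDerivAt.comp z h.hasFDerivAt
    rw [h1.fderiv]
    rfl
  unfold MP_09f213_an.dzb gr
  rw [hre, hre, him, him]
  congr 1
  apply Complex.ext
  · simp
  · simp
    ring

theorem A6_int {U : Set ℂ} {T : ℂ → ℂ} (hT : LocallyIntegrableOn T U) {v : ℂ → ℝ}
    (hv : Test U v) : Integrable (fun z => T z * (starRingEnd ℂ) (gr v z)) := by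
  have hg := gr_test hv
  have h1 : IntegrableOn (fun z => T z * (starRingEnd ℂ) (gr v z)) (tsupport v) :=
    (hT.integrableOn_compact_subset hv.sub hv.cpt).mul_continuousOn
      (Complex.continuous_conj.comp hg.1).continuousOn hv.cpt
  refine (integrableOn_iff_integrable_of_support_subset ?_).1 h1
  intro z hz
  by_contra hcon
  apply hz
  show T z * (starRingEnd ℂ) (gr v z) = 0
  rw [hg.2.2 z hcon, map_zero, mul_zero]

/-- Weyl's lemma with real test functions, on an arbitrary open set.  A complex test function is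
`v1 + i v2` with real test functions, and `dzb` of it is `(conj (gr v1) + i conj (gr v2)) / 2`; so `weyl_local`
(`MP_09f213_an.Weyl`) applies at every point of `U`.  Gluing: for each `z0 ∈ U` there are `r(z0) > 0` and `G_{z0}`; put
`k z = G_z z`.  Two of the functions agree on the intersection of the balls (almost everywhere equal continuous functions
on an open set, `Continuous.ae_eq_iff_eq`-like; the measure of nonempty open sets is positive), so `k = G_{z0}` on the
ball of `z0`; almost everywhere equality by a countable subcover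
(`TopologicalSpace.countable_cover_nhdsWithin`, or `ae_restrict_of_forall_mem`-like lemmas for Lindelöf sets). -/
theorem weyl_real {U : Set ℂ} (hU : IsOpen U) {T : ℂ → ℂ} (hT : LocallyIntegrableOn T U)
    (h : ∀ v : ℂ → ℝ, Test U v → ∫ z, T z * (starRingEnd ℂ) (gr v z) = 0) :
    ∃ k : ℂ → ℂ, DifferentiableOn ℂ k U ∧ ∀ᵐ z ∂(volume.restrict U), T z = k z := by
  classical
  have hw : ∀ φ : ℂ → ℂ, ContDiff ℝ ((⊤ : ℕ∞) : WithTop ℕ∞) φ → HasCompactSupport φ →
      tsupport φ ⊆ U → ∫ z, T z * MP_09f213_an.dzb φ z = 0 := by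
    intro φ h1 h2 h3
    obtain ⟨t1, t2⟩ := A6_parts h1 h2 h3
    have hd : ∀ z, T z * MP_09f213_an.dzb φ z =
        (1 / 2 : ℂ) * (T z * (starRingEnd ℂ) (gr (fun z => (φ z).re) z)) +
        (Complex.I / 2) * (T z * (starRingEnd ℂ) (gr (fun z => (φ z).im) z)) := by
      intro z
      rw [A6_dzb ((h1.differentiable (by simp)) z)]
      ring
    have i1 := (A6_int hT t1).const_mul (1 / 2 : ℂ)
    have i2 := (A6_int hT t2).const_mul (Complex.I / 2)
    calc ∫ z, T z * MP_09f213_an.dzb φ z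
        = ∫ z, ((1 / 2 : ℂ) * (T z * (starRingEnd ℂ) (gr (fun z => (φ z).re) z)) +
          (Complex.I / 2) * (T z * (starRingEnd ℂ) (gr (fun z => (φ z).im) z))) :=
          integral_congr_ae (Eventually.of_forall hd)
      _ = (∫ z, (1 / 2 : ℂ) * (T z * (starRingEnd ℂ) (gr (fun z => (φ z).re) z))) +
          ∫ z, (Complex.I / 2) * (T z * (starRingEnd ℂ) (gr (fun z => (φ z).im) z)) :=
          integral_add i1 i2
      _ = 0 := by
          rw [integral_const_mul, integral_const_mul, h _ t1, h _ t2, mul_zero, mul_zero, add_zero]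
  have hloc : ∀ z0 : ℂ, ∃ (r : ℝ) (G : ℂ → ℂ), z0 ∈ U → 0 < r ∧ ball z0 r ⊆ U ∧
      DifferentiableOn ℂ G (ball z0 r) ∧ ∀ᵐ z ∂(volume.restrict (ball z0 r)), T z = G z := by
    intro z0
    by_cases hz0 : z0 ∈ U
    · obtain ⟨r, h1, h2, G, h3, h4⟩ := MP_09f213_an.weyl_local hU hT hw hz0
      exact ⟨r, G, fun _ => ⟨h1, h2, h3, h4⟩⟩
    · exact ⟨0, 0, fun h => absurd h hz0⟩
  choose r G hG using hloc
  have hglue : ∀ z0 ∈ U, ∀ z ∈ ball z0 (r z0), G z z = G z0 z := by
    intro z0 hz0 z hz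
    obtain ⟨a1, a2, a3, a4⟩ := hG z0 hz0
    obtain ⟨b1, b2, b3, b4⟩ := hG z (a2 hz)
    have hB : IsOpen (ball z (r z) ∩ ball z0 (r z0)) := isOpen_ball.inter isOpen_ball
    have h1 : G z =ᵐ[volume.restrict (ball z (r z) ∩ ball z0 (r z0))] G z0 := by
      have c1 := ae_restrict_of_ae_restrict_of_subset
        (inter_subset_left : ball z (r z) ∩ ball z0 (r z0) ⊆ _) b4
      have c2 := ae_restrict_of_ae_restrict_of_subset
        (inter_subset_right : ball z (r z) ∩ ball z0 (r z0) ⊆ _) a4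
      filter_upwards [c1, c2] with y y1 y2
      rw [← y1, ← y2]
    exact Measure.eqOn_open_of_ae_eq h1 hB (b3.continuousOn.mono inter_subset_left)
      (a3.continuousOn.mono inter_subset_right) ⟨mem_ball_self b1, hz⟩
  refine ⟨fun z => G z z, ?_, ?_⟩
  · intro z0 hz0
    obtain ⟨a1, a2, a3, a4⟩ := hG z0 hz0
    have h1 : (fun z => G z z) =ᶠ[𝓝 z0] G z0 := by
      filter_upwards [isOpen_ball.mem_nhds (mem_ball_self a1)] with z hz
      exact hglue z0 hz0 z hz
    have h2 : DifferentiableAt ℂ (G z0) z0 :=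
      a3.differentiableAt (isOpen_ball.mem_nhds (mem_ball_self a1))
    exact (h2.congr_of_eventuallyEq h1).differentiableWithinAt
  · rw [ae_restrict_iff' hU.measurableSet, ae_iff]
    refine measure_null_of_locally_null _ ?_
    intro z0 hz0
    have hz0U : z0 ∈ U := by
      by_contra hcon
      exact hz0 fun h => absurd h hcon
    obtain ⟨a1, a2, a3, a4⟩ := hG z0 hz0U
    rw [ae_restrict_iff' isOpen_ball.measurableSet, ae_iff] at a4
    refine ⟨{z | ¬(z ∈ ball z0 (r z0) → T z = G z0 z)}, ?_, a4⟩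
    rw [mem_nhdsWithin]
    refine ⟨ball z0 (r z0), isOpen_ball, mem_ball_self a1, ?_⟩
    rintro z ⟨hz1, hz2⟩ hz3
    apply hz2
    intro _
    show T z = G z z
    rw [hglue z0 hz0U z hz1]
    exact hz3 hz1

end Pool.Agent.H.MP_4bdd60_an
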