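import Pool.Agent.H.MP_4bdd60_an.A3
import Pool.Agent.H.MP_4bdd60_an.A4
import Pool.Agent.H.MP_4bdd60_an.A5

/-!
# MP_4bdd60_an, part A: vanishing imaginary parts
-/

open Set Filter Topology Metric MeasureTheory
open scoped Real ContDiff

namespace Pool.Agent.H.MP_4bdd60_an

theorem A7_memLp {U : Set ℂ} {u : ℂ → ℝ} (hu : Test U u) : MemLp (gr u) 2 (volume : Measure ℂ) :=
  (gr_test hu).1.memLp_of_hasCompactSupport (gr_test hu).2.1

theorem A7_int {α : Type*} [MeasurableSpace α] {μ : Measure α} {a b : α → ℂ} (ha : MemLp a 2 μ)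
    (hb : MemLp b 2 μ) : Integrable (fun z => a z * (starRingEnd ℂ) (b z)) μ :=
  MemLp.integrable_mul ha hb.star

theorem A7_le (K L : Set ℂ) (f : ℂ ≃ₜ ℂ) : (volume : Measure ℂ).restrict Kᶜ ≤ mu K L f :=
  Measure.le_add_right le_rfl

theorem A7_memLp_ex (K L : Set ℂ) (hK : IsClosed K) (hL : IsClosed L) (f : ℂ ≃ₜ ℂ) {U : Set ℂ}
    {u : ℂ → ℝ} (hu : Test U u) : MemLp (ex K (gr u)) 2 (mu K L f) :=
  memLp_ex K L hK hL f (gr u) ((A7_memLp hu).restrict _)

theorem A7_memLp_pb (K L : Set ℂ) (hK : IsClosed K) (hL : IsClosed L) (f : ℂ ≃ₜ ℂ)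
    (hf : DifferentiableOn ℂ f (K ∪ L)ᶜ) {U : Set ℂ}
    {u : ℂ → ℝ} (hu : Test U u) : MemLp (pb K L f (gr u)) 2 (mu K L f) :=
  memLp_pb K L hK hL f hf (gr u) ((A7_memLp hu).restrict _)

/-- product of `ex (gr u)` and a function which is a gradient off `K` -/
theorem A7_ex_im (K L : Set ℂ) (hK : IsClosed K) (hL : IsClosed L) (f : ℂ ≃ₜ ℂ) {u w : ℂ → ℝ}
    (hu : Test Kᶜ u) (hw : ContDiffOn ℝ ∞ w Kᶜ) {h : ℂ → ℂ} (hh : MemLp h 2 (mu K L f))
    (he : ∀ z, z ∉ K → h z = gr w z) :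
    (∫ z, ex K (gr u) z * (starRingEnd ℂ) (h z) ∂(mu K L f)).im = 0 := by
  have hh' : MemLp h 2 ((volume : Measure ℂ).restrict Kᶜ) := hh.mono_measure (A7_le K L f)
  rw [integral_ex K L hK hL f (gr u) h (A7_int ((A7_memLp hu).restrict _) hh')]
  have h1 : ∫ z in Kᶜ, gr u z * (starRingEnd ℂ) (h z) =
      ∫ z in Kᶜ, gr u z * (starRingEnd ℂ) (gr w z) := by
    refine setIntegral_congr_fun hK.isOpen_compl.measurableSet ?_
    intro z hz
    show gr u z * (starRingEnd ℂ) (h z) = gr u z * (starRingEnd ℂ) (gr w z)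
    rw [he z hz]
  rw [h1, setIntegral_eq_integral_of_forall_compl_eq_zero (fun z hz => by
    rw [(gr_test hu).2.2 z (fun h2 => hz (hu.sub h2)), zero_mul])]
  refine curl_zero Kᶜ (tsupport u) hK.isOpen_compl hu.cpt hu.sub u w
    (hu.smooth.contDiffOn) hw ?_
  intro z hz
  exact Or.inl (notMem_tsupport_iff_eventuallyEq.1 hz)

theorem A7_ex_im' (K L : Set ℂ) (hK : IsClosed K) (hL : IsClosed L) (f : ℂ ≃ₜ ℂ) {u w : ℂ → ℝ}
    (hu : Test Kᶜ u) (hw : ContDiffOn ℝ ∞ w Kᶜ) {h : ℂ → ℂ} (hh : MemLp h 2 (mu K L f))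
    (he : ∀ z, z ∉ K → h z = gr w z) :
    (∫ z, h z * (starRingEnd ℂ) (ex K (gr u) z) ∂(mu K L f)).im = 0 := by
  have h1 := A7_ex_im K L hK hL f hu hw hh he
  have h2 : ∫ z, h z * (starRingEnd ℂ) (ex K (gr u) z) ∂(mu K L f) =
      (starRingEnd ℂ) (∫ z, ex K (gr u) z * (starRingEnd ℂ) (h z) ∂(mu K L f)) := by
    rw [← integral_conj]
    refine integral_congr_ae (Eventually.of_forall fun z => ?_)
    show h z * (starRingEnd ℂ) (ex K (gr u) z) =
      (starRingEnd ℂ) (ex K (gr u) z * (starRingEnd ℂ) (h z))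
    rw [map_mul, Complex.conj_conj, mul_comm]
  rw [h2, Complex.conj_im, h1, neg_zero]

/-- The functions `ex (gr u1) + pb (gr u2)` are square integrable for `mu`
(`gr_test`, `memLp_ex`, `memLp_pb`; continuous functions with compact support). -/
theorem memLp_pair (K L : Set ℂ) (hK : IsClosed K) (hL : IsClosed L) (f : ℂ ≃ₜ ℂ)
    (hf : DifferentiableOn ℂ f (K ∪ L)ᶜ) {u1 u2 : ℂ → ℝ} (hu1 : Test Kᶜ u1) (hu2 : Test (f '' Lᶜ) u2) :
    MemLp (fun z => ex K (gr u1) z + pb K L f (gr u2) z) 2 (mu K L f) := by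
  exact (A7_memLp_ex K L hK hL f hu1).add (A7_memLp_pb K L hK hL f hf hu2)

/-- Expand into three terms.  `⟨ex gr u1, ex gr v1 + pb gr v2⟩ = ∫_{Kᶜ} gr u1 conj (gr (v1 + v2 ∘ f))`
(`integral_ex`, `comp_test`), imaginary part zero by `curl_zero` with `U = Kᶜ`, `C = tsupport u1`;
`⟨pb gr u2, ex gr v1⟩ = ∫_{Kᶜ} gr (u2 ∘ f) conj (gr v1)`, `C = tsupport v1`;
`⟨pb gr u2, pb gr v2⟩ = ∫_{f(Lᶜ)} gr u2 conj (gr v2)` (`integral_pb`), `U = f(Lᶜ)`, `C = tsupport u2`.
Outside the support of a test function `gr` is zero, so integrals over `Kᶜ` or `f(Lᶜ)` are integrals over the plane. -/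
theorem im_pair (K L : Set ℂ) (hK : IsClosed K) (hL : IsClosed L) (f : ℂ ≃ₜ ℂ)
    (hf : DifferentiableOn ℂ f (K ∪ L)ᶜ) {u1 u2 v1 v2 : ℂ → ℝ} (hu1 : Test Kᶜ u1)
    (hu2 : Test (f '' Lᶜ) u2) (hv1 : Test Kᶜ v1) (hv2 : Test (f '' Lᶜ) v2) :
    (∫ z, (ex K (gr u1) z + pb K L f (gr u2) z) *
      (starRingEnd ℂ) (ex K (gr v1) z + pb K L f (gr v2) z) ∂(mu K L f)).im = 0 := by
  have e1 := A7_memLp_ex K L hK hL f hu1
  have e2 := A7_memLp_ex K L hK hL f hv1
  have p1 := A7_memLp_pb K L hK hL f hf hu2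
  have p2 := A7_memLp_pb K L hK hL f hf hv2
  obtain ⟨cu1, cu2, cu3, cu4⟩ := comp_test K L hK hL f hf hu2
  obtain ⟨cv1, cv2, cv3, cv4⟩ := comp_test K L hK hL f hf hv2
  have h1 := A7_ex_im K L hK hL f hu1 hv1.smooth.contDiffOn e2
    (fun z hz => indicator_of_mem (show z ∈ Kᶜ from hz) _)
  have h2 := A7_ex_im K L hK hL f hu1 cv1 p2 (fun z hz => (cv4 z hz).symm)
  have h3 := A7_ex_im' K L hK hL f hv1 cu1 p1 (fun z hz => (cu4 z hz).symm)
  have h4 : (∫ z, pb K L f (gr u2) z *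
      (starRingEnd ℂ) (pb K L f (gr v2) z) ∂(mu K L f)).im = 0 := by
    rw [integral_pb K L hK hL f hf (gr u2) (gr v2)
      (A7_int ((A7_memLp hu2).restrict _) ((A7_memLp hv2).restrict _)),
      setIntegral_eq_integral_of_forall_compl_eq_zero (fun z hz => by
        rw [(gr_test hu2).2.2 z (fun h2 => hz (hu2.sub h2)), zero_mul])]
    refine curl_zero (f '' Lᶜ) (tsupport u2) (f.isOpenMap _ hL.isOpen_compl) hu2.cpt hu2.sub u2 v2
      hu2.smooth.contDiffOn hv2.smooth.contDiffOn ?_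
    intro z hz
    exact Or.inl (notMem_tsupport_iff_eventuallyEq.1 hz)
  have hsplit : ∫ z, (ex K (gr u1) z + pb K L f (gr u2) z) *
      (starRingEnd ℂ) (ex K (gr v1) z + pb K L f (gr v2) z) ∂(mu K L f) =
      ((∫ z, ex K (gr u1) z * (starRingEnd ℂ) (ex K (gr v1) z) ∂(mu K L f)) +
        ∫ z, ex K (gr u1) z * (starRingEnd ℂ) (pb K L f (gr v2) z) ∂(mu K L f)) +
      ((∫ z, pb K L f (gr u2) z * (starRingEnd ℂ) (ex K (gr v1) z) ∂(mu K L f)) +
        ∫ z, pb K L f (gr u2) z * (starRingEnd ℂ) (pb K L f (gr v2) z) ∂(mu K L f)) := by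
    rw [← integral_add (A7_int e1 e2) (A7_int e1 p2), ← integral_add (A7_int p1 e2) (A7_int p1 p2)]
    refine Eq.trans ?_ (integral_add ((A7_int e1 e2).add (A7_int e1 p2))
      ((A7_int p1 e2).add (A7_int p1 p2)))
    refine integral_congr_ae (Eventually.of_forall fun z => ?_)
    show (ex K (gr u1) z + pb K L f (gr u2) z) *
      (starRingEnd ℂ) (ex K (gr v1) z + pb K L f (gr v2) z) =
      (ex K (gr u1) z * (starRingEnd ℂ) (ex K (gr v1) z) +
        ex K (gr u1) z * (starRingEnd ℂ) (pb K L f (gr v2) z)) +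
      (pb K L f (gr u2) z * (starRingEnd ℂ) (ex K (gr v1) z) +
        pb K L f (gr u2) z * (starRingEnd ℂ) (pb K L f (gr v2) z))
    rw [map_add]
    ring
  rw [hsplit, Complex.add_im, Complex.add_im, Complex.add_im, h1, h2, h3, h4]
  norm_num

/-- The same for a smooth function `s` vanishing near `K ∪ L` instead of the first pair:
`⟨ex gr s, ex gr v1⟩`: `curl_zero` with `C = tsupport v1`; `⟨ex gr s, pb gr v2⟩ = ∫_{Kᶜ} gr s conj (gr (v2 ∘ f))`:
`U = Kᶜ`, `C = tsupport s ∩ tsupport (v2 ∘ f)`. -/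
theorem im_cut (K L : Set ℂ) (hK : IsClosed K) (hL : IsClosed L) (f : ℂ ≃ₜ ℂ)
    (hf : DifferentiableOn ℂ f (K ∪ L)ᶜ) {s : ℂ → ℝ} (hs : ContDiff ℝ ∞ s)
    (hs0 : ∀ z ∈ K ∪ L, ∀ᶠ y in 𝓝 z, s y = 0) {v1 v2 : ℂ → ℝ} (hv1 : Test Kᶜ v1)
    (hv2 : Test (f '' Lᶜ) v2) :
    (∫ z, ex K (gr s) z *
      (starRingEnd ℂ) (ex K (gr v1) z + pb K L f (gr v2) z) ∂(mu K L f)).im = 0 := by
  -- a compact set which contains the supports of the second factor
  have hC : IsCompact (tsupport v1 ∪ f ⁻¹' tsupport v2) := by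
    refine IsCompact.union hv1.cpt ?_
    exact f.isCompact_preimage.2 hv2.cpt
  obtain ⟨R, hR, hCR⟩ : ∃ R : ℝ, 0 < R ∧ tsupport v1 ∪ f ⁻¹' tsupport v2 ⊆ ball 0 R := by
    obtain ⟨R, hR⟩ := hC.isBounded.subset_ball (0 : ℂ)
    exact ⟨max R 1, lt_max_of_lt_right one_pos, hR.trans (ball_subset_ball (le_max_left _ _))⟩
  let χ : ContDiffBump (0 : ℂ) := ⟨R, R + 1, hR, by linarith⟩
  have hχ : ∀ z ∈ ball (0 : ℂ) R, χ z = 1 := fun z hz =>
    χ.one_of_mem_closedBall (ball_subset_closedBall hz)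
  have hs' : Test Kᶜ (fun z => χ z * s z) := by
    refine ⟨χ.contDiff.mul hs, χ.hasCompactSupport.mul_right, ?_⟩
    intro z hz hzK
    refine (notMem_tsupport_iff_eventuallyEq.2 ?_) hz
    filter_upwards [hs0 z (Or.inl hzK)] with y hy
    show χ y * s y = 0
    rw [hy, mul_zero]
  have hgr : ∀ z ∈ ball (0 : ℂ) R, gr (fun z => χ z * s z) z = gr s z := by
    intro z hz
    have h1 : (fun z => χ z * s z) =ᶠ[𝓝 z] s := by
      filter_upwards [isOpen_ball.mem_nhds hz] with y hy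
      show χ y * s y = s y
      rw [hχ y hy, one_mul]
    unfold gr
    rw [h1.fderiv_eq]
  have h0 : Test (f '' Lᶜ) (fun _ => (0 : ℝ)) := by
    refine ⟨contDiff_const, HasCompactSupport.zero, ?_⟩
    intro z hz
    exfalso
    refine (notMem_tsupport_iff_eventuallyEq.2 ?_) hz
    exact Eventually.of_forall fun _ => rfl
  have hpb0 : ∀ z, pb K L f (gr fun _ => (0 : ℝ)) z = 0 := by
    intro z
    have h1 : ∀ y, gr (fun _ => (0 : ℝ)) y = 0 := fun y => (gr_test h0).2.2 y (by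
      refine notMem_tsupport_iff_eventuallyEq.2 ?_
      exact Eventually.of_forall fun _ => rfl)
    unfold pb
    rw [h1, zero_mul, ite_self, ite_self]
  have key := im_pair K L hK hL f hf hs' h0 hv1 hv2
  have heq : ∫ z, ex K (gr s) z *
      (starRingEnd ℂ) (ex K (gr v1) z + pb K L f (gr v2) z) ∂(mu K L f) =
      ∫ z, (ex K (gr fun z => χ z * s z) z + pb K L f (gr fun _ => (0 : ℝ)) z) *
      (starRingEnd ℂ) (ex K (gr v1) z + pb K L f (gr v2) z) ∂(mu K L f) := by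
    refine integral_congr_ae (Eventually.of_forall fun z => ?_)
    show ex K (gr s) z * (starRingEnd ℂ) (ex K (gr v1) z + pb K L f (gr v2) z) =
      (ex K (gr fun z => χ z * s z) z + pb K L f (gr fun _ => (0 : ℝ)) z) *
      (starRingEnd ℂ) (ex K (gr v1) z + pb K L f (gr v2) z)
    rw [hpb0, add_zero]
    by_cases hz : z ∈ ball (0 : ℂ) R
    · congr 1
      by_cases hzK : z ∈ K
      · rw [ex, ex, indicator_of_notMem (show z ∉ Kᶜ from fun h => h hzK),
          indicator_of_notMem (show z ∉ Kᶜ from fun h => h hzK)]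
      · rw [ex, ex, indicator_of_mem (show z ∈ Kᶜ from hzK), indicator_of_mem (show z ∈ Kᶜ from hzK),
          hgr z hz]
    · have hz1 : z ∉ tsupport v1 := fun h => hz (hCR (Or.inl h))
      have hz2 : f z ∉ tsupport v2 := fun h => hz (hCR (Or.inr h))
      have e1 : ex K (gr v1) z = 0 := by
        rw [ex]
        by_cases hzK : z ∈ K
        · rw [indicator_of_notMem (show z ∉ Kᶜ from fun h => h hzK)]
        · rw [indicator_of_mem (show z ∈ Kᶜ from hzK), (gr_test hv1).2.2 z hz1]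
      have e2 : pb K L f (gr v2) z = 0 := by
        unfold pb
        rw [(gr_test hv2).2.2 (f z) hz2, zero_mul, ite_self, ite_self]
      rw [e1, e2, add_zero, map_zero, mul_zero, mul_zero]
  rw [heq]
  exact key

end Pool.Agent.H.MP_4bdd60_an
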