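import Pool.Agent.H.MP_4bdd60_an.A1
import Pool.Agent.H.MP_4bdd60_an.A6
import Pool.Agent.H.MP_4bdd60_an.A7

/-!
# MP_4bdd60_an, part A: the projection
-/

open Set Filter Topology Metric MeasureTheory
open scoped Real ContDiff

namespace Pool.Agent.H.MP_4bdd60_an

/-- The elements of the real-linear space `P`. -/
noncomputable def A8_H (K L : Set ℂ) (f : ℂ ≃ₜ ℂ) (u1 u2 : ℂ → ℝ) (z : ℂ) : ℂ :=
  ex K (gr u1) z + pb K L f (gr u2) z

theorem A8_gr_zero : gr (fun _ => (0 : ℝ)) = fun _ => (0 : ℂ) := by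
  funext z
  unfold gr
  apply Complex.ext <;> simp

theorem A8_gr_cont {s : ℂ → ℝ} (hs : ContDiff ℝ ∞ s) : Continuous (gr s) := by
  have h0 : Continuous (fderiv ℝ s) := hs.continuous_fderiv (by simp)
  have h1 : Continuous fun z => fderiv ℝ s z 1 := h0.clm_apply continuous_const
  have h2 : Continuous fun z => fderiv ℝ s z Complex.I := h0.clm_apply continuous_const
  have h3 : gr s = fun z => ((fderiv ℝ s z 1 : ℝ) : ℂ) +
      ((-fderiv ℝ s z Complex.I : ℝ) : ℂ) * Complex.I := by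
    funext z
    unfold gr
    apply Complex.ext <;> simp
  rw [h3]
  exact (Complex.continuous_ofReal.comp h1).add
    ((Complex.continuous_ofReal.comp h2.neg).mul continuous_const)

theorem A8_test_zero (U : Set ℂ) : Test U (fun _ => (0 : ℝ)) := by
  refine ⟨contDiff_const, HasCompactSupport.zero, ?_⟩
  have h : tsupport (fun _ : ℂ => (0 : ℝ)) = ∅ := by
    rw [tsupport_eq_empty_iff]
    rfl
  rw [h]
  exact empty_subset _

theorem A8_test_add {U : Set ℂ} {u v : ℂ → ℝ} (hu : Test U u) (hv : Test U v) :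
    Test U (fun y => u y + v y) := by
  refine ⟨hu.smooth.add hv.smooth, hu.cpt.add hv.cpt, ?_⟩
  exact (tsupport_add u v).trans (union_subset hu.sub hv.sub)

theorem A8_test_smul {U : Set ℂ} {u : ℂ → ℝ} (c : ℝ) (hu : Test U u) :
    Test U (fun y => c * u y) := by
  refine ⟨contDiff_const.mul hu.smooth, hu.cpt.mul_left, ?_⟩
  exact (tsupport_mul_subset_right (f := fun _ : ℂ => c) (g := u)).trans hu.sub

theorem A8_diff {U : Set ℂ} {u : ℂ → ℝ} (hu : Test U u) (z : ℂ) : DifferentiableAt ℝ u z :=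
  hu.smooth.differentiable (by simp) z

theorem A8_H_add (K L : Set ℂ) (f : ℂ ≃ₜ ℂ) {U V : Set ℂ} {u1 u2 v1 v2 : ℂ → ℝ}
    (hu1 : Test U u1) (hu2 : Test V u2) (hv1 : Test U v1) (hv2 : Test V v2) :
    A8_H K L f (fun y => u1 y + v1 y) (fun y => u2 y + v2 y) =
      fun z => A8_H K L f u1 u2 z + A8_H K L f v1 v2 z := by
  funext z
  have e1 : ∀ z, gr (fun y => u1 y + v1 y) z = gr u1 z + gr v1 z := fun z =>
    gr_add (A8_diff hu1 z) (A8_diff hv1 z)
  have e2 : ∀ z, gr (fun y => u2 y + v2 y) z = gr u2 z + gr v2 z := fun z =>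
    gr_add (A8_diff hu2 z) (A8_diff hv2 z)
  unfold A8_H ex pb
  by_cases hK : z ∈ K
  · have hK' : z ∉ Kᶜ := fun h => h hK
    by_cases hL : z ∈ L
    · simp only [indicator_of_notMem hK', if_pos hL, add_zero]
    · simp only [indicator_of_notMem hK', if_neg hL, if_pos hK, e2]
      ring
  · have hK' : z ∈ Kᶜ := hK
    by_cases hL : z ∈ L
    · simp only [indicator_of_mem hK', if_pos hL, e1]
      ring
    · simp only [indicator_of_mem hK', if_neg hL, if_neg hK, e1, e2]
      ring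

theorem A8_H_smul (K L : Set ℂ) (f : ℂ ≃ₜ ℂ) (c : ℝ) (u1 u2 : ℂ → ℝ) :
    A8_H K L f (fun y => c * u1 y) (fun y => c * u2 y) =
      fun z => (c : ℂ) * A8_H K L f u1 u2 z := by
  funext z
  have e1 : ∀ z, gr (fun y => c * u1 y) z = (c : ℂ) * gr u1 z := fun z => gr_smul c u1 z
  have e2 : ∀ z, gr (fun y => c * u2 y) z = (c : ℂ) * gr u2 z := fun z => gr_smul c u2 z
  unfold A8_H ex pb
  by_cases hK : z ∈ K
  · have hK' : z ∉ Kᶜ := fun h => h hK
    by_cases hL : z ∈ L
    · simp only [indicator_of_notMem hK', if_pos hL]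
      ring
    · simp only [indicator_of_notMem hK', if_neg hL, if_pos hK, e2]
      ring
  · have hK' : z ∈ Kᶜ := hK
    by_cases hL : z ∈ L
    · simp only [indicator_of_mem hK', if_pos hL, e1]
      ring
    · simp only [indicator_of_mem hK', if_neg hL, if_neg hK, e1, e2]
      ring

theorem A8_int {μ : Measure ℂ} {g h : ℂ → ℂ} (hg : MemLp g 2 μ) (hh : MemLp h 2 μ) :
    Integrable (fun z => g z * (starRingEnd ℂ) (h z)) μ := by
  have h1 : MemLp (star h) 2 μ := hh.star
  exact hg.integrable_mul h1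

/-- `h` vanishes off a compact set. -/
theorem A8_support (K L : Set ℂ) (f : ℂ ≃ₜ ℂ) {U V : Set ℂ} {u1 u2 : ℂ → ℝ}
    (hu1 : Test U u1) (hu2 : Test V u2) :
    ∃ C : Set ℂ, IsCompact C ∧ ∀ z, z ∉ C → A8_H K L f u1 u2 z = 0 := by
  refine ⟨tsupport u1 ∪ f.symm '' tsupport u2, hu1.cpt.isCompact.union
    (hu2.cpt.isCompact.image f.symm.continuous), fun z hz => ?_⟩
  rw [mem_union, not_or] at hz
  have h1 : gr u1 z = 0 := (gr_test hu1).2.2 z hz.1
  have h2 : gr u2 (f z) = 0 := by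
    refine (gr_test hu2).2.2 (f z) fun h => hz.2 ⟨f z, h, f.symm_apply_apply z⟩
  unfold A8_H ex pb
  have e1 : Kᶜ.indicator (gr u1) z = 0 := by
    by_cases hK : z ∈ Kᶜ
    · rw [indicator_of_mem hK, h1]
    · rw [indicator_of_notMem hK]
  rw [e1, h2]
  simp

/-- Integrability of `ex (gr s) conj h`. -/
theorem A8_int_cut (K L : Set ℂ) (hK : IsClosed K) (hL : IsClosed L) (f : ℂ ≃ₜ ℂ)
    {s : ℂ → ℝ} (hs : ContDiff ℝ ∞ s) {h : ℂ → ℂ} (hh : MemLp h 2 (mu K L f))
    (hC : ∃ C : Set ℂ, IsCompact C ∧ ∀ z, z ∉ C → h z = 0) :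
    Integrable (fun z => ex K (gr s) z * (starRingEnd ℂ) (h z)) (mu K L f) := by
  obtain ⟨C, hCc, hC0⟩ := hC
  have hgc := A8_gr_cont hs
  have h1 : MemLp (C.indicator (gr s)) 2 (volume : Measure ℂ) := by
    rw [memLp_indicator_iff_restrict hCc.measurableSet]
    have hfin : IsFiniteMeasure ((volume : Measure ℂ).restrict C) :=
      ⟨by rw [Measure.restrict_apply_univ]; exact hCc.measure_lt_top⟩
    obtain ⟨B, hB⟩ := hCc.exists_bound_of_continuousOn hgc.continuousOn
    refine MemLp.of_bound hgc.aestronglyMeasurable B ?_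
    filter_upwards [self_mem_ae_restrict hCc.measurableSet] with z hz
    exact hB z hz
  have h2 : MemLp (ex K (C.indicator (gr s))) 2 (mu K L f) :=
    memLp_ex K L hK hL f _ (h1.restrict _)
  have h3 := A8_int h2 hh
  refine h3.congr (Eventually.of_forall fun z => ?_)
  by_cases hz : z ∈ C
  · have e : ex K (C.indicator (gr s)) z = ex K (gr s) z := by
      unfold ex
      by_cases hK : z ∈ Kᶜ
      · rw [indicator_of_mem hK, indicator_of_mem hK, indicator_of_mem hz]
      · rw [indicator_of_notMem hK, indicator_of_notMem hK]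
    simp only [e]
  · simp only [hC0 z hz, map_zero, mul_zero]

/-- `W = gr s - i gr t` has compact support. -/
theorem A8_W (R : ℝ) {s t : ℂ → ℝ} (hs : ContDiff ℝ ∞ s) (ht : ContDiff ℝ ∞ t)
    (hst : ∀ z, R + 1 ≤ ‖z‖ → s z = z.re ∧ t z = z.im) :
    MemLp (fun z => gr s z - Complex.I * gr t z) 2 (volume : Measure ℂ) := by
  have hc : Continuous fun z => gr s z - Complex.I * gr t z :=
    (A8_gr_cont hs).sub (continuous_const.mul (A8_gr_cont ht))
  refine hc.memLp_of_hasCompactSupport ?_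
  refine HasCompactSupport.intro (isCompact_closedBall (0 : ℂ) (R + 1)) fun z hz => ?_
  have hz' : R + 1 < ‖z‖ := by
    rw [mem_closedBall, dist_zero_right, not_le] at hz
    exact hz
  have hev : ∀ᶠ y : ℂ in 𝓝 z, R + 1 < ‖y‖ :=
    (isOpen_lt continuous_const continuous_norm).mem_nhds hz'
  have e1 : s =ᶠ[𝓝 z] fun y => Complex.reCLM y := by
    filter_upwards [hev] with y hy
    exact (hst y hy.le).1
  have e2 : t =ᶠ[𝓝 z] fun y => Complex.imCLM y := by
    filter_upwards [hev] with y hy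
    exact (hst y hy.le).2
  have h1 : fderiv ℝ s z = Complex.reCLM := by
    rw [e1.fderiv_eq]
    exact Complex.reCLM.fderiv
  have h2 : fderiv ℝ t z = Complex.imCLM := by
    rw [e2.fderiv_eq]
    exact Complex.imCLM.fderiv
  unfold gr
  rw [h1, h2]
  apply Complex.ext <;> simp

/-- The projected form `T = ex (gr s) - om`.
Proof.  Take `R` with `K ∪ L` in the ball of radius `R`, and `s`, `t` from `cutoffs R`.
`P` = the set of all `ex (gr u1) + pb (gr u2)` with test functions `u1` of `Kᶜ` and `u2` of `f '' Lᶜ`: real-linear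
(`gr_add`, `gr_smul`; `ex`, `pb` are linear in `p`), in `L²(mu)` (`memLp_pair`).
`W = gr s - i gr t` vanishes near `K ∪ L` and for `‖z‖ > R + 1`, so it is a bounded function with compact support, and
`W = ex K W` is in `L²(mu)`.  Let `om` be its projection (`real_projection`), `T = ex (gr s) - om`.
For `h ∈ P`: `Re ∫ T conj h = Re ∫ (ex (gr s) - W) conj h + Re ∫ (W - om) conj h`; the second term is zero, and
`ex (gr s) - W = i ex (gr t)`, so the first is `- Im ∫ ex (gr t) conj h = 0` by `im_cut` for `t`.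
`Im ∫ T conj h = Im ∫ ex (gr s) conj h - Im ∫ om conj h = 0` by `im_cut` for `s` and by `im_limit` with `im_pair`.
(Integrability: `ex (gr s) conj h` is integrable because `h` has bounded support and `gr s` is bounded on bounded sets:
`pb (gr u2)` vanishes off the compact set `f⁻¹ (tsupport u2)`; note `mu` may be infinite only far away.)
Apply with `h = ex (gr v)` (`u2 = 0`) and `h = pb (gr v)` (`u1 = 0`). -/
theorem exists_om (K L : Set ℂ) (hK : IsCompact K) (hL : IsCompact L) (f : ℂ ≃ₜ ℂ)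
    (hf : DifferentiableOn ℂ f (K ∪ L)ᶜ) :
    ∃ (s : ℂ → ℝ) (om : ℂ → ℂ) (R : ℝ), 0 < R ∧ K ∪ L ⊆ ball 0 R ∧ ContDiff ℝ ∞ s ∧
      (∀ z, R + 1 ≤ ‖z‖ → s z = z.re) ∧ MemLp om 2 (mu K L f) ∧
      (∀ v : ℂ → ℝ, Test Kᶜ v →
        ∫ z, (ex K (gr s) z - om z) * (starRingEnd ℂ) (ex K (gr v) z) ∂(mu K L f) = 0) ∧
      (∀ v : ℂ → ℝ, Test (f '' Lᶜ) v →
        ∫ z, (ex K (gr s) z - om z) * (starRingEnd ℂ) (pb K L f (gr v) z) ∂(mu K L f) = 0) := by
  obtain ⟨R, hR, hsub⟩ := (hK.union hL).isBounded.subset_ball_lt 0 0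
  obtain ⟨s, t, hs, ht, hst0, hst1⟩ := cutoffs R hR
  have hKc := hK.isClosed
  have hLc := hL.isClosed
  have hs0 : ∀ z ∈ K ∪ L, ∀ᶠ y in 𝓝 z, s y = 0 := by
    intro z hz
    filter_upwards [isOpen_ball.mem_nhds (hsub hz)] with y hy
    rw [mem_ball, dist_zero_right] at hy
    exact (hst0 y hy.le).1
  have ht0 : ∀ z ∈ K ∪ L, ∀ᶠ y in 𝓝 z, t y = 0 := by
    intro z hz
    filter_upwards [isOpen_ball.mem_nhds (hsub hz)] with y hy
    rw [mem_ball, dist_zero_right] at hy
    exact (hst0 y hy.le).2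
  set P : Set (ℂ → ℂ) := {g | ∃ u1 u2 : ℂ → ℝ, Test Kᶜ u1 ∧ Test (f '' Lᶜ) u2 ∧
    g = A8_H K L f u1 u2} with hPdef
  have hP : ∀ g ∈ P, MemLp g 2 (mu K L f) := by
    rintro g ⟨u1, u2, hu1, hu2, rfl⟩
    exact memLp_pair K L hKc hLc f hf hu1 hu2
  have hWv : MemLp (fun z => gr s z - Complex.I * gr t z) 2 (volume : Measure ℂ) :=
    A8_W R hs ht hst1
  have hW : MemLp (ex K fun z => gr s z - Complex.I * gr t z) 2 (mu K L f) :=
    memLp_ex K L hKc hLc f _ (hWv.restrict _)
  obtain ⟨om, hom, happ, hre⟩ := real_projection (mu K L f) P hP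
    ⟨_, _, A8_test_zero _, A8_test_zero _, by
      funext z
      unfold A8_H ex pb
      rw [A8_gr_zero]
      by_cases hzK : z ∈ Kᶜ
      · rw [indicator_of_mem hzK]
        simp
      · rw [indicator_of_notMem hzK]
        simp⟩
    (by
      rintro g ⟨u1, u2, hu1, hu2, rfl⟩ h ⟨v1, v2, hv1, hv2, rfl⟩
      exact ⟨_, _, A8_test_add hu1 hv1, A8_test_add hu2 hv2,
        (A8_H_add K L f hu1 hu2 hv1 hv2).symm⟩)
    (by
      rintro c g ⟨u1, u2, hu1, hu2, rfl⟩
      exact ⟨_, _, A8_test_smul c hu1, A8_test_smul c hu2, (A8_H_smul K L f c u1 u2).symm⟩)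
    (ex K fun z => gr s z - Complex.I * gr t z) hW
  have main : ∀ h ∈ P,
      ∫ z, (ex K (gr s) z - om z) * (starRingEnd ℂ) (h z) ∂(mu K L f) = 0 := by
    intro h hhP
    have hh := hP h hhP
    obtain ⟨v1, v2, hv1, hv2, rfl⟩ := hhP
    have hsupp := A8_support K L f hv1 hv2
    have i1 := A8_int_cut K L hKc hLc f hs hh hsupp
    have i1t := A8_int_cut K L hKc hLc f ht hh hsupp
    have i2 := A8_int hom hh
    have i3 := A8_int hW hh
    have c1 := im_cut K L hKc hLc f hf hs hs0 hv1 hv2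
    have c2 := im_cut K L hKc hLc f hf ht ht0 hv1 hv2
    have c3 : (∫ z, om z * (starRingEnd ℂ) (A8_H K L f v1 v2 z) ∂(mu K L f)).im = 0 := by
      refine im_limit (mu K L f) P hP om _ hom hh happ ?_
      rintro g ⟨u1, u2, hu1, hu2, rfl⟩
      exact im_pair K L hKc hLc f hf hu1 hu2 hv1 hv2
    have c4 := hre (A8_H K L f v1 v2) ⟨v1, v2, hv1, hv2, rfl⟩
    have e1 : ∫ z, (ex K (gr s) z - om z) * (starRingEnd ℂ) (A8_H K L f v1 v2 z) ∂(mu K L f) =
        ∫ z, ex K (gr s) z * (starRingEnd ℂ) (A8_H K L f v1 v2 z) ∂(mu K L f) -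
          ∫ z, om z * (starRingEnd ℂ) (A8_H K L f v1 v2 z) ∂(mu K L f) := by
      rw [← integral_sub i1 i2]
      exact integral_congr_ae (Eventually.of_forall fun z => by simp only [sub_mul])
    have e2 : ∫ z, (ex K (fun z => gr s z - Complex.I * gr t z) z - om z) *
        (starRingEnd ℂ) (A8_H K L f v1 v2 z) ∂(mu K L f) =
        ∫ z, ex K (gr s) z * (starRingEnd ℂ) (A8_H K L f v1 v2 z) ∂(mu K L f) -
          Complex.I * ∫ z, ex K (gr t) z * (starRingEnd ℂ) (A8_H K L f v1 v2 z) ∂(mu K L f) -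
          ∫ z, om z * (starRingEnd ℂ) (A8_H K L f v1 v2 z) ∂(mu K L f) := by
      have i12 : Integrable (fun z => ex K (gr s) z * (starRingEnd ℂ) (A8_H K L f v1 v2 z) -
          Complex.I * (ex K (gr t) z * (starRingEnd ℂ) (A8_H K L f v1 v2 z))) (mu K L f) :=
        i1.sub (i1t.const_mul _)
      rw [← integral_const_mul, ← integral_sub i1 (i1t.const_mul _), ← integral_sub i12 i2]
      refine integral_congr_ae (Eventually.of_forall fun z => ?_)
      have e3 : ex K (fun z => gr s z - Complex.I * gr t z) z =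
          ex K (gr s) z - Complex.I * ex K (gr t) z := by
        unfold ex
        by_cases hzK : z ∈ Kᶜ
        · rw [indicator_of_mem hzK, indicator_of_mem hzK, indicator_of_mem hzK]
        · rw [indicator_of_notMem hzK, indicator_of_notMem hzK, indicator_of_notMem hzK]
          simp
      simp only [e3]
      ring
    rw [e2] at c4
    have c1' : (∫ z, ex K (gr s) z * (starRingEnd ℂ) (A8_H K L f v1 v2 z) ∂(mu K L f)).im = 0 :=
      c1
    have c2' : (∫ z, ex K (gr t) z * (starRingEnd ℂ) (A8_H K L f v1 v2 z) ∂(mu K L f)).im = 0 :=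
      c2
    rw [e1]
    apply Complex.ext
    · rw [Complex.sub_re, Complex.sub_re, Complex.mul_re, Complex.I_re, Complex.I_im, c2'] at c4
      rw [Complex.sub_re, Complex.zero_re]
      linarith
    · rw [Complex.sub_im, c1', c3, sub_zero, Complex.zero_im]
  refine ⟨s, om, R, hR, hsub, hs, fun z hz => (hst1 z hz).1, hom, ?_, ?_⟩
  · intro v hv
    have h1 := main _ ⟨v, fun _ => 0, hv, A8_test_zero _, rfl⟩
    have e : A8_H K L f v (fun _ => 0) = ex K (gr v) := by
      funext z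
      unfold A8_H pb
      rw [A8_gr_zero]
      simp
    rw [e] at h1
    exact h1
  · intro v hv
    have h1 := main _ ⟨fun _ => 0, v, A8_test_zero _, hv, rfl⟩
    have e : A8_H K L f (fun _ => 0) v = pb K L f (gr v) := by
      funext z
      unfold A8_H ex
      rw [A8_gr_zero]
      by_cases hzK : z ∈ Kᶜ
      · rw [indicator_of_mem hzK, zero_add]
      · rw [indicator_of_notMem hzK, zero_add]
    rw [e] at h1
    exact h1

end Pool.Agent.H.MP_4bdd60_an
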