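import Pool.Agent.H.MP_4bdd60_an.A8

/-!
# MP_4bdd60_an, part A: the two holomorphic representatives
-/

open Set Filter Topology Metric MeasureTheory
open scoped Real ContDiff

namespace Pool.Agent.H.MP_4bdd60_an

theorem A9a_lint {μ : Measure ℂ} {g : ℂ → ℂ} (hg : MemLp g 2 μ) : ∫⁻ z, ‖g z‖ₑ ^ 2 ∂μ < ⊤ := by
  have h := (eLpNorm_lt_top_iff_lintegral_rpow_enorm_lt_top (f := g) (μ := μ) (p := 2)
    (by norm_num) (by norm_num)).1 hg.2
  simpa using h

theorem A9a_gr_one (s : ℂ → ℝ) (R : ℝ) (hsR : ∀ z : ℂ, R + 1 ≤ ‖z‖ → s z = z.re) (z : ℂ)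
    (hz : R + 1 < ‖z‖) : gr s z = 1 := by
  have hev : ∀ᶠ y : ℂ in 𝓝 z, R + 1 < ‖y‖ :=
    (isOpen_lt continuous_const continuous_norm).mem_nhds hz
  have e1 : s =ᶠ[𝓝 z] fun y => Complex.reCLM y := by
    filter_upwards [hev] with y hy
    exact hsR y hy.le
  have h1 : fderiv ℝ s z = Complex.reCLM := by
    rw [e1.fderiv_eq]
    exact Complex.reCLM.fderiv
  unfold gr
  rw [h1]
  apply Complex.ext <;> simp

/-- On `Kᶜ`: `T = gr s - om`, which is square integrable on bounded parts of `Kᶜ` (`lintegral_mu`: `om` is in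
`L²` of the area on `Kᶜ`), so integrable near every point; `weyl_real` with `integral_ex'`.  `T - 1 = -om` for
`‖z‖ > R + 1` since there `s = re` near `z` and `gr s = 1`. -/
theorem exists_k1 (K L : Set ℂ) (hK : IsCompact K) (hL : IsCompact L) (f : ℂ ≃ₜ ℂ)
    (s : ℂ → ℝ) (om : ℂ → ℂ) (R : ℝ) (hR : 0 < R) (hKL : K ∪ L ⊆ ball 0 R) (hs : ContDiff ℝ ∞ s)
    (hsR : ∀ z, R + 1 ≤ ‖z‖ → s z = z.re) (hom : MemLp om 2 (mu K L f))
    (h1 : ∀ v : ℂ → ℝ, Test Kᶜ v →
        ∫ z, (ex K (gr s) z - om z) * (starRingEnd ℂ) (ex K (gr v) z) ∂(mu K L f) = 0) :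
    ∃ k1 : ℂ → ℂ, DifferentiableOn ℂ k1 Kᶜ ∧
      (∀ᵐ z ∂(volume.restrict Kᶜ), gr s z - om z = k1 z) ∧
      (∀ r : ℝ, ∫⁻ z in Kᶜ ∩ ball 0 r, ‖k1 z‖ₑ ^ 2 < ⊤) ∧
      ∫⁻ z in (closedBall 0 (R + 1))ᶜ, ‖k1 z - 1‖ₑ ^ 2 < ⊤ := by
  have hKc := hK.isClosed
  have hLc := hL.isClosed
  have hKo : IsOpen Kᶜ := hKc.isOpen_compl
  have hgc : Continuous (gr s) := A8_gr_cont hs
  have hom' : MemLp om 2 ((volume : Measure ℂ).restrict Kᶜ) := hom.mono_measure (A7_le K L f)
  -- bounded parts
  have hbdd : ∀ (x : ℂ) (r : ℝ),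
      MemLp (fun z => gr s z - om z) 2 ((volume : Measure ℂ).restrict (Kᶜ ∩ ball x r)) := by
    intro x r
    have i1 : MemLp om 2 ((volume : Measure ℂ).restrict (Kᶜ ∩ ball x r)) :=
      hom'.mono_measure (Measure.restrict_mono inter_subset_left le_rfl)
    have i2 : MemLp (gr s) 2 ((volume : Measure ℂ).restrict (closedBall x r)) := by
      have hfin : IsFiniteMeasure ((volume : Measure ℂ).restrict (closedBall x r)) :=
        ⟨by rw [Measure.restrict_apply_univ]
            exact (isCompact_closedBall x r).measure_lt_top⟩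
      obtain ⟨B, hB⟩ := (isCompact_closedBall x r).exists_bound_of_continuousOn hgc.continuousOn
      refine MemLp.of_bound hgc.aestronglyMeasurable B ?_
      filter_upwards [self_mem_ae_restrict (measurableSet_closedBall (x := x) (ε := r))] with z hz
      exact hB z hz
    have i3 : MemLp (gr s) 2 ((volume : Measure ℂ).restrict (Kᶜ ∩ ball x r)) :=
      i2.mono_measure (Measure.restrict_mono (inter_subset_right.trans ball_subset_closedBall)
        le_rfl)
    exact i3.sub i1
  have hloc : LocallyIntegrableOn (fun z => gr s z - om z) Kᶜ := by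
    intro x hx
    refine ⟨Kᶜ ∩ ball x 1, inter_mem self_mem_nhdsWithin
      (mem_nhdsWithin_of_mem_nhds (ball_mem_nhds x one_pos)), ?_⟩
    have hfin : IsFiniteMeasure ((volume : Measure ℂ).restrict (Kᶜ ∩ ball x 1)) :=
      ⟨by
        rw [Measure.restrict_apply_univ]
        exact (measure_mono inter_subset_right).trans_lt measure_ball_lt_top⟩
    exact (hbdd x 1).integrable (by norm_num)
  obtain ⟨k, hk, hkae⟩ := weyl_real hKo hloc (by
    intro v hv
    have hvm : MemLp (gr v) 2 ((volume : Measure ℂ).restrict Kᶜ) := (A7_memLp hv).restrict _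
    have j1 : IntegrableOn (fun z => gr s z * (starRingEnd ℂ) (gr v z)) Kᶜ := by
      have hc : Continuous fun z => gr s z * (starRingEnd ℂ) (gr v z) :=
        hgc.mul (Complex.continuous_conj.comp (gr_test hv).1)
      have hcs : HasCompactSupport fun z => gr s z * (starRingEnd ℂ) (gr v z) := by
        refine HasCompactSupport.intro hv.cpt fun z hz => ?_
        rw [(gr_test hv).2.2 z hz, map_zero, mul_zero]
      exact (hc.integrable_of_hasCompactSupport hcs).integrableOn
    have j2 : IntegrableOn (fun z => om z * (starRingEnd ℂ) (gr v z)) Kᶜ := A7_int hom' hvm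
    have j3 : IntegrableOn (fun z => (gr s z - om z) * (starRingEnd ℂ) (gr v z)) Kᶜ := by
      have j4 := Integrable.sub j1 j2
      refine Integrable.congr j4 (Eventually.of_forall fun z => ?_)
      show gr s z * (starRingEnd ℂ) (gr v z) - om z * (starRingEnd ℂ) (gr v z) =
        (gr s z - om z) * (starRingEnd ℂ) (gr v z)
      ring
    have heq : ∀ z ∈ Kᶜ, (gr s z - om z) * (starRingEnd ℂ) (gr v z) =
        (ex K (gr s) z - om z) * (starRingEnd ℂ) (gr v z) := by
      intro z hz
      rw [ex, indicator_of_mem hz]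
    have j5 : IntegrableOn (fun z => (ex K (gr s) z - om z) * (starRingEnd ℂ) (gr v z)) Kᶜ :=
      j3.congr_fun heq hKo.measurableSet
    have j6 := h1 v hv
    rw [integral_ex' K L hKc hLc f (gr v) (fun z => ex K (gr s) z - om z) j5,
      ← setIntegral_congr_fun hKo.measurableSet heq,
      setIntegral_eq_integral_of_forall_compl_eq_zero (fun z hz => by
        rw [(gr_test hv).2.2 z (fun h2 => hz (hv.sub h2)), map_zero, mul_zero])] at j6
    exact j6)
  refine ⟨k, hk, hkae, ?_, ?_⟩
  · intro r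
    have h2 : MemLp k 2 ((volume : Measure ℂ).restrict (Kᶜ ∩ ball 0 r)) := by
      refine (memLp_congr_ae ?_).1 (hbdd 0 r)
      exact ae_mono (Measure.restrict_mono inter_subset_left le_rfl) hkae
    exact A9a_lint h2
  · have hsub : (closedBall (0 : ℂ) (R + 1))ᶜ ⊆ Kᶜ := by
      intro z hz hzK
      have h2 : z ∈ ball (0 : ℂ) R := hKL (Or.inl hzK)
      refine hz (ball_subset_closedBall (ball_subset_ball (by linarith) h2))
    have h3 : MemLp (fun z => k z - 1) 2
        ((volume : Measure ℂ).restrict (closedBall (0 : ℂ) (R + 1))ᶜ) := by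
      have h4 : MemLp om 2 ((volume : Measure ℂ).restrict (closedBall (0 : ℂ) (R + 1))ᶜ) :=
        hom'.mono_measure (Measure.restrict_mono hsub le_rfl)
      refine (memLp_congr_ae ?_).1 h4.neg
      have h5 : ∀ᵐ z ∂((volume : Measure ℂ).restrict (closedBall (0 : ℂ) (R + 1))ᶜ),
          gr s z - om z = k z := ae_mono (Measure.restrict_mono hsub le_rfl) hkae
      filter_upwards [h5, self_mem_ae_restrict
        (isClosed_closedBall (x := (0 : ℂ)) (ε := R + 1)).isOpen_compl.measurableSet] with z hz hz2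
      have hz3 : R + 1 < ‖z‖ := by
        rw [mem_compl_iff, mem_closedBall, dist_zero_right, not_le] at hz2
        exact hz2
      show -om z = k z - 1
      rw [← hz, A9a_gr_one s R hsR z hz3]
      ring
    exact A9a_lint h3

end Pool.Agent.H.MP_4bdd60_an
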