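import Pool.Agent.H.MP_4bdd60_an.A8
import Pool.Agent.H.MP_4bdd60_an.A9a
import Pool.Agent.H.MP_4bdd60_an.I1

/-!
# MP_4bdd60_an, part A: the two holomorphic representatives
-/

open Set Filter Topology Metric MeasureTheory
open scoped Real ContDiff

namespace Pool.Agent.H.MP_4bdd60_an

/-- the second representative before regularisation -/
noncomputable def A9_T2 (K : Set ℂ) (f : ℂ ≃ₜ ℂ) (T : ℂ → ℂ) (w : ℂ) : ℂ :=
  open Classical in
  if f.symm w ∈ K then T (f.symm w) else T (f.symm w) / deriv f (f.symm w)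

theorem A9_T2_mem {K : Set ℂ} {f : ℂ ≃ₜ ℂ} (T : ℂ → ℂ) {z : ℂ} (hz : z ∈ K) :
    A9_T2 K f T (f z) = T z := by
  unfold A9_T2
  rw [f.symm_apply_apply, if_pos hz]

theorem A9_T2_notMem {K : Set ℂ} {f : ℂ ≃ₜ ℂ} (T : ℂ → ℂ) {z : ℂ} (hz : z ∉ K) :
    A9_T2 K f T (f z) = T z / deriv f z := by
  unfold A9_T2
  rw [f.symm_apply_apply, if_neg hz]

theorem A9_pb_T2 {K L : Set ℂ} {f : ℂ ≃ₜ ℂ} (hf' : ∀ z, z ∉ K → z ∉ L → deriv f z ≠ 0)
    (T : ℂ → ℂ) {z : ℂ} (hz : z ∉ L) : pb K L f (A9_T2 K f T) z = T z := by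
  unfold pb
  rw [if_neg hz]
  by_cases hzK : z ∈ K
  · rw [if_pos hzK, A9_T2_mem T hzK]
  · rw [if_neg hzK, A9_T2_notMem T hzK, div_mul_cancel₀ _ (hf' z hzK hz)]

theorem A9_pb_mem {K L : Set ℂ} {f : ℂ ≃ₜ ℂ} (q : ℂ → ℂ) {z : ℂ} (hz : z ∈ L) :
    pb K L f q z = 0 := if_pos hz

theorem A9_mul {K L : Set ℂ} {f : ℂ ≃ₜ ℂ} (hf' : ∀ z, z ∉ K → z ∉ L → deriv f z ≠ 0)
    (T q : ℂ → ℂ) (z : ℂ) : T z * (starRingEnd ℂ) (pb K L f q z) =
      pb K L f (A9_T2 K f T) z * (starRingEnd ℂ) (pb K L f q z) := by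
  by_cases hz : z ∈ L
  · rw [A9_pb_mem q hz, map_zero, mul_zero, mul_zero]
  · rw [A9_pb_T2 hf' T hz]

theorem A9_image (K L : Set ℂ) (f : ℂ ≃ₜ ℂ) : f '' Lᶜ = f '' (K \ L) ∪ f '' (K ∪ L)ᶜ := by
  rw [← image_union]
  congr 1
  ext z
  simp only [mem_compl_iff, mem_union, Set.mem_sdiff]
  tauto

/-- the measure of the preimage of a compact set -/
theorem A9_mu_lt (K L : Set ℂ) (f : ℂ ≃ₜ ℂ) {C : Set ℂ}
    (hC : IsCompact C) : mu K L f (f ⁻¹' C) < ⊤ := by
  have hm : MeasurableSet (f ⁻¹' C) := f.continuous.measurable hC.isClosed.measurableSet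
  have hcomp : IsCompact (f ⁻¹' C) := f.isCompact_preimage.2 hC
  rw [mu, Measure.add_apply, Measure.map_apply f.symm.continuous.measurable hm]
  refine ENNReal.add_lt_top.2 ⟨?_, ?_⟩
  · exact lt_of_le_of_lt (Measure.restrict_apply_le _ _) hcomp.measure_lt_top
  · refine lt_of_le_of_lt (Measure.restrict_apply_le _ _) ?_
    have h1 : f.symm ⁻¹' (f ⁻¹' C) = C := by
      ext w
      simp
    rw [h1]
    exact hC.measure_lt_top

/-- measurability of the second representative -/
theorem A9_meas (K L : Set ℂ) (hK : IsCompact K) (hL : IsCompact L) (f : ℂ ≃ₜ ℂ)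
    (hf : DifferentiableOn ℂ f (K ∪ L)ᶜ)
    (T : ℂ → ℂ) (hT : AEStronglyMeasurable T (mu K L f)) :
    AEStronglyMeasurable (A9_T2 K f T) (volume.restrict (f '' Lᶜ)) := by
  have hopen : IsOpen (K ∪ L)ᶜ := (hK.isClosed.union hL.isClosed).isOpen_compl
  have hopen2 : IsOpen (f '' (K ∪ L)ᶜ) := f.isOpenMap _ hopen
  have hms : MeasurableSet (f '' (K \ L)) := by
    have h1 : f '' (K \ L) = f.symm ⁻¹' (K \ L) := by
      rw [f.image_eq_preimage_symm]
    rw [h1]
    exact f.symm.continuous.measurable (hK.isClosed.measurableSet.diff hL.isClosed.measurableSet)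
  rw [A9_image K L f, aestronglyMeasurable_union_iff]
  constructor
  · have h1 : AEStronglyMeasurable T ((volume.restrict (f '' (K \ L))).map f.symm) :=
      hT.mono_measure (by
        rw [mu]
        exact Measure.le_add_left le_rfl)
    have h2 := h1.comp_measurable f.symm.continuous.measurable
    refine h2.congr ?_
    filter_upwards [ae_restrict_mem hms] with w hw
    obtain ⟨z, hz, rfl⟩ := hw
    rw [A9_T2_mem T hz.1]
    simp
  · have h1 : AEStronglyMeasurable T (volume.restrict (K ∪ L)ᶜ) := by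
      refine hT.mono_measure ?_
      rw [mu]
      refine le_trans ?_ (Measure.le_add_right le_rfl)
      exact Measure.restrict_mono (compl_subset_compl.2 subset_union_left) le_rfl
    obtain ⟨T', hT', hTT'⟩ := h1
    have hs := symm_hol f hopen hf
    have hs2 : ∀ w ∈ f '' (K ∪ L)ᶜ, deriv f.symm w ≠ 0 :=
      (symm_hol f.symm hopen2 hs.2).1
    have hmaps : MapsTo f.symm (f '' (K ∪ L)ᶜ) (K ∪ L)ᶜ := by
      rintro _ ⟨z, hz, rfl⟩
      rw [f.symm_apply_apply]
      exact hz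
    have h4 := Pool.Agent.H.MP_09f213_an.ae_comp_holomorphic hopen2 hopen.measurableSet hs.2
      f.symm.injective.injOn hs2 hmaps hTT'
    have hfs : Measurable f.symm := f.symm.continuous.measurable
    have h5 : Measurable fun w => T' (f.symm w) / deriv f (f.symm w) :=
      (hT'.measurable.comp hfs).div ((measurable_deriv f).comp hfs)
    refine h5.aestronglyMeasurable.congr ?_
    filter_upwards [h4, ae_restrict_mem hopen2.measurableSet] with w hw hwU
    obtain ⟨z, hz, rfl⟩ := hwU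
    rw [A9_T2_notMem T (fun h => hz (Or.inl h)), ← hw, f.symm_apply_apply]

/-- square integrability on compact sets -/
theorem A9_L2 (K L : Set ℂ) (hK : IsCompact K) (hL : IsCompact L) (f : ℂ ≃ₜ ℂ)
    (hf : DifferentiableOn ℂ f (K ∪ L)ᶜ) (hf' : ∀ z, z ∉ K → z ∉ L → deriv f z ≠ 0)
    (T : ℂ → ℂ) (hT : AEStronglyMeasurable T (mu K L f)) {C : Set ℂ} (hC : IsCompact C)
    (hCL : C ⊆ f '' Lᶜ) (hTC : ∫⁻ z in f ⁻¹' C, ‖T z‖ₑ ^ 2 ∂(mu K L f) < ⊤) :
    MemLp (A9_T2 K f T) 2 (volume.restrict C) := by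
  have hCm : MeasurableSet C := hC.isClosed.measurableSet
  have hfCm : MeasurableSet (f ⁻¹' C) := f.continuous.measurable hCm
  refine ⟨(A9_meas K L hK hL f hf T hT).mono_measure (Measure.restrict_mono hCL le_rfl), ?_⟩
  rw [eLpNorm_lt_top_iff_lintegral_rpow_enorm_lt_top (by norm_num) (by norm_num)]
  have h1 := lintegral_pb K L hK.isClosed hL.isClosed f hf (C.indicator (A9_T2 K f T))
  have h2 : ∫⁻ w in f '' Lᶜ, ‖C.indicator (A9_T2 K f T) w‖ₑ ^ 2 =
      ∫⁻ w in C, ‖A9_T2 K f T w‖ₑ ^ 2 := by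
    have h3 : (fun w => ‖C.indicator (A9_T2 K f T) w‖ₑ ^ 2) =
        C.indicator (fun w => ‖A9_T2 K f T w‖ₑ ^ 2) := by
      funext w
      by_cases hw : w ∈ C
      · rw [indicator_of_mem hw, indicator_of_mem hw]
      · rw [indicator_of_notMem hw, indicator_of_notMem hw]
        simp
    rw [h3, lintegral_indicator hCm, Measure.restrict_restrict hCm, inter_eq_left.2 hCL]
  have h4 : ∫⁻ z, ‖pb K L f (C.indicator (A9_T2 K f T)) z‖ₑ ^ 2 ∂(mu K L f) ≤
      ∫⁻ z in f ⁻¹' C, ‖T z‖ₑ ^ 2 ∂(mu K L f) := by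
    rw [← lintegral_indicator hfCm]
    refine lintegral_mono fun z => ?_
    by_cases hz : z ∈ f ⁻¹' C
    · have hzL : z ∉ L := by
        intro hzL
        obtain ⟨y, hy, hyz⟩ := hCL hz
        exact hy (f.injective hyz ▸ hzL)
      have h5 : pb K L f (C.indicator (A9_T2 K f T)) z = pb K L f (A9_T2 K f T) z := by
        unfold pb
        rw [indicator_of_mem (show f z ∈ C from hz)]
      rw [indicator_of_mem hz, h5, A9_pb_T2 hf' T hzL]
    · have h5 : pb K L f (C.indicator (A9_T2 K f T)) z = 0 := by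
        unfold pb
        rw [indicator_of_notMem (show f z ∉ C from hz)]
        simp
      rw [h5]
      simp
  have h6 : (2 : ENNReal).toReal = 2 := by norm_num
  rw [h6]
  have h7 : ∫⁻ w in C, ‖A9_T2 K f T w‖ₑ ^ (2 : ℝ) = ∫⁻ w in C, ‖A9_T2 K f T w‖ₑ ^ 2 := by
    refine lintegral_congr fun w => ?_
    exact ENNReal.rpow_ofNat _ _
  rw [h7, ← h2, ← h1]
  exact lt_of_le_of_lt h4 hTC

/-- square integrability of `T` on compact sets -/
theorem A9_T (K L : Set ℂ) (hK : IsCompact K) (f : ℂ ≃ₜ ℂ)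
    (s : ℂ → ℝ) (om : ℂ → ℂ) (hs : ContDiff ℝ ∞ s) (hom : MemLp om 2 (mu K L f)) {C : Set ℂ}
    (hC : IsCompact C) :
    ∫⁻ z in f ⁻¹' C, ‖ex K (gr s) z - om z‖ₑ ^ 2 ∂(mu K L f) < ⊤ := by
  have hfC : IsCompact (f ⁻¹' C) := f.isCompact_preimage.2 hC
  have hfCm : MeasurableSet (f ⁻¹' C) := hfC.isClosed.measurableSet
  have hgr : Continuous (gr s) := by
    have hc : Continuous (fderiv ℝ s) := hs.continuous_fderiv (by simp)
    have h1 : gr s = fun z => ((fderiv ℝ s z 1 : ℝ) : ℂ) +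
        ((-fderiv ℝ s z Complex.I : ℝ) : ℂ) * Complex.I := by
      funext z
      exact (Complex.mk_eq_add_mul_I _ _)
    rw [h1]
    have h2 : Continuous fun z => fderiv ℝ s z 1 := hc.clm_apply continuous_const
    have h3 : Continuous fun z => fderiv ℝ s z Complex.I := hc.clm_apply continuous_const
    exact (Complex.continuous_ofReal.comp h2).add
      ((Complex.continuous_ofReal.comp h3.neg).mul continuous_const)
  have hexm : AEStronglyMeasurable (ex K (gr s)) ((mu K L f).restrict (f ⁻¹' C)) := by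
    have h1 : Measurable (ex K (gr s)) :=
      hgr.measurable.indicator hK.isClosed.isOpen_compl.measurableSet
    exact h1.aestronglyMeasurable
  obtain ⟨B, hB⟩ := hfC.exists_bound_of_continuousOn hgr.continuousOn
  have : IsFiniteMeasure ((mu K L f).restrict (f ⁻¹' C)) := by
    refine ⟨?_⟩
    rw [Measure.restrict_apply_univ]
    exact A9_mu_lt K L f hC
  have h1 : MemLp (ex K (gr s)) 2 ((mu K L f).restrict (f ⁻¹' C)) := by
    refine MemLp.of_bound hexm (max B 0) ?_
    filter_upwards [ae_restrict_mem hfCm] with z hz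
    by_cases hzK : z ∈ Kᶜ
    · rw [ex, indicator_of_mem hzK]
      exact (hB z hz).trans (le_max_left _ _)
    · rw [ex, indicator_of_notMem hzK, norm_zero]
      exact le_max_right _ _
  have h2 : MemLp (fun z => ex K (gr s) z - om z) 2 ((mu K L f).restrict (f ⁻¹' C)) :=
    h1.sub (hom.mono_measure Measure.restrict_le_self)
  have h3 := h2.2
  rw [eLpNorm_lt_top_iff_lintegral_rpow_enorm_lt_top (by norm_num) (by norm_num)] at h3
  have h6 : (2 : ENNReal).toReal = 2 := by norm_num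
  rw [h6] at h3
  refine lt_of_eq_of_lt ?_ h3
  refine lintegral_congr fun w => ?_
  exact (ENNReal.rpow_ofNat _ _).symm

/-- On `f '' Lᶜ`: define `T2 w = T (f.symm w)` if `f.symm w ∈ K` and `T (f.symm w) / deriv f (f.symm w)` otherwise,
`T = ex (gr s) - om`.  Then `pb T2 = T` off `L` (the derivative of `f` does not vanish off `K ∪ L`, file `I1`), so
`∫ T conj (pb (gr v)) dmu = ∫ pb T2 conj (pb (gr v)) dmu = ∫_{f(Lᶜ)} T2 conj (gr v)` (`integral_pb`; `pb q = 0` on `L`), and
`T2` is square integrable on compact subsets `C` of `f '' Lᶜ`: `lintegral_pb` applied to `C.indicator T2`, and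
`f⁻¹ C` is a compact set disjoint from `L`.  Then `weyl_real` gives `k2`; the relation holds almost everywhere on
(K ∪ L)ᶜ because `f⁻¹` of a null set is a null set there (`ae_comp_holomorphic` in `MP_09f213_an.CoV`). -/
theorem exists_k2 (K L : Set ℂ) (hK : IsCompact K) (hL : IsCompact L) (f : ℂ ≃ₜ ℂ)
    (hf : DifferentiableOn ℂ f (K ∪ L)ᶜ) (hf' : ∀ z, z ∉ K → z ∉ L → deriv f z ≠ 0)
    (s : ℂ → ℝ) (om : ℂ → ℂ) (hs : ContDiff ℝ ∞ s) (hom : MemLp om 2 (mu K L f))
    (h2 : ∀ v : ℂ → ℝ, Test (f '' Lᶜ) v →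
        ∫ z, (ex K (gr s) z - om z) * (starRingEnd ℂ) (pb K L f (gr v) z) ∂(mu K L f) = 0) :
    ∃ k2 : ℂ → ℂ, DifferentiableOn ℂ k2 (f '' Lᶜ) ∧
      (∀ᵐ z ∂(volume.restrict (K ∪ L)ᶜ), gr s z - om z = k2 (f z) * deriv f z) := by
  have hopen : IsOpen (K ∪ L)ᶜ := (hK.isClosed.union hL.isClosed).isOpen_compl
  have hopenL : IsOpen (f '' Lᶜ) := f.isOpenMap _ hL.isClosed.isOpen_compl
  have hgr : Continuous (gr s) := by
    have hc : Continuous (fderiv ℝ s) := hs.continuous_fderiv (by simp)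
    have h1 : gr s = fun z => ((fderiv ℝ s z 1 : ℝ) : ℂ) +
        ((-fderiv ℝ s z Complex.I : ℝ) : ℂ) * Complex.I := by
      funext z
      exact (Complex.mk_eq_add_mul_I _ _)
    rw [h1]
    have h2 : Continuous fun z => fderiv ℝ s z 1 := hc.clm_apply continuous_const
    have h3 : Continuous fun z => fderiv ℝ s z Complex.I := hc.clm_apply continuous_const
    exact (Complex.continuous_ofReal.comp h2).add
      ((Complex.continuous_ofReal.comp h3.neg).mul continuous_const)
  set T : ℂ → ℂ := fun z => ex K (gr s) z - om z with hTdef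
  have hT : AEStronglyMeasurable T (mu K L f) := by
    have h1 : Measurable (ex K (gr s)) :=
      hgr.measurable.indicator hK.isClosed.isOpen_compl.measurableSet
    exact h1.aestronglyMeasurable.sub hom.1
  have hL2 : ∀ C : Set ℂ, IsCompact C → C ⊆ f '' Lᶜ →
      MemLp (A9_T2 K f T) 2 (volume.restrict C) := fun C hC hCL =>
    A9_L2 K L hK hL f hf hf' T hT hC hCL (A9_T K L hK f s om hs hom hC)
  have hint : ∀ C : Set ℂ, IsCompact C → C ⊆ f '' Lᶜ → IntegrableOn (A9_T2 K f T) C := by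
    intro C hC hCL
    have : IsFiniteMeasure (volume.restrict C) := by
      refine ⟨?_⟩
      rw [Measure.restrict_apply_univ]
      exact hC.measure_lt_top
    exact (hL2 C hC hCL).integrable (by norm_num)
  have hloc : LocallyIntegrableOn (A9_T2 K f T) (f '' Lᶜ) := by
    rw [locallyIntegrableOn_iff hopenL.isLocallyClosed]
    intro C hCL hC
    exact hint C hC hCL
  obtain ⟨k2, hk2, hk2'⟩ := weyl_real hopenL hloc (by
    intro v hv
    obtain ⟨hgc, hgs, hg0⟩ := gr_test hv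
    have hz0 : ∀ w, w ∉ f '' Lᶜ → A9_T2 K f T w * (starRingEnd ℂ) (gr v w) = 0 := by
      intro w hw
      rw [hg0 w (fun h => hw (hv.sub h)), map_zero, mul_zero]
    rw [← setIntegral_eq_integral_of_forall_compl_eq_zero hz0]
    have hi : IntegrableOn (fun w => A9_T2 K f T w * (starRingEnd ℂ) (gr v w)) (f '' Lᶜ) := by
      have h1 : IntegrableOn (fun w => A9_T2 K f T w * (starRingEnd ℂ) (gr v w)) (tsupport v) := by
        obtain ⟨B, hB⟩ := hgs.exists_bound_of_continuous hgc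
        refine Integrable.mul_bdd (c := B) (hint _ hv.cpt hv.sub) ?_ ?_
        · exact (Complex.continuous_conj.comp hgc).aestronglyMeasurable
        · refine Eventually.of_forall fun w => ?_
          rw [RCLike.norm_conj]
          exact hB w
      refine (integrableOn_iff_integrable_of_support_subset ?_).1 h1 |>.integrableOn
      intro w hw
      by_contra h
      exact hw (by simp only; rw [hg0 w h, map_zero, mul_zero])
    rw [← integral_pb K L hK.isClosed hL.isClosed f hf _ _ hi, ← h2 v hv]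
    refine integral_congr_ae (Eventually.of_forall fun z => ?_)
    exact (A9_mul hf' T (gr v) z).symm)
  refine ⟨k2, hk2, ?_⟩
  have hmaps : MapsTo f (K ∪ L)ᶜ (f '' Lᶜ) := fun z hz => ⟨z, fun h => hz (Or.inr h), rfl⟩
  have h4 := Pool.Agent.H.MP_09f213_an.ae_comp_holomorphic hopen hopenL.measurableSet hf
    f.injective.injOn (fun z hz => hf' z (fun h => hz (Or.inl h)) (fun h => hz (Or.inr h))) hmaps hk2'
  filter_upwards [h4, ae_restrict_mem hopen.measurableSet] with z hz hzU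
  have hzK : z ∉ K := fun h => hzU (Or.inl h)
  have hzL : z ∉ L := fun h => hzU (Or.inr h)
  rw [← hz, A9_T2_notMem T hzK, div_mul_cancel₀ _ (hf' z hzK hzL)]
  show _ = ex K (gr s) z - om z
  rw [ex, indicator_of_mem (show z ∈ Kᶜ from hzK)]

end Pool.Agent.H.MP_4bdd60_an
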