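import Pool.Agent.H.MP_4bdd60_an.Defs

/-!
# MP_4bdd60_an, part S: the Cayley map, basic facts
-/

open Set Filter Topology Metric MeasureTheory
open scoped ENNReal Real

namespace Pool.Agent.H.MP_4bdd60_an

/-- reflection of the half plane for `κ = -1`, identity for `κ = 1` -/
def refl (κ : ℝ) (w : ℂ) : ℂ := ⟨κ * w.re, w.im⟩

theorem cayc_den {w : ℂ} (hw : 0 ≤ w.im) : w + Complex.I ≠ 0 := by
  intro h
  have h1 := congrArg Complex.im h
  simp only [Complex.add_im, Complex.I_im, Complex.zero_im] at h1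
  linarith

theorem S2_normSq_sub (w : ℂ) : Complex.normSq (w - Complex.I) = w.re ^ 2 + (w.im - 1) ^ 2 := by
  simp only [Complex.normSq_apply, Complex.sub_re, Complex.sub_im, Complex.I_re, Complex.I_im]
  ring

theorem S2_normSq_add (w : ℂ) : Complex.normSq (w + Complex.I) = w.re ^ 2 + (w.im + 1) ^ 2 := by
  simp only [Complex.normSq_apply, Complex.add_re, Complex.add_im, Complex.I_re, Complex.I_im]
  ring

theorem S2_norm_sq_sub (w : ℂ) : ‖w - Complex.I‖ ^ 2 = w.re ^ 2 + (w.im - 1) ^ 2 := by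
  rw [← Complex.normSq_eq_norm_sq, S2_normSq_sub]

theorem S2_norm_sq_add (w : ℂ) : ‖w + Complex.I‖ ^ 2 = w.re ^ 2 + (w.im + 1) ^ 2 := by
  rw [← Complex.normSq_eq_norm_sq, S2_normSq_add]

theorem S2_pos {w : ℂ} (hw : 0 ≤ w.im) : 0 < ‖w + Complex.I‖ :=
  norm_pos_iff.2 (cayc_den hw)

/-- `‖cayc w‖ < 1` iff `w` is in the open upper half plane, for `w` in the closed upper half plane. -/
theorem cayc_norm_lt {w : ℂ} (hw : 0 < w.im) : ‖cayc w‖ < 1 := by
  rw [cayc, norm_div, div_lt_one (S2_pos hw.le)]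
  refine lt_of_pow_lt_pow_left₀ 2 (norm_nonneg _) ?_
  rw [S2_norm_sq_sub, S2_norm_sq_add]
  nlinarith

theorem cayc_norm_le {w : ℂ} (hw : 0 ≤ w.im) : ‖cayc w‖ ≤ 1 := by
  rw [cayc, norm_div, div_le_one (S2_pos hw)]
  refine le_of_sq_le_sq ?_ (norm_nonneg _)
  rw [S2_norm_sq_sub, S2_norm_sq_add]
  nlinarith

theorem cay_norm (s : ℝ) : ‖cay s‖ = 1 := by
  have h0 : 0 ≤ (s : ℂ).im := by simp
  rw [cay, cayc, norm_div, div_eq_one_iff_eq (S2_pos h0).ne']
  refine (sq_eq_sq₀ (norm_nonneg _) (norm_nonneg _)).1 ?_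
  rw [S2_norm_sq_sub, S2_norm_sq_add]
  simp

theorem cay_mem (s : ℝ) : cay s ∈ sphere (0 : ℂ) 1 := by
  rw [mem_sphere_zero_iff_norm]
  exact cay_norm s

theorem cayc_ne_one {w : ℂ} (hw : 0 ≤ w.im) : cayc w ≠ 1 := by
  intro h
  rw [cayc, div_eq_one_iff_eq (cayc_den hw)] at h
  have h1 := congrArg Complex.im h
  simp only [Complex.add_im, Complex.sub_im, Complex.I_im] at h1
  linarith

/-- `cayc w - cayc w' = 2 i (w - w') / ((w + i) (w' + i))` -/
theorem S2_sub {w w' : ℂ} (hw : 0 ≤ w.im) (hw' : 0 ≤ w'.im) :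
    cayc w - cayc w' = 2 * Complex.I * (w - w') / ((w + Complex.I) * (w' + Complex.I)) := by
  have h1 := cayc_den hw
  have h2 := cayc_den hw'
  rw [cayc, cayc]
  field_simp
  ring

theorem cayc_inj : InjOn cayc {w | 0 ≤ w.im} := by
  intro w hw w' hw' h
  have h1 := S2_sub hw hw'
  rw [h, sub_self] at h1
  have h2 := h1.symm
  rw [div_eq_zero_iff] at h2
  rcases h2 with h2 | h2
  · rcases mul_eq_zero.1 h2 with h3 | h3
    · exact absurd h3 (mul_ne_zero two_ne_zero Complex.I_ne_zero)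
    · exact sub_eq_zero.1 h3
  · rcases mul_eq_zero.1 h2 with h3 | h3
    · exact absurd h3 (cayc_den hw)
    · exact absurd h3 (cayc_den hw')

theorem cay_injective : Function.Injective cay := by
  intro s t h
  have h1 : (s : ℂ) = t := cayc_inj (by simp) (by simp) h
  exact_mod_cast h1

theorem S2_im {z : ℂ} : (Complex.I * (1 + z) / (1 - z)).im = (1 - Complex.normSq z) / Complex.normSq (1 - z) := by
  rw [div_eq_mul_inv, Complex.inv_def, ← mul_assoc, Complex.im_mul_ofReal, div_eq_mul_inv]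
  congr 1
  simp only [Complex.normSq_apply, Complex.mul_im, Complex.mul_re, Complex.I_re, Complex.I_im,
    Complex.add_re, Complex.add_im, Complex.one_re, Complex.one_im, Complex.conj_re, Complex.conj_im,
    Complex.sub_re, Complex.sub_im]
  ring

theorem S2_inv {z : ℂ} (h1 : z ≠ 1) : cayc (Complex.I * (1 + z) / (1 - z)) = z := by
  have h2 : (1 : ℂ) - z ≠ 0 := sub_ne_zero.2 (Ne.symm h1)
  have h3 : Complex.I * (1 + z) / (1 - z) - Complex.I = 2 * Complex.I * z / (1 - z) := by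
    field_simp
    ring
  have h4 : Complex.I * (1 + z) / (1 - z) + Complex.I = 2 * Complex.I / (1 - z) := by
    field_simp
    ring
  have hI : (2 : ℂ) * Complex.I ≠ 0 := mul_ne_zero two_ne_zero Complex.I_ne_zero
  rw [cayc, h3, h4, div_div_div_cancel_right₀ h2, mul_div_assoc, mul_comm, div_mul_cancel₀ z hI]

/-- inverse: `w = i (1 + z) / (1 - z)` -/
theorem cayc_surj {z : ℂ} (hz : ‖z‖ ≤ 1) (h1 : z ≠ 1) : ∃ w : ℂ, 0 ≤ w.im ∧ cayc w = z ∧
    w = Complex.I * (1 + z) / (1 - z) := by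
  refine ⟨Complex.I * (1 + z) / (1 - z), ?_, S2_inv h1, rfl⟩
  rw [S2_im]
  refine div_nonneg ?_ (Complex.normSq_nonneg _)
  rw [Complex.normSq_eq_norm_sq]
  nlinarith [norm_nonneg z]

theorem cay_surj {z : ℂ} (hz : ‖z‖ = 1) (h1 : z ≠ 1) : ∃ s : ℝ, cay s = z ∧
    s = (Complex.I * (1 + z) / (1 - z)).re := by
  refine ⟨(Complex.I * (1 + z) / (1 - z)).re, ?_, rfl⟩
  have h2 : (Complex.I * (1 + z) / (1 - z)).im = 0 := by
    rw [S2_im, Complex.normSq_eq_norm_sq, hz]
    norm_num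
  have h3 : (((Complex.I * (1 + z) / (1 - z)).re : ℝ) : ℂ) = Complex.I * (1 + z) / (1 - z) := by
    apply Complex.ext
    · rw [Complex.ofReal_re]
    · rw [Complex.ofReal_im, h2]
  rw [cay, h3]
  exact S2_inv h1

/-- the derivative is `2 i / (w + i)²` -/
theorem cayc_hasDerivAt {w : ℂ} (hw : 0 ≤ w.im) :
    HasDerivAt cayc (2 * Complex.I / (w + Complex.I) ^ 2) w := by
  have h1 := ((hasDerivAt_id w).sub_const Complex.I).div ((hasDerivAt_id w).add_const Complex.I)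
    (cayc_den hw)
  have h2 : (1 * (id w + Complex.I) - (id w - Complex.I) * 1) / (id w + Complex.I) ^ 2 =
      2 * Complex.I / (w + Complex.I) ^ 2 := by
    simp only [id]
    congr 1
    ring
  rw [h2] at h1
  exact h1

theorem cayc_deriv_ne {w : ℂ} (hw : 0 ≤ w.im) : deriv cayc w ≠ 0 := by
  rw [(cayc_hasDerivAt hw).deriv]
  exact div_ne_zero (mul_ne_zero two_ne_zero Complex.I_ne_zero) (pow_ne_zero 2 (cayc_den hw))

theorem S2_one_le {w : ℂ} (hw : 0 ≤ w.im) : 1 ≤ ‖w + Complex.I‖ := by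
  have h1 : |(w + Complex.I).im| ≤ ‖w + Complex.I‖ := Complex.abs_im_le_norm _
  have h2 : (w + Complex.I).im = w.im + 1 := by simp
  rw [h2, abs_of_nonneg (by linarith)] at h1
  linarith

/-- `cayc w - cayc w' = 2 i (w - w') / ((w + i) (w' + i))` and `‖w + i‖ ≥ 1`. -/
theorem cayc_lip {w w' : ℂ} (hw : 0 ≤ w.im) (hw' : 0 ≤ w'.im) : ‖cayc w - cayc w'‖ ≤ 2 * ‖w - w'‖ := by
  rw [S2_sub hw hw', norm_div, norm_mul, norm_mul, norm_mul, Complex.norm_I, mul_one,
    Complex.norm_ofNat]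
  have h1 := S2_one_le hw
  have h2 := S2_one_le hw'
  refine div_le_self (by positivity) ?_
  nlinarith

theorem cay_continuous : Continuous cay := by
  rw [continuous_iff_continuousAt]
  intro s
  have h0 : 0 ≤ (s : ℂ).im := by simp
  exact ContinuousAt.comp (f := fun s : ℝ => (s : ℂ)) (cayc_hasDerivAt h0).continuousAt
    Complex.continuous_ofReal.continuousAt

/-- `cayc w = 0` only for `w = i`; near the real axis the norm is at least `1/2`:
`‖cayc w‖² = (x² + (1-t)²) / (x² + (1+t)²) ≥ ((1-t)/(1+t))²` for `w = x + i t`. -/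
theorem cayc_half {w : ℂ} (hw : 0 ≤ w.im) (hw' : w.im ≤ 1 / 10) : 1 / 2 < ‖cayc w‖ := by
  rw [cayc, norm_div, lt_div_iff₀ (S2_pos hw)]
  refine lt_of_pow_lt_pow_left₀ 2 (norm_nonneg _) ?_
  rw [mul_pow, S2_norm_sq_sub, S2_norm_sq_add]
  nlinarith [sq_nonneg w.re]

theorem cayc_image : cayc '' {w | 0 < w.im} = ball 0 1 := by
  ext z
  constructor
  · rintro ⟨w, hw, rfl⟩
    rw [mem_ball_zero_iff]
    exact cayc_norm_lt hw
  · intro hz
    rw [mem_ball_zero_iff] at hz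
    have h1 : z ≠ 1 := by
      rintro rfl
      simp at hz
    refine ⟨Complex.I * (1 + z) / (1 - z), ?_, S2_inv h1⟩
    change 0 < (Complex.I * (1 + z) / (1 - z)).im
    rw [S2_im]
    refine div_pos ?_ (Complex.normSq_pos.2 (sub_ne_zero.2 (Ne.symm h1)))
    rw [Complex.normSq_eq_norm_sq]
    nlinarith [norm_nonneg z]

end Pool.Agent.H.MP_4bdd60_an
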