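import Mathlib
import Pool.Agent.H.MP_4bdd60_an.S2

/-!
# MP_4bdd60_an: from a measure on the curve to a measure on the real line
-/

set_option autoImplicit false

open Set Filter Topology Metric MeasureTheory
open scoped ENNReal Real

namespace Pool.Agent.H.MP_4bdd60_an

/-- no atoms -/
theorem no_atom {φ : ℂ → ℂ} {ν : Measure ℂ} {C α : ℝ} (hα : 0 < α)
    (h1 : ∀ z ∈ sphere (0 : ℂ) 1, ∀ r : ℝ, 0 < r →
      ν (φ '' (sphere 0 1 ∩ closedBall z r)) ≤ ENNReal.ofReal (C * r ^ α))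
    {z : ℂ} (hz : z ∈ sphere (0 : ℂ) 1) : ν {φ z} = 0 := by
  have h2 : ∀ r : ℝ, 0 < r → ν {φ z} ≤ ENNReal.ofReal (C * r ^ α) := by
    intro r hr
    refine le_trans (measure_mono ?_) (h1 z hz r hr)
    rw [singleton_subset_iff]
    exact ⟨z, ⟨hz, mem_closedBall_self hr.le⟩, rfl⟩
  have h3 : Tendsto (fun r : ℝ => ENNReal.ofReal (C * r ^ α)) (𝓝[>] 0) (𝓝 0) := by
    have h4 : Tendsto (fun r : ℝ => C * r ^ α) (𝓝 0) (𝓝 (C * 0 ^ α)) :=
      ((Real.continuous_rpow_const hα.le).tendsto 0).const_mul C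
    rw [Real.zero_rpow (ne_of_gt hα), mul_zero] at h4
    have h5 := (ENNReal.tendsto_ofReal h4).mono_left (nhdsWithin_le_nhds (s := Ioi (0:ℝ)))
    rwa [ENNReal.ofReal_zero] at h5
  have h6 : ν {φ z} ≤ 0 := by
    apply ge_of_tendsto h3
    filter_upwards [self_mem_nhdsWithin] with r hr
    exact h2 r hr
  exact le_antisymm h6 bot_le

theorem bridge {φ ψ : ℂ → ℂ} (hφc : ContinuousOn φ (closedBall 0 1))
    (hφi : InjOn φ (closedBall 0 1)) (ν : Measure ℂ) [IsProbabilityMeasure ν]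
    (hν : ν (φ '' sphere 0 1)ᶜ = 0) {C α : ℝ} (hα : 0 < α)
    (h1 : ∀ z ∈ sphere (0 : ℂ) 1, ∀ r : ℝ, 0 < r →
      ν (φ '' (sphere 0 1 ∩ closedBall z r)) ≤ ENNReal.ofReal (C * r ^ α))
    (h2 : ∀ z ∈ sphere (0 : ℂ) 1, ∀ r : ℝ, 0 < r →
      ν (ψ '' (sphere 0 1 ∩ closedBall z r)) ≤ ENNReal.ofReal (C * r ^ α))
    {u0 : ℂ} {k0 : ℝ → ℝ} (hu0 : ‖u0‖ = 1) (hk : Continuous k0) (hki : Function.Injective k0)
    (hw : ∀ s : ℝ, ψ (u0 * cay (k0 s))⁻¹ = φ (cay s)) :
    ∃ (ν' : Measure ℝ) (C' : ℝ), IsProbabilityMeasure ν' ∧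
      (∀ u v, u ≤ v → ν' (Icc u v) ≤ ENNReal.ofReal (C' * (v - u) ^ α)) ∧
      (∀ u v, u ≤ v → ν' (Icc u v) ≤ ENNReal.ofReal (C' * |k0 v - k0 u| ^ α)) := by
  have hsb : ∀ s : ℝ, cay s ∈ closedBall (0 : ℂ) 1 := fun s => sphere_subset_closedBall (cay_mem s)
  set P : ℝ → ℂ := fun s => φ (cay s) with hP
  have hPc : Continuous P := hφc.comp_continuous cay_continuous hsb
  have hPi : Function.Injective P := by
    intro s t hst
    exact cay_injective (hφi (hsb s) (hsb t) hst)
  have hPe : MeasurableEmbedding P := hPc.measurableEmbedding hPi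
  have hap : ∀ S : Set ℝ, Measure.comap P ν S = ν (P '' S) := fun S => hPe.comap_apply ν S
  have hone : (1 : ℂ) ∈ sphere (0 : ℂ) 1 := by simp
  -- total mass
  have hprob : IsProbabilityMeasure (Measure.comap P ν) := by
    constructor
    rw [hap, image_univ]
    have hcov : (univ : Set ℂ) ⊆ range P ∪ ((φ '' sphere 0 1)ᶜ ∪ {φ 1}) := by
      intro w _
      by_cases hw1 : w ∈ φ '' sphere 0 1
      · obtain ⟨z, hz, rfl⟩ := hw1
        by_cases hz1 : z = 1
        · right; right; rw [hz1]; rfl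
        · left
          obtain ⟨s, hs, _⟩ := cay_surj (z := z) (by simpa using hz) hz1
          exact ⟨s, by rw [hP]; simp only; rw [hs]⟩
      · right; left; exact hw1
    apply le_antisymm prob_le_one
    calc (1 : ℝ≥0∞) = ν univ := measure_univ.symm
      _ ≤ ν (range P ∪ ((φ '' sphere 0 1)ᶜ ∪ {φ 1})) := measure_mono hcov
      _ ≤ ν (range P) + (ν (φ '' sphere 0 1)ᶜ + ν {φ 1}) :=
          (measure_union_le _ _).trans (add_le_add le_rfl (measure_union_le _ _))
      _ = ν (range P) := by rw [hν, no_atom hα h1 hone, add_zero, add_zero]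
  refine ⟨Measure.comap P ν, C * 2 ^ α, hprob, ?_, ?_⟩
  · intro u v huv
    rw [hap]
    rcases eq_or_lt_of_le huv with h | h
    · subst h
      rw [Icc_self, image_singleton]
      have h0 : ν {P u} = 0 := no_atom hα h1 (cay_mem u)
      rw [h0]
      exact bot_le
    · have h3 : P '' Icc u v ⊆ φ '' (sphere 0 1 ∩ closedBall (cay u) (2 * (v - u))) := by
        rintro _ ⟨s, hs, rfl⟩
        refine ⟨cay s, ⟨cay_mem s, ?_⟩, rfl⟩
        rw [mem_closedBall, dist_eq_norm]
        have h4 := cayc_lip (w := (s : ℂ)) (w' := (u : ℂ)) (by simp) (by simp)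
        have h5 : ‖(s : ℂ) - (u : ℂ)‖ ≤ v - u := by
          rw [← Complex.ofReal_sub, Complex.norm_real, Real.norm_eq_abs,
            abs_of_nonneg (by linarith [hs.1])]
          linarith [hs.2]
        have h6 : ‖cay s - cay u‖ ≤ 2 * ‖(s : ℂ) - (u : ℂ)‖ := h4
        linarith
      refine (measure_mono h3).trans ((h1 _ (cay_mem u) _ (by linarith)).trans (le_of_eq ?_))
      rw [Real.mul_rpow (by norm_num) (by linarith)]
      congr 1
      ring
  · intro u v huv
    rw [hap]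
    rcases eq_or_lt_of_le huv with h | h
    · subst h
      rw [Icc_self, image_singleton]
      have h0 : ν {P u} = 0 := no_atom hα h1 (cay_mem u)
      rw [h0]
      exact bot_le
    · have hkne : k0 v ≠ k0 u := fun h0 => (ne_of_gt h) (hki h0)
      have hkpos : 0 < |k0 v - k0 u| := abs_pos.mpr (sub_ne_zero.mpr hkne)
      have hbd : ∀ s ∈ Icc u v, |k0 s - k0 u| ≤ |k0 v - k0 u| := by
        intro s hs
        rcases hk.strictMono_of_inj hki with hm | hm
        · have a1 := hm.monotone hs.1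
          have a2 := hm.monotone hs.2
          rw [abs_of_nonneg (by linarith), abs_of_nonneg (by linarith)]
          linarith
        · have a1 := hm.antitone hs.1
          have a2 := hm.antitone hs.2
          rw [abs_of_nonpos (by linarith), abs_of_nonpos (by linarith)]
          linarith
      have hnorm : ∀ s : ℝ, ‖u0 * cay (k0 s)‖ = 1 := by
        intro s
        rw [norm_mul, hu0, cay_norm, mul_one]
      have hne : ∀ s : ℝ, u0 * cay (k0 s) ≠ 0 := by
        intro s h0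
        have := hnorm s
        rw [h0, norm_zero] at this
        exact zero_ne_one this
      have hsph : ∀ s : ℝ, (u0 * cay (k0 s))⁻¹ ∈ sphere (0 : ℂ) 1 := by
        intro s
        rw [mem_sphere_zero_iff_norm, norm_inv, hnorm, inv_one]
      have h3 : P '' Icc u v ⊆
          ψ '' (sphere 0 1 ∩ closedBall (u0 * cay (k0 u))⁻¹ (2 * |k0 v - k0 u|)) := by
        rintro _ ⟨s, hs, rfl⟩
        refine ⟨(u0 * cay (k0 s))⁻¹, ⟨hsph s, ?_⟩, hw s⟩
        rw [mem_closedBall, dist_eq_norm]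
        have h4 := cayc_lip (w := (k0 s : ℂ)) (w' := (k0 u : ℂ)) (by simp) (by simp)
        have h5 : ‖(k0 s : ℂ) - (k0 u : ℂ)‖ ≤ |k0 v - k0 u| := by
          rw [← Complex.ofReal_sub, Complex.norm_real, Real.norm_eq_abs]
          exact hbd s hs
        have h6 : ‖cay (k0 s) - cay (k0 u)‖ ≤ 2 * ‖(k0 s : ℂ) - (k0 u : ℂ)‖ := h4
        have h7 : ‖(u0 * cay (k0 s))⁻¹ - (u0 * cay (k0 u))⁻¹‖ = ‖cay (k0 s) - cay (k0 u)‖ := by
          rw [inv_sub_inv (hne s) (hne u), norm_div, norm_mul, hnorm, hnorm, mul_one, div_one,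
            ← mul_sub, norm_mul, hu0, one_mul, norm_sub_rev]
        rw [h7]
        linarith
      refine (measure_mono h3).trans ((h2 _ (hsph u) _ (by linarith)).trans (le_of_eq ?_))
      rw [Real.mul_rpow (by norm_num) (abs_nonneg _)]
      congr 1
      ring

end Pool.Agent.H.MP_4bdd60_an
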