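import Pool.Agent.H.MP_4bdd60_an.Defs

/-!
# MP_4bdd60_an, part C: primitives of the form on both discs
-/

open Set Filter Topology Metric MeasureTheory
open scoped ENNReal Real

namespace Pool.Agent.H.MP_4bdd60_an

/-- The inner side: `k (φ w) φ'(w)` is holomorphic on the unit ball; `DifferentiableOn.isExactOn_ball`. -/
theorem prim_p {φ : ℂ → ℂ} (h : DifferentiableOn ℂ φ (ball 0 1)) {k : ℂ → ℂ} {O : Set ℂ} (hO : IsOpen O)
    (hk : DifferentiableOn ℂ k O) (hmaps : ∀ w ∈ ball (0 : ℂ) 1, φ w ∈ O) :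
    ∃ P : ℂ → ℂ, ∀ w ∈ ball (0 : ℂ) 1, HasDerivAt P (k (φ w) * deriv φ w) w := by
  have _ := hO
  have h1 : DifferentiableOn ℂ (fun w => k (φ w) * deriv φ w) (ball 0 1) :=
    (hk.comp h hmaps).mul (h.deriv isOpen_ball)
  exact h1.isExactOn_ball

/-- The outer side.  `P = χ + P0` with a primitive `P0` of `e(w) = (k (χ w) - 1) χ'(w)`.  `e` is holomorphic on the ball
minus `0` and bounded near `0`: `q = 1/χ` (value `0` at `0`) is holomorphic at `0` (continuous,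
`Complex.differentiableOn_compl_singleton_and_continuousAt_iff`), `χ' = -q'/q²` and `‖k(χ) - 1‖ ≤ C ‖q‖²` near `0`, so
`‖e‖ ≤ C ‖q'‖` near `0`.  So `e` extends holomorphically to `0`
(`Complex.differentiableOn_update_limUnder_of_bddAbove`), take `P0` from `DifferentiableOn.isExactOn_ball`;
`P - χ = P0` is continuous at `0`. -/
theorem prim_m {χ : ℂ → ℂ} (h : DifferentiableOn ℂ χ (ball 0 1 \ {0}))
    (hi : Tendsto χ (𝓝[≠] 0) (cocompact ℂ)) {k : ℂ → ℂ} {O : Set ℂ} (hO : IsOpen O)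
    (hk : DifferentiableOn ℂ k O) (hmaps : ∀ w ∈ ball (0 : ℂ) 1 \ {0}, χ w ∈ O)
    (hinf : ∃ C R : ℝ, 0 < R ∧ ∀ z, R < ‖z‖ → ‖k z - 1‖ ≤ C / ‖z‖ ^ 2) :
    ∃ P : ℂ → ℂ, (∀ w ∈ ball (0 : ℂ) 1 \ {0}, HasDerivAt P (k (χ w) * deriv χ w) w) ∧
      ∃ C : ℝ, ∀ᶠ w in 𝓝[≠] (0 : ℂ), ‖P w - χ w‖ ≤ C := by
  have _ := hO
  obtain ⟨C, R, hR, hkb⟩ := hinf
  have hopen : IsOpen (ball (0 : ℂ) 1 \ {0}) := isOpen_ball.sdiff isClosed_singleton
  -- the form minus `dχ`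
  let e : ℂ → ℂ := fun w => (k (χ w) - 1) * deriv χ w
  have he : DifferentiableOn ℂ e (ball 0 1 \ {0}) :=
    ((hk.comp h hmaps).sub_const 1).mul (h.deriv hopen)
  -- near 0 the function χ is large
  have hbig : ∀ᶠ w in 𝓝[≠] (0 : ℂ), R < ‖χ w‖ :=
    ((tendsto_norm_cocompact_atTop (E := ℂ)).comp hi).eventually_gt_atTop R
  obtain ⟨r0, hr0, hr0'⟩ := Metric.mem_nhdsWithin_iff.mp hbig
  set r : ℝ := min r0 1 with hrdef
  have hr : 0 < r := lt_min hr0 one_pos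
  have hr1 : ∀ w ∈ ball (0 : ℂ) r \ {0}, R < ‖χ w‖ := fun w hw =>
    hr0' ⟨ball_subset_ball (min_le_left _ _) hw.1, hw.2⟩
  have hsub : ball (0 : ℂ) r \ {0} ⊆ ball (0 : ℂ) 1 \ {0} :=
    fun w hw => ⟨ball_subset_ball (min_le_right _ _) hw.1, hw.2⟩
  have hne : ∀ w ∈ ball (0 : ℂ) r \ {0}, χ w ≠ 0 := by
    intro w hw h0
    have := hr1 w hw
    rw [h0, norm_zero] at this
    exact absurd this (not_lt.mpr hR.le)
  have hopenr : IsOpen (ball (0 : ℂ) r \ {0}) := isOpen_ball.sdiff isClosed_singleton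
  -- the inverse
  let q : ℂ → ℂ := Function.update (fun w => (χ w)⁻¹) 0 0
  have hqeq : ∀ w : ℂ, w ≠ 0 → q w = (χ w)⁻¹ := fun w hw => Function.update_of_ne hw _ _
  have hqc : ContinuousAt q 0 := by
    apply continuousAt_update_same.mpr
    rw [← Metric.cobounded_eq_cocompact] at hi
    exact tendsto_inv₀_cobounded.comp hi
  have hq : DifferentiableOn ℂ q (ball 0 r) := by
    rw [← Complex.differentiableOn_compl_singleton_and_continuousAt_iff (ball_mem_nhds (0 : ℂ) hr)]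
    refine ⟨?_, hqc⟩
    refine ((h.mono hsub).inv hne).congr ?_
    intro w hw
    exact hqeq w hw.2
  have hqd : ∀ w ∈ ball (0 : ℂ) r \ {0}, deriv χ w = -(deriv q w) * (χ w) ^ 2 := by
    intro w hw
    have h1 : HasDerivAt χ (deriv χ w) w :=
      ((h.mono hsub).differentiableAt (hopenr.mem_nhds hw)).hasDerivAt
    have h2 : HasDerivAt (fun v => (χ v)⁻¹) (-(deriv χ w) / (χ w) ^ 2) w := h1.inv (hne w hw)
    have h3 : q =ᶠ[𝓝 w] fun v => (χ v)⁻¹ := by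
      filter_upwards [hopenr.mem_nhds hw] with v hv
      exact hqeq v hv.2
    have h4 : deriv q w = -(deriv χ w) / (χ w) ^ 2 := (h2.congr_of_eventuallyEq h3).deriv
    rw [h4]
    field_simp [hne w hw]
  have hdq : ContinuousAt (deriv q) 0 :=
    ((hq.deriv isOpen_ball).differentiableAt (ball_mem_nhds (0 : ℂ) hr)).continuousAt
  have hdqb : ∀ᶠ w in 𝓝[≠] (0 : ℂ), ‖deriv q w‖ ≤ ‖deriv q 0‖ + 1 := by
    have h1 : ∀ᶠ w in 𝓝 (0 : ℂ), ‖deriv q w‖ < ‖deriv q 0‖ + 1 :=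
      hdq.norm.eventually_lt continuousAt_const (lt_add_one _)
    exact (h1.filter_mono nhdsWithin_le_nhds).mono fun w hw => hw.le
  have hmem : ∀ᶠ w in 𝓝[≠] (0 : ℂ), w ∈ ball (0 : ℂ) r \ {0} := by
    have h1 : ∀ᶠ w in 𝓝[≠] (0 : ℂ), w ∈ ball (0 : ℂ) r :=
      nhdsWithin_le_nhds (ball_mem_nhds (0 : ℂ) hr)
    filter_upwards [h1, self_mem_nhdsWithin] with w h2 h3
    exact ⟨h2, h3⟩
  have heb : ∀ᶠ w in 𝓝[≠] (0 : ℂ), ‖e w‖ ≤ |C| * (‖deriv q 0‖ + 1) := by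
    filter_upwards [hdqb, hmem] with w h1 h2
    have h3 : ‖k (χ w) - 1‖ ≤ C / ‖χ w‖ ^ 2 := hkb _ (hr1 w h2)
    have hpos : 0 < ‖χ w‖ := norm_pos_iff.mpr (hne w h2)
    have h4 : ‖e w‖ = ‖k (χ w) - 1‖ * (‖deriv q w‖ * ‖χ w‖ ^ 2) := by
      simp only [e]
      rw [norm_mul, hqd w h2, norm_mul, norm_neg, norm_pow]
    rw [h4]
    calc ‖k (χ w) - 1‖ * (‖deriv q w‖ * ‖χ w‖ ^ 2)
        ≤ C / ‖χ w‖ ^ 2 * (‖deriv q w‖ * ‖χ w‖ ^ 2) :=
          mul_le_mul_of_nonneg_right h3 (by positivity)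
      _ = C * ‖deriv q w‖ := by field_simp
      _ ≤ |C| * ‖deriv q w‖ := mul_le_mul_of_nonneg_right (le_abs_self C) (norm_nonneg _)
      _ ≤ |C| * (‖deriv q 0‖ + 1) := mul_le_mul_of_nonneg_left h1 (abs_nonneg C)
  have hlo : (fun z => e z - e 0) =o[𝓝[≠] (0 : ℂ)] fun z => (z - 0)⁻¹ := by
    apply Filter.IsBoundedUnder.isLittleO_sub_self_inv
    refine ⟨|C| * (‖deriv q 0‖ + 1) + ‖e 0‖, ?_⟩
    rw [eventually_map]
    filter_upwards [heb] with w hw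
    exact norm_sub_le_of_le hw le_rfl
  have hE := Complex.differentiableOn_update_limUnder_of_isLittleO
    (ball_mem_nhds (0 : ℂ) one_pos) he hlo
  obtain ⟨P0, hP0⟩ := hE.isExactOn_ball
  refine ⟨fun w => χ w + P0 w, ?_, ?_⟩
  · intro w hw
    have h1 : HasDerivAt χ (deriv χ w) w := (h.differentiableAt (hopen.mem_nhds hw)).hasDerivAt
    have h2 := hP0 w hw.1
    rw [Function.update_of_ne hw.2] at h2
    have h3 := h1.add h2
    have h4 : deriv χ w + e w = k (χ w) * deriv χ w := by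
      simp only [e]
      ring
    rw [h4] at h3
    exact h3
  · have hc : ContinuousAt P0 0 := (hP0 0 (mem_ball_self one_pos)).continuousAt
    have h1 : ∀ᶠ w in 𝓝 (0 : ℂ), ‖P0 w‖ < ‖P0 0‖ + 1 :=
      hc.norm.eventually_lt continuousAt_const (lt_add_one _)
    refine ⟨‖P0 0‖ + 1, (h1.filter_mono nhdsWithin_le_nhds).mono fun w hw => ?_⟩
    simpa using hw.le

end Pool.Agent.H.MP_4bdd60_an
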