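import Pool.Agent.H.MP_4bdd60_an.C3a

/-!
# MP_4bdd60_an, part C: continuous extension of a primitive to the boundary of the disc
-/

open Set Filter Topology Metric MeasureTheory
open scoped ENNReal Real

namespace Pool.Agent.H.MP_4bdd60_an

theorem C3_cl {S : Set ℂ} (hS : S.Finite) : closedBall (0 : ℂ) 1 ⊆ closure (ball (0 : ℂ) 1 \ S) := by
  have hd : Dense ((univ : Set ℂ) \ S) := dense_univ.diff_finite hS
  have h1 : ball (0 : ℂ) 1 ⊆ closure (ball (0 : ℂ) 1 ∩ (univ \ S)) :=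
    hd.open_subset_closure_inter isOpen_ball
  have h2 : closure (ball (0 : ℂ) 1) ⊆ closure (ball (0 : ℂ) 1 ∩ (univ \ S)) :=
    closure_minimal h1 isClosed_closure
  rw [closure_ball (0 : ℂ) one_ne_zero] at h2
  refine h2.trans (closure_mono ?_)
  rintro x ⟨hx, -, hxS⟩
  exact ⟨hx, hxS⟩

theorem C3_open {S : Set ℂ} (hS : S.Finite) : IsOpen (ball (0 : ℂ) 1 \ S) :=
  isOpen_ball.sdiff hS.isClosed

/-- local form of the extension -/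
theorem C3_loc {S : Set ℂ} (hS : S.Finite) {P R g : ℂ → ℂ} {w : ℂ} (hw : w ∈ closedBall (0 : ℂ) 1) (hwS : w ∉ S)
    (hP : ∀ v ∈ ball (0 : ℂ) 1 \ S, HasDerivAt P (g v) v)
    (hR : ∀ᶠ v in 𝓝 w, v ∈ ball (0 : ℂ) 1 \ S → HasDerivAt R (g v) v)
    (hc : ∀ᶠ v in 𝓝 w, v ∈ closedBall (0 : ℂ) 1 \ S → ContinuousWithinAt R (closedBall 0 1 \ S) v) :
    ∃ c, ∀ᶠ v in 𝓝 w, v ∈ closedBall (0 : ℂ) 1 \ S →
      Tendsto P (𝓝[ball 0 1 \ S] v) (𝓝 (R v + c)) ∧ extendFrom (ball 0 1 \ S) P v = R v + c := by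
  obtain ⟨c, hcc⟩ := rigid hS hw hwS (Eventually.of_forall hP) hR
  refine ⟨c, ?_⟩
  filter_upwards [hcc.eventually_nhds, hc] with v h1 h2 hv
  have h3 : Tendsto R (𝓝[ball 0 1 \ S] v) (𝓝 (R v)) :=
    (h2 hv).mono_left (nhdsWithin_mono v (fun x hx => ⟨ball_subset_closedBall hx.1, hx.2⟩))
  have h4 : Tendsto P (𝓝[ball 0 1 \ S] v) (𝓝 (R v + c)) := by
    refine (h3.add_const c).congr' ?_
    filter_upwards [mem_nhdsWithin_of_mem_nhds h1, self_mem_nhdsWithin] with x hx hxA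
    exact (hx hxA).symm
  exact ⟨h4, extendFrom_eq (C3_cl hS hv.1) h4⟩

/-- the function `Q ∘ Ψ` -/
theorem C3_K {Ψ : ℂ → ℂ} {S : Set ℂ} (hS : S.Finite)
    (hcont : ContinuousOn Ψ (closedBall 0 1 \ S)) (hhol : DifferentiableOn ℂ Ψ (ball 0 1 \ S))
    {k1 Q : ℂ → ℂ} {w : ℂ} (hw : w ∈ closedBall (0 : ℂ) 1 \ S)
    (hQ : ∀ᶠ z in 𝓝 (Ψ w), HasDerivAt Q (k1 z) z) :
    (∀ᶠ v in 𝓝 w, v ∈ ball (0 : ℂ) 1 \ S → HasDerivAt (fun v => Q (Ψ v)) (k1 (Ψ v) * deriv Ψ v) v) ∧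
    (∀ᶠ v in 𝓝 w, v ∈ closedBall (0 : ℂ) 1 \ S →
      ContinuousWithinAt (fun v => Q (Ψ v)) (closedBall 0 1 \ S) v) := by
  have h1 : ∀ᶠ v in 𝓝[closedBall 0 1 \ S] w, HasDerivAt Q (k1 (Ψ v)) (Ψ v) := (hcont w hw).eventually hQ
  rw [eventually_nhdsWithin_iff] at h1
  constructor
  · filter_upwards [h1] with v hv hvA
    have h2 := hv ⟨ball_subset_closedBall hvA.1, hvA.2⟩
    have h3 : HasDerivAt Ψ (deriv Ψ v) v :=
      ((hhol v hvA).differentiableAt ((C3_open hS).mem_nhds hvA)).hasDerivAt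
    exact h2.comp v h3
  · filter_upwards [h1] with v hv hvA
    exact (hv hvA).continuousAt.comp_continuousWithinAt (hcont v hvA)

/-- the function `Q ∘ f ∘ Ψ` -/
theorem C3_L {Ψ : ℂ → ℂ} {S : Set ℂ} (hS : S.Finite)
    (hcont : ContinuousOn Ψ (closedBall 0 1 \ S)) (hhol : DifferentiableOn ℂ Ψ (ball 0 1 \ S))
    {K L : Set ℂ} (hK : IsClosed K) (hL : IsClosed L) {f : ℂ ≃ₜ ℂ}
    (hf : DifferentiableOn ℂ f (K ∪ L)ᶜ) {k1 k2 Q : ℂ → ℂ}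
    (hrel : ∀ z, z ∉ K → z ∉ L → k1 z = k2 (f z) * deriv f z)
    (hmaps : ∀ w ∈ ball (0 : ℂ) 1 \ S, Ψ w ∉ K ∧ Ψ w ∉ L) {w : ℂ} (hw : w ∈ closedBall (0 : ℂ) 1 \ S)
    (hQ : ∀ᶠ z in 𝓝 (f (Ψ w)), HasDerivAt Q (k2 z) z) :
    (∀ᶠ v in 𝓝 w, v ∈ ball (0 : ℂ) 1 \ S → HasDerivAt (fun v => Q (f (Ψ v))) (k1 (Ψ v) * deriv Ψ v) v) ∧
    (∀ᶠ v in 𝓝 w, v ∈ closedBall (0 : ℂ) 1 \ S →
      ContinuousWithinAt (fun v => Q (f (Ψ v))) (closedBall 0 1 \ S) v) := by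
  have hfc : ContinuousWithinAt (fun v => f (Ψ v)) (closedBall 0 1 \ S) w :=
    f.continuous.continuousAt.comp_continuousWithinAt (hcont w hw)
  have h1 : ∀ᶠ v in 𝓝[closedBall 0 1 \ S] w, HasDerivAt Q (k2 (f (Ψ v))) (f (Ψ v)) := hfc.eventually hQ
  rw [eventually_nhdsWithin_iff] at h1
  constructor
  · filter_upwards [h1] with v hv hvA
    have h2 := hv ⟨ball_subset_closedBall hvA.1, hvA.2⟩
    have h3 : HasDerivAt Ψ (deriv Ψ v) v :=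
      ((hhol v hvA).differentiableAt ((C3_open hS).mem_nhds hvA)).hasDerivAt
    have h4 := hmaps v hvA
    have h5 : Ψ v ∈ (K ∪ L)ᶜ := fun hh => hh.elim h4.1 h4.2
    have h6 : HasDerivAt f (deriv f (Ψ v)) (Ψ v) :=
      ((hf _ h5).differentiableAt ((hK.union hL).isOpen_compl.mem_nhds h5)).hasDerivAt
    have h7 : HasDerivAt (fun v => f (Ψ v)) (deriv f (Ψ v) * deriv Ψ v) v := h6.comp v h3
    have h8 : HasDerivAt (fun v => Q (f (Ψ v))) (k2 (f (Ψ v)) * (deriv f (Ψ v) * deriv Ψ v)) v :=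
      HasDerivAt.comp (h₂ := Q) (h := fun v => f (Ψ v)) v h2 h7
    rw [hrel _ h4.1 h4.2, mul_assoc]
    exact h8
  · filter_upwards [h1] with v hv hvA
    have h9 : ContinuousWithinAt (fun v => f (Ψ v)) (closedBall 0 1 \ S) v :=
      f.continuous.continuousAt.comp_continuousWithinAt (hcont v hvA)
    exact ContinuousAt.comp_continuousWithinAt (g := Q) (f := fun v => f (Ψ v)) (hv hvA).continuousAt h9

/-- local primitives of a holomorphic function -/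
theorem C3_prim {O : Set ℂ} (hO : IsOpen O) {k : ℂ → ℂ} (hk : DifferentiableOn ℂ k O) {q : ℂ} (hq : q ∈ O) :
    ∃ Q : ℂ → ℂ, ∀ᶠ z in 𝓝 q, HasDerivAt Q (k z) z := by
  obtain ⟨r, hr, hrO⟩ := Metric.isOpen_iff.mp hO q hq
  obtain ⟨Q, hQ⟩ := (hk.mono hrO).isExactOn_ball
  exact ⟨Q, by filter_upwards [ball_mem_nhds q hr] with z hz using hQ z hz⟩

/-- Extension of a primitive `P` on the open side to the closed side (minus the points of `T` on the circle).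
`G = extendFrom (ball 0 1 \ S) P`.  Let `w ∈ closedBall 0 1 \ (S ∪ T)`, `q = Ψ w`.  If `q ∉ K` there is a primitive `Q` of `k1` in
a ball round `q` (`DifferentiableOn.isExactOn_ball`); the derivative of `Q ∘ Ψ` at `v ∈ ball 0 1 \ S` near `w` is
`k1 (Ψ v) Ψ'(v)`.  If `q ∉ L` there is a primitive `Q` of `k2` in a ball round `f q` (`f '' Lᶜ` is open), and the
derivative of `Q ∘ f ∘ Ψ` is `k2 (f (Ψ v)) f'(Ψ v) Ψ'(v) = k1 (Ψ v) Ψ'(v)`.  By `rigid`, `P = Q ∘ Ψ + c` (or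
`Q ∘ f ∘ Ψ + c`) at the points of `ball 0 1 \ S` near `w`, and the right side is continuous at `w` within the closed side; so the
limits of `P` exist (`continuousOn_extendFrom`), and the identity extends to the points of the closed side near `w`
(each such point is in the closure of `ball 0 1 \ S`; uniqueness of limits within `ball 0 1 \ S`, using that the right side is
continuous at all points of the closed side near `w`). -/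
theorem side_ext {Ψ : ℂ → ℂ} {S T : Set ℂ} (hS : S.Finite) (hT : T.Finite) (hSb : S ⊆ ball 0 1)
    (hcont : ContinuousOn Ψ (closedBall 0 1 \ S)) (hhol : DifferentiableOn ℂ Ψ (ball 0 1 \ S))
    {K L : Set ℂ} (hK : IsClosed K) (hL : IsClosed L) {f : ℂ ≃ₜ ℂ}
    (hf : DifferentiableOn ℂ f (K ∪ L)ᶜ) {k1 k2 : ℂ → ℂ}
    (hF : Form K L f k1 k2) (hmaps : ∀ w ∈ ball (0 : ℂ) 1 \ S, Ψ w ∉ K ∧ Ψ w ∉ L)
    (hbd : ∀ w ∈ closedBall (0 : ℂ) 1 \ (S ∪ T), Ψ w ∉ K ∨ Ψ w ∉ L) (hTs : T ⊆ sphere 0 1)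
    (P : ℂ → ℂ) (hP : ∀ w ∈ ball (0 : ℂ) 1 \ S, HasDerivAt P (k1 (Ψ w) * deriv Ψ w) w) :
    ∃ G : ℂ → ℂ, Prim Ψ S T K L f k1 k2 G ∧ ∀ w ∈ ball (0 : ℂ) 1 \ S, G w = P w := by
  have hAo := C3_open hS
  have hmono : ∀ w : ℂ, 𝓝[closedBall 0 1 \ (S ∪ T)] w ≤ 𝓝[closedBall 0 1 \ S] w := fun w =>
    nhdsWithin_mono w (fun x hx => ⟨hx.1, fun h => hx.2 (Or.inl h)⟩)
  have hGP : ∀ w ∈ ball (0 : ℂ) 1 \ S, extendFrom (ball 0 1 \ S) P w = P w := fun w hw =>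
    extendFrom_eq (subset_closure hw) (hP w hw).continuousAt.continuousWithinAt
  have hPK : ∀ w ∈ closedBall (0 : ℂ) 1 \ S, ∀ Q : ℂ → ℂ, (∀ᶠ z in 𝓝 (Ψ w), HasDerivAt Q (k1 z) z) →
      ∃ c, ∀ᶠ v in 𝓝 w, v ∈ closedBall (0 : ℂ) 1 \ S →
        Tendsto P (𝓝[ball 0 1 \ S] v) (𝓝 (Q (Ψ v) + c)) ∧
          extendFrom (ball 0 1 \ S) P v = Q (Ψ v) + c := by
    intro w hw Q hQ
    obtain ⟨h1, h2⟩ := C3_K hS hcont hhol hw hQ
    exact C3_loc (R := fun v => Q (Ψ v)) hS hw.1 hw.2 hP h1 h2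
  have hPL : ∀ w ∈ closedBall (0 : ℂ) 1 \ S, ∀ Q : ℂ → ℂ, (∀ᶠ z in 𝓝 (f (Ψ w)), HasDerivAt Q (k2 z) z) →
      ∃ c, ∀ᶠ v in 𝓝 w, v ∈ closedBall (0 : ℂ) 1 \ S →
        Tendsto P (𝓝[ball 0 1 \ S] v) (𝓝 (Q (f (Ψ v)) + c)) ∧
          extendFrom (ball 0 1 \ S) P v = Q (f (Ψ v)) + c := by
    intro w hw Q hQ
    obtain ⟨h1, h2⟩ := C3_L hS hcont hhol hK hL hf hF.rel hmaps hw hQ
    exact C3_loc (R := fun v => Q (f (Ψ v))) hS hw.1 hw.2 hP h1 h2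
  refine ⟨extendFrom (ball 0 1 \ S) P, ⟨?_, ?_, ?_, ?_⟩, hGP⟩
  · refine continuousOn_extendFrom (fun x hx => C3_cl hS hx.1) ?_
    intro w hw
    have hw' : w ∈ closedBall (0 : ℂ) 1 \ S := ⟨hw.1, fun h => hw.2 (Or.inl h)⟩
    rcases hbd w hw with hq | hq
    · obtain ⟨Q, hQ⟩ := C3_prim hK.isOpen_compl hF.hol1 (q := Ψ w) hq
      obtain ⟨c, hc⟩ := hPK w hw' Q hQ
      exact ⟨_, (hc.self_of_nhds hw').1⟩
    · have hOf : IsOpen (f '' Lᶜ) := f.isOpenMap _ hL.isOpen_compl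
      obtain ⟨Q, hQ⟩ := C3_prim hOf hF.hol2 (q := f (Ψ w)) (mem_image_of_mem f hq)
      obtain ⟨c, hc⟩ := hPL w hw' Q hQ
      exact ⟨_, (hc.self_of_nhds hw').1⟩
  · intro w hw
    refine (hP w hw).congr_of_eventuallyEq ?_
    filter_upwards [hAo.mem_nhds hw] with v hv using hGP v hv
  · intro w hw _ Q hQ
    have hw' : w ∈ closedBall (0 : ℂ) 1 \ S := ⟨hw.1, fun h => hw.2 (Or.inl h)⟩
    obtain ⟨c, hc⟩ := hPK w hw' Q hQ
    refine ⟨c, ?_⟩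
    filter_upwards [mem_nhdsWithin_of_mem_nhds hc, self_mem_nhdsWithin] with v hv hvD
    exact (hv ⟨hvD.1, fun h => hvD.2 (Or.inl h)⟩).2
  · intro w hw _ Q hQ
    have hw' : w ∈ closedBall (0 : ℂ) 1 \ S := ⟨hw.1, fun h => hw.2 (Or.inl h)⟩
    obtain ⟨c, hc⟩ := hPL w hw' Q hQ
    refine ⟨c, ?_⟩
    filter_upwards [mem_nhdsWithin_of_mem_nhds hc, self_mem_nhdsWithin] with v hv hvD
    exact (hv ⟨hvD.1, fun h => hvD.2 (Or.inl h)⟩).2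

end Pool.Agent.H.MP_4bdd60_an
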