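import Pool.Agent.H.MP_4bdd60_an.Defs

/-!
# MP_4bdd60_an, part C: rigidity near a point of the closed disc
-/

open Set Filter Topology Metric MeasureTheory
open scoped ENNReal Real

namespace Pool.Agent.H.MP_4bdd60_an

/-- If `P` and `R` have the same derivative at the points of `ball 0 1 \ S` near a point `w` of the closed ball, `w ∉ S`,
then `P - R` is constant on `(ball 0 1 \ S) ∩ ball w r` for some `r > 0`.  For small `r` the ball avoids the finite set `S`,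
and `ball 0 1 ∩ ball w r` is convex and open (`IsOpen.is_const_of_deriv_eq_zero` with a preconnected set, or
`Convex.is_const_of_fderivWithin_eq_zero`). -/
theorem rigid {S : Set ℂ} (hS : S.Finite) {w : ℂ} (hw : w ∈ closedBall (0 : ℂ) 1) (hwS : w ∉ S)
    {P R : ℂ → ℂ} {g : ℂ → ℂ}
    (hP : ∀ᶠ v in 𝓝 w, v ∈ ball (0 : ℂ) 1 \ S → HasDerivAt P (g v) v)
    (hR : ∀ᶠ v in 𝓝 w, v ∈ ball (0 : ℂ) 1 \ S → HasDerivAt R (g v) v) :
    ∃ c, ∀ᶠ v in 𝓝 w, v ∈ ball (0 : ℂ) 1 \ S → P v = R v + c := by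
  have _ := hw
  have hS' : ∀ᶠ v in 𝓝 w, v ∉ S := hS.isClosed.isOpen_compl.mem_nhds hwS
  obtain ⟨r, hr, hball⟩ := Metric.eventually_nhds_iff_ball.1 (hS'.and (hP.and hR))
  have hopen : IsOpen (ball (0 : ℂ) 1 ∩ ball w r) := isOpen_ball.inter isOpen_ball
  have hconv : IsPreconnected (ball (0 : ℂ) 1 ∩ ball w r) :=
    ((convex_ball _ _).inter (convex_ball _ _)).isPreconnected
  have hder : ∀ v ∈ ball (0 : ℂ) 1 ∩ ball w r, HasDerivAt (fun v => P v - R v) 0 v := by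
    rintro v ⟨h1, h2⟩
    obtain ⟨h3, h4, h5⟩ := hball v h2
    have h6 := (h4 ⟨h1, h3⟩).sub (h5 ⟨h1, h3⟩)
    rwa [sub_self] at h6
  have hconst : ∀ v ∈ ball (0 : ℂ) 1 ∩ ball w r, ∀ v' ∈ ball (0 : ℂ) 1 ∩ ball w r,
      P v - R v = P v' - R v' := by
    intro v hv v' hv'
    exact hopen.is_const_of_deriv_eq_zero (f := fun v => P v - R v) hconv
      (fun u hu => (hder u hu).differentiableAt.differentiableWithinAt)
      (fun u hu => (hder u hu).deriv) hv hv'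
  by_cases hne : (ball (0 : ℂ) 1 ∩ ball w r).Nonempty
  · obtain ⟨v0, hv0⟩ := hne
    refine ⟨P v0 - R v0, ?_⟩
    filter_upwards [ball_mem_nhds w hr] with v hv hv1
    rw [← hconst v ⟨hv1.1, hv⟩ v0 hv0]
    ring
  · refine ⟨0, ?_⟩
    filter_upwards [ball_mem_nhds w hr] with v hv hv1
    exact absurd ⟨v, hv1.1, hv⟩ hne

end Pool.Agent.H.MP_4bdd60_an
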