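import Mathlib


/-!
# MP_4bdd60_an, part F: general facts on holomorphic functions
-/

open Set Filter Topology Metric

namespace Pool.Agent.H.MP_4bdd60_an

/-- A holomorphic function near infinity with `F z - z` bounded is injective near infinity.
Proof: `g z = F z - z` has `|g| ≤ C`, by the Cauchy estimate `|g'| ≤ 1/2` near infinity.  If `F z = F w` then
`|z - w| = |g w - g z| ≤ 2 C`, so the segment from `z` to `w` stays near infinity and `|g w - g z| ≤ |z - w| / 2`. -/
theorem inj_inf {F : ℂ → ℂ} {R C : ℝ} (hF : DifferentiableOn ℂ F (closedBall 0 R)ᶜ)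
    (hb : ∀ z, R < ‖z‖ → ‖F z - z‖ ≤ C) : ∃ R' : ℝ, InjOn F {z | R' < ‖z‖} := by
  have hC : 0 ≤ C := by
    have h1 : R < ‖((|R| + 1 : ℝ) : ℂ)‖ := by
      rw [Complex.norm_real, Real.norm_eq_abs, abs_of_pos (by positivity)]
      linarith [le_abs_self R]
    exact (norm_nonneg _).trans (hb _ h1)
  have hopen : IsOpen ((closedBall (0 : ℂ) R)ᶜ) := isClosed_closedBall.isOpen_compl
  have hmem : ∀ u : ℂ, R < ‖u‖ → u ∈ (closedBall (0 : ℂ) R)ᶜ := by
    intro u hu
    simpa [mem_closedBall, dist_zero_right] using hu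
  have hdiff : ∀ u : ℂ, R < ‖u‖ → DifferentiableAt ℂ (fun z => F z - z) u := by
    intro u hu
    exact ((hF u (hmem u hu)).differentiableAt (hopen.mem_nhds (hmem u hu))).sub differentiableAt_id
  have hder : ∀ u : ℂ, R + (2 * C + 1) < ‖u‖ → ‖deriv (fun z => F z - z) u‖ ≤ 1 / 2 := by
    intro u hu
    have hρ : 0 < 2 * C + 1 := by positivity
    have hcl : ∀ z ∈ closedBall u (2 * C + 1), R < ‖z‖ := by
      intro z hz
      rw [mem_closedBall, dist_comm, dist_eq_norm] at hz
      have h2 : ‖u‖ ≤ ‖u - z‖ + ‖z‖ := by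
        have := norm_add_le (u - z) z
        rwa [sub_add_cancel] at this
      linarith
    have h3 : DiffContOnCl ℂ (fun z => F z - z) (ball u (2 * C + 1)) := by
      refine DifferentiableOn.diffContOnCl ?_
      rw [closure_ball u hρ.ne']
      intro z hz
      exact (hdiff z (hcl z hz)).differentiableWithinAt
    have h4 := Complex.norm_deriv_le_of_forall_mem_sphere_norm_le hρ h3
      (fun z hz => hb z (hcl z (sphere_subset_closedBall hz)))
    refine h4.trans ?_
    rw [div_le_div_iff₀ hρ two_pos]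
    linarith
  refine ⟨R + (4 * C + 1), ?_⟩
  intro z hz w hw hzw
  have hz' : R + (4 * C + 1) < ‖z‖ := hz
  have hw' : R + (4 * C + 1) < ‖w‖ := hw
  have hz1 := hb z (by linarith)
  have hw1 := hb w (by linarith)
  have hzw2 : ‖w - z‖ ≤ 2 * C := by
    have h5 : w - z = (F z - z) - (F w - w) := by
      rw [hzw]
      ring
    rw [h5]
    exact (norm_sub_le _ _).trans (by linarith)
  have hball : ∀ u ∈ closedBall z (2 * C), R + (2 * C + 1) < ‖u‖ := by
    intro u hu
    rw [mem_closedBall, dist_comm, dist_eq_norm] at hu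
    have h2 : ‖z‖ ≤ ‖z - u‖ + ‖u‖ := by
      have := norm_add_le (z - u) u
      rwa [sub_add_cancel] at this
    linarith
  have h6 := (convex_closedBall z (2 * C)).norm_image_sub_le_of_norm_deriv_le
    (f := fun z => F z - z) (C := 1 / 2) (x := z) (y := w)
    (fun u hu => hdiff u (by linarith [hball u hu])) (fun u hu => hder u (hball u hu))
    (mem_closedBall_self (by positivity)) (by rwa [mem_closedBall, dist_eq_norm])
  have h7 : (F w - w) - (F z - z) = -(w - z) := by
    rw [hzw]
    ring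
  have h8 : ‖w - z‖ ≤ 1 / 2 * ‖w - z‖ := by
    have h9 : ‖(F w - w) - (F z - z)‖ ≤ 1 / 2 * ‖w - z‖ := h6
    rwa [h7, norm_neg] at h9
  have h10 : ‖w - z‖ = 0 := by
    have := norm_nonneg (w - z)
    linarith
  exact (sub_eq_zero.1 (norm_eq_zero.1 h10)).symm

end Pool.Agent.H.MP_4bdd60_an
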