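import Mathlib

/-!
# MP_4bdd60_an, part F: general facts on holomorphic functions
-/

open Set Filter Topology Metric

namespace Pool.Agent.H.MP_4bdd60_an

/-- Zeros of a holomorphic function which is not zero near any point are isolated, so they form a countable set
(a discrete subset of a second countable space). -/
theorem countable_zeros {U : Set ℂ} (hU : IsOpen U) {k : ℂ → ℂ} (hk : DifferentiableOn ℂ k U)
    (hn : ∀ z ∈ U, ¬ ∀ᶠ y in 𝓝 z, k y = 0) : {z | z ∈ U ∧ k z = 0}.Countable := by
  have hd : DiscreteTopology ({z | z ∈ U ∧ k z = 0} : Set ℂ) := by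
    rw [discreteTopology_subtype_iff]
    rintro z ⟨hz, -⟩
    have hA : AnalyticAt ℂ k z := hk.analyticAt (hU.mem_nhds hz)
    rcases hA.eventually_eq_zero_or_eventually_ne_zero with h | h
    · exact absurd h (hn z hz)
    · rw [← disjoint_iff, disjoint_principal_right]
      filter_upwards [h] with y hy hy'
      exact hy hy'.2
  exact Set.countable_coe_iff.1 (TopologicalSpace.separableSpace_iff_countable.1 inferInstance)

theorem F4a_analyticAt {F k : ℂ → ℂ} {U : Set ℂ} (hU : IsOpen U) (hF : ∀ z ∈ U, HasDerivAt F (k z) z)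
    {z : ℂ} (hz : z ∈ U) : AnalyticAt ℂ F z := by
  have hd : DifferentiableOn ℂ F U := fun y hy => (hF y hy).differentiableAt.differentiableWithinAt
  exact hd.analyticAt (hU.mem_nhds hz)

/-- Open mapping theorem at a point (`AnalyticAt.eventually_constant_or_nhds_le_map_nhds`). -/
theorem open_at {F k : ℂ → ℂ} {U : Set ℂ} (hU : IsOpen U) (hF : ∀ z ∈ U, HasDerivAt F (k z) z)
    (hn : ∀ z ∈ U, ¬ ∀ᶠ y in 𝓝 z, k y = 0) : ∀ z ∈ U, ∀ N ∈ 𝓝 z, F '' N ∈ 𝓝 (F z) := by
  intro z hz N hN
  rcases (F4a_analyticAt hU hF hz).eventually_constant_or_nhds_le_map_nhds with h | h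
  · exfalso
    refine hn z hz ?_
    filter_upwards [h.eventually_nhds, hU.mem_nhds hz] with y hy hyU
    have h1 : F =ᶠ[𝓝 y] fun _ => F z := hy
    have h2 : HasDerivAt F 0 y := (hasDerivAt_const y (F z)).congr_of_eventuallyEq h1
    exact (hF y hyU).unique h2
  · exact h (image_mem_map hN)

/-- Injectivity near a point with nonzero derivative (`HasStrictDerivAt`, inverse function theorem). -/
theorem inj_at {F k : ℂ → ℂ} {U : Set ℂ} (hU : IsOpen U) (hF : ∀ z ∈ U, HasDerivAt F (k z) z) {z : ℂ}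
    (hz : z ∈ U) (hk : k z ≠ 0) : ∃ N ∈ 𝓝 z, InjOn F N := by
  have h1 : HasStrictDerivAt F (deriv F z) z := (F4a_analyticAt hU hF hz).hasStrictDerivAt
  have h2 : deriv F z ≠ 0 := by
    rw [(hF z hz).deriv]
    exact hk
  have h3 := h1.hasStrictFDerivAt_equiv h2
  exact ⟨(h3.toOpenPartialHomeomorph F).source,
    (h3.toOpenPartialHomeomorph F).open_source.mem_nhds h3.mem_toOpenPartialHomeomorph_source,
    (h3.toOpenPartialHomeomorph F).injOn⟩

end Pool.Agent.H.MP_4bdd60_an
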