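import Mathlib

/-!
# MP_4bdd60_an, part H: a proper map which is injective near infinity, and open and injective near most points
-/

open Set Filter Topology Metric

namespace Pool.Agent.H.MP_4bdd60_an

/-- The fibres over points outside `F '' Z'` are finite, and near such a point the number of preimages is constant. -/
theorem H1a_local (F : ℂ → ℂ) (hF : IsProperMap F) (Z' : Set ℂ)
    (hloc : ∀ z, z ∉ Z' → ∃ N ∈ 𝓝 z, InjOn F N)
    (hopen : ∀ z, z ∉ Z' → ∀ N ∈ 𝓝 z, F '' N ∈ 𝓝 (F z)) (w0 : ℂ) (hw0 : w0 ∉ F '' Z') :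
    (F ⁻¹' {w0}).Finite ∧ ∀ᶠ w in 𝓝 w0, (F ⁻¹' {w}).ncard = (F ⁻¹' {w0}).ncard := by
  have hZ' : ∀ z ∈ F ⁻¹' {w0}, z ∉ Z' := by
    intro z hz hzZ
    exact hw0 ⟨z, hzZ, hz⟩
  choose! N hN hinj using hloc
  have hcomp : IsCompact (F ⁻¹' {w0}) := hF.isCompact_preimage isCompact_singleton
  have hfin : (F ⁻¹' {w0}).Finite := by
    obtain ⟨t, ht, hcov⟩ := hcomp.elim_nhds_subcover N (fun z hz => hN z (hZ' z hz))
    refine t.finite_toSet.subset ?_
    intro s hs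
    obtain ⟨z, hz, hsz⟩ := mem_iUnion₂.1 (hcov hs)
    have h1 : z ∈ F ⁻¹' {w0} := ht z hz
    have h2 : F s = F z := by
      rw [mem_preimage, mem_singleton_iff] at hs h1
      rw [hs, h1]
    have h3 : s = z := hinj z (hZ' z h1) hsz (mem_of_mem_nhds (hN z (hZ' z h1))) h2
    rw [h3]
    exact hz
  refine ⟨hfin, ?_⟩
  obtain ⟨U, hU, hdisj⟩ := hfin.t2_separation
  obtain ⟨P, hP⟩ : ∃ P : ℂ → Set ℂ, P = fun z => U z ∩ interior (N z) := ⟨_, rfl⟩
  have hPo : ∀ z, IsOpen (P z) := by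
    intro z
    rw [hP]
    exact (hU z).2.inter isOpen_interior
  have hPm : ∀ z ∈ F ⁻¹' {w0}, z ∈ P z := by
    intro z hz
    rw [hP]
    exact ⟨(hU z).1, mem_interior_iff_mem_nhds.2 (hN z (hZ' z hz))⟩
  have hPi : ∀ z ∈ F ⁻¹' {w0}, InjOn F (P z) := by
    intro z hz
    rw [hP]
    exact (hinj z (hZ' z hz)).mono (inter_subset_right.trans interior_subset)
  have hPd : ∀ z ∈ F ⁻¹' {w0}, ∀ z' ∈ F ⁻¹' {w0}, z ≠ z' → Disjoint (P z) (P z') := by
    intro z hz z' hz' hne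
    rw [hP]
    exact (hdisj hz hz' hne).mono inter_subset_left inter_subset_left
  have hO : IsOpen (⋃ z ∈ F ⁻¹' {w0}, P z) := isOpen_biUnion fun z _ => hPo z
  have hV : (F '' (⋃ z ∈ F ⁻¹' {w0}, P z)ᶜ)ᶜ ∈ 𝓝 w0 := by
    refine (hF.isClosedMap _ hO.isClosed_compl).isOpen_compl.mem_nhds ?_
    rintro ⟨z, hz, hzw⟩
    exact hz (mem_biUnion hzw (hPm z hzw))
  have hI : ∀ᶠ w in 𝓝 w0, ∀ z ∈ F ⁻¹' {w0}, w ∈ F '' P z := by
    rw [hfin.eventually_all]
    intro z hz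
    have h1 := hopen z (hZ' z hz) (P z) ((hPo z).mem_nhds (hPm z hz))
    rw [mem_preimage, mem_singleton_iff] at hz
    rw [hz] at h1
    exact h1
  filter_upwards [hV, hI] with w hw1 hw2
  choose! g hg1 hg2 using hw2
  symm
  refine ncard_congr (fun z _ => g z) ?_ ?_ ?_
  · intro z hz
    exact hg2 z hz
  · intro z z' hz hz' h
    by_contra hne
    refine (Set.disjoint_left.1 (hPd z hz z' hz' hne)) (hg1 z hz) ?_
    have h1 := hg1 z' hz'
    have h2 : g z = g z' := h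
    rwa [← h2] at h1
  · intro v hv
    have h1 : v ∈ ⋃ z ∈ F ⁻¹' {w0}, P z := by
      by_contra hcon
      exact hw1 ⟨v, hcon, hv⟩
    obtain ⟨z, hz, hvz⟩ := mem_iUnion₂.1 h1
    refine ⟨z, hz, ?_⟩
    refine hPi z hz (hg1 z hz) hvz ?_
    rw [hg2 z hz]
    exact hv.symm

/-- The number of preimages is constant off a countable set.
Let `Z' = Z ∪ {a, b}`.  `Y = (F '' Z')ᶜ` is connected (`Set.Countable.isConnected_compl_of_one_lt_rank`, the dimension of `ℂ` over `ℝ` is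
two).  For `w0 ∈ Y` the fibre `F ⁻¹' {w0}` is compact (properness) and discrete (each of its points is not in `Z'`, so `F` is
injective near it), so finite; choose disjoint open neighbourhoods `N_i` of its points on which `F` is injective; `F '' N_i`
is a neighbourhood of `w0`; by properness `F ⁻¹' V ⊆ ⋃ N_i` for some neighbourhood `V` of `w0`.  So for `w` near `w0` the fibre has
exactly one point in each `N_i`: `ncard` is locally constant on `Y`. -/
theorem fibre_const (F : ℂ → ℂ) (hF : Continuous F) (a b : ℂ)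
    (hprop : Tendsto F (cocompact ℂ) (cocompact ℂ)) (Z : Set ℂ) (hZ : Z.Countable)
    (hloc : ∀ z, z ∉ Z → ∃ N ∈ 𝓝 z, InjOn F N)
    (hopen : ∀ z, z ≠ a → z ≠ b → ∀ N ∈ 𝓝 z, F '' N ∈ 𝓝 (F z)) :
    ∃ n : ℕ, ∀ w, w ∉ F '' (Z ∪ {a, b}) → (F ⁻¹' {w}).Finite ∧ (F ⁻¹' {w}).ncard = n := by
  have hPF : IsProperMap F := isProperMap_iff_tendsto_cocompact.2 ⟨hF, hprop⟩
  have hcount : (F '' (Z ∪ {a, b})).Countable :=
    (hZ.union (Set.toFinite {a, b}).countable).image F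
  have hconn : IsConnected (F '' (Z ∪ {a, b}))ᶜ :=
    hcount.isConnected_compl_of_one_lt_rank (by simp)
  have hl : ∀ w0, w0 ∉ F '' (Z ∪ {a, b}) → (F ⁻¹' {w0}).Finite ∧
      ∀ᶠ w in 𝓝 w0, (F ⁻¹' {w}).ncard = (F ⁻¹' {w0}).ncard := by
    intro w0 hw0
    refine H1a_local F hPF (Z ∪ {a, b}) ?_ ?_ w0 hw0
    · intro z hz
      exact hloc z fun h => hz (Or.inl h)
    · intro z hz
      refine hopen z ?_ ?_
      · rintro rfl
        exact hz (Or.inr (by simp))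
      · rintro rfl
        exact hz (Or.inr (by simp))
  obtain ⟨w1, hw1⟩ := hconn.nonempty
  refine ⟨(F ⁻¹' {w1}).ncard, fun w hw => ⟨(hl w hw).1, ?_⟩⟩
  have hc : ContinuousOn (fun w => (F ⁻¹' {w}).ncard) (F '' (Z ∪ {a, b}))ᶜ := by
    intro w0 hw0
    have h1 : (fun w => (F ⁻¹' {w}).ncard) =ᶠ[𝓝 w0] fun _ => (F ⁻¹' {w0}).ncard := (hl w0 hw0).2
    exact (continuousAt_const.congr h1.symm).continuousWithinAt
  exact hconn.isPreconnected.constant hc hw hw1

end Pool.Agent.H.MP_4bdd60_an
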