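import Mathlib
import Pool.Agent.H.MP_4bdd60_an.H1a

/-!
# MP_4bdd60_an, part H: a proper map which is injective near infinity, and open and injective near most points
-/

open Set Filter Topology Metric

namespace Pool.Agent.H.MP_4bdd60_an

/-- The number is one: let `F` be injective on `{R < ‖z‖}`.  By properness there is `R1` such that `‖F z‖ > R1` for
large `z` and `‖F z‖ ≤ R1` for `‖z‖ ≤ R`; the values `F z` with `z` large, off `F '' (Z ∪ {a,b})`, have exactly one preimage.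
(Such `z` exist: `F` is injective near infinity and the set `Z ∪ {a,b}` is countable, so `F ⁻¹'` of its image meets
`{R < ‖z‖}` in a countable set.) -/
theorem fibre_one (F : ℂ → ℂ) (hF : Continuous F) (a b : ℂ)
    (hprop : Tendsto F (cocompact ℂ) (cocompact ℂ)) (hinf : ∃ R : ℝ, InjOn F {z | R < ‖z‖})
    (Z : Set ℂ) (hZ : Z.Countable) (hloc : ∀ z, z ∉ Z → ∃ N ∈ 𝓝 z, InjOn F N)
    (hopen : ∀ z, z ≠ a → z ≠ b → ∀ N ∈ 𝓝 z, F '' N ∈ 𝓝 (F z)) :
    ∀ w, w ∉ F '' (Z ∪ {a, b}) → ∃! z, F z = w := by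
  obtain ⟨n, hn⟩ := fibre_const F hF a b hprop Z hZ hloc hopen
  obtain ⟨R, hR⟩ := hinf
  have hcount : (F '' (Z ∪ {a, b})).Countable :=
    (hZ.union (Set.toFinite {a, b}).countable).image F
  obtain ⟨R1, hR1⟩ : ∃ R1 : ℝ, ∀ z ∈ closedBall (0 : ℂ) R, ‖F z‖ ≤ R1 :=
    (isCompact_closedBall (0 : ℂ) R).exists_bound_of_continuousOn hF.continuousOn
  have hbig : ∀ᶠ z in cocompact ℂ, R1 < ‖F z‖ := by
    have h1 : ∀ᶠ w in cocompact ℂ, R1 < ‖w‖ :=
      (tendsto_norm_cocompact_atTop (E := ℂ)).eventually_gt_atTop R1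
    exact hprop.eventually h1
  obtain ⟨R2, hR2⟩ : ∃ R2 : ℝ, ∀ z : ℂ, R2 < ‖z‖ → R1 < ‖F z‖ := by
    obtain ⟨t, ht, hsub⟩ := mem_cocompact.1 hbig
    obtain ⟨R2, hR2⟩ := ht.isBounded.subset_closedBall (0 : ℂ)
    refine ⟨R2, fun z hz => hsub fun hzt => ?_⟩
    have h2 := hR2 hzt
    rw [mem_closedBall, dist_zero_right] at h2
    exact absurd h2 (not_le.2 hz)
  obtain ⟨S, hS⟩ : ∃ S : Set ℂ, S = {z | max R R2 < ‖z‖} := ⟨_, rfl⟩
  have hSo : IsOpen S := by
    rw [hS]
    exact isOpen_lt continuous_const continuous_norm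
  have hSn : S.Nonempty := by
    refine ⟨((|max R R2| + 1 : ℝ) : ℂ), ?_⟩
    rw [hS]
    show max R R2 < ‖((|max R R2| + 1 : ℝ) : ℂ)‖
    rw [Complex.norm_real, Real.norm_eq_abs]
    have h1 : max R R2 ≤ |max R R2| := le_abs_self _
    have h2 : |max R R2| + 1 ≤ |(|max R R2| + 1)| := le_abs_self _
    linarith
  have hSi : InjOn F S := by
    refine hR.mono ?_
    rw [hS]
    intro z hz
    have h1 : max R R2 < ‖z‖ := hz
    exact lt_of_le_of_lt (le_max_left R R2) h1
  have hc : (S ∩ F ⁻¹' (F '' (Z ∪ {a, b}))).Countable := by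
    refine MapsTo.countable_of_injOn (f := F) (t := F '' (Z ∪ {a, b})) ?_ ?_ hcount
    · intro z hz
      exact hz.2
    · exact hSi.mono inter_subset_left
  obtain ⟨z0, hz0S, hz0⟩ := (hc.dense_compl ℝ).inter_open_nonempty S hSo hSn
  have hw0 : F z0 ∉ F '' (Z ∪ {a, b}) := fun h => hz0 ⟨hz0S, h⟩
  have hS' : max R R2 < ‖z0‖ := by
    rw [hS] at hz0S
    exact hz0S
  have hone : F ⁻¹' {F z0} = {z0} := by
    ext z
    rw [mem_preimage, mem_singleton_iff, mem_singleton_iff]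
    constructor
    · intro hz
      have h1 : R1 < ‖F z0‖ := hR2 z0 (lt_of_le_of_lt (le_max_right _ _) hS')
      have h2 : R < ‖z‖ := by
        by_contra hcon
        have h3 := hR1 z (by
          rw [mem_closedBall, dist_zero_right]
          exact not_lt.1 hcon)
        rw [hz] at h3
        exact absurd h3 (not_le.2 h1)
      exact hR h2 (lt_of_le_of_lt (le_max_left _ _) hS') hz
    · rintro rfl
      rfl
  have hn1 : n = 1 := by
    rw [← (hn (F z0) hw0).2, hone, ncard_singleton]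
  intro w hw
  have h1 := (hn w hw).2
  rw [hn1, ncard_eq_one] at h1
  obtain ⟨z, hz⟩ := h1
  refine ⟨z, ?_, ?_⟩
  · have h2 : z ∈ F ⁻¹' {w} := by
      rw [hz]
      exact mem_singleton z
    exact h2
  · intro y hy
    have h2 : y ∈ F ⁻¹' {w} := hy
    rw [hz] at h2
    exact h2

end Pool.Agent.H.MP_4bdd60_an
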