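import Mathlib
import Pool.Agent.H.MP_4bdd60_an.H1a
import Pool.Agent.H.MP_4bdd60_an.H1b

/-!
# MP_4bdd60_an, part H: a proper map which is injective near infinity, and open and injective near most points
-/

open Set Filter Topology Metric

namespace Pool.Agent.H.MP_4bdd60_an

/-- The punctured disc is preconnected. -/
theorem H1_punctured (w : ℂ) (r : ℝ) : IsPreconnected (ball w r \ {w}) := by
  have hrank : 1 < Module.rank ℝ ℂ := by
    rw [Complex.rank_real_complex]
    norm_num
  have h1 : IsPreconnected ((Ioo (0 : ℝ) r) ×ˢ (sphere (0 : ℂ) 1)) :=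
    isPreconnected_Ioo.prod (isPreconnected_sphere hrank 0 1)
  have h2 : ContinuousOn (fun p : ℝ × ℂ => w + (p.1 : ℂ) * p.2)
      ((Ioo (0 : ℝ) r) ×ˢ (sphere (0 : ℂ) 1)) := by
    apply Continuous.continuousOn
    fun_prop
  have h3 := h1.image _ h2
  convert h3 using 1
  ext z
  simp only [Set.mem_sdiff, mem_ball, mem_singleton_iff, mem_image, mem_prod, mem_Ioo,
    mem_sphere_iff_norm, sub_zero, Prod.exists]
  constructor
  · rintro ⟨hz, hne⟩
    have hpos : 0 < ‖z - w‖ := norm_pos_iff.2 (sub_ne_zero.2 hne)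
    refine ⟨‖z - w‖, (z - w) / (‖z - w‖ : ℂ), ⟨⟨hpos, ?_⟩, ?_⟩, ?_⟩
    · rwa [dist_eq_norm] at hz
    · rw [norm_div, Complex.norm_real, norm_norm, div_self hpos.ne']
    · rw [mul_div_cancel₀]
      · ring
      · exact_mod_cast hpos.ne'
  · rintro ⟨t, u, ⟨⟨ht0, htr⟩, hu⟩, rfl⟩
    constructor
    · rw [dist_eq_norm, add_sub_cancel_left, norm_mul, Complex.norm_real, hu, mul_one,
        Real.norm_eq_abs, abs_of_pos ht0]
      exact htr
    · intro h
      have h4 : (t : ℂ) * u = 0 := by
        have := congrArg (fun x => x - w) h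
        simpa using this
      rcases mul_eq_zero.1 h4 with h5 | h5
      · have : t = 0 := by exact_mod_cast h5
        exact ht0.ne' this
      · rw [h5, norm_zero] at hu
        exact zero_ne_one hu

/-- Conclusion.  Let `F x = F y`, `x ≠ y`.  Case `x, y ∉ {a, b}`: disjoint neighbourhoods, the images are neighbourhoods of the common
value, so (a countable set has dense complement) they contain a common value off `F '' (Z ∪ {a,b})`, contradiction to
`fibre_one`.  Case `x = a`, `y ∉ {a, b}`: the image of a small neighbourhood of `y` is a neighbourhood of `F a`, so it contains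
`F a'` for `a'` near `a`, `a' ≠ a`, reduce to the first case (same for `b`).  Case `x = a`, `y = b`, with common value `w`:
then `F ⁻¹' {w} = {a, b}` by the previous cases; take disjoint balls `Na`, `Nb` and `r > 0` with `F ⁻¹' (ball w r) ⊆ Na ∪ Nb`
(properness); `F` maps `F ⁻¹' (ball w r \ {w})` bijectively, continuously and openly onto the punctured ball (onto: the image of `F` is
closed and dense), which is connected; but the preimage is the union of two disjoint nonempty open sets in `Na` and `Nb`,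
with disjoint open images: contradiction.  Surjectivity: the image of the proper map `F` is closed and contains a dense set.
A continuous proper bijection is a homeomorphism (`Homeomorph` from a closed map). -/
theorem homeo_of_charts (F : ℂ → ℂ) (hF : Continuous F) (a b : ℂ) (hab : a ≠ b)
    (hprop : Tendsto F (cocompact ℂ) (cocompact ℂ)) (hinf : ∃ R : ℝ, InjOn F {z | R < ‖z‖})
    (Z : Set ℂ) (hZ : Z.Countable) (hloc : ∀ z, z ∉ Z → ∃ N ∈ 𝓝 z, InjOn F N)
    (hopen : ∀ z, z ≠ a → z ≠ b → ∀ N ∈ 𝓝 z, F '' N ∈ 𝓝 (F z)) :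
    ∃ g : ℂ ≃ₜ ℂ, ∀ z, g z = F z := by
  classical
  have hone := fibre_one F hF a b hprop hinf Z hZ hloc hopen
  have hcount : (F '' (Z ∪ {a, b})).Countable := by
    apply Countable.image
    exact hZ.union ((Set.finite_singleton b).insert a).countable
  have hdense : Dense (F '' (Z ∪ {a, b}))ᶜ := hcount.dense_compl ℝ
  -- first case
  have case1 : ∀ x y, x ≠ a → x ≠ b → y ≠ a → y ≠ b → F x = F y → x = y := by
    intro x y hxa hxb hya hyb hxy
    by_contra hne
    obtain ⟨Nx, Ny, hNx, hNy, hxN, hyN, hdis⟩ := t2_separation hne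
    have h1 := hopen x hxa hxb Nx (hNx.mem_nhds hxN)
    have h2 := hopen y hya hyb Ny (hNy.mem_nhds hyN)
    rw [← hxy] at h2
    obtain ⟨w, hw1, hw2⟩ := mem_closure_iff_nhds.1 (hdense (F x)) _ (Filter.inter_mem h1 h2)
    obtain ⟨⟨x', hx', hx'w⟩, ⟨y', hy', hy'w⟩⟩ := hw1
    have h3 := (hone w hw2).unique hx'w hy'w
    rw [h3] at hx'
    exact Set.disjoint_left.1 hdis hx' hy'
  -- second case, for a point c which is a or b
  have case2 : ∀ c y, (c = a ∨ c = b) → y ≠ a → y ≠ b → F c = F y → False := by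
    intro c y hc hya hyb hcy
    have hcy' : c ≠ y := by
      rintro rfl
      rcases hc with h | h
      · exact hya h
      · exact hyb h
    obtain ⟨Nc, Ny, hNc, hNy, hcN, hyN, hdis⟩ := t2_separation hcy'
    have hNy' : Ny ∩ {a, b}ᶜ ∈ 𝓝 y := by
      apply Filter.inter_mem (hNy.mem_nhds hyN)
      apply IsOpen.mem_nhds
      · exact ((Set.finite_singleton b).insert a).isClosed.isOpen_compl
      · simp [hya, hyb]
    have h1 := hopen y hya hyb _ hNy'
    rw [← hcy] at h1
    have h2 : F ⁻¹' (F '' (Ny ∩ {a, b}ᶜ)) ∩ Nc ∈ 𝓝 c :=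
      Filter.inter_mem (hF.continuousAt h1) (hNc.mem_nhds hcN)
    have h3 : ({a, b} : Set ℂ).Countable := ((Set.finite_singleton b).insert a).countable
    obtain ⟨c', hc'1, hc'2⟩ := mem_closure_iff_nhds.1 ((h3.dense_compl ℝ) c) _ h2
    obtain ⟨⟨y', ⟨hy'N, hy'ab⟩, hy'e⟩, hc'N⟩ := hc'1
    simp only [mem_compl_iff, mem_insert_iff, mem_singleton_iff, not_or] at hc'2 hy'ab
    have h4 := case1 y' c' hy'ab.1 hy'ab.2 hc'2.1 hc'2.2 hy'e
    rw [h4] at hy'N
    exact Set.disjoint_left.1 hdis hc'N hy'N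
  -- surjectivity
  have hproper : IsProperMap F := isProperMap_iff_tendsto_cocompact.2 ⟨hF, hprop⟩
  have hclosed : IsClosedMap F := hproper.isClosedMap
  have hsurj : Function.Surjective F := by
    have h1 : IsClosed (range F) := by
      rw [← image_univ]
      exact hclosed _ isClosed_univ
    have h2 : Dense (range F) := by
      refine hdense.mono fun w hw => ?_
      obtain ⟨z, hz, -⟩ := hone w hw
      exact ⟨z, hz⟩
    intro w
    have h3 := h2 w
    rw [h1.closure_eq] at h3
    exact h3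
  -- third case
  have case3 : F a ≠ F b := by
    intro hFab
    obtain ⟨w, hw⟩ : ∃ w, w = F a := ⟨_, rfl⟩
    have hfib : ∀ z, F z = w → z = a ∨ z = b := by
      intro z hz
      by_contra h
      push Not at h
      exact case2 a z (Or.inl rfl) h.1 h.2 (by rw [hz, hw])
    obtain ⟨Na, Nb, hNa, hNb, haN, hbN, hdis⟩ := t2_separation hab
    -- properness
    have hr : ∃ r : ℝ, 0 < r ∧ ∀ z, dist (F z) w < r → z ∈ Na ∪ Nb := by
      have h1 : IsClosed (F '' (Na ∪ Nb)ᶜ) :=
        hclosed _ (hNa.union hNb).isClosed_compl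
      have h2 : w ∉ F '' (Na ∪ Nb)ᶜ := by
        rintro ⟨z, hz1, hz2⟩
        rcases hfib z hz2 with h | h
        · exact hz1 (Or.inl (h ▸ haN))
        · exact hz1 (Or.inr (h ▸ hbN))
      obtain ⟨r, hr0, hr⟩ := Metric.isOpen_iff.1 h1.isOpen_compl w h2
      refine ⟨r, hr0, fun z hz => ?_⟩
      by_contra h
      exact hr (mem_ball.2 hz) ⟨z, h, rfl⟩
    obtain ⟨r, hr0, hr⟩ := hr
    have haNb : a ∉ Nb := fun h => Set.disjoint_left.1 hdis haN h
    have hbNa : b ∉ Na := fun h => Set.disjoint_left.1 hdis h hbN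
    have hUa : IsOpen (F '' (Na \ {a})) := by
      rw [isOpen_iff_mem_nhds]
      rintro _ ⟨z, ⟨hz1, hz2⟩, rfl⟩
      have hza : z ≠ a := hz2
      have hzb : z ≠ b := by
        rintro rfl
        exact hbNa hz1
      exact hopen z hza hzb _ ((hNa.sdiff isClosed_singleton).mem_nhds ⟨hz1, hz2⟩)
    have hUb : IsOpen (F '' (Nb \ {b})) := by
      rw [isOpen_iff_mem_nhds]
      rintro _ ⟨z, ⟨hz1, hz2⟩, rfl⟩
      have hzb : z ≠ b := hz2
      have hza : z ≠ a := by
        rintro rfl
        exact haNb hz1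
      exact hopen z hza hzb _ ((hNb.sdiff isClosed_singleton).mem_nhds ⟨hz1, hz2⟩)
    have hpt : ∀ c, (c = a ∨ c = b) → ∀ N : Set ℂ, IsOpen N → c ∈ N → (∀ c', (c' = a ∨ c' = b) →
        c' ∈ N → c' = c) → ((ball w r \ {w}) ∩ F '' (N \ {c})).Nonempty := by
      intro c hc N hN hcN huniq
      have h1 : F ⁻¹' (ball w r) ∩ N ∈ 𝓝 c := by
        apply Filter.inter_mem _ (hN.mem_nhds hcN)
        apply hF.continuousAt
        have h2 : F c = w := by
          rcases hc with h | h
          · rw [h, hw]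
          · rw [h, hw, hFab]
        rw [h2]
        exact ball_mem_nhds w hr0
      obtain ⟨c', hc'1, hc'2⟩ := mem_closure_iff_nhds.1
        (((Set.countable_singleton c).dense_compl ℝ) c) _ h1
      have hc'3 : c' ≠ c := hc'2
      refine ⟨F c', ⟨hc'1.1, ?_⟩, ⟨c', ⟨hc'1.2, hc'3⟩, rfl⟩⟩
      intro h
      exact hc'3 (huniq c' (hfib c' h) hc'1.2)
    have hA := hpt a (Or.inl rfl) Na hNa haN (by
      rintro c' (h | h) h'
      · exact h
      · rw [h] at h'
        exact absurd h' hbNa)
    have hB := hpt b (Or.inr rfl) Nb hNb hbN (by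
      rintro c' (h | h) h'
      · rw [h] at h'
        exact absurd h' haNb
      · exact h)
    have hcov : ball w r \ {w} ⊆ F '' (Na \ {a}) ∪ F '' (Nb \ {b}) := by
      rintro p ⟨hp1, hp2⟩
      obtain ⟨z, rfl⟩ := hsurj p
      have hza : z ≠ a := by
        rintro rfl
        exact hp2 hw.symm
      have hzb : z ≠ b := by
        rintro rfl
        exact hp2 (by rw [hw, hFab]; rfl)
      rcases hr z (mem_ball.1 hp1) with h | h
      · exact Or.inl ⟨z, ⟨h, hza⟩, rfl⟩
      · exact Or.inr ⟨z, ⟨h, hzb⟩, rfl⟩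
    obtain ⟨p, -, ⟨z, ⟨hz1, hz2⟩, hz3⟩, ⟨z', ⟨hz'1, hz'2⟩, hz'3⟩⟩ :=
      H1_punctured w r _ _ hUa hUb hcov hA hB
    have h1 : z = z' := by
      apply case1 z z' hz2 _ _ hz'2 (by rw [hz3, hz'3])
      · rintro rfl
        exact hbNa hz1
      · rintro rfl
        exact haNb hz'1
    rw [h1] at hz1
    exact Set.disjoint_left.1 hdis hz1 hz'1
  have hinj : Function.Injective F := by
    intro x y hxy
    by_cases hx : x = a ∨ x = b
    · by_cases hy : y = a ∨ y = b
      · rcases hx with hx | hx <;> rcases hy with hy | hy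
        · rw [hx, hy]
        · exact absurd (by rw [← hx, ← hy, hxy]) case3
        · exact absurd (by rw [← hx, ← hy, hxy]) case3
        · rw [hx, hy]
      · push Not at hy
        exact (case2 x y hx hy.1 hy.2 hxy).elim
    · by_cases hy : y = a ∨ y = b
      · push Not at hx
        exact (case2 y x hy hx.1 hx.2 hxy.symm).elim
      · push Not at hx hy
        exact case1 x y hx.1 hx.2 hy.1 hy.2 hxy
  exact ⟨(Equiv.ofBijective F ⟨hinj, hsurj⟩).toHomeomorphOfContinuousClosed hF hclosed,
    fun z => rfl⟩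

end Pool.Agent.H.MP_4bdd60_an
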