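import Pool.Agent.H.MP_4bdd60_an.D1a

/-!
# MP_4bdd60_an, part D: the two boundary constants
-/

open Set Filter Topology Metric MeasureTheory
open scoped ENNReal Real

namespace Pool.Agent.H.MP_4bdd60_an

variable {φ χ : ℂ → ℂ} {α β : ℂ} {I J : Set ℂ} {g : ℂ → ℂ} {f : ℂ ≃ₜ ℂ} {k1 k2 Gp Gm : ℂ → ℂ}

/-- local primitives -/
theorem D1_prim {k : ℂ → ℂ} {U : Set ℂ} (hU : IsOpen U) (hk : DifferentiableOn ℂ k U) {w : ℂ}
    (hw : w ∈ U) : ∃ Q : ℂ → ℂ, ∀ᶠ z in 𝓝 w, HasDerivAt Q (k z) z := by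
  obtain ⟨r, hr, hb⟩ := Metric.isOpen_iff.1 hU w hw
  obtain ⟨Q, hQ⟩ := (hk.mono hb).isExactOn_ball
  exact ⟨Q, Filter.eventually_of_mem (ball_mem_nhds w hr) hQ⟩

/-- a function which is locally constant on a preconnected set is constant -/
theorem D1_const {s : Set ℂ} (hs : IsPreconnected s) (hne : s.Nonempty) {D : ℂ → ℂ}
    (hD : ∀ z ∈ s, ∃ c, ∀ᶠ v in 𝓝[s] z, D v = c) : ∃ c, ∀ z ∈ s, D z = c := by
  obtain ⟨z1, hz1⟩ := hne
  refine ⟨D z1, fun z hz => ?_⟩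
  refine hs.induction₂ (fun x y => D x = D y) ?_ ?_ ?_ hz hz1
  · intro x hx
    obtain ⟨c, hc⟩ := hD x hx
    have h1 : D x = c := hc.self_of_nhdsWithin hx
    filter_upwards [hc] with v hv
    rw [h1, hv]
  · intro x y z _ _ _ h1 h2
    exact h1.trans h2
  · intro x y _ _ h1
    exact h1.symm

/-- the welding near a point of an open arc -/
theorem D1_tend (h : Marked φ χ α β I J g) {s : Set ℂ} (hs : s ⊆ sphere 0 1) (ha : α ∉ s) (hb : β ∉ s)
    {z0 : ℂ} (hz : z0 ∈ s) :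
    (z0 ∈ closedBall (0 : ℂ) 1 \ (∅ ∪ {α, β})) ∧
    (g z0 ∈ closedBall (0 : ℂ) 1 \ ({0} ∪ {g α, g β})) ∧
    Tendsto id (𝓝[s] z0) (𝓝[closedBall (0 : ℂ) 1 \ (∅ ∪ {α, β})] z0) ∧
    Tendsto g (𝓝[s] z0) (𝓝[closedBall (0 : ℂ) 1 \ ({0} ∪ {g α, g β})] (g z0)) := by
  have h1 : s ⊆ closedBall (0 : ℂ) 1 \ (∅ ∪ {α, β}) := by
    intro z hz
    refine ⟨sphere_subset_closedBall (hs hz), ?_⟩
    rintro (hz' | hz' | hz')
    · exact hz'
    · exact ha (hz' ▸ hz)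
    · have h2 : z = β := hz'
      exact hb (h2 ▸ hz)
  have h2 : MapsTo g s (closedBall (0 : ℂ) 1 \ ({0} ∪ {g α, g β})) := by
    intro z hz
    have h3 := h.g_maps z (hs hz)
    refine ⟨sphere_subset_closedBall h3, ?_⟩
    rintro (hz' | hz' | hz')
    · have h4 : g z = 0 := hz'
      rw [h4] at h3
      simp at h3
    · exact ha (g_inj h (hs hz) h.α_mem hz' ▸ hz)
    · have h4 : g z = g β := hz'
      exact hb (g_inj h (hs hz) h.β_mem h4 ▸ hz)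
  refine ⟨h1 hz, h2 hz, ?_, ?_⟩
  · exact nhdsWithin_mono z0 h1
  · exact ((h.g_cont z0 (hs hz)).mono hs).tendsto_nhdsWithin h2

/-- `z ↦ Gp z - Gm (g z)` is constant on `I`: near `z0 ∈ I` both functions are `Q ∘ f` of the same point plus a
constant, `Q` a primitive of `k2` near `f (φ z0)` (`repL` for `Gp` at `z0` and for `Gm` at `g z0`, `χ (g z) = φ z`, continuity of
`g` on the circle; `DifferentiableOn.isExactOn_ball`), so the difference is constant near every point of the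
preconnected set `I` (`IsPreconnected.constant_of_mapsTo` or `IsPreconnected.eqOn_const_of_...`; a function on `I` which
is constant near each point of `I` is continuous to the discrete type, `IsLocallyConstant`). -/
theorem const_I (h : Marked φ χ α β I J g)
    (hF : Form (arc φ I α β) (arc φ J α β) f k1 k2)
    (hGp : Prim φ ∅ {α, β} (arc φ I α β) (arc φ J α β) f k1 k2 Gp)
    (hGm : Prim χ {0} {g α, g β} (arc φ I α β) (arc φ J α β) f k1 k2 Gm) :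
    ∃ c, ∀ z ∈ I, Gp z - Gm (g z) = c := by
  refine D1_const h.conI h.neI ?_
  intro z0 hz0
  obtain ⟨h1, h2, h3, h4⟩ := D1_tend h (I_sub h) h.αI h.βI hz0
  have h5 : φ z0 ∉ arc φ J α β := not_mem_L h hz0
  have h5' : χ (g z0) ∉ arc φ J α β := by
    rw [h.g_eq z0 (I_sub h hz0)]
    exact h5
  obtain ⟨Q, hQ⟩ := D1_prim (f.isOpenMap _ (isCompact_arcJ h).isClosed.isOpen_compl) hF.hol2
    (w := f (φ z0)) ⟨φ z0, h5, rfl⟩
  obtain ⟨c1, hc1⟩ := hGp.repL z0 h1 h5 Q hQ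
  have hQ' : ∀ᶠ z in 𝓝 (f (χ (g z0))), HasDerivAt Q (k2 z) z := by
    rw [h.g_eq z0 (I_sub h hz0)]
    exact hQ
  obtain ⟨c2, hc2⟩ := hGm.repL (g z0) h2 h5' Q hQ'
  refine ⟨c1 - c2, ?_⟩
  filter_upwards [h3.eventually hc1, h4.eventually hc2, self_mem_nhdsWithin] with v e1 e2 hv
  have e1' : Gp v = Q (f (φ v)) + c1 := e1
  rw [e1', e2, h.g_eq v (I_sub h hv)]
  ring

/-- Same on the other arc, with `repK` and primitives of `k1`. -/
theorem const_J (h : Marked φ χ α β I J g)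
    (hF : Form (arc φ I α β) (arc φ J α β) f k1 k2)
    (hGp : Prim φ ∅ {α, β} (arc φ I α β) (arc φ J α β) f k1 k2 Gp)
    (hGm : Prim χ {0} {g α, g β} (arc φ I α β) (arc φ J α β) f k1 k2 Gm) :
    ∃ c, ∀ z ∈ J, Gp z - Gm (g z) = c := by
  refine D1_const h.conJ h.neJ ?_
  intro z0 hz0
  obtain ⟨h1, h2, h3, h4⟩ := D1_tend h (J_sub h) h.αJ h.βJ hz0
  have h5 : φ z0 ∉ arc φ I α β := not_mem_K h hz0
  have h5' : χ (g z0) ∉ arc φ I α β := by
    rw [h.g_eq z0 (J_sub h hz0)]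
    exact h5
  obtain ⟨Q, hQ⟩ := D1_prim (isCompact_arcI h).isClosed.isOpen_compl hF.hol1 (w := φ z0) h5
  obtain ⟨c1, hc1⟩ := hGp.repK z0 h1 h5 Q hQ
  have hQ' : ∀ᶠ z in 𝓝 (χ (g z0)), HasDerivAt Q (k1 z) z := by
    rw [h.g_eq z0 (J_sub h hz0)]
    exact hQ
  obtain ⟨c2, hc2⟩ := hGm.repK (g z0) h2 h5' Q hQ'
  refine ⟨c1 - c2, ?_⟩
  filter_upwards [h3.eventually hc1, h4.eventually hc2, self_mem_nhdsWithin] with v e1 e2 hv
  have e1' : Gp v = Q (φ v) + c1 := e1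
  rw [e1', e2, h.g_eq v (J_sub h hv)]
  ring

end Pool.Agent.H.MP_4bdd60_an
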