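import Pool.Agent.H.MP_4bdd60_an.Defs

/-!
# MP_4bdd60_an, part D: membership facts for the two arcs
-/

open Set Filter Topology Metric MeasureTheory
open scoped ENNReal Real

namespace Pool.Agent.H.MP_4bdd60_an

variable {φ χ : ℂ → ℂ} {α β : ℂ} {I J : Set ℂ} {g : ℂ → ℂ}

/-- subsets of the circle -/
theorem I_sub (h : Marked φ χ α β I J g) : I ⊆ sphere 0 1 := by
  rw [← h.union]
  exact fun x hx => Or.inl (Or.inl hx)

theorem J_sub (h : Marked φ χ α β I J g) : J ⊆ sphere 0 1 := by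
  rw [← h.union]
  exact fun x hx => Or.inl (Or.inr hx)

theorem D1a_cb {z : ℂ} (hz : z ∈ sphere (0 : ℂ) 1) : z ∈ closedBall (0 : ℂ) 1 :=
  sphere_subset_closedBall hz

theorem D1a_cb' {z : ℂ} (hz : z ∈ sphere (0 : ℂ) 1) : z ∈ closedBall (0 : ℂ) 1 \ {0} := by
  refine ⟨sphere_subset_closedBall hz, ?_⟩
  rintro rfl
  simp at hz

theorem D1a_ball {z : ℂ} (hz : z ∈ sphere (0 : ℂ) 1) : z ∉ ball (0 : ℂ) 1 := by
  rw [mem_ball, not_lt]
  exact (mem_sphere.1 hz).ge

theorem D1a_or {z : ℂ} (hz : z ∈ closedBall (0 : ℂ) 1) : z ∈ ball (0 : ℂ) 1 ∨ z ∈ sphere (0 : ℂ) 1 := by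
  rcases lt_or_eq_of_le (mem_closedBall.1 hz) with h | h
  · exact Or.inl h
  · exact Or.inr h

theorem D1a_arc (h : Marked φ χ α β I J g) : I ∪ {α, β} ⊆ sphere 0 1 ∧ J ∪ {α, β} ⊆ sphere 0 1 := by
  constructor
  · rintro x (hx | hx)
    · exact I_sub h hx
    · rw [← h.union]; exact Or.inr hx
  · rintro x (hx | hx)
    · exact J_sub h hx
    · rw [← h.union]; exact Or.inr hx

/-- the welding is injective on the circle -/
theorem g_inj (h : Marked φ χ α β I J g) : InjOn g (sphere 0 1) := by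
  intro z hz w hw e
  refine h.φ_inj (D1a_cb hz) (D1a_cb hw) ?_
  rw [← h.g_eq z hz, ← h.g_eq w hw, e]

/-- the welding maps the circle onto the circle (`bdry` and injectivity of `χ`) -/
theorem g_surj (h : Marked φ χ α β I J g) {u : ℂ} (hu : u ∈ sphere (0 : ℂ) 1) :
    ∃ z ∈ sphere (0 : ℂ) 1, g z = u := by
  have h1 : χ u ∈ φ '' sphere 0 1 := by
    rw [h.bdry]
    exact mem_image_of_mem χ hu
  obtain ⟨z, hz, e⟩ := h1
  refine ⟨z, hz, h.χ_inj (D1a_cb' (h.g_maps z hz)) (D1a_cb' hu) ?_⟩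
  rw [h.g_eq z hz, e]

/-- equal values on the two circles -/
theorem g_of_eq (h : Marked φ χ α β I J g) {z u : ℂ} (hz : z ∈ sphere (0 : ℂ) 1)
    (hu : u ∈ sphere (0 : ℂ) 1) (e : φ z = χ u) : u = g z := by
  refine h.χ_inj (D1a_cb' hu) (D1a_cb' (h.g_maps z hz)) ?_
  rw [h.g_eq z hz, e]

/-- values of the open inner side are not boundary values -/
theorem p_int (h : Marked φ χ α β I J g) {z : ℂ} (hz : z ∈ ball (0 : ℂ) 1) :
    φ z ∉ φ '' sphere 0 1 := by
  rintro ⟨w, hw, e⟩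
  have h1 := h.φ_inj (D1a_cb hw) (ball_subset_closedBall hz) e
  rw [h1] at hw
  exact D1a_ball hw hz

/-- values of the open outer side are not values of the closed inner side -/
theorem m_int (h : Marked φ χ α β I J g) {u : ℂ} (hu : u ∈ ball (0 : ℂ) 1 \ {0}) :
    χ u ∉ φ '' closedBall 0 1 := by
  rintro ⟨w, hw, e⟩
  rcases D1a_or hw with hw | hw
  · exact h.disj w hw u hu e
  · have h1 : φ w ∈ χ '' sphere 0 1 := by
      rw [← h.bdry]
      exact mem_image_of_mem φ hw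
    obtain ⟨v, hv, e'⟩ := h1
    have h2 := h.χ_inj (D1a_cb' hv) ⟨ball_subset_closedBall hu.1, hu.2⟩ (e'.trans e)
    rw [h2] at hv
    exact D1a_ball hv hu.1

theorem arc_sub (h : Marked φ χ α β I J g) :
    arc φ I α β ⊆ φ '' sphere 0 1 ∧ arc φ J α β ⊆ φ '' sphere 0 1 :=
  ⟨image_mono (D1a_arc h).1, image_mono (D1a_arc h).2⟩

/-- points of `I` are not on the arc over `J`, and conversely -/
theorem not_mem_L (h : Marked φ χ α β I J g) {z : ℂ} (hz : z ∈ I) : φ z ∉ arc φ J α β := by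
  rintro ⟨w, hw, e⟩
  have h1 := h.φ_inj (D1a_cb ((D1a_arc h).2 hw)) (D1a_cb (I_sub h hz)) e
  rw [h1] at hw
  rcases hw with hw | hw
  · exact Set.disjoint_left.1 h.IJ hz hw
  · rcases hw with hw | hw
    · rw [hw] at hz
      exact h.αI hz
    · rw [mem_singleton_iff.1 hw] at hz
      exact h.βI hz

theorem not_mem_K (h : Marked φ χ α β I J g) {z : ℂ} (hz : z ∈ J) : φ z ∉ arc φ I α β := by
  rintro ⟨w, hw, e⟩
  have h1 := h.φ_inj (D1a_cb ((D1a_arc h).1 hw)) (D1a_cb (J_sub h hz)) e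
  rw [h1] at hw
  rcases hw with hw | hw
  · exact Set.disjoint_left.1 h.IJ hw hz
  · rcases hw with hw | hw
    · rw [hw] at hz
      exact h.αJ hz
    · rw [mem_singleton_iff.1 hw] at hz
      exact h.βJ hz

theorem D1a_sphere (h : Marked φ χ α β I J g) {z : ℂ} (hz : z ∈ sphere (0 : ℂ) 1) (ha : z ≠ α)
    (hb : z ≠ β) : φ z ∉ arc φ I α β ∨ φ z ∉ arc φ J α β := by
  rw [← h.union] at hz
  rcases hz with (hz | hz) | hz
  · exact Or.inr (not_mem_L h hz)
  · exact Or.inl (not_mem_K h hz)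
  · rcases hz with hz | hz
    · exact absurd hz ha
    · exact absurd (mem_singleton_iff.1 hz) hb

theorem p_avoid (h : Marked φ χ α β I J g) {z : ℂ} (hz : z ∈ closedBall (0 : ℂ) 1 \ (∅ ∪ {α, β})) :
    φ z ∉ arc φ I α β ∨ φ z ∉ arc φ J α β := by
  rcases D1a_or hz.1 with h1 | h1
  · exact Or.inl fun h2 => p_int h h1 ((arc_sub h).1 h2)
  · refine D1a_sphere h h1 ?_ ?_
    · rintro rfl
      exact hz.2 (Or.inr (Or.inl rfl))
    · rintro rfl
      exact hz.2 (Or.inr (Or.inr rfl))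

theorem m_avoid (h : Marked φ χ α β I J g) {u : ℂ}
    (hu : u ∈ closedBall (0 : ℂ) 1 \ ({0} ∪ {g α, g β})) :
    χ u ∉ arc φ I α β ∨ χ u ∉ arc φ J α β := by
  rcases D1a_or hu.1 with h1 | h1
  · have h0 : u ∈ ball (0 : ℂ) 1 \ {0} := ⟨h1, fun h2 => hu.2 (Or.inl h2)⟩
    exact Or.inl fun h2 => m_int h h0 (image_mono sphere_subset_closedBall ((arc_sub h).1 h2))
  · obtain ⟨z, hz, rfl⟩ := g_surj h h1
    rw [h.g_eq z hz]
    refine D1a_sphere h hz ?_ ?_
    · rintro rfl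
      exact hu.2 (Or.inr (Or.inl rfl))
    · rintro rfl
      exact hu.2 (Or.inr (Or.inr rfl))

/-- every point of the plane except the two marked points avoids one of the two arcs -/
theorem avoid (h : Marked φ χ α β I J g) {z : ℂ} (ha : z ≠ φ α) (hb : z ≠ φ β) :
    z ∉ arc φ I α β ∨ z ∉ arc φ J α β := by
  by_cases hz : z ∈ φ '' sphere 0 1
  · obtain ⟨w, hw, rfl⟩ := hz
    refine D1a_sphere h hw ?_ ?_
    · rintro rfl
      exact ha rfl
    · rintro rfl
      exact hb rfl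
  · exact Or.inl fun h1 => hz ((arc_sub h).1 h1)

theorem ab_ne (h : Marked φ χ α β I J g) : φ α ≠ φ β := fun e =>
  h.αβ (h.φ_inj (D1a_cb h.α_mem) (D1a_cb h.β_mem) e)

theorem D1a_comp (h : Marked φ χ α β I J g) {A : Set ℂ} (hA : IsClosed A) (hs : A ⊆ sphere 0 1) :
    IsCompact (φ '' A) :=
  ((isCompact_sphere (0 : ℂ) 1).of_isClosed_subset hA hs).image_of_continuousOn
    (h.φ_cont.mono (hs.trans sphere_subset_closedBall))

theorem isCompact_arcI (h : Marked φ χ α β I J g) : IsCompact (arc φ I α β) :=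
  D1a_comp h h.clI (D1a_arc h).1

theorem isCompact_arcJ (h : Marked φ χ α β I J g) : IsCompact (arc φ J α β) :=
  D1a_comp h h.clJ (D1a_arc h).2

theorem arc_union (h : Marked φ χ α β I J g) : arc φ I α β ∪ arc φ J α β = φ '' sphere 0 1 := by
  rw [arc, arc, ← image_union, ← h.union]
  congr 1
  ext x
  simp only [mem_union]
  tauto

theorem arc_ne (h : Marked φ χ α β I J g) :
    arc φ I α β ≠ φ '' sphere 0 1 ∧ arc φ J α β ≠ φ '' sphere 0 1 := by
  constructor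
  · intro e
    obtain ⟨z, hz⟩ := h.neJ
    refine not_mem_K h hz ?_
    rw [e]
    exact mem_image_of_mem φ (J_sub h hz)
  · intro e
    obtain ⟨z, hz⟩ := h.neI
    refine not_mem_L h hz ?_
    rw [e]
    exact mem_image_of_mem φ (I_sub h hz)

end Pool.Agent.H.MP_4bdd60_an
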