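import Pool.Agent.H.MP_4bdd60_an.E3
import Pool.Agent.H.MP_4bdd60_an.D1a

/-!
# MP_4bdd60_an, part E: small loops round a marked point, in terms of the primitives
-/

open Set Filter Topology Metric MeasureTheory
open scoped ENNReal Real

namespace Pool.Agent.H.MP_4bdd60_an

/-- The welding in the Cayley charts: an increasing function `h`, up to the sign `κ`. -/
structure Chart (g : ℂ → ℂ) (h : ℝ → ℝ) (κ : ℝ) : Prop where
  mono : StrictMono h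
  cont : Continuous h
  κ_eq : κ = 1 ∨ κ = -1
  g_eq : ∀ x : ℝ, g (cay x) = cay (κ * h x)

variable {φ χ : ℂ → ℂ} {α β : ℂ} {I J : Set ℂ} {g : ℂ → ℂ} {f : ℂ ≃ₜ ℂ} {k1 k2 Gp Gm : ℂ → ℂ}
  {h : ℝ → ℝ} {κ : ℝ}

theorem E5_maps_p (hM : Marked φ χ α β I J g) : ∀ w ∈ ball (0 : ℂ) 1, φ w ∉ arc φ I α β :=
  fun _ hw hh => p_int hM hw ((arc_sub hM).1 hh)

theorem E5_maps_m (hM : Marked φ χ α β I J g) :
    ∀ w ∈ ball (0 : ℂ) 1 \ {0}, χ w ∉ arc φ I α β := by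
  intro w hw hh
  obtain ⟨z, hz, e⟩ := (arc_sub hM).1 hh
  exact m_int hM hw ⟨z, sphere_subset_closedBall hz, e⟩

theorem E5_cont {Ψ k : ℂ → ℂ} {X K : Set ℂ} (hX : IsOpen X) (h : DifferentiableOn ℂ Ψ X)
    (hk : DifferentiableOn ℂ k Kᶜ) (hm : ∀ w ∈ X, Ψ w ∉ K) :
    ContinuousOn (fun w => k (Ψ w) * deriv Ψ w) X := by
  refine ContinuousOn.mul ?_ (h.deriv hX).continuousOn
  exact hk.continuousOn.comp h.continuousOn (fun w hw => hm w hw)

theorem E5_near (hM : Marked φ χ α β I J g) {y : ℝ} (hy : cay y = α ∨ cay y = β) :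
    ∃ δ : ℝ, 0 < δ ∧ ∀ x : ℝ, |x - y| < δ → x ≠ y → cay x ∉ ({α, β} : Set ℂ) := by
  have key : ∀ a b : ℂ, cay y = a → a ≠ b → ∃ δ : ℝ, 0 < δ ∧ ∀ x : ℝ, |x - y| < δ → x ≠ y →
      cay x ≠ a ∧ cay x ≠ b := by
    intro a b ha hab
    have h1 : ∀ᶠ x in 𝓝 y, cay x ≠ b := cay_continuous.continuousAt.eventually_ne (by rwa [ha])
    obtain ⟨δ, hδ, h2⟩ := Metric.eventually_nhds_iff.1 h1
    refine ⟨δ, hδ, fun x hx hne => ⟨fun h3 => ?_, h2 (by rwa [Real.dist_eq])⟩⟩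
    rw [← ha] at h3
    exact hne (cay_injective h3)
  rcases hy with hy | hy
  · obtain ⟨δ, hδ, h⟩ := key α β hy hM.αβ
    refine ⟨δ, hδ, fun x hx hne hmem => ?_⟩
    rcases hmem with h1 | h1
    · exact (h x hx hne).1 h1
    · exact (h x hx hne).2 h1
  · obtain ⟨δ, hδ, h⟩ := key β α hy hM.αβ.symm
    refine ⟨δ, hδ, fun x hx hne hmem => ?_⟩
    rcases hmem with h1 | h1
    · exact (h x hx hne).2 h1
    · exact (h x hx hne).1 h1

theorem E5_norm {z : ℂ} {ε : ℝ} (hε : 0 < ε) {r : ℝ≥0∞} (h : ‖z‖ₑ ≤ 3 * r)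
    (hr : r ≤ ENNReal.ofReal (ε / 3)) : ‖z‖ ≤ ε := by
  have h3 : (3 : ℝ≥0∞) * ENNReal.ofReal (ε / 3) = ENNReal.ofReal ε := by
    rw [show (3 : ℝ≥0∞) = ENNReal.ofReal 3 by norm_num, ← ENNReal.ofReal_mul (by norm_num)]
    congr 1
    ring
  have h1 : ‖z‖ₑ ≤ ENNReal.ofReal ε := by
    rw [← h3]
    exact h.trans (mul_le_mul_right hr 3)
  rw [← ofReal_norm] at h1
  exact (ENNReal.ofReal_le_ofReal_iff hε.le).1 h1

/-- `LoopPoint` applied to `ρ1 = rho (fun w => k1 (φ w) * deriv φ w) 1` and `ρ2 = rho (fun w => k1 (χ w) * deriv χ w) κ`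
(`rho_meas`, `rho_energy`, `energy_p` restricted to a smaller set, `energy_m`; the functions are holomorphic off `0`, so
continuous), with `3 ε' ≤ ε`, and a small `η' ≤ η` such that `v - u < 1/10`, `h v - h u < 1/10` and such that for `x` in the open
interval of radius `η'` round `y`, `x ≠ y`, `cay x ∉ {α, β}` (`y` is the parameter of one of them, the other one is at a
positive distance).  Then `ray_ftc` four times with `T = {α, β}` (`κ = 1`) and `T = {g α, g β}` (`cay (κ * h x) = g (cay x)`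
and `g` is injective on the circle). -/
theorem small_rays (hM : Marked φ χ α β I J g) (hc : Chart g h κ) {y : ℝ} (hy : cay y = α ∨ cay y = β)
    (hl : LoopPoint h y) (hF : Form (arc φ I α β) (arc φ J α β) f k1 k2)
    (hGp : Prim φ ∅ {α, β} (arc φ I α β) (arc φ J α β) f k1 k2 Gp)
    (hGm : Prim χ {0} {g α, g β} (arc φ I α β) (arc φ J α β) f k1 k2 Gm) :
    ∀ ε : ℝ, 0 < ε → ∀ η : ℝ, 0 < η →
      ∃ u v s1 s2 : ℝ, y - η < u ∧ u < y ∧ y < v ∧ v < y + η ∧ h y - η < h u ∧ h v < h y + η ∧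
        1 ≤ s1 ∧ s1 ≤ 2 ∧ 1 ≤ s2 ∧ s2 ≤ 2 ∧
        (∀ t ∈ Icc 0 (v - u), ‖Gp (cayc ⟨u + s1 * t, t⟩) - Gp (cay u)‖ ≤ ε) ∧
        (∀ t ∈ Icc 0 (v - u), ‖Gp (cayc ⟨v - s1 * t, t⟩) - Gp (cay v)‖ ≤ ε) ∧
        (∀ t ∈ Icc 0 (h v - h u), ‖Gm (cayc ⟨κ * (h u + s2 * t), t⟩) - Gm (cay (κ * h u))‖ ≤ ε) ∧
        (∀ t ∈ Icc 0 (h v - h u), ‖Gm (cayc ⟨κ * (h v - s2 * t), t⟩) - Gm (cay (κ * h v))‖ ≤ ε) := by
  intro ε hε η hη
  obtain ⟨δ, hδ, hnear⟩ := E5_near hM hy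
  have hmp := E5_maps_p hM
  have hmm := E5_maps_m hM
  have ho : IsOpen (ball (0 : ℂ) 1 \ {0}) := isOpen_ball.sdiff isClosed_singleton
  have c1 : ContinuousOn (fun w => k1 (φ w) * deriv φ w) (ball 0 1 \ {0}) :=
    (E5_cont isOpen_ball hM.φ_hol hF.hol1 hmp).mono sdiff_subset
  have c2 : ContinuousOn (fun w => k1 (χ w) * deriv χ w) (ball 0 1 \ {0}) :=
    E5_cont ho hM.χ_hol hF.hol1 hmm
  have e1 : ∫⁻ w in ball (0 : ℂ) 1 \ closedBall 0 (1 / 2), ‖k1 (φ w) * deriv φ w‖ₑ ^ 2 < ∞ :=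
    lt_of_le_of_lt (lintegral_mono_set sdiff_subset) (energy_p hM.toCurve hF hmp)
  have e2 := energy_m hM.toCurve hF hmm
  obtain ⟨u, v, s1, s2, a1, a2, a3, a4, a5, a6, b1, b2, b3, b4, r1, r2, r3, r4⟩ :=
    hl (rho (fun w => k1 (φ w) * deriv φ w) 1) (rho (fun w => k1 (χ w) * deriv χ w) κ)
      (rho_meas c1 (Or.inl rfl)) (rho_meas c2 hc.κ_eq) (rho_energy e1 (Or.inl rfl))
      (rho_energy e2 hc.κ_eq) (ENNReal.ofReal (ε / 3)) (ENNReal.ofReal_pos.2 (by positivity))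
      (min (min η (1 / 20)) δ) (lt_min (lt_min hη (by norm_num)) hδ)
  have m1 : min (min η (1 / 20)) δ ≤ η := (min_le_left _ _).trans (min_le_left _ _)
  have m2 : min (min η (1 / 20)) δ ≤ 1 / 20 := (min_le_left _ _).trans (min_le_right _ _)
  have m3 : min (min η (1 / 20)) δ ≤ δ := min_le_right _ _
  have hu : cay u ∉ ({α, β} : Set ℂ) := hnear u (abs_lt.2 ⟨by linarith, by linarith⟩) a2.ne
  have hv : cay v ∉ ({α, β} : Set ℂ) := hnear v (abs_lt.2 ⟨by linarith, by linarith⟩) a3.ne'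
  have hT1 : ({α, β} : Set ℂ) ⊆ sphere 0 1 := by
    rintro x (hx | hx)
    · rw [hx]; exact hM.α_mem
    · rw [mem_singleton_iff.1 hx]; exact hM.β_mem
  have hT2 : ({g α, g β} : Set ℂ) ⊆ sphere 0 1 := by
    rintro x (hx | hx)
    · rw [hx]; exact hM.g_maps α hM.α_mem
    · rw [mem_singleton_iff.1 hx]; exact hM.g_maps β hM.β_mem
  have hg : ∀ x : ℝ, cay x ∉ ({α, β} : Set ℂ) → cay (κ * h x) ∉ ({g α, g β} : Set ℂ) := by
    intro x hx hmem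
    rw [← hc.g_eq] at hmem
    rcases hmem with h1 | h1
    · exact hx (Or.inl (g_inj hM (cay_mem x) hM.α_mem h1))
    · exact hx (Or.inr (g_inj hM (cay_mem x) hM.β_mem h1))
  have hs1 : |s1| ≤ 2 := abs_le.2 ⟨by linarith, b2⟩
  have hs1' : |-s1| ≤ 2 := by rwa [abs_neg]
  have hs2 : |s2| ≤ 2 := abs_le.2 ⟨by linarith, b4⟩
  have hs2' : |-s2| ≤ 2 := by rwa [abs_neg]
  have hτ1 : v - u ≤ 1 / 10 := by linarith
  have hτ2 : h v - h u ≤ 1 / 10 := by linarith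
  refine ⟨u, v, s1, s2, by linarith, a2, a3, by linarith, by linarith, by linarith, b1, b2, b3, b4,
    fun t ht => ?_, fun t ht => ?_, fun t ht => ?_, fun t ht => ?_⟩
  · have k := ray_ftc (empty_subset _) hT1 hGp.cont hGp.der (κ := 1) (Or.inl rfl) (x := u) hs1
      (by rwa [one_mul]) hτ1 ht
    rw [one_mul, one_mul] at k
    exact E5_norm hε k r1
  · have k := ray_ftc (empty_subset _) hT1 hGp.cont hGp.der (κ := 1) (Or.inl rfl) (x := v) hs1'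
      (by rwa [one_mul]) hτ1 ht
    rw [one_mul, one_mul, neg_mul, ← sub_eq_add_neg] at k
    exact E5_norm hε k r2
  · have k := ray_ftc Subset.rfl hT2 hGm.cont hGm.der hc.κ_eq hs2 (hg u hu) hτ2 ht
    exact E5_norm hε k r3
  · have k := ray_ftc Subset.rfl hT2 hGm.cont hGm.der hc.κ_eq hs2' (hg v hv) hτ2 ht
    rw [neg_mul, ← sub_eq_add_neg] at k
    exact E5_norm hε k r4

end Pool.Agent.H.MP_4bdd60_an
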