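import Pool.Agent.H.MP_4bdd60_an.F1a
import Pool.Agent.H.MP_4bdd60_an.D1a

/-!
# MP_4bdd60_an, part F: gluing of the two primitives to one function on the plane
-/

open Set Filter Topology Metric MeasureTheory Function
open scoped ENNReal Real

namespace Pool.Agent.H.MP_4bdd60_an

variable {φ χ : ℂ → ℂ} {α β : ℂ} {I J : Set ℂ} {g : ℂ → ℂ} {f : ℂ ≃ₜ ℂ} {k1 k2 Gp Gm : ℂ → ℂ}

/-- one side -/
theorem F2_side {Ψ F G R : ℂ → ℂ} {D T : Set ℂ} {q : ℂ} (inj : InjOn Ψ D)
    (hinv : ContinuousOn (invFunOn Ψ D) (Ψ '' D)) (hcl : IsClosed (Ψ '' D)) (hT : IsClosed T)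
    (hF : ∀ w ∈ D \ T, F (Ψ w) = G w)
    (hrep : ∀ w ∈ D \ T, Ψ w = q → ∃ c, ∀ᶠ v in 𝓝[D \ T] w, G v = R (Ψ v) + c)
    (hq : ∀ t ∈ D ∩ T, Ψ t ≠ q) : ∀ᶠ z in 𝓝[Ψ '' D] q, F z = R z + (F q - R q) := by
  by_cases hq' : q ∈ Ψ '' D
  · obtain ⟨w, hw, rfl⟩ := hq'
    have hwT : w ∉ T := fun ht => hq w ⟨hw, ht⟩ rfl
    obtain ⟨c, hc⟩ := hrep w ⟨hw, hwT⟩ rfl
    have hiw : invFunOn Ψ D (Ψ w) = w := inj.leftInvOn_invFunOn hw
    have h1 : Tendsto (invFunOn Ψ D) (𝓝[Ψ '' D] (Ψ w)) (𝓝 w) := by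
      have := hinv (Ψ w) ⟨w, hw, rfl⟩
      unfold ContinuousWithinAt at this
      rwa [hiw] at this
    have h2 : ∀ᶠ z in 𝓝[Ψ '' D] (Ψ w), invFunOn Ψ D z ∈ D \ T := by
      have h3 : ∀ᶠ z in 𝓝[Ψ '' D] (Ψ w), invFunOn Ψ D z ∈ Tᶜ :=
        h1.eventually (hT.isOpen_compl.mem_nhds hwT)
      filter_upwards [h3, self_mem_nhdsWithin] with z hz1 hz2
      exact ⟨invFunOn_mem hz2, hz1⟩
    have h4 : Tendsto (invFunOn Ψ D) (𝓝[Ψ '' D] (Ψ w)) (𝓝[D \ T] w) :=
      tendsto_nhdsWithin_iff.2 ⟨h1, h2⟩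
    have h5 : ∀ᶠ z in 𝓝[Ψ '' D] (Ψ w), F z = R z + c := by
      filter_upwards [h4.eventually hc, h2, self_mem_nhdsWithin] with z hz1 hz2 hz3
      have h6 : Ψ (invFunOn Ψ D z) = z := invFunOn_eq hz3
      have h7 := hF _ hz2
      rw [h6] at h7
      rw [h6] at hz1
      rw [h7, hz1]
    have h8 : F (Ψ w) = R (Ψ w) + c := h5.self_of_nhdsWithin ⟨w, hw, rfl⟩
    filter_upwards [h5] with z hz
    rw [hz, h8]
    ring
  · rw [eventually_nhdsWithin_iff]
    filter_upwards [hcl.isOpen_compl.mem_nhds hq'] with z hz hz'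
    exact absurd hz' hz

/-- both sides -/
theorem F2_near (h : Marked φ χ α β I J g) {F Gp Gm R : ℂ → ℂ} {q : ℂ}
    (hFp : ∀ w ∈ closedBall (0 : ℂ) 1 \ {α, β}, F (φ w) = Gp w)
    (hFm : ∀ u ∈ closedBall (0 : ℂ) 1 \ {0, g α, g β}, F (χ u) = Gm u)
    (ha : q ≠ φ α) (hb : q ≠ φ β)
    (hP : ∀ w ∈ closedBall (0 : ℂ) 1 \ (∅ ∪ {α, β}), φ w = q →
      ∃ c, ∀ᶠ v in 𝓝[closedBall 0 1 \ (∅ ∪ {α, β})] w, Gp v = R (φ v) + c)
    (hM : ∀ u ∈ closedBall (0 : ℂ) 1 \ ({0} ∪ {g α, g β}), χ u = q →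
      ∃ c, ∀ᶠ v in 𝓝[closedBall 0 1 \ ({0} ∪ {g α, g β})] u, Gm v = R (χ v) + c) :
    ∀ᶠ z in 𝓝 q, F z = R z + (F q - R q) := by
  have hc := h.toCurve
  have c1 : IsClosed (φ '' closedBall 0 1) := (closed_p hc isClosed_closedBall subset_rfl).isClosed
  have c2 : IsClosed (χ '' (closedBall 0 1 \ {0})) := closed_m hc isClosed_closedBall subset_rfl
  rw [empty_union] at hP
  have t1 : IsClosed ({α, β} : Set ℂ) := (toFinite _).isClosed
  have t2 : IsClosed ({g α, g β} : Set ℂ) := (toFinite _).isClosed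
  have e1 : closedBall (0 : ℂ) 1 \ ({0} ∪ {g α, g β}) = (closedBall (0 : ℂ) 1 \ {0}) \ {g α, g β} := by
    ext z
    simp only [Set.mem_sdiff, mem_union, not_or, and_assoc]
  have s1 := F2_side (Ψ := φ) (F := F) (G := Gp) (R := R) (q := q) hc.φ_inj (inv_p hc) c1 t1 hFp hP
    (by
      rintro t ⟨_, ht⟩ e
      rcases ht with rfl | rfl
      · exact ha e.symm
      · exact hb e.symm)
  have s2 := F2_side (Ψ := χ) (F := F) (G := Gm) (R := R) (q := q) hc.χ_inj (inv_m hc) c2 t2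
    (by
      rw [← e1]
      exact hFm)
    (by
      rw [← e1]
      exact hM)
    (by
      rintro t ⟨_, ht⟩ e
      rcases ht with rfl | rfl
      · exact ha (by rw [← h.g_eq α h.α_mem, e])
      · exact hb (by rw [← h.g_eq β h.β_mem, e]))
  have s3 : ∀ᶠ z in 𝓝[φ '' closedBall 0 1 ∪ χ '' (closedBall 0 1 \ {0})] q,
      F z = R z + (F q - R q) := by
    rw [nhdsWithin_union]
    exact Filter.eventually_sup.2 ⟨s1, s2⟩
  rw [hc.cover, nhdsWithin_univ] at s3
  exact s3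

/-- Gluing of the two primitives.
`F z = Gp w` if `z = φ w`, `w ∈ closedBall 0 1`, and `F z = Gm u` if `z = χ u` otherwise (formally: `if z ∈ φ '' closedBall 0 1 then
Gp (invFunOn φ (closedBall 0 1) z) else Gm (invFunOn χ (closedBall 0 1 \ {0}) z)`).  The two definitions agree on common values,
which are the boundary values `φ z = χ (g z)`, except at the two marked points (for these nothing is claimed).
Let `q ∉ K` (so `q` is not a marked point, as these are in `K`) and `Q` a primitive of `k1` in a ball round `q`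
(`DifferentiableOn.isExactOn_ball`).  For each side: either `q` is not in the closed set of all values of this side, and
then no point near `q` is one; or `q = Ψ w`, and by `repK` at `w` and the continuity of the inverse (`inv_p`, `inv_m`)
`F = Q + c` at the points near `q` which are values of this side.  If both sides occur the two constants agree (evaluate at
`q`).  By `cover` all points near `q` are values of a side, so `F = Q + c` near `q` and has derivative `k1 q`.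
Same for `q ∉ L` with `f` and `repL` (and `f` a homeomorphism). -/
theorem build (h : Marked φ χ α β I J g)
    (hF : Form (arc φ I α β) (arc φ J α β) f k1 k2)
    (hGp : Prim φ ∅ {α, β} (arc φ I α β) (arc φ J α β) f k1 k2 Gp)
    (hGm : Prim χ {0} {g α, g β} (arc φ I α β) (arc φ J α β) f k1 k2 Gm)
    (hg : ∀ z ∈ sphere (0 : ℂ) 1 \ {α, β}, Gp z = Gm (g z)) :
    ∃ F : ℂ → ℂ, (∀ w ∈ closedBall (0 : ℂ) 1 \ {α, β}, F (φ w) = Gp w) ∧
      (∀ u ∈ closedBall (0 : ℂ) 1 \ {0, g α, g β}, F (χ u) = Gm u) ∧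
      (∀ z, z ∉ arc φ I α β → HasDerivAt F (k1 z) z) ∧
      (∀ z, z ∉ arc φ J α β → HasDerivAt (fun w => F (f.symm w)) (k2 (f z)) (f z)) := by
  classical
  have hc := h.toCurve
  have hKc : IsClosed (arc φ I α β) := (isCompact_arcI h).isClosed
  have hLc : IsClosed (arc φ J α β) := (isCompact_arcJ h).isClosed
  have aK : φ α ∈ arc φ I α β := ⟨α, Or.inr (Or.inl rfl), rfl⟩
  have bK : φ β ∈ arc φ I α β := ⟨β, Or.inr (Or.inr rfl), rfl⟩
  have aL : φ α ∈ arc φ J α β := ⟨α, Or.inr (Or.inl rfl), rfl⟩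
  have bL : φ β ∈ arc φ J α β := ⟨β, Or.inr (Or.inr rfl), rfl⟩
  let F : ℂ → ℂ := fun z => if z ∈ φ '' closedBall 0 1 then Gp (invFunOn φ (closedBall 0 1) z)
    else Gm (invFunOn χ (closedBall 0 1 \ {0}) z)
  have hFp : ∀ w ∈ closedBall (0 : ℂ) 1 \ {α, β}, F (φ w) = Gp w := by
    rintro w ⟨hw, _⟩
    have h1 : φ w ∈ φ '' closedBall 0 1 := ⟨w, hw, rfl⟩
    show (if φ w ∈ φ '' closedBall 0 1 then Gp (invFunOn φ (closedBall 0 1) (φ w))
      else Gm (invFunOn χ (closedBall 0 1 \ {0}) (φ w))) = Gp w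
    rw [if_pos h1, hc.φ_inj.leftInvOn_invFunOn hw]
  have hFm : ∀ u ∈ closedBall (0 : ℂ) 1 \ {0, g α, g β}, F (χ u) = Gm u := by
    rintro u ⟨hu, hu2⟩
    have hu0 : u ≠ 0 := fun e => hu2 (Or.inl e)
    have hua : u ≠ g α := fun e => hu2 (Or.inr (Or.inl e))
    have hub : u ≠ g β := fun e => hu2 (Or.inr (Or.inr e))
    by_cases h1 : χ u ∈ φ '' closedBall 0 1
    · have hus : u ∈ sphere (0 : ℂ) 1 := by
        by_contra hns
        have h2 : u ∈ ball (0 : ℂ) 1 \ {0} := by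
          refine ⟨?_, hu0⟩
          rw [mem_closedBall] at hu
          rw [mem_sphere] at hns
          exact mem_ball.2 (lt_of_le_of_ne hu hns)
        exact m_int h h2 h1
      obtain ⟨w, hw, hwu⟩ := h1
      have hws : w ∈ sphere (0 : ℂ) 1 := by
        by_contra hns
        have h2 : w ∈ ball (0 : ℂ) 1 := by
          rw [mem_closedBall] at hw
          rw [mem_sphere] at hns
          exact mem_ball.2 (lt_of_le_of_ne hw hns)
        apply p_int h h2
        rw [hc.bdry, hwu]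
        exact ⟨u, hus, rfl⟩
      have hug : u = g w := g_of_eq h hws hus hwu
      have hwa : w ≠ α := fun e => hua (e ▸ hug)
      have hwb : w ≠ β := fun e => hub (e ▸ hug)
      have hwab : w ∉ ({α, β} : Set ℂ) := by
        rintro (e | e)
        · exact hwa e
        · exact hwb e
      rw [← hwu, hFp w ⟨hw, hwab⟩, hg w ⟨hws, hwab⟩, ← hug]
    · show (if χ u ∈ φ '' closedBall 0 1 then Gp (invFunOn φ (closedBall 0 1) (χ u))
        else Gm (invFunOn χ (closedBall 0 1 \ {0}) (χ u))) = Gm u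
      rw [if_neg h1, hc.χ_inj.leftInvOn_invFunOn ⟨hu, hu0⟩]
  refine ⟨F, hFp, hFm, ?_, ?_⟩
  · intro q hq
    have hqa : q ≠ φ α := fun e => hq (e ▸ aK)
    have hqb : q ≠ φ β := fun e => hq (e ▸ bK)
    obtain ⟨ε, hε, hb⟩ := Metric.isOpen_iff.1 hKc.isOpen_compl q hq
    obtain ⟨Q, hQ⟩ := (hF.hol1.mono hb).isExactOn_ball
    have hQ' : ∀ᶠ z in 𝓝 q, HasDerivAt Q (k1 z) z := by
      filter_upwards [ball_mem_nhds q hε] with z hz
      exact hQ z hz
    have key := F2_near (q := q) (R := Q) h hFp hFm hqa hqb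
      (fun w hw e => hGp.repK w hw (by rw [e]; exact hq) Q (by rw [e]; exact hQ'))
      (fun u hu e => hGm.repK u hu (by rw [e]; exact hq) Q (by rw [e]; exact hQ'))
    have h1 : HasDerivAt (fun z => Q z + (F q - Q q)) (k1 q) q :=
      (hQ q (mem_ball_self hε)).add_const _
    exact h1.congr_of_eventuallyEq key
  · intro q hq
    have hqa : q ≠ φ α := fun e => hq (e ▸ aL)
    have hqb : q ≠ φ β := fun e => hq (e ▸ bL)
    have ho : IsOpen (f '' (arc φ J α β)ᶜ) := f.isOpenMap _ hLc.isOpen_compl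
    obtain ⟨ε, hε, hb⟩ := Metric.isOpen_iff.1 ho (f q) ⟨q, hq, rfl⟩
    obtain ⟨Q, hQ⟩ := (hF.hol2.mono hb).isExactOn_ball
    have hQ' : ∀ᶠ z in 𝓝 (f q), HasDerivAt Q (k2 z) z := by
      filter_upwards [ball_mem_nhds (f q) hε] with z hz
      exact hQ z hz
    have key := F2_near (q := q) (R := fun z => Q (f z)) h hFp hFm hqa hqb
      (fun w hw e => hGp.repL w hw (by rw [e]; exact hq) Q (by rw [e]; exact hQ'))
      (fun u hu e => hGm.repL u hu (by rw [e]; exact hq) Q (by rw [e]; exact hQ'))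
    have h1 : HasDerivAt (fun z => Q z + (F q - Q (f q))) (k2 (f q)) (f q) :=
      (hQ (f q) (mem_ball_self hε)).add_const _
    refine h1.congr_of_eventuallyEq ?_
    have h2 : Tendsto f.symm (𝓝 (f q)) (𝓝 q) := by
      have := f.symm.continuous.tendsto (f q)
      rwa [f.symm_apply_apply] at this
    filter_upwards [h2.eventually key] with w hw
    rw [hw, f.apply_symm_apply]

end Pool.Agent.H.MP_4bdd60_an
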