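import Pool.Agent.H.MP_4bdd60_an.F1a

/-!
# MP_4bdd60_an, part F: behaviour at infinity
-/

open Set Filter Topology Metric MeasureTheory Function
open scoped ENNReal Real

namespace Pool.Agent.H.MP_4bdd60_an

/-- By `large`, large `z` are values `χ u` with `u` close to `0`. -/
theorem asymp {φ χ F Gm : ℂ → ℂ} (h : Curve φ χ) (hFm : ∀ u ∈ ball (0 : ℂ) 1 \ {0}, F (χ u) = Gm u)
    (hb : ∃ C : ℝ, ∀ᶠ w in 𝓝[≠] (0 : ℂ), ‖Gm w - χ w‖ ≤ C) :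
    ∃ C R : ℝ, ∀ z, R < ‖z‖ → ‖F z - z‖ ≤ C := by
  obtain ⟨C, hC⟩ := hb
  obtain ⟨R, hR⟩ := large h hC
  refine ⟨C, R, fun z hz => ?_⟩
  obtain ⟨u, hu, hub, rfl⟩ := hR z hz
  rw [hFm u hub]
  exact hu

end Pool.Agent.H.MP_4bdd60_an
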