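import Pool.Agent.H.MP_4bdd60_an.F1a
import Pool.Agent.H.MP_4bdd60_an.D1a

/-!
# MP_4bdd60_an, part F: the complement of an arc is connected; the form is not zero near any point
-/

open Set Filter Topology Metric MeasureTheory Function
open scoped ENNReal Real

namespace Pool.Agent.H.MP_4bdd60_an

variable {φ χ : ℂ → ℂ} {α β : ℂ} {I J : Set ℂ} {g : ℂ → ℂ} {f : ℂ ≃ₜ ℂ} {k1 k2 : ℂ → ℂ}

/-- the punctured disc is connected: it is the image of `(0, 1) × ℝ` in polar coordinates -/
theorem F3_punct : IsPreconnected (ball (0 : ℂ) 1 \ {0}) := by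
  have h1 : IsPreconnected ((Ioo (0 : ℝ) 1) ×ˢ (univ : Set ℝ)) :=
    isPreconnected_Ioo.prod isPreconnected_univ
  have h2 : Continuous fun p : ℝ × ℝ => (p.1 : ℂ) * Complex.exp (p.2 * Complex.I) := by fun_prop
  have h3 := h1.image _ h2.continuousOn
  convert h3 using 1
  ext z
  constructor
  · rintro ⟨hz, hz0⟩
    refine ⟨(‖z‖, z.arg), ⟨⟨norm_pos_iff.2 hz0, ?_⟩, mem_univ _⟩, Complex.norm_mul_exp_arg_mul_I z⟩
    rwa [mem_ball_zero_iff] at hz
  · rintro ⟨⟨r, t⟩, ⟨⟨hr0, hr1⟩, -⟩, rfl⟩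
    have h4 : ‖(r : ℂ) * Complex.exp (t * Complex.I)‖ = r := by
      rw [norm_mul, Complex.norm_exp_ofReal_mul_I, mul_one, Complex.norm_real, Real.norm_eq_abs,
        abs_of_pos hr0]
    refine ⟨?_, ?_⟩
    · rw [mem_ball_zero_iff]
      change ‖(r : ℂ) * Complex.exp (t * Complex.I)‖ < 1
      rw [h4]
      exact hr1
    · intro h5
      have h6 : (r : ℂ) * Complex.exp (t * Complex.I) = 0 := h5
      rw [h6, norm_zero] at h4
      change 0 < r at hr0
      linarith

theorem F3_closure {u : ℂ} (hu : u ∈ sphere (0 : ℂ) 1) : u ∈ closure (ball (0 : ℂ) 1 \ {0}) := by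
  have hu1 : ‖u‖ = 1 := by rwa [mem_sphere_zero_iff_norm] at hu
  have h1 : Tendsto (fun t : ℝ => (t : ℂ) * u) (𝓝[<] 1) (𝓝 u) := by
    have h2 : Continuous fun t : ℝ => (t : ℂ) * u := by fun_prop
    have h3 := (h2.tendsto 1).mono_left (nhdsWithin_le_nhds (s := Iio 1))
    simpa using h3
  refine mem_closure_of_tendsto h1 ?_
  filter_upwards [Ioo_mem_nhdsLT (show (0 : ℝ) < 1 by norm_num)] with t ht
  have h4 : ‖(t : ℂ) * u‖ = t := by
    rw [norm_mul, hu1, mul_one, Complex.norm_real, Real.norm_eq_abs, abs_of_pos ht.1]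
  refine ⟨?_, fun h5 => ?_⟩
  · rw [mem_ball_zero_iff, h4]
    exact ht.2
  · have h6 : (t : ℂ) * u = 0 := h5
    rw [h6, norm_zero] at h4
    exact absurd h4 ht.1.ne

/-- the complement of the image of the complement of `B` in the circle -/
theorem F3_preconn (h : Curve φ χ) {g : ℂ → ℂ} (hg : ∀ z ∈ sphere (0 : ℂ) 1, g z ∈ sphere (0 : ℂ) 1)
    (hge : ∀ z ∈ sphere (0 : ℂ) 1, χ (g z) = φ z) {A B : Set ℂ} (hAB : A ∪ B = sphere 0 1)
    (hd : Disjoint A B) (hne : B.Nonempty) : IsPreconnected (φ '' A)ᶜ := by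
  have hB : B ⊆ sphere 0 1 := hAB ▸ subset_union_right
  have hA : A ⊆ sphere 0 1 := hAB ▸ subset_union_left
  have hbs : ∀ z ∈ ball (0 : ℂ) 1, z ∉ sphere (0 : ℂ) 1 := by
    intro z hz hz'
    rw [mem_ball_zero_iff] at hz
    rw [mem_sphere_zero_iff_norm] at hz'
    exact absurd hz' hz.ne
  have hs0 : ∀ z ∈ sphere (0 : ℂ) 1, z ∈ closedBall (0 : ℂ) 1 \ {0} := by
    intro z hz
    refine ⟨sphere_subset_closedBall hz, fun h0 => ?_⟩
    rw [mem_singleton_iff] at h0
    rw [h0, mem_sphere_zero_iff_norm, norm_zero] at hz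
    exact zero_ne_one hz
  have hcl : closure (ball (0 : ℂ) 1) = closedBall 0 1 := closure_ball 0 one_ne_zero
  have h1 : IsPreconnected (φ '' (ball 0 1 ∪ B)) := by
    refine IsPreconnected.image ?_ _ (h.φ_cont.mono ?_)
    · refine (convex_ball (0 : ℂ) 1).isPreconnected.subset_closure subset_union_left ?_
      rw [hcl]
      exact union_subset ball_subset_closedBall (hB.trans sphere_subset_closedBall)
    · exact union_subset ball_subset_closedBall (hB.trans sphere_subset_closedBall)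
  have h2 : IsPreconnected (χ '' ((ball 0 1 \ {0}) ∪ g '' B)) := by
    refine IsPreconnected.image ?_ _ (h.χ_cont.mono ?_)
    · refine F3_punct.subset_closure subset_union_left (union_subset subset_closure ?_)
      rintro _ ⟨b, hb, rfl⟩
      exact F3_closure (hg b (hB hb))
    · rintro z (hz | ⟨b, hb, rfl⟩)
      · exact ⟨ball_subset_closedBall hz.1, hz.2⟩
      · exact hs0 _ (hg b (hB hb))
  have h3 : (φ '' A)ᶜ = φ '' (ball 0 1 ∪ B) ∪ χ '' ((ball 0 1 \ {0}) ∪ g '' B) := by
    ext z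
    constructor
    · intro hz
      have hsp : ∀ w ∈ sphere (0 : ℂ) 1, z = φ w → z ∈ φ '' (ball 0 1 ∪ B) := by
        intro w hw e
        rw [← hAB] at hw
        rcases hw with hw | hw
        · exact absurd ⟨w, hw, e.symm⟩ hz
        · exact ⟨w, Or.inr hw, e.symm⟩
      have hzc : z ∈ φ '' closedBall 0 1 ∪ χ '' (closedBall 0 1 \ {0}) := by
        rw [h.cover]
        exact mem_univ z
      rcases hzc with ⟨w, hw, rfl⟩ | ⟨u, hu, rfl⟩
      · by_cases hw1 : w ∈ ball (0 : ℂ) 1
        · exact Or.inl ⟨w, Or.inl hw1, rfl⟩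
        · have hw2 : w ∈ sphere (0 : ℂ) 1 := by
            rw [mem_closedBall_zero_iff] at hw
            rw [mem_ball_zero_iff] at hw1
            rw [mem_sphere_zero_iff_norm]
            linarith
          exact Or.inl (hsp w hw2 rfl)
      · by_cases hu1 : u ∈ ball (0 : ℂ) 1
        · exact Or.inr ⟨u, Or.inl ⟨hu1, hu.2⟩, rfl⟩
        · have hu2 : u ∈ sphere (0 : ℂ) 1 := by
            have hu3 := hu.1
            rw [mem_closedBall_zero_iff] at hu3
            rw [mem_ball_zero_iff] at hu1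
            rw [mem_sphere_zero_iff_norm]
            linarith
          have hu4 : χ u ∈ φ '' sphere 0 1 := by
            rw [h.bdry]
            exact ⟨u, hu2, rfl⟩
          obtain ⟨w, hw, e⟩ := hu4
          exact Or.inl (hsp w hw e.symm)
    · rintro (⟨w, hw, rfl⟩ | ⟨u, hu, rfl⟩) ⟨a, ha, e⟩
      · have haw : a = w := by
          refine h.φ_inj (sphere_subset_closedBall (hA ha)) ?_ e
          rcases hw with hw | hw
          · exact ball_subset_closedBall hw
          · exact sphere_subset_closedBall (hB hw)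
        rcases hw with hw | hw
        · exact hbs w hw (haw ▸ hA ha)
        · exact Set.disjoint_left.1 hd ha (haw ▸ hw)
      · rcases hu with hu | ⟨b, hb, rfl⟩
        · have e1 : g a = u := by
            refine h.χ_inj (hs0 _ (hg a (hA ha))) ⟨ball_subset_closedBall hu.1, hu.2⟩ ?_
            rw [hge a (hA ha), e]
          exact hbs u hu.1 (e1 ▸ hg a (hA ha))
        · rw [hge b (hB hb)] at e
          have e2 : a = b := h.φ_inj (sphere_subset_closedBall (hA ha))
            (sphere_subset_closedBall (hB hb)) e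
          exact Set.disjoint_left.1 hd ha (e2 ▸ hb)
  rw [h3]
  obtain ⟨b, hb⟩ := hne
  refine h1.union (φ b) ⟨b, Or.inr hb, rfl⟩ ?_ h2
  exact ⟨g b, Or.inr ⟨b, hb, rfl⟩, hge b (hB hb)⟩

/-- The complement of the arc over `I` is the union of `φ '' (ball 0 1 ∪ J)` and `χ '' ((ball 0 1 \ {0}) ∪ g '' J)`, both
preconnected (the sets lie between `ball 0 1`, resp. `ball 0 1 \ {0}`, and their closures, `IsPreconnected.subset_closure`; the
ball minus a point is connected), with a common point (`J` is nonempty). -/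
theorem preconn_K (h : Marked φ χ α β I J g) : IsPreconnected (arc φ I α β)ᶜ := by
  refine F3_preconn h.toCurve h.g_maps h.g_eq (B := J) ?_ ?_ h.neJ
  · rw [← h.union]
    ext z
    simp only [mem_union, mem_insert_iff, mem_singleton_iff]
    tauto
  · rw [Set.disjoint_left]
    rintro z (hz | hz | hz) hzJ
    · exact Set.disjoint_left.1 h.IJ hz hzJ
    · exact h.αJ (hz ▸ hzJ)
    · rw [mem_singleton_iff] at hz
      exact h.βJ (hz ▸ hzJ)

theorem preconn_L (h : Marked φ χ α β I J g) : IsPreconnected (arc φ J α β)ᶜ := by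
  refine F3_preconn h.toCurve h.g_maps h.g_eq (B := I) ?_ ?_ h.neI
  · rw [← h.union]
    ext z
    simp only [mem_union, mem_insert_iff, mem_singleton_iff]
    tauto
  · rw [Set.disjoint_left]
    rintro z (hz | hz | hz) hzI
    · exact Set.disjoint_left.1 h.IJ hzI hz
    · exact h.αI (hz ▸ hzI)
    · rw [mem_singleton_iff] at hz
      exact h.βI (hz ▸ hzI)

/-- `k1` is close to `1` near infinity, so by the identity theorem
(`AnalyticOnNhd.eqOn_zero_of_preconnected_of_eventuallyEq_zero`) it is not identically zero near any point off the arc over `I`;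
`f (Lᶜ)` is preconnected; if `k2` were zero near a point of it, it would be zero on `f (Lᶜ)` and `k1` would be zero off both arcs. -/
theorem nonvanishing (h : Marked φ χ α β I J g)
    (hF : Form (arc φ I α β) (arc φ J α β) f k1 k2) :
    (∀ z, z ∉ arc φ I α β → ¬ ∀ᶠ y in 𝓝 z, k1 y = 0) ∧
      (∀ z, z ∉ arc φ J α β → ¬ ∀ᶠ y in 𝓝 (f z), k2 y = 0) := by
  -- a point near infinity at which the form does not vanish
  obtain ⟨w, hwK, hwL, hw⟩ : ∃ w, w ∉ arc φ I α β ∧ w ∉ arc φ J α β ∧ k1 w ≠ 0 := by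
    obtain ⟨C, R, hR, hCR⟩ := hF.inf
    have hr : 0 < R + |C| + 1 := by positivity
    have hn : ‖((R + |C| + 1 : ℝ) : ℂ)‖ = R + |C| + 1 := by
      rw [Complex.norm_real, Real.norm_eq_abs, abs_of_pos hr]
    obtain ⟨h1, h2, h3⟩ := hCR ((R + |C| + 1 : ℝ) : ℂ) (by rw [hn]; linarith [abs_nonneg C])
    refine ⟨_, h1, h2, fun h0 => ?_⟩
    rw [h0, zero_sub, norm_neg, norm_one, hn, le_div_iff₀ (by positivity)] at h3
    have h4 : C ≤ |C| := le_abs_self C
    have h5 : 0 ≤ |C| := abs_nonneg C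
    nlinarith
  have hKo : IsOpen (arc φ I α β)ᶜ := (isCompact_arcI h).isClosed.isOpen_compl
  have hLo : IsOpen (arc φ J α β)ᶜ := (isCompact_arcJ h).isClosed.isOpen_compl
  refine ⟨fun z hz hcon => ?_, fun z hz hcon => ?_⟩
  · have h1 : EqOn k1 0 (arc φ I α β)ᶜ :=
      (hF.hol1.analyticOnNhd hKo).eqOn_zero_of_preconnected_of_eventuallyEq_zero (preconn_K h) hz hcon
    exact hw (h1 hwK)
  · have hfo : IsOpen (f '' (arc φ J α β)ᶜ) := f.isOpenMap _ hLo
    have h1 : EqOn k2 0 (f '' (arc φ J α β)ᶜ) :=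
      (hF.hol2.analyticOnNhd hfo).eqOn_zero_of_preconnected_of_eventuallyEq_zero
        ((preconn_L h).image _ f.continuous.continuousOn) ⟨z, hz, rfl⟩ hcon
    have h2 := h1 ⟨w, hwL, rfl⟩
    apply hw
    rw [hF.rel w hwK hwL, h2]
    simp

end Pool.Agent.H.MP_4bdd60_an
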