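import Pool.Agent.H.MP_4bdd60_an.F1a

/-!
# MP_4bdd60_an, part F: open sets built from the two sides
-/

open Set Filter Topology Metric MeasureTheory Function
open scoped ENNReal Real

namespace Pool.Agent.H.MP_4bdd60_an

variable {φ χ : ℂ → ℂ}

theorem F1b_sph (h : Curve φ χ) {z u : ℂ} (hz : z ∈ closedBall (0 : ℂ) 1)
    (hu : u ∈ closedBall (0 : ℂ) 1 \ {0}) (e : φ z = χ u) :
    z ∈ sphere (0 : ℂ) 1 ∧ u ∈ sphere (0 : ℂ) 1 := by
  have hs : ∀ w : ℂ, w ∈ closedBall (0 : ℂ) 1 → w ∈ ball (0 : ℂ) 1 ∨ w ∈ sphere (0 : ℂ) 1 := by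
    intro w hw
    rw [← ball_union_sphere] at hw
    exact hw
  have hns : ∀ w : ℂ, w ∈ sphere (0 : ℂ) 1 → w ∉ ball (0 : ℂ) 1 := by
    intro w hw hw'
    rw [mem_sphere] at hw
    rw [mem_ball] at hw'
    linarith
  have hn0 : ∀ w : ℂ, w ∈ sphere (0 : ℂ) 1 → w ∈ closedBall (0 : ℂ) 1 \ {0} := by
    intro w hw
    refine ⟨sphere_subset_closedBall hw, ?_⟩
    rintro h0
    rw [mem_singleton_iff] at h0
    subst h0
    rw [mem_sphere, dist_self] at hw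
    exact zero_ne_one hw
  rcases hs z hz with hzb | hzs <;> rcases hs u hu.1 with hub | hus
  · exact absurd e (h.disj z hzb u ⟨hub, hu.2⟩)
  · exfalso
    have h1 : χ u ∈ φ '' sphere (0 : ℂ) 1 := by
      rw [h.bdry]
      exact ⟨u, hus, rfl⟩
    obtain ⟨z', hz', e'⟩ := h1
    have h2 : z' = z := h.φ_inj (sphere_subset_closedBall hz') hz (e'.trans e.symm)
    exact hns z' hz' (h2 ▸ hzb)
  · exfalso
    have h1 : φ z ∈ χ '' sphere (0 : ℂ) 1 := by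
      rw [← h.bdry]
      exact ⟨z, hzs, rfl⟩
    obtain ⟨u', hu', e'⟩ := h1
    have h2 : u' = u := h.χ_inj (hn0 u' hu') hu (e'.trans e)
    exact hns u' hu' (h2 ▸ hub)
  · exact ⟨hzs, hus⟩

/-- `T1`, `T2` relatively open in the closed ball, with matching traces on the circle: then `φ '' T1 ∪ χ '' T2` is open.
Its complement is `φ '' (closedBall 0 1 \ T1) ∪ χ '' ((closedBall 0 1 \ T2) \ {0})` (by `cover`, injectivity, `disj`, `bdry` and the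
matching condition; a value of `φ` on the circle is a value of `χ` on the circle and conversely), closed by `closed_p`,
`closed_m`. -/
theorem open_N (h : Curve φ χ) {T1 T2 : Set ℂ} (h1 : T1 ⊆ closedBall 0 1)
    (h2 : T2 ⊆ closedBall 0 1 \ {0}) (c1 : IsClosed (closedBall 0 1 \ T1))
    (c2 : IsClosed (closedBall 0 1 \ T2))
    (tr : ∀ z ∈ sphere (0 : ℂ) 1, ∀ u ∈ sphere (0 : ℂ) 1, φ z = χ u → (z ∈ T1 ↔ u ∈ T2)) :
    IsOpen (φ '' T1 ∪ χ '' T2) := by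
  have hc : (φ '' T1 ∪ χ '' T2)ᶜ =
      φ '' (closedBall 0 1 \ T1) ∪ χ '' ((closedBall 0 1 \ T2) \ {0}) := by
    ext y
    constructor
    · intro hy
      have hcov : y ∈ φ '' closedBall 0 1 ∪ χ '' (closedBall 0 1 \ {0}) := by
        rw [h.cover]
        exact mem_univ y
      rcases hcov with ⟨z, hz, rfl⟩ | ⟨u, hu, rfl⟩
      · left
        exact ⟨z, ⟨hz, fun hz1 => hy (Or.inl ⟨z, hz1, rfl⟩)⟩, rfl⟩
      · right
        exact ⟨u, ⟨⟨hu.1, fun hu1 => hy (Or.inr ⟨u, hu1, rfl⟩)⟩, hu.2⟩, rfl⟩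
    · rintro (⟨z, hz, rfl⟩ | ⟨u, hu, rfl⟩) hy
      · rcases hy with ⟨z', hz', e⟩ | ⟨u, hu, e⟩
        · have e2 : z' = z := h.φ_inj (h1 hz') hz.1 e
          exact hz.2 (e2 ▸ hz')
        · obtain ⟨s1, s2⟩ := F1b_sph h hz.1 (h2 hu) e.symm
          exact hz.2 ((tr z s1 u s2 e.symm).2 hu)
      · rcases hy with ⟨z, hz, e⟩ | ⟨u', hu', e⟩
        · obtain ⟨s1, s2⟩ := F1b_sph h (h1 hz) ⟨hu.1.1, hu.2⟩ e
          exact hu.1.2 ((tr z s1 u s2 e).1 hz)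
        · have e2 : u' = u := h.χ_inj (h2 hu') ⟨hu.1.1, hu.2⟩ e
          exact hu.1.2 (e2 ▸ hu')
  rw [← isClosed_compl_iff, hc]
  exact (closed_p h c1 diff_subset).isClosed.union (closed_m h c2 diff_subset)

/-- Membership of a boundary value. -/
theorem mem_N (h : Curve φ χ) {T1 T2 : Set ℂ} (h1 : T1 ⊆ closedBall 0 1)
    (h2 : T2 ⊆ closedBall 0 1 \ {0})
    (tr : ∀ z ∈ sphere (0 : ℂ) 1, ∀ u ∈ sphere (0 : ℂ) 1, φ z = χ u → (z ∈ T1 ↔ u ∈ T2))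
    {z : ℂ} (hz : z ∈ sphere (0 : ℂ) 1) : φ z ∈ φ '' T1 ∪ χ '' T2 ↔ z ∈ T1 := by
  constructor
  · rintro (⟨z', hz', e⟩ | ⟨u, hu, e⟩)
    · have e2 : z' = z := h.φ_inj (h1 hz') (sphere_subset_closedBall hz) e
      exact e2 ▸ hz'
    · obtain ⟨s1, s2⟩ := F1b_sph h (sphere_subset_closedBall hz) (h2 hu) e.symm
      exact (tr z s1 u s2 e.symm).2 hu
  · intro hz1
    exact Or.inl ⟨z, hz1, rfl⟩

/-- Closure: contained in the compact set `φ '' T1' ∪ χ '' T2'`, and the points of the closure which are not in the set are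
values of the differences. -/
theorem closure_N (h : Curve φ χ) {T1 T2 T1' T2' : Set ℂ} (h1 : T1 ⊆ T1') (h2 : T2 ⊆ T2')
    (c1 : IsClosed T1') (c2 : IsClosed T2') (b1 : T1' ⊆ closedBall 0 1)
    (b2 : T2' ⊆ closedBall 0 1 \ {0}) :
    closure (φ '' T1 ∪ χ '' T2) ⊆ φ '' T1' ∪ χ '' T2' ∧
      closure (φ '' T1 ∪ χ '' T2) \ (φ '' T1 ∪ χ '' T2) ⊆ φ '' (T1' \ T1) ∪ χ '' (T2' \ T2) := by
  have hcl : closure (φ '' T1 ∪ χ '' T2) ⊆ φ '' T1' ∪ χ '' T2' :=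
    closure_minimal (union_subset_union (image_mono h1) (image_mono h2))
      ((closed_p h c1 b1).isClosed.union (compact_m h c2 b2).isClosed)
  refine ⟨hcl, ?_⟩
  rintro y ⟨hy, hyn⟩
  rcases hcl hy with ⟨z, hz, rfl⟩ | ⟨u, hu, rfl⟩
  · exact Or.inl ⟨z, ⟨hz, fun hz1 => hyn (Or.inl ⟨z, hz1, rfl⟩)⟩, rfl⟩
  · exact Or.inr ⟨u, ⟨hu, fun hu1 => hyn (Or.inr ⟨u, hu1, rfl⟩)⟩, rfl⟩

end Pool.Agent.H.MP_4bdd60_an
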