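import Pool.Agent.H.MP_4bdd60_an.G1a
import Pool.Agent.H.MP_4bdd60_an.F1b
import Pool.Agent.H.MP_4bdd60_an.E5

/-!
# MP_4bdd60_an, part G: triangular neighbourhoods of a marked point
-/

open Set Filter Topology Metric MeasureTheory Function
open scoped ENNReal Real

namespace Pool.Agent.H.MP_4bdd60_an

variable {φ χ : ℂ → ℂ} {α β : ℂ} {I J : Set ℂ} {g : ℂ → ℂ} {h : ℝ → ℝ} {κ : ℝ}

/-- the union of the two triangles -/
noncomputable def Nb (φ χ : ℂ → ℂ) (h : ℝ → ℝ) (κ u v s1 s2 : ℝ) : Set ℂ :=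
  φ '' Dt 1 u v s1 ∪ χ '' Dt κ (h u) (h v) s2

/-- the traces match -/
theorem G1_tr (hM : Marked φ χ α β I J g) (hc : Chart g h κ) {u v s1 s2 : ℝ} (hs1 : 1 ≤ s1) (hs2 : 1 ≤ s2)
    (huv : u < v) : ∀ z ∈ sphere (0 : ℂ) 1, ∀ w ∈ sphere (0 : ℂ) 1, φ z = χ w →
      (z ∈ Dt 1 u v s1 ↔ w ∈ Dt κ (h u) (h v) s2) := by
  intro z hz w hw e
  have hwz : w = g z := g_of_eq hM hz hw e
  constructor
  · intro h1
    obtain ⟨x, hx⟩ := Dt_sphere (Or.inl rfl) hz h1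
    rw [hx] at h1
    have h2 := (Dt_trace (Or.inl rfl) hs1 x).1 h1
    have h3 : w = cay (κ * h x) := by
      rw [hwz, hx, one_mul, hc.g_eq]
    rw [h3]
    exact (Dt_trace hc.κ_eq hs2 (h x)).2 ⟨hc.mono h2.1, hc.mono h2.2⟩
  · intro h1
    obtain ⟨x', hx'⟩ := Dt_sphere hc.κ_eq hw h1
    rw [hx'] at h1
    have h2 := (Dt_trace hc.κ_eq hs2 x').1 h1
    obtain ⟨x, hx, rfl⟩ := intermediate_value_Ioo huv.le hc.cont.continuousOn h2
    have h3 : g z = g (cay x) := by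
      rw [← hwz, hx', hc.g_eq]
    have h4 : z = cay x := g_inj hM hz (cay_mem x) h3
    have h5 := (Dt_trace (κ := 1) (Or.inl rfl) hs1 x).2 hx
    rwa [one_mul, ← h4] at h5

/-- `open_N` with `Dt_sub`, `DtC_sub`, `Dt_closed`; the traces match: for `z`, `w` on the circle with `φ z = χ w` we have `w = g z`
(`g_of_eq`); if `z = cay x` with `u < x < v` then `w = cay (κ * h x)` (`g_eq`) with `h u < h x < h v` and conversely (`Dt_trace`,
`Dt_sphere`, `h` strictly increasing; if `w = cay (κ * x')` is in the second trace, `x'` between `h u` and `h v` is a value `h x` by the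
intermediate value theorem, and `g z = g (cay x)` gives `z = cay x`). -/
theorem Nb_open (hM : Marked φ χ α β I J g) (hc : Chart g h κ) {u v s1 s2 : ℝ} (hs1 : 1 ≤ s1) (hs2 : 1 ≤ s2)
    (huv : u < v) (h1 : v - u < 1) (h2 : h v - h u < 1) : IsOpen (Nb φ χ h κ u v s1 s2) := by
  have _ := h1
  exact open_N hM.toCurve (Dt_sub (Or.inl rfl)) (Dt_sub_DtC.trans (DtC_sub hc.κ_eq hs2 h2))
    (Dt_closed (Or.inl rfl) hs1) (Dt_closed hc.κ_eq hs2) (G1_tr hM hc hs1 hs2 huv)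

/-- `mem_N` and `Dt_trace`. -/
theorem Nb_trace (hM : Marked φ χ α β I J g) (hc : Chart g h κ) {u v s1 s2 : ℝ} (hs1 : 1 ≤ s1) (hs2 : 1 ≤ s2)
    (huv : u < v) (h1 : v - u < 1) (h2 : h v - h u < 1) (x : ℝ) :
    φ (cay x) ∈ Nb φ χ h κ u v s1 s2 ↔ u < x ∧ x < v := by
  have _ := h1
  have h3 := mem_N hM.toCurve (Dt_sub (Or.inl rfl)) (Dt_sub_DtC.trans (DtC_sub hc.κ_eq hs2 h2))
    (G1_tr hM hc hs1 hs2 huv) (cay_mem x)
  have h4 := Dt_trace (κ := 1) (u := u) (v := v) (Or.inl rfl) hs1 x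
  rw [one_mul] at h4
  exact h3.trans h4

/-- the closure is in the union of the two closed triangles; the other points are in the differences -/
theorem G1_closure (hM : Marked φ χ α β I J g) (hc : Chart g h κ) {u v s1 s2 : ℝ} (hs1 : 1 ≤ s1)
    (hs2 : 1 ≤ s2) (h1 : v - u < 1) (h2 : h v - h u < 1) :
    closure (Nb φ χ h κ u v s1 s2) ⊆ φ '' DtC 1 u v s1 ∪ χ '' DtC κ (h u) (h v) s2 ∧
      closure (Nb φ χ h κ u v s1 s2) \ Nb φ χ h κ u v s1 s2 ⊆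
        φ '' (DtC 1 u v s1 \ Dt 1 u v s1) ∪
          χ '' (DtC κ (h u) (h v) s2 \ Dt κ (h u) (h v) s2) :=
  closure_N hM.toCurve Dt_sub_DtC Dt_sub_DtC (DtC_closed (Or.inl rfl) hs1) (DtC_closed hc.κ_eq hs2)
    ((DtC_sub (Or.inl rfl) hs1 h1).trans sdiff_subset) (DtC_sub hc.κ_eq hs2 h2)

/-- `closure_N` and `DtC_diff`. -/
theorem Nb_frontier (hM : Marked φ χ α β I J g) (hc : Chart g h κ) {u v s1 s2 : ℝ} (hs1 : 1 ≤ s1)
    (hs2 : 1 ≤ s2) (huv : u < v) (h1 : v - u < 1) (h2 : h v - h u < 1) {z : ℂ}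
    (hz : z ∈ closure (Nb φ χ h κ u v s1 s2) \ Nb φ χ h κ u v s1 s2) :
    (∃ t ∈ Icc 0 (v - u), z = φ (cayc ⟨u + s1 * t, t⟩) ∨ z = φ (cayc ⟨v - s1 * t, t⟩)) ∨
      (∃ t ∈ Icc 0 (h v - h u), z = χ (cayc ⟨κ * (h u + s2 * t), t⟩) ∨
        z = χ (cayc ⟨κ * (h v - s2 * t), t⟩)) := by
  have _ := huv
  rcases (G1_closure hM hc hs1 hs2 h1 h2).2 hz with ⟨w, hw, rfl⟩ | ⟨w, hw, rfl⟩
  · left
    obtain ⟨t, ht, h3⟩ := DtC_diff (Or.inl rfl) hs1 hw
    refine ⟨t, ht, ?_⟩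
    rw [one_mul, one_mul] at h3
    rcases h3 with h3 | h3
    · exact Or.inl (by rw [h3])
    · exact Or.inr (by rw [h3])
  · right
    obtain ⟨t, ht, h3⟩ := DtC_diff hc.κ_eq hs2 hw
    refine ⟨t, ht, ?_⟩
    rcases h3 with h3 | h3
    · exact Or.inl (by rw [h3])
    · exact Or.inr (by rw [h3])

/-- The end points `φ (cay u)`, `φ (cay v)` are in the closure (limits of `φ (cay x)`, `x` between `u` and `v`). -/
theorem Nb_ends (hM : Marked φ χ α β I J g) (hc : Chart g h κ) {u v s1 s2 : ℝ} (hs1 : 1 ≤ s1) (hs2 : 1 ≤ s2)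
    (huv : u < v) (h1 : v - u < 1) (h2 : h v - h u < 1) :
    φ (cay u) ∈ closure (Nb φ χ h κ u v s1 s2) ∧ φ (cay v) ∈ closure (Nb φ χ h κ u v s1 s2) := by
  have hcont : Continuous (fun x : ℝ => φ (cay x)) :=
    hM.φ_cont.comp_continuous cay_continuous (fun x => sphere_subset_closedBall (cay_mem x))
  have hmaps : MapsTo (fun x : ℝ => φ (cay x)) (Ioo u v) (Nb φ χ h κ u v s1 s2) :=
    fun x hx => (Nb_trace hM hc hs1 hs2 huv h1 h2 x).2 hx
  have hcl : closure (Ioo u v) = Icc u v := closure_Ioo huv.ne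
  constructor
  · refine map_mem_closure (f := fun x : ℝ => φ (cay x)) hcont ?_ hmaps
    rw [hcl]
    exact left_mem_Icc.2 huv.le
  · refine map_mem_closure (f := fun x : ℝ => φ (cay x)) hcont ?_ hmaps
    rw [hcl]
    exact right_mem_Icc.2 huv.le

/-- Small triangles are in a given neighbourhood: `closure_N`, `DtC_small`, continuity of `φ` at `cay y` and of `χ` at
`g (cay y) = cay (κ * h y)` within the closed ball. -/
theorem Nb_small (hM : Marked φ χ α β I J g) (hc : Chart g h κ) (y : ℝ) {U : Set ℂ}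
    (hU : U ∈ 𝓝 (φ (cay y))) :
    ∃ η : ℝ, 0 < η ∧ ∀ u v s1 s2 : ℝ, 1 ≤ s1 → 1 ≤ s2 → y - η < u → u < y → y < v → v < y + η →
      h y - η < h u → h v < h y + η → closure (Nb φ χ h κ u v s1 s2) ⊆ U := by
  have hk : χ (cay (κ * h y)) = φ (cay y) := by
    rw [← hc.g_eq, hM.g_eq _ (cay_mem y)]
  have hn0 : cay (κ * h y) ∈ closedBall (0 : ℂ) 1 \ {0} := by
    refine ⟨sphere_subset_closedBall (cay_mem _), ?_⟩
    intro h0
    have h3 := cay_norm (κ * h y)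
    rw [mem_singleton_iff] at h0
    rw [h0, norm_zero] at h3
    exact zero_ne_one h3
  have hA : ∀ᶠ z in 𝓝[closedBall (0 : ℂ) 1] (cay y), φ z ∈ U :=
    (hM.φ_cont (cay y) (sphere_subset_closedBall (cay_mem y))) hU
  have hB : ∀ᶠ z in 𝓝[closedBall (0 : ℂ) 1 \ {0}] (cay (κ * h y)), χ z ∈ U := by
    rw [← hk] at hU
    exact (hM.χ_cont (cay (κ * h y)) hn0) hU
  rw [eventually_nhdsWithin_iff, Metric.eventually_nhds_iff] at hA hB
  obtain ⟨ε1, hε1, hA⟩ := hA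
  obtain ⟨ε2, hε2, hB⟩ := hB
  refine ⟨min (min (ε1 / 16) (ε2 / 16)) (1 / 4), by positivity, ?_⟩
  intro u v s1 s2 hs1 hs2 hu1 hu2 hv1 hv2 hh1 hh2
  have e1 : min (min (ε1 / 16) (ε2 / 16)) (1 / 4) ≤ ε1 / 16 := (min_le_left _ _).trans (min_le_left _ _)
  have e2 : min (min (ε1 / 16) (ε2 / 16)) (1 / 4) ≤ ε2 / 16 := (min_le_left _ _).trans (min_le_right _ _)
  have e3 : min (min (ε1 / 16) (ε2 / 16)) (1 / 4) ≤ (1 / 4 : ℝ) := min_le_right _ _
  have hm1 : h u < h y := hc.mono hu2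
  have hm2 : h y < h v := hc.mono hv1
  have h1 : v - u < 1 := by linarith
  have h2 : h v - h u < 1 := by linarith
  refine (G1_closure hM hc hs1 hs2 h1 h2).1.trans ?_
  rintro z (⟨w, hw, rfl⟩ | ⟨w, hw, rfl⟩)
  · refine hA ?_ (DtC_sub (Or.inl rfl) hs1 h1 hw).1
    have h3 := DtC_small (y := y) (Or.inl rfl) hs1 ⟨hu2.le, hv1.le⟩ hw
    rw [one_mul] at h3
    rw [dist_eq_norm]
    linarith
  · refine hB ?_ (DtC_sub hc.κ_eq hs2 h2 hw)
    have h3 := DtC_small (y := h y) hc.κ_eq hs2 ⟨hm1.le, hm2.le⟩ hw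
    rw [dist_eq_norm]
    linarith

end Pool.Agent.H.MP_4bdd60_an
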