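import Pool.Agent.H.MP_4bdd60_an.G2a

/-!
# MP_4bdd60_an, part G: extension of an open map to a point with small loops round it
-/

open Set Filter Topology Metric

namespace Pool.Agent.H.MP_4bdd60_an

/-- `F` is continuous and open near `a` minus `a` (on `U0 \ {a}`, `U0` an open neighbourhood of `a`); `ρ` is a path ending at `a`.
By `hN` there are arbitrarily small bounded open neighbourhoods `N` of `a` such that `F` is within `ε` of a constant `p` on the
frontier `closure N \ N`, and `ρ` crosses the frontier exactly at the parameter `s`.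
Proof.  Choose inductively `N_n` with `ε = 2^(-n)`, with compact closure (take `U` inside a closed ball inside `U0`), and with
`closure N_(n+1) ⊆ N_n`, `N_n ⊆ ball a (1/(n+1))`.  For `m > n` apply `ext_step` with `A = closure N_n \ N_m`,
`R = N_n \ closure N_m`, `γ = closure N_n \ N_n`, `γ' = closure N_m \ N_m`, `P = ρ '' Icc s_m s_n` (`s_m < s_n` because
`ρ s_m ∈ closure N_m ⊆ N_n`), `r = 2^(-n)`: `‖p_n - p_m‖ ≤ 4 · 2^(-n)` and `‖F z - p_n‖ ≤ 6 · 2^(-n)` for `z ∈ closure N_n \ N_m`.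
So `p_n` converges to some `A`, and `‖F z - A‖ ≤ 10 · 2^(-n)` for all `z ∈ N_n`, `z ≠ a` (choose `m` with `z ∉ N_m`). -/
theorem ext_at {F : ℂ → ℂ} {a : ℂ} {U0 : Set ℂ} (hU0 : IsOpen U0) (haU : a ∈ U0)
    (hF : ContinuousOn F (U0 \ {a})) (hopen : ∀ z ∈ U0 \ {a}, ∀ N ∈ 𝓝 z, F '' N ∈ 𝓝 (F z))
    {ρ : ℝ → ℂ} {δ : ℝ} (hρ : ContinuousOn ρ (Ioo 0 δ))
    (hN : ∀ ε : ℝ, 0 < ε → ∀ U ∈ 𝓝 a, ∃ (N : Set ℂ) (p : ℂ) (s : ℝ), IsOpen N ∧ a ∈ N ∧ closure N ⊆ U ∧
      (∀ z ∈ closure N \ N, ‖F z - p‖ ≤ ε) ∧ 0 < s ∧ s < δ ∧ ρ s ∈ closure N \ N ∧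
      (∀ s', 0 < s' → s' < s → ρ s' ∈ N) ∧ (∀ s', s ≤ s' → s' < δ → ρ s' ∉ N)) :
    ∃ A : ℂ, Tendsto F (𝓝[≠] a) (𝓝 A) := by
  have key : ∀ r : ℝ, 0 < r → ∃ N : Set ℂ, N ∈ 𝓝 a ∧ ∃ p : ℂ, ∀ z ∈ N, z ≠ a → ‖F z - p‖ ≤ 6 * r := by
    intro r hr
    obtain ⟨r0, hr0, hball⟩ := Metric.nhds_basis_closedBall.mem_iff.1 (hU0.mem_nhds haU)
    obtain ⟨N, p, s, hNo, haN, hNU, hNp, hs0, hsδ, hρs, hρin, hρout⟩ :=
      hN r hr (closedBall a r0) (Metric.closedBall_mem_nhds a hr0)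
    refine ⟨N, hNo.mem_nhds haN, p, fun z hz hza => ?_⟩
    have hd : 0 < dist z a := dist_pos.2 hza
    obtain ⟨N', p', s', hNo', haN', hNU', hNp', hs0', hsδ', hρs', hρin', hρout'⟩ :=
      hN r hr (N ∩ ball a (dist z a)) (Filter.inter_mem (hNo.mem_nhds haN) (Metric.ball_mem_nhds a hd))
    have hcN : IsCompact (closure N) := (isCompact_closedBall a r0).of_isClosed_subset isClosed_closure hNU
    have hA : IsCompact (closure N \ N') := hcN.diff hNo'
    have hR : IsOpen (N \ closure N') := hNo.sdiff isClosed_closure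
    have hRA : N \ closure N' ⊆ closure N \ N' :=
      fun x hx => ⟨subset_closure hx.1, fun h => hx.2 (subset_closure h)⟩
    have hAR : closure N \ N' ⊆ (N \ closure N') ∪ (closure N \ N) ∪ (closure N' \ N') := by
      intro x hx
      by_cases hxN : x ∈ N
      · by_cases hxN' : x ∈ closure N'
        · exact Or.inr ⟨hxN', hx.2⟩
        · exact Or.inl (Or.inl ⟨hxN, hxN'⟩)
      · exact Or.inl (Or.inr ⟨hx.1, hxN⟩)
    have hAU : closure N \ N' ⊆ U0 \ {a} := by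
      intro x hx
      refine ⟨hball (hNU hx.1), ?_⟩
      intro hxa
      rw [mem_singleton_iff] at hxa
      exact hx.2 (hxa ▸ haN')
    have hss : s' < s := by
      by_contra hcon
      have h1 : ρ s' ∈ N := (hNU' hρs'.1).1
      exact hρout s' (not_lt.1 hcon) hsδ' h1
    have hIcc : Icc s' s ⊆ Ioo 0 δ := fun t ht => ⟨lt_of_lt_of_le hs0' ht.1, lt_of_le_of_lt ht.2 hsδ⟩
    have hPc : IsPreconnected (ρ '' Icc s' s) := isPreconnected_Icc.image ρ (hρ.mono hIcc)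
    have hPA : ρ '' Icc s' s ⊆ closure N \ N' := by
      rintro x ⟨t, ht, rfl⟩
      refine ⟨?_, hρout' t ht.1 (lt_of_le_of_lt ht.2 hsδ)⟩
      rcases lt_or_eq_of_le ht.2 with h | h
      · exact subset_closure (hρin t (lt_of_lt_of_le hs0' ht.1) h)
      · rw [h]
        exact hρs.1
    have hstep := ext_step (F := F) hA (hF.mono hAU) hR hRA hAR
      (fun x hx => hopen x (hAU (hRA hx))) (p := p) (p' := p') (r := r)
      (fun x hx => hNp x hx.1) (fun x hx => hNp' x hx.1) hPc hPA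
      ⟨ρ s, ⟨s, ⟨hss.le, le_rfl⟩, rfl⟩, hρs⟩ ⟨ρ s', ⟨s', ⟨le_rfl, hss.le⟩, rfl⟩, hρs'⟩
    refine hstep.2 z ⟨subset_closure hz, fun hzN' => ?_⟩
    have h2 := (hNU' (subset_closure hzN')).2
    rw [mem_ball] at h2
    exact lt_irrefl _ h2
  have hc : Cauchy (Filter.map F (𝓝[≠] a)) := by
    rw [Metric.cauchy_iff]
    refine ⟨inferInstance, fun ε hε => ?_⟩
    obtain ⟨N, hNn, p, hp⟩ := key (ε / 24) (by positivity)
    refine ⟨F '' (N \ {a}), ?_, ?_⟩
    · refine Filter.image_mem_map ?_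
      rw [Set.sdiff_eq]
      exact Filter.inter_mem (mem_nhdsWithin_of_mem_nhds hNn) self_mem_nhdsWithin
    · rintro x ⟨z, hz, rfl⟩ y ⟨w, hw, rfl⟩
      have h1 := hp z hz.1 (fun h => hz.2 (mem_singleton_iff.2 h))
      have h2 := hp w hw.1 (fun h => hw.2 (mem_singleton_iff.2 h))
      rw [dist_eq_norm]
      have h3 : F z - F w = (F z - p) - (F w - p) := by ring
      rw [h3]
      have h4 := norm_sub_le (F z - p) (F w - p)
      linarith
  exact cauchy_map_iff_exists_tendsto.1 hc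

end Pool.Agent.H.MP_4bdd60_an
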