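import Pool.Agent.H.MP_4bdd60_an.A10
import Pool.Agent.H.MP_4bdd60_an.C2
import Pool.Agent.H.MP_4bdd60_an.C3
import Pool.Agent.H.MP_4bdd60_an.D1
import Pool.Agent.H.MP_4bdd60_an.E5
import Pool.Agent.H.MP_4bdd60_an.F2
import Pool.Agent.H.MP_4bdd60_an.F2b
import Pool.Agent.H.MP_4bdd60_an.F3
import Pool.Agent.H.MP_4bdd60_an.F4
import Pool.Agent.H.MP_4bdd60_an.F4a
import Pool.Agent.H.MP_4bdd60_an.G1
import Pool.Agent.H.MP_4bdd60_an.G2
import Pool.Agent.H.MP_4bdd60_an.H1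

/-!
# MP_4bdd60_an: the core theorem
-/

open Set Filter Topology Metric MeasureTheory
open scoped ENNReal Real

namespace Pool.Agent.H.MP_4bdd60_an

variable {φ χ : ℂ → ℂ} {α β : ℂ} {I J : Set ℂ} {g : ℂ → ℂ} {f : ℂ ≃ₜ ℂ} {k1 k2 Gp Gm : ℂ → ℂ}
  {h : ℝ → ℝ} {κ : ℝ}

/-- adding a constant to a primitive -/
theorem Prim.add_const {Ψ : ℂ → ℂ} {S T K L : Set ℂ} {G : ℂ → ℂ} (h : Prim Ψ S T K L f k1 k2 G) (c : ℂ) :
    Prim Ψ S T K L f k1 k2 (fun w => G w + c) where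
  cont := h.cont.add continuousOn_const
  der := fun w hw => (h.der w hw).add_const c
  repK := by
    intro w hw hK Q hQ
    obtain ⟨c', hc'⟩ := h.repK w hw hK Q hQ
    refine ⟨c' + c, ?_⟩
    filter_upwards [hc'] with v hv
    rw [hv]; ring
  repL := by
    intro w hw hK Q hQ
    obtain ⟨c', hc'⟩ := h.repL w hw hK Q hQ
    refine ⟨c' + c, ?_⟩
    filter_upwards [hc'] with v hv
    rw [hv]; ring

/-- the statement of `small_rays` at `y` -/
def Small (Gp Gm : ℂ → ℂ) (h : ℝ → ℝ) (κ y : ℝ) : Prop :=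
    ∀ ε : ℝ, 0 < ε → ∀ η : ℝ, 0 < η →
      ∃ u v s1 s2 : ℝ, y - η < u ∧ u < y ∧ y < v ∧ v < y + η ∧ h y - η < h u ∧ h v < h y + η ∧
        1 ≤ s1 ∧ s1 ≤ 2 ∧ 1 ≤ s2 ∧ s2 ≤ 2 ∧
        (∀ t ∈ Icc 0 (v - u), ‖Gp (cayc ⟨u + s1 * t, t⟩) - Gp (cay u)‖ ≤ ε) ∧
        (∀ t ∈ Icc 0 (v - u), ‖Gp (cayc ⟨v - s1 * t, t⟩) - Gp (cay v)‖ ≤ ε) ∧
        (∀ t ∈ Icc 0 (h v - h u), ‖Gm (cayc ⟨κ * (h u + s2 * t), t⟩) - Gm (cay (κ * h u))‖ ≤ ε) ∧
        (∀ t ∈ Icc 0 (h v - h u), ‖Gm (cayc ⟨κ * (h v - s2 * t), t⟩) - Gm (cay (κ * h v))‖ ≤ ε)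

/-- the apex of a triangle: both sides have the same end point -/
theorem apex {G : ℂ → ℂ} {κ u v s ε : ℝ} (hs : 1 ≤ s) (huv : u < v)
    (h1 : ∀ t ∈ Icc 0 (v - u), ‖G (cayc ⟨κ * (u + s * t), t⟩) - G (cay (κ * u))‖ ≤ ε)
    (h2 : ∀ t ∈ Icc 0 (v - u), ‖G (cayc ⟨κ * (v - s * t), t⟩) - G (cay (κ * v))‖ ≤ ε) :
    ‖G (cay (κ * v)) - G (cay (κ * u))‖ ≤ 2 * ε := by
  have ht : (v - u) / (2 * s) ∈ Icc 0 (v - u) := by
    refine ⟨by apply div_nonneg <;> linarith, ?_⟩
    rw [div_le_iff₀ (by linarith)]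
    nlinarith
  have e : u + s * ((v - u) / (2 * s)) = v - s * ((v - u) / (2 * s)) := by
    field_simp; ring
  have h1' := h1 _ ht
  have h2' := h2 _ ht
  rw [← e] at h2'
  set A := G (cayc ⟨κ * (u + s * ((v - u) / (2 * s))), (v - u) / (2 * s)⟩)
  have : G (cay (κ * v)) - G (cay (κ * u)) = (A - G (cay (κ * u))) - (A - G (cay (κ * v))) := by ring
  rw [this]
  exact (norm_sub_le _ _).trans (by linarith)

/-- the two constants agree -/
theorem const_eq (hc : Chart g h κ) {y : ℝ} (hsm : Small Gp Gm h κ y)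
    {δ : ℝ} (hδ : 0 < δ)
    (hsep : ∀ u v : ℝ, y - δ < u → u < y → y < v → v < y + δ →
      (cay u ∈ J ∧ cay v ∈ I) ∨ (cay u ∈ I ∧ cay v ∈ J))
    {cI cJ : ℂ} (hcI : ∀ z ∈ I, Gp z - Gm (g z) = cI) (hcJ : ∀ z ∈ J, Gp z - Gm (g z) = cJ) :
    cI = cJ := by
  have key : ∀ ε : ℝ, 0 < ε → ‖cI - cJ‖ ≤ 4 * ε := by
    intro ε hε
    obtain ⟨u, v, s1, s2, hu1, hu2, hv1, hv2, hhu, hhv, hs1, hs1', hs2, hs2', r1, r2, r3, r4⟩ :=
      hsm ε hε δ hδ
    have huv : u < v := hu2.trans hv1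
    have a1 := apex (κ := 1) (G := Gp) hs1 huv (by simpa using r1) (by simpa using r2)
    have a2 := apex (κ := κ) (G := Gm) hs2 (hc.mono huv) r3 r4
    rw [← hc.g_eq, ← hc.g_eq] at a2
    simp only [one_mul] at a1
    have e : ∀ z w : ℂ, (Gp z - Gm (g z)) - (Gp w - Gm (g w)) = (Gp z - Gp w) - (Gm (g z) - Gm (g w)) := by
      intro z w; ring
    rcases hsep u v hu1 hu2 hv1 hv2 with ⟨hJ, hI⟩ | ⟨hI, hJ⟩
    · rw [← hcI _ hI, ← hcJ _ hJ, e]
      exact (norm_sub_le _ _).trans (by linarith)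
    · rw [← norm_neg, neg_sub, ← hcI _ hI, ← hcJ _ hJ, e]
      exact (norm_sub_le _ _).trans (by linarith)
  by_contra hne
  have hpos : 0 < ‖cI - cJ‖ := norm_pos_iff.2 (sub_ne_zero.2 hne)
  have := key (‖cI - cJ‖ / 8) (by positivity)
  linarith

/-- Extension at a marked point. -/
theorem limit_at (hM : Marked φ χ α β I J g) (hc : Chart g h κ) {y : ℝ} (hy : cay y = α ∨ cay y = β)
    {F : ℂ → ℂ} (hFp : ∀ w ∈ closedBall (0 : ℂ) 1 \ {α, β}, F (φ w) = Gp w)
    (hFm : ∀ u ∈ closedBall (0 : ℂ) 1 \ {0, g α, g β}, F (χ u) = Gm u)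
    (hg : ∀ z ∈ sphere (0 : ℂ) 1 \ {α, β}, Gp z = Gm (g z))
    (hFc : ContinuousOn F {φ α, φ β}ᶜ)
    (hFo : ∀ z, z ≠ φ α → z ≠ φ β → ∀ N ∈ 𝓝 z, F '' N ∈ 𝓝 (F z))
    {δ : ℝ} (hδ : 0 < δ) (hδy : ∀ x : ℝ, y - δ < x → x < y + δ → x ≠ y → cay x ≠ α ∧ cay x ≠ β)
    (hsm : Small Gp Gm h κ y) : ∃ A : ℂ, Tendsto F (𝓝[≠] (φ (cay y))) (𝓝 A) := by
  -- the other marked point
  set a := φ (cay y) with ha
  have hU0 : ∃ U0 : Set ℂ, IsOpen U0 ∧ a ∈ U0 ∧ ∀ z ∈ U0 \ {a}, z ≠ φ α ∧ z ≠ φ β := by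
    have hab := ab_ne hM
    rcases hy with hy | hy
    · refine ⟨{φ β}ᶜ, isOpen_compl_singleton, ?_, ?_⟩
      · rw [ha, hy]; exact hab
      · rintro z ⟨hz, hza⟩
        refine ⟨?_, hz⟩
        rw [← hy]; exact hza
    · refine ⟨{φ α}ᶜ, isOpen_compl_singleton, ?_, ?_⟩
      · rw [ha, hy]; exact fun e => hab e.symm
      · rintro z ⟨hz, hza⟩
        refine ⟨hz, ?_⟩
        rw [← hy]; exact hza
  obtain ⟨U0, hU0o, haU0, hU0m⟩ := hU0
  refine ext_at (U0 := U0) (ρ := fun s => φ (cay (y + s))) (δ := δ) hU0o haU0 ?_ ?_ ?_ ?_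
  · refine hFc.mono ?_
    intro z hz
    have := hU0m z hz
    simp only [mem_compl_iff, mem_insert_iff, mem_singleton_iff, not_or]
    exact this
  · intro z hz
    exact hFo z (hU0m z hz).1 (hU0m z hz).2
  · have h1 : ContinuousOn φ (closedBall 0 1) := hM.φ_cont
    refine (h1.comp (f := fun s : ℝ => cay (y + s)) ?_ ?_)
    · exact (cay_continuous.comp (continuous_const.add continuous_id)).continuousOn
    · intro s _
      exact sphere_subset_closedBall (cay_mem _)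
  · intro ε hε U hU
    obtain ⟨η0, hη0, hsmall⟩ := Nb_small hM hc y hU
    obtain ⟨u, v, s1, s2, hu1, hu2, hv1, hv2, hhu, hhv, hs1, hs1', hs2, hs2', r1, r2, r3, r4⟩ :=
      hsm (ε / 3) (by positivity) (min (min η0 δ) (1 / 20)) (by positivity)
    have e1 : min (min η0 δ) (1 / 20) ≤ η0 := (min_le_left _ _).trans (min_le_left _ _)
    have e2 : min (min η0 δ) (1 / 20) ≤ δ := (min_le_left _ _).trans (min_le_right _ _)
    have e3 : min (min η0 δ) (1 / 20) ≤ 1 / 20 := min_le_right _ _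
    have huv : u < v := hu2.trans hv1
    have hhuv : h u < h v := hc.mono huv
    have w1 : v - u < 1 / 10 := by linarith
    have w2 : h v - h u < 1 / 10 := by linarith
    have hu' := hδy u (by linarith) (by linarith) (by linarith)
    have hv' := hδy v (by linarith) (by linarith) (by linarith)
    have hNo := Nb_open hM hc hs1 hs2 huv (by linarith) (by linarith)
    have hNt := Nb_trace hM hc hs1 hs2 huv (by linarith) (by linarith)
    have hNe := Nb_ends hM hc hs1 hs2 huv (by linarith) (by linarith)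
    have a1 := apex (κ := 1) (G := Gp) hs1 huv (by simpa using r1) (by simpa using r2)
    simp only [one_mul] at a1
    have gu : Gm (cay (κ * h u)) = Gp (cay u) := by
      rw [← hc.g_eq]
      exact (hg _ ⟨cay_mem u, by simp [hu'.1, hu'.2]⟩).symm
    have gv : Gm (cay (κ * h v)) = Gp (cay v) := by
      rw [← hc.g_eq]
      exact (hg _ ⟨cay_mem v, by simp [hv'.1, hv'.2]⟩).symm
    rw [gu] at r3
    rw [gv] at r4
    have nα : ‖α‖ = 1 := by simpa using hM.α_mem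
    have nβ : ‖β‖ = 1 := by simpa using hM.β_mem
    have ngα : ‖g α‖ = 1 := by simpa using hM.g_maps α hM.α_mem
    have ngβ : ‖g β‖ = 1 := by simpa using hM.g_maps β hM.β_mem
    -- values on the first side
    have P1 : ∀ x σ t : ℝ, 0 ≤ t → (t = 0 → cay x ≠ α ∧ cay x ≠ β) →
        F (φ (cayc ⟨x + σ * t, t⟩)) = Gp (cayc ⟨x + σ * t, t⟩) := by
      intro x σ t ht hx
      refine hFp _ ⟨?_, ?_⟩
      · rw [mem_closedBall_zero_iff]
        exact cayc_norm_le ht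
      · rcases ht.eq_or_lt with h0 | h0
        · obtain ⟨q1, q2⟩ := hx h0.symm
          have : cayc ⟨x + σ * t, t⟩ = cay x := by
            rw [← h0]; simp only [mul_zero, add_zero, cay]; rfl
          rw [this]
          simp [q1, q2]
        · have := cayc_norm_lt (w := ⟨x + σ * t, t⟩) h0
          intro hmem
          rcases hmem with e | e
          · rw [e, nα] at this; exact lt_irrefl _ this
          · rw [e, nβ] at this; exact lt_irrefl _ this
    have P2 : ∀ x σ t : ℝ, 0 ≤ t → t ≤ 1 / 10 → (t = 0 → cay x ≠ α ∧ cay x ≠ β) →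
        F (χ (cayc ⟨κ * (h x + σ * t), t⟩)) = Gm (cayc ⟨κ * (h x + σ * t), t⟩) := by
      intro x σ t ht ht' hx
      refine hFm _ ⟨?_, ?_⟩
      · rw [mem_closedBall_zero_iff]
        exact cayc_norm_le ht
      · have hne := cayc_half (w := ⟨κ * (h x + σ * t), t⟩) ht ht'
        rcases ht.eq_or_lt with h0 | h0
        · obtain ⟨q1, q2⟩ := hx h0.symm
          have : cayc ⟨κ * (h x + σ * t), t⟩ = g (cay x) := by
            rw [hc.g_eq, ← h0]; simp only [mul_zero, add_zero, cay]; rfl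
          rw [this] at hne ⊢
          intro hmem
          rcases hmem with e | e | e
          · rw [e] at hne; simp at hne; linarith
          · exact q1 (g_inj hM (cay_mem x) hM.α_mem e)
          · exact q2 (g_inj hM (cay_mem x) hM.β_mem e)
        · have := cayc_norm_lt (w := ⟨κ * (h x + σ * t), t⟩) h0
          intro hmem
          rcases hmem with e | e | e
          · rw [e] at hne; simp at hne; linarith
          · rw [e, ngα] at this; exact lt_irrefl _ this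
          · rw [e, ngβ] at this; exact lt_irrefl _ this
    have tri : ∀ X : ℂ, ‖X - Gp (cay v)‖ ≤ ε / 3 → ‖X - Gp (cay u)‖ ≤ ε := by
      intro X hX
      have : X - Gp (cay u) = (X - Gp (cay v)) + (Gp (cay v) - Gp (cay u)) := by ring
      rw [this]
      exact (norm_add_le _ _).trans (by linarith)
    refine ⟨Nb φ χ h κ u v s1 s2, Gp (cay u), v - y, hNo, (hNt y).2 ⟨hu2, hv1⟩, ?_, ?_, by linarith,
      by linarith, ?_, ?_, ?_⟩
    · exact hsmall u v s1 s2 hs1 hs2 (by linarith) hu2 hv1 (by linarith) (by linarith) (by linarith)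
    · intro z hz
      rcases Nb_frontier hM hc hs1 hs2 huv (by linarith) (by linarith) hz with
        ⟨t, ht, e | e⟩ | ⟨t, ht, e | e⟩
      · rw [e, P1 u s1 t ht.1 (fun _ => hu')]
        exact (r1 t ht).trans (by linarith)
      · have := P1 v (-s1) t ht.1 (fun _ => hv')
        have e' : v - s1 * t = v + -s1 * t := by ring
        rw [e, e', this, ← e']
        exact tri _ (r2 t ht)
      · rw [e, P2 u s2 t ht.1 (by linarith [ht.2]) (fun _ => hu')]
        exact (r3 t ht).trans (by linarith)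
      · have := P2 v (-s2) t ht.1 (by linarith [ht.2]) (fun _ => hv')
        have e' : κ * (h v - s2 * t) = κ * (h v + -s2 * t) := by ring
        rw [e, e', this, ← e']
        exact tri _ (r4 t ht)
    · have e : y + (v - y) = v := by ring
      simp only [e]
      refine ⟨hNe.2, ?_⟩
      rw [hNt]
      exact fun h => lt_irrefl _ h.2
    · intro s' hs' hs'v
      exact (hNt _).2 ⟨by linarith, by linarith⟩
    · intro s' hs' _
      rw [hNt]
      intro h
      linarith [h.2]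

end Pool.Agent.H.MP_4bdd60_an
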