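import Pool.Agent.H.MP_4bdd60_an.Core

/-!
# MP_4bdd60_an: the core theorem, second part
-/

open Set Filter Topology Metric MeasureTheory
open scoped ENNReal Real

namespace Pool.Agent.H.MP_4bdd60_an

variable {φ χ : ℂ → ℂ} {α β : ℂ} {I J : Set ℂ} {g : ℂ → ℂ} {f : ℂ ≃ₜ ℂ} {k1 k2 Gp Gm : ℂ → ℂ}
  {h : ℝ → ℝ} {κ : ℝ}

/-- the separation property at a marked point -/
def Sep (α β : ℂ) (I J : Set ℂ) (y : ℝ) : Prop :=
  ∃ δ : ℝ, 0 < δ ∧ (∀ u v : ℝ, y - δ < u → u < y → y < v → v < y + δ →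
      (cay u ∈ J ∧ cay v ∈ I) ∨ (cay u ∈ I ∧ cay v ∈ J)) ∧
    (∀ x : ℝ, y - δ < x → x < y + δ → x ≠ y → cay x ≠ α ∧ cay x ≠ β)

/-- Everything up to the extension. -/
theorem exists_F (hM : Marked φ χ α β I J g) (hc : Chart g h κ) {y1 y2 : ℝ} (hy1 : cay y1 = α)
    (hy2 : cay y2 = β) (hs1 : Sep α β I J y1) (hs2 : Sep α β I J y2) (hl1 : LoopPoint h y1)
    (hl2 : LoopPoint h y2)
    (hf : DifferentiableOn ℂ f (arc φ I α β ∪ arc φ J α β)ᶜ)
    (hF : Form (arc φ I α β) (arc φ J α β) f k1 k2) :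
    ∃ F : ℂ → ℂ, (∀ z, z ∉ arc φ I α β → HasDerivAt F (k1 z) z) ∧
      (∀ z, z ∉ arc φ J α β → HasDerivAt (fun w => F (f.symm w)) (k2 (f z)) (f z)) ∧
      (∃ C R : ℝ, ∀ z, R < ‖z‖ → ‖F z - z‖ ≤ C) ∧
      (∀ z, z ≠ φ α → z ≠ φ β → ∀ N ∈ 𝓝 z, F '' N ∈ 𝓝 (F z)) ∧
      (∃ A : ℂ, Tendsto F (𝓝[≠] (φ α)) (𝓝 A)) ∧ (∃ B : ℂ, Tendsto F (𝓝[≠] (φ β)) (𝓝 B)) := by
  have hKc := isCompact_arcI hM
  have hLc := isCompact_arcJ hM
  have hsubK := (arc_sub hM).1
  have hsubL := (arc_sub hM).2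
  have hpK : ∀ w ∈ ball (0 : ℂ) 1, φ w ∉ arc φ I α β := fun w hw hc => p_int hM hw (hsubK hc)
  have hpL : ∀ w ∈ ball (0 : ℂ) 1, φ w ∉ arc φ J α β := fun w hw hc => p_int hM hw (hsubL hc)
  have hmK : ∀ w ∈ ball (0 : ℂ) 1 \ {0}, χ w ∉ arc φ I α β := fun w hw hc =>
    m_int hM hw (image_mono sphere_subset_closedBall (hsubK hc))
  have hmL : ∀ w ∈ ball (0 : ℂ) 1 \ {0}, χ w ∉ arc φ J α β := fun w hw hc =>
    m_int hM hw (image_mono sphere_subset_closedBall (hsubL hc))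
  obtain ⟨Pp, hPp⟩ := prim_p hM.φ_hol hKc.isClosed.isOpen_compl hF.hol1 hpK
  have hTp : ({α, β} : Set ℂ) ⊆ sphere 0 1 := by
    rintro z (rfl | rfl)
    · exact hM.α_mem
    · exact hM.β_mem
  have hTm : ({g α, g β} : Set ℂ) ⊆ sphere 0 1 := by
    rintro z (rfl | rfl)
    · exact hM.g_maps _ hM.α_mem
    · exact hM.g_maps _ hM.β_mem
  obtain ⟨Gp, hGp, -⟩ := side_ext (T := {α, β}) (S := ∅) finite_empty (toFinite _) (empty_subset _)
    (by simpa using hM.φ_cont) (by simpa using hM.φ_hol) hKc.isClosed hLc.isClosed hf hF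
    (fun w hw => ⟨hpK w hw.1, hpL w hw.1⟩) (fun w hw => p_avoid hM hw) hTp Pp (fun w hw => hPp w hw.1)
  obtain ⟨CC, RR, hRR, hCC⟩ := hF.inf
  obtain ⟨Pm, hPm, Cb, hCb⟩ := prim_m hM.χ_hol hM.χ_inf hKc.isClosed.isOpen_compl hF.hol1
    hmK ⟨CC, RR, hRR, fun z hz => (hCC z hz).2.2⟩
  obtain ⟨Gm0, hGm0, hGm0e⟩ := side_ext (T := {g α, g β}) (S := {0}) (finite_singleton _) (toFinite _)
    (by simp) hM.χ_cont hM.χ_hol hKc.isClosed hLc.isClosed hf hF
    (fun w hw => ⟨hmK w hw, hmL w hw⟩) (fun w hw => m_avoid hM hw) hTm Pm hPm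
  obtain ⟨cI, hcI⟩ := const_I hM hF hGp hGm0
  obtain ⟨cJ, hcJ⟩ := const_J hM hF hGp hGm0
  obtain ⟨δ1, hδ1, hsep1, hne1⟩ := hs1
  obtain ⟨δ2, hδ2, hsep2, hne2⟩ := hs2
  have hcc : cI = cJ :=
    const_eq hc (small_rays hM hc (Or.inl hy1) hl1 hF hGp hGm0) hδ1 hsep1 hcI hcJ
  set Gm : ℂ → ℂ := fun w => Gm0 w + cI with hGmdef
  have hGm : Prim χ {0} {g α, g β} (arc φ I α β) (arc φ J α β) f k1 k2 Gm := hGm0.add_const cI
  have hg : ∀ z ∈ sphere (0 : ℂ) 1 \ {α, β}, Gp z = Gm (g z) := by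
    rintro z ⟨hz, hzn⟩
    have : z ∈ I ∪ J := by
      rw [← hM.union] at hz
      rcases hz with hz | hz
      · exact hz
      · exact absurd hz hzn
    rcases this with hz | hz
    · rw [hGmdef]; simp only; rw [← hcI z hz]; ring
    · rw [hGmdef]; simp only; rw [hcc, ← hcJ z hz]; ring
  obtain ⟨F, hFp, hFm, hFK, hFL⟩ := build hM hF hGp hGm hg
  obtain ⟨hnK, hnL⟩ := nonvanishing hM hF
  have hFo : ∀ z, z ≠ φ α → z ≠ φ β → ∀ N ∈ 𝓝 z, F '' N ∈ 𝓝 (F z) := by
    intro z ha hb N hN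
    rcases avoid hM ha hb with hz | hz
    · exact open_at hKc.isClosed.isOpen_compl (fun z hz => hFK z hz) (fun z hz => hnK z hz) z hz N hN
    · have hfL : IsOpen (f '' (arc φ J α β)ᶜ) := f.isOpenMap _ hLc.isClosed.isOpen_compl
      have key := open_at (F := fun w => F (f.symm w)) (k := k2) hfL
        (by rintro _ ⟨z', hz', rfl⟩; exact hFL z' hz')
        (by rintro _ ⟨z', hz', rfl⟩; exact hnL z' hz') (f z) ⟨z, hz, rfl⟩ (f '' N)
        (f.isOpenMap.image_mem_nhds hN)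
      have e : (fun w => F (f.symm w)) '' (f '' N) = F '' N := by
        rw [image_image]; simp
      rw [e] at key
      simpa using key
  have hFc : ContinuousOn F {φ α, φ β}ᶜ := by
    intro z hz
    simp only [mem_compl_iff, mem_insert_iff, mem_singleton_iff, not_or] at hz
    refine ContinuousAt.continuousWithinAt ?_
    rcases avoid hM hz.1 hz.2 with hz' | hz'
    · exact (hFK z hz').continuousAt
    · have h1 : ContinuousAt (fun w => F (f.symm w)) (f z) := (hFL z hz').continuousAt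
      have h2 : ContinuousAt (fun w => F (f.symm (f w))) z :=
        ContinuousAt.comp (f := fun w => f w) (g := fun w => F (f.symm w)) h1 f.continuous.continuousAt
      simpa using h2
  have hFm' : ∀ u ∈ closedBall (0 : ℂ) 1 \ {0, g α, g β}, F (χ u) = Gm u := hFm
  have sm1 := small_rays hM hc (Or.inl hy1) hl1 hF hGp hGm
  have sm2 := small_rays hM hc (Or.inr hy2) hl2 hF hGp hGm
  refine ⟨F, hFK, hFL, ?_, hFo, ?_, ?_⟩
  · refine asymp hM.toCurve (F := F) (Gm := Gm) ?_ ⟨Cb + ‖cI‖, ?_⟩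
    · intro u hu
      refine hFm u ⟨ball_subset_closedBall hu.1, ?_⟩
      have nu : ‖u‖ < 1 := by simpa using hu.1
      have n1 : ‖g α‖ = 1 := by simpa using hM.g_maps _ hM.α_mem
      have n2 : ‖g β‖ = 1 := by simpa using hM.g_maps _ hM.β_mem
      rintro (e | e | e)
      · exact hu.2 e
      · rw [e, n1] at nu; exact lt_irrefl _ nu
      · rw [e, n2] at nu; exact lt_irrefl _ nu
    · have hb0 : ball (0 : ℂ) 1 ∈ 𝓝 (0 : ℂ) := ball_mem_nhds _ one_pos
      filter_upwards [hCb, self_mem_nhdsWithin, mem_nhdsWithin_of_mem_nhds hb0] with w hw hwne hwS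
      have : Gm w - χ w = (Pm w - χ w) + cI := by
        rw [hGmdef]; simp only; rw [hGm0e w ⟨hwS, hwne⟩]; ring
      rw [this]
      exact (norm_add_le _ _).trans (add_le_add hw le_rfl)
  · rw [← hy1]
    exact limit_at hM hc (Or.inl hy1) hFp hFm hg hFc hFo hδ1 hne1 sm1
  · rw [← hy2]
    exact limit_at hM hc (Or.inr hy2) hFp hFm hg hFc hFo hδ2 hne2 sm2

/-- The core theorem: a homeomorphism of the plane, holomorphic off the arc over `I`, and such that `F ∘ f⁻¹` is holomorphic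
on the image of the complement of the arc over `J`. -/
theorem core (hM : Marked φ χ α β I J g) (hc : Chart g h κ) {y1 y2 : ℝ} (hy1 : cay y1 = α)
    (hy2 : cay y2 = β) (hs1 : Sep α β I J y1) (hs2 : Sep α β I J y2) (hl1 : LoopPoint h y1)
    (hl2 : LoopPoint h y2)
    (hf : DifferentiableOn ℂ f (arc φ I α β ∪ arc φ J α β)ᶜ) :
    ∃ F : ℂ ≃ₜ ℂ, DifferentiableOn ℂ F (arc φ I α β)ᶜ ∧
      DifferentiableOn ℂ (fun w => F (f.symm w)) (f '' (arc φ J α β)ᶜ) := by
  have hKc := isCompact_arcI hM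
  have hLc := isCompact_arcJ hM
  have hab := ab_ne hM
  obtain ⟨k1, k2, hF⟩ := exists_form (arc φ I α β) (arc φ J α β) hKc hLc f hf
  obtain ⟨F, hFK, hFL, ⟨C, R, hCR⟩, hFo, ⟨A, hA⟩, ⟨B, hB⟩⟩ :=
    exists_F hM hc hy1 hy2 hs1 hs2 hl1 hl2 hf hF
  obtain ⟨hnK, hnL⟩ := nonvanishing hM hF
  set a := φ α with hadef
  set b := φ β with hbdef
  have haK : a ∈ arc φ I α β := ⟨α, Or.inr (Or.inl rfl), rfl⟩
  have hbK : b ∈ arc φ I α β := ⟨β, Or.inr (Or.inr rfl), rfl⟩
  have haL : a ∈ arc φ J α β := ⟨α, Or.inr (Or.inl rfl), rfl⟩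
  have hbL : b ∈ arc φ J α β := ⟨β, Or.inr (Or.inr rfl), rfl⟩
  -- the extended function
  set F' : ℂ → ℂ := Function.update (Function.update F a A) b B with hF'def
  have hF'ne : ∀ z, z ≠ a → z ≠ b → F' z = F z := by
    intro z ha hb
    rw [hF'def, Function.update_of_ne hb, Function.update_of_ne ha]
  have hF'ev : ∀ z, z ≠ a → z ≠ b → F' =ᶠ[𝓝 z] F := by
    intro z ha hb
    filter_upwards [isOpen_compl_singleton.mem_nhds ha, isOpen_compl_singleton.mem_nhds hb] with w h1 h2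
    exact hF'ne w h1 h2
  have hF'a : F' a = A := by
    rw [hF'def, Function.update_of_ne hab, Function.update_self]
  have hF'b : F' b = B := by
    rw [hF'def, Function.update_self]
  have hcontF : ∀ z, z ≠ a → z ≠ b → ContinuousAt F z := by
    intro z ha hb
    rcases avoid hM ha hb with hz' | hz'
    · exact (hFK z hz').continuousAt
    · have h1 : ContinuousAt (fun w => F (f.symm w)) (f z) := (hFL z hz').continuousAt
      have h2 : ContinuousAt (fun w => F (f.symm (f w))) z :=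
        ContinuousAt.comp (f := fun w => f w) (g := fun w => F (f.symm w)) h1 f.continuous.continuousAt
      simpa using h2
  have hcont : Continuous F' := by
    rw [continuous_iff_continuousAt]
    intro z
    by_cases ha : z = a
    · subst ha
      rw [continuousAt_iff_punctured_nhds, hF'a]
      refine hA.congr' ?_
      have : ({b}ᶜ : Set ℂ) ∈ 𝓝 a := isOpen_compl_singleton.mem_nhds hab
      filter_upwards [self_mem_nhdsWithin, mem_nhdsWithin_of_mem_nhds this] with w h1 h2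
      exact (hF'ne w h1 h2).symm
    · by_cases hb : z = b
      · subst hb
        rw [continuousAt_iff_punctured_nhds, hF'b]
        refine hB.congr' ?_
        have : ({a}ᶜ : Set ℂ) ∈ 𝓝 b := isOpen_compl_singleton.mem_nhds hab.symm
        filter_upwards [self_mem_nhdsWithin, mem_nhdsWithin_of_mem_nhds this] with w h1 h2
        exact (hF'ne w h2 h1).symm
      · exact (hcontF z ha hb).congr (hF'ev z ha hb).symm
  -- behaviour at infinity
  obtain ⟨R0, hR0⟩ : ∃ R0 : ℝ, arc φ I α β ⊆ closedBall 0 R0 := by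
    obtain ⟨r, hr⟩ := hKc.isBounded.subset_closedBall 0
    exact ⟨r, hr⟩
  have hF'b' : ∀ z, max R R0 < ‖z‖ → ‖F' z - z‖ ≤ C := by
    intro z hz
    have hzK : z ∉ arc φ I α β := by
      intro hc
      have := hR0 hc
      rw [mem_closedBall_zero_iff] at this
      exact absurd (this.trans (le_max_right R R0)) (not_le.2 hz)
    rw [hF'ne z (fun e => hzK (e ▸ haK)) (fun e => hzK (e ▸ hbK))]
    exact hCR z (lt_of_le_of_lt (le_max_left _ _) hz)
  have hprop : Tendsto F' (cocompact ℂ) (cocompact ℂ) := by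
    rw [← Metric.cobounded_eq_cocompact, ← comap_norm_atTop]
    refine tendsto_comap_iff.2 ?_
    refine tendsto_atTop.2 fun M => ?_
    have hev : ∀ᶠ z : ℂ in comap norm atTop, max (max R R0) (M + C) < ‖z‖ :=
      tendsto_comap.eventually (eventually_gt_atTop _)
    filter_upwards [hev] with z hz
    have h1 := hF'b' z (lt_of_le_of_lt (le_max_left _ _) hz)
    have h2 : M + C < ‖z‖ := lt_of_le_of_lt (le_max_right _ _) hz
    have h3 : ‖z‖ ≤ ‖F' z‖ + ‖F' z - z‖ := by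
      have : z = F' z - (F' z - z) := by ring
      calc ‖z‖ = ‖F' z - (F' z - z)‖ := by rw [← this]
        _ ≤ _ := norm_sub_le _ _
    simp only [Function.comp]
    linarith
  have hinf : ∃ R : ℝ, InjOn F' {z | R < ‖z‖} := by
    refine inj_inf (R := max R R0) (C := C) ?_ hF'b'
    intro z hz
    have hz' : max R R0 < ‖z‖ := by simpa using hz
    have hzK : z ∉ arc φ I α β := by
      intro hc
      have := hR0 hc
      rw [mem_closedBall_zero_iff] at this
      exact absurd (this.trans (le_max_right R R0)) (not_le.2 hz')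
    have h1 := (hFK z hzK).differentiableAt
    exact (h1.congr_of_eventuallyEq
      (hF'ev z (fun e => hzK (e ▸ haK)) (fun e => hzK (e ▸ hbK)))).differentiableWithinAt
  -- the exceptional set
  have hfL : IsOpen (f '' (arc φ J α β)ᶜ) := f.isOpenMap _ hLc.isClosed.isOpen_compl
  set Z1 : Set ℂ := {z | z ∈ (arc φ I α β)ᶜ ∧ k1 z = 0} with hZ1
  set Z2 : Set ℂ := {w | w ∈ f '' (arc φ J α β)ᶜ ∧ k2 w = 0} with hZ2
  have cZ1 : Z1.Countable := countable_zeros hKc.isClosed.isOpen_compl hF.hol1 (fun z hz => hnK z hz)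
  have cZ2 : Z2.Countable := countable_zeros hfL hF.hol2
    (by rintro _ ⟨z', hz', rfl⟩; exact hnL z' hz')
  set Z : Set ℂ := Z1 ∪ f.symm '' Z2 ∪ {a, b} with hZ
  have cZ : Z.Countable := (cZ1.union (cZ2.image _)).union (toFinite _).countable
  have hopen : ∀ z, z ≠ a → z ≠ b → ∀ N ∈ 𝓝 z, F' '' N ∈ 𝓝 (F' z) := by
    intro z ha hb N hN
    rw [hF'ne z ha hb]
    have hN' : N ∩ ({a}ᶜ ∩ {b}ᶜ) ∈ 𝓝 z := inter_mem hN
      (inter_mem (isOpen_compl_singleton.mem_nhds ha) (isOpen_compl_singleton.mem_nhds hb))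
    refine mem_of_superset (hFo z ha hb _ hN') ?_
    rintro _ ⟨w, hw, rfl⟩
    exact ⟨w, hw.1, hF'ne w hw.2.1 hw.2.2⟩
  have hloc : ∀ z, z ∉ Z → ∃ N ∈ 𝓝 z, InjOn F' N := by
    intro z hz
    simp only [hZ, mem_union, not_or] at hz
    obtain ⟨⟨hz1, hz2⟩, hz3⟩ := hz
    have ha : z ≠ a := fun e => hz3 (Or.inl e)
    have hb : z ≠ b := fun e => hz3 (Or.inr e)
    have hN' : ({a}ᶜ ∩ {b}ᶜ : Set ℂ) ∈ 𝓝 z :=
      (inter_mem (isOpen_compl_singleton.mem_nhds ha) (isOpen_compl_singleton.mem_nhds hb))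
    rcases avoid hM ha hb with hzK | hzL
    · have hk : k1 z ≠ 0 := fun e => hz1 ⟨hzK, e⟩
      obtain ⟨N, hN, hinj⟩ := inj_at hKc.isClosed.isOpen_compl (fun z hz => hFK z hz) hzK hk
      refine ⟨N ∩ ({a}ᶜ ∩ {b}ᶜ), inter_mem hN hN', ?_⟩
      intro x hx y hy e
      rw [hF'ne x hx.2.1 hx.2.2, hF'ne y hy.2.1 hy.2.2] at e
      exact hinj hx.1 hy.1 e
    · have hk : k2 (f z) ≠ 0 := fun e => hz2 ⟨f z, ⟨⟨z, hzL, rfl⟩, e⟩, by simp⟩
      obtain ⟨N, hN, hinj⟩ := inj_at (F := fun w => F (f.symm w)) (k := k2) hfL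
        (by rintro _ ⟨z', hz', rfl⟩; exact hFL z' hz') ⟨z, hzL, rfl⟩ hk
      refine ⟨f ⁻¹' N ∩ ({a}ᶜ ∩ {b}ᶜ), inter_mem (f.continuous.continuousAt.preimage_mem_nhds hN) hN', ?_⟩
      intro x hx y hy e
      rw [hF'ne x hx.2.1 hx.2.2, hF'ne y hy.2.1 hy.2.2] at e
      have : f x = f y := hinj hx.1 hy.1 (by simpa using e)
      exact f.injective this
  obtain ⟨G, hG⟩ := homeo_of_charts F' hcont a b hab hprop hinf Z cZ hloc hopen
  refine ⟨G, ?_, ?_⟩
  · intro z hz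
    have ha : z ≠ a := fun e => hz (e ▸ haK)
    have hb : z ≠ b := fun e => hz (e ▸ hbK)
    have h1 : DifferentiableAt ℂ F z := (hFK z hz).differentiableAt
    have h2 : (G : ℂ → ℂ) = F' := funext hG
    rw [h2]
    exact (h1.congr_of_eventuallyEq (hF'ev z ha hb)).differentiableWithinAt
  · rintro _ ⟨z, hz, rfl⟩
    have ha : z ≠ a := fun e => hz (e ▸ haL)
    have hb : z ≠ b := fun e => hz (e ▸ hbL)
    have h1 : DifferentiableAt ℂ (fun w => F (f.symm w)) (f z) := (hFL z hz).differentiableAt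
    refine (h1.congr_of_eventuallyEq ?_).differentiableWithinAt
    have h2 : Tendsto f.symm (𝓝 (f z)) (𝓝 z) := by
      have := f.symm.continuous.continuousAt (x := f z)
      simpa [ContinuousAt] using this
    filter_upwards [h2.eventually (hF'ev z ha hb)] with w hw
    rw [hG]
    exact hw

end Pool.Agent.H.MP_4bdd60_an
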