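import Mathlib

/-!
# MP_4bdd60_an, Theorem A+: definitions

Jordan curves whose two harmonic measures are not dimensionally singular.  Paper proofs: team store files
`h15_4bdd60_THEOREM_A.md` (gluing part) and `h16_4bdd60_A2.md` (small loops).  Both sides of the curve are
parametrised by the closed unit disc, the outer side with the centre removed (it goes to infinity).
-/

open Set Filter Topology Metric MeasureTheory
open scoped ENNReal Real

namespace Pool.Agent.H.MP_4bdd60_an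

/-- The two parametrisations of a Jordan curve: `φ` of the closed inner domain, `χ` of the closed outer
domain by the closed disc minus its centre. -/
structure Curve (φ χ : ℂ → ℂ) : Prop where
  φ_cont : ContinuousOn φ (closedBall 0 1)
  φ_inj : InjOn φ (closedBall 0 1)
  φ_hol : DifferentiableOn ℂ φ (ball 0 1)
  χ_cont : ContinuousOn χ (closedBall 0 1 \ {0})
  χ_inj : InjOn χ (closedBall 0 1 \ {0})
  χ_hol : DifferentiableOn ℂ χ (ball 0 1 \ {0})
  χ_inf : Tendsto χ (𝓝[≠] 0) (cocompact ℂ)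
  bdry : φ '' sphere 0 1 = χ '' sphere 0 1
  disj : ∀ z ∈ ball (0 : ℂ) 1, ∀ u ∈ ball (0 : ℂ) 1 \ {0}, φ z ≠ χ u
  cover : φ '' closedBall 0 1 ∪ χ '' (closedBall 0 1 \ {0}) = univ

/-- A curve with two marked points `φ α`, `φ β`; `g` is the welding on the unit circle, `I` and `J` are the two open
arcs of the circle between `α` and `β`. -/
structure Marked (φ χ : ℂ → ℂ) (α β : ℂ) (I J : Set ℂ) (g : ℂ → ℂ) : Prop extends Curve φ χ where
  α_mem : α ∈ sphere (0 : ℂ) 1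
  β_mem : β ∈ sphere (0 : ℂ) 1
  αβ : α ≠ β
  g_maps : ∀ z ∈ sphere (0 : ℂ) 1, g z ∈ sphere (0 : ℂ) 1
  g_cont : ContinuousOn g (sphere 0 1)
  g_eq : ∀ z ∈ sphere (0 : ℂ) 1, χ (g z) = φ z
  conI : IsPreconnected I
  conJ : IsPreconnected J
  neI : I.Nonempty
  neJ : J.Nonempty
  union : I ∪ J ∪ {α, β} = sphere 0 1
  IJ : Disjoint I J
  αI : α ∉ I
  βI : β ∉ I
  αJ : α ∉ J
  βJ : β ∉ J
  clI : IsClosed (I ∪ {α, β})
  clJ : IsClosed (J ∪ {α, β})

/-- the closed arc of the curve over an open arc `I` of the circle -/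
def arc (φ : ℂ → ℂ) (I : Set ℂ) (α β : ℂ) : Set ℂ := φ '' (I ∪ {α, β})

/-- The holomorphic form: `k1 dz` off `K` and `k2 dw` on the image of the complement of `L` under `f`,
with the transformation rule, finite energy in bounded regions and the behaviour at infinity. -/
structure Form (K L : Set ℂ) (f : ℂ ≃ₜ ℂ) (k1 k2 : ℂ → ℂ) : Prop where
  hol1 : DifferentiableOn ℂ k1 Kᶜ
  hol2 : DifferentiableOn ℂ k2 (f '' Lᶜ)
  rel : ∀ z, z ∉ K → z ∉ L → k1 z = k2 (f z) * deriv f z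
  fin : ∀ R : ℝ, ∫⁻ z in Kᶜ ∩ ball 0 R, ‖k1 z‖ₑ ^ 2 < ∞
  inf : ∃ C R : ℝ, 0 < R ∧ ∀ z, R < ‖z‖ → z ∉ K ∧ z ∉ L ∧ ‖k1 z - 1‖ ≤ C / ‖z‖ ^ 2

/-- A primitive `G` of the form in the coordinate of one side (the closed disc minus the finite set `S` of interior
points, where `Ψ` is infinite, and minus the two marked boundary points `T`), continuous up to the boundary; near each
point it is a primitive `Q` of `k1` composed with `Ψ`, or a primitive `Q` of `k2` composed with `f ∘ Ψ`, up to a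
constant. -/
structure Prim (Ψ : ℂ → ℂ) (S T K L : Set ℂ) (f : ℂ ≃ₜ ℂ) (k1 k2 G : ℂ → ℂ) : Prop where
  cont : ContinuousOn G (closedBall 0 1 \ (S ∪ T))
  der : ∀ w ∈ ball (0 : ℂ) 1 \ S, HasDerivAt G (k1 (Ψ w) * deriv Ψ w) w
  repK : ∀ w ∈ closedBall (0 : ℂ) 1 \ (S ∪ T), Ψ w ∉ K → ∀ Q : ℂ → ℂ,
    (∀ᶠ z in 𝓝 (Ψ w), HasDerivAt Q (k1 z) z) →
    ∃ c, ∀ᶠ v in 𝓝[closedBall 0 1 \ (S ∪ T)] w, G v = Q (Ψ v) + c
  repL : ∀ w ∈ closedBall (0 : ℂ) 1 \ (S ∪ T), Ψ w ∉ L → ∀ Q : ℂ → ℂ,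
    (∀ᶠ z in 𝓝 (f (Ψ w)), HasDerivAt Q (k2 z) z) →
    ∃ c, ∀ᶠ v in 𝓝[closedBall 0 1 \ (S ∪ T)] w, G v = Q (f (Ψ v)) + c

/-- the Cayley map on the closed upper half plane, to the closed disc minus `1` -/
noncomputable def cayc (w : ℂ) : ℂ := (w - Complex.I) / (w + Complex.I)

/-- the Cayley map of the real line to the unit circle minus `1` -/
noncomputable def cay (s : ℝ) : ℂ := cayc s

end Pool.Agent.H.MP_4bdd60_an
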