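import Mathlib

/-!
# MP_4bdd60_an: rays and loop points in half plane charts (definitions, interface with the small loops part)
-/

open Set MeasureTheory
open scoped ENNReal Real

namespace Pool.Agent.H.MP_4bdd60_an

/-- the integral of `ρ` along the segment `t ↦ (x + σ t, t)`, `0 < t < T`, in the parameter `t` -/
noncomputable def ray (ρ : ℝ × ℝ → ℝ≥0∞) (x σ T : ℝ) : ℝ≥0∞ := ∫⁻ t in Ioo 0 T, ρ (x + σ * t, t)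

/-- Small triangular loops round `y` in two half plane charts glued by `h`. -/
def LoopPoint (h : ℝ → ℝ) (y : ℝ) : Prop :=
  ∀ ρ1 ρ2 : ℝ × ℝ → ℝ≥0∞, Measurable ρ1 → Measurable ρ2 → ∫⁻ p, ρ1 p ^ 2 ≠ ∞ → ∫⁻ p, ρ2 p ^ 2 ≠ ∞ →
    ∀ ε : ℝ≥0∞, 0 < ε → ∀ η : ℝ, 0 < η →
      ∃ u v s1 s2 : ℝ, y - η < u ∧ u < y ∧ y < v ∧ v < y + η ∧ h y - η < h u ∧ h v < h y + η ∧
        1 ≤ s1 ∧ s1 ≤ 2 ∧ 1 ≤ s2 ∧ s2 ≤ 2 ∧
        ray ρ1 u s1 (v - u) ≤ ε ∧ ray ρ1 v (-s1) (v - u) ≤ ε ∧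
        ray ρ2 (h u) s2 (h v - h u) ≤ ε ∧ ray ρ2 (h v) (-s2) (h v - h u) ≤ ε

end Pool.Agent.H.MP_4bdd60_an
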