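import Mathlib
import Pool.Agent.H.MP_4bdd60_an.Ray

set_option autoImplicit false

namespace Pool.Agent.H.MP_4bdd60_an.LP

open MeasureTheory Set
open scoped ENNReal

/-- averaging over the slope, at a fixed height -/
theorem slope_avg (f : ℝ → ℝ≥0∞) (hf : Measurable f) (x₀ t : ℝ) (ht : 0 < t) :
    ∫⁻ s in Icc (1:ℝ) 2, f (x₀ + s * t) =
      ENNReal.ofReal t⁻¹ * ∫⁻ x, (Icc (x₀ + t) (x₀ + 2 * t)).indicator f x := by
  have h1 : ∫⁻ s in Icc (1:ℝ) 2, f (x₀ + s * t) =
      ∫⁻ s, (fun z => (Icc (x₀ + t) (x₀ + 2 * t)).indicator f (x₀ + z)) (s * t) := by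
    rw [← lintegral_indicator measurableSet_Icc]
    apply lintegral_congr
    intro s
    by_cases hs : s ∈ Icc (1:ℝ) 2
    · have h2 : x₀ + s * t ∈ Icc (x₀ + t) (x₀ + 2 * t) := by
        constructor
        · nlinarith [hs.1]
        · nlinarith [hs.2]
      simp [indicator_of_mem hs, indicator_of_mem h2]
    · have h2 : x₀ + s * t ∉ Icc (x₀ + t) (x₀ + 2 * t) := by
        intro h
        apply hs
        constructor
        · have := h.1
          by_contra hc
          push Not at hc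
          nlinarith
        · have := h.2
          by_contra hc
          push Not at hc
          nlinarith
      simp [indicator_of_notMem hs, indicator_of_notMem h2]
  rw [h1]
  have hm : Measurable (fun z => (Icc (x₀ + t) (x₀ + 2 * t)).indicator f (x₀ + z)) :=
    (hf.indicator measurableSet_Icc).comp (measurable_const_add x₀)
  have h3 : ∫⁻ z, (fun z => (Icc (x₀ + t) (x₀ + 2 * t)).indicator f (x₀ + z)) z
      ∂(Measure.map (fun s : ℝ => s * t) volume) =
      ∫⁻ s, (fun z => (Icc (x₀ + t) (x₀ + 2 * t)).indicator f (x₀ + z)) (s * t) :=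
    lintegral_map hm (measurable_mul_const t)
  rw [← h3, Real.map_volume_mul_right (ne_of_gt ht), lintegral_smul_measure,
    abs_of_pos (inv_pos.mpr ht)]
  congr 1
  exact lintegral_add_left_eq_self (fun z => (Icc (x₀ + t) (x₀ + 2 * t)).indicator f z) x₀

/-- the logarithmic kernel -/
theorem kernel_le (d T : ℝ) (hd : 0 < d) :
    ∫⁻ t in Ioo (0:ℝ) T, ENNReal.ofReal t⁻¹ ^ 2 * ENNReal.ofReal (t - d) ≤
      ENNReal.ofReal (Real.log (T / d)) := by
  by_cases hT : T ≤ d
  · have h0 : ∫⁻ t in Ioo (0:ℝ) T, ENNReal.ofReal t⁻¹ ^ 2 * ENNReal.ofReal (t - d) =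
        ∫⁻ t in Ioo (0:ℝ) T, 0 := by
      apply setLIntegral_congr_fun measurableSet_Ioo
      intro t ht
      have : t - d ≤ 0 := by linarith [ht.2]
      simp [ENNReal.ofReal_of_nonpos this]
    rw [h0]
    simp
  · push Not at hT
    have h1 : ∫⁻ t in Ioo (0:ℝ) T, ENNReal.ofReal t⁻¹ ^ 2 * ENNReal.ofReal (t - d) ≤
        ∫⁻ t in Ioc d T, ENNReal.ofReal t⁻¹ := by
      rw [← lintegral_indicator measurableSet_Ioo, ← lintegral_indicator measurableSet_Ioc]
      apply lintegral_mono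
      intro t
      by_cases ht : t ∈ Ioo (0:ℝ) T
      · by_cases h2 : d < t
        · have h3 : t ∈ Ioc d T := ⟨h2, ht.2.le⟩
          simp only [indicator_of_mem ht, indicator_of_mem h3]
          have ht0 : 0 < t := ht.1
          calc ENNReal.ofReal t⁻¹ ^ 2 * ENNReal.ofReal (t - d)
              ≤ ENNReal.ofReal t⁻¹ ^ 2 * ENNReal.ofReal t := by
                gcongr
                linarith
            _ = ENNReal.ofReal t⁻¹ := by
                rw [← ENNReal.ofReal_pow (inv_pos.mpr ht0).le, ← ENNReal.ofReal_mul (by positivity)]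
                congr 1
                field_simp
        · have h3 : t - d ≤ 0 := by linarith
          simp only [indicator_of_mem ht, ENNReal.ofReal_of_nonpos h3, mul_zero]
          exact bot_le
      · simp only [indicator_of_notMem ht]
        exact bot_le
    refine h1.trans (le_of_eq ?_)
    have h4 : IntervalIntegrable (fun t : ℝ => t⁻¹) volume d T :=
      intervalIntegral.intervalIntegrable_inv (fun t ht => by
        rw [uIcc_of_le hT.le] at ht
        linarith [ht.1]) continuousOn_id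
    rw [← ofReal_integral_eq_lintegral_ofReal]
    · rw [← intervalIntegral.integral_of_le hT.le, integral_inv_of_pos hd (hd.trans hT)]
    · exact (intervalIntegrable_iff_integrableOn_Ioc_of_le hT.le).mp h4
    · rw [Filter.EventuallyLE, ae_restrict_iff' measurableSet_Ioc]
      exact Filter.Eventually.of_forall (fun t ht => by
        have : 0 < t := hd.trans ht.1
        simp only [Pi.zero_apply]
        positivity)

/-- intersection of two unit boxes -/
theorem inter_le (x y t : ℝ) :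
    volume (Icc (x + t) (x + 2 * t) ∩ Icc (y + t) (y + 2 * t)) ≤ ENNReal.ofReal (t - |x - y|) := by
  rw [Icc_inter_Icc, Real.volume_Icc]
  apply ENNReal.ofReal_le_ofReal
  rcases le_total x y with h | h
  · have e1 : (x + t) ⊔ (y + t) = y + t := max_eq_right (by linarith)
    have e2 : (x + 2 * t) ⊓ (y + 2 * t) = x + 2 * t := min_eq_left (by linarith)
    rw [e1, e2, abs_of_nonpos (by linarith)]
    linarith
  · have e1 : (x + t) ⊔ (y + t) = x + t := max_eq_left (by linarith)
    have e2 : (x + 2 * t) ⊓ (y + 2 * t) = y + 2 * t := min_eq_right (by linarith)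
    rw [e1, e2, abs_of_nonneg (by linarith)]
    linarith

/-- the weighted arithmetic-geometric inequality -/
theorem mul_le_sq (a b κ : ℝ≥0∞) (h0 : κ ≠ 0) (h1 : κ ≠ ∞) :
    a * b ≤ κ * a ^ 2 + κ⁻¹ * b ^ 2 := by
  rcases le_total b (κ * a) with h | h
  · calc a * b ≤ a * (κ * a) := by gcongr
      _ = κ * a ^ 2 := by ring
      _ ≤ _ := le_self_add
  · have h2 : a ≤ κ⁻¹ * b := by
      calc a = κ⁻¹ * (κ * a) := by rw [← mul_assoc, ENNReal.inv_mul_cancel h0 h1, one_mul]
        _ ≤ κ⁻¹ * b := by gcongr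
    calc a * b ≤ (κ⁻¹ * b) * b := by gcongr
      _ = κ⁻¹ * b ^ 2 := by ring
      _ ≤ _ := le_add_self

/-- the occupation density at a fixed height (without the factor `1/t`) -/
noncomputable def occ (Y : ℝ → ℝ) (A : Set ℝ) (t x : ℝ) : ℝ≥0∞ :=
  ∫⁻ c in A, (Icc (Y c + t) (Y c + 2 * t)).indicator (fun _ => (1 : ℝ≥0∞)) x

theorem measurable_box (Y : ℝ → ℝ) (hY : Measurable Y) (t : ℝ) :
    Measurable (fun p : ℝ × ℝ =>
      (Icc (Y p.1 + t) (Y p.1 + 2 * t)).indicator (fun _ => (1 : ℝ≥0∞)) p.2) := by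
  have h : (fun p : ℝ × ℝ =>
      (Icc (Y p.1 + t) (Y p.1 + 2 * t)).indicator (fun _ => (1 : ℝ≥0∞)) p.2) =
      ({p : ℝ × ℝ | Y p.1 + t ≤ p.2 ∧ p.2 ≤ Y p.1 + 2 * t}).indicator (fun _ => 1) := by
    funext p
    by_cases hp : p.2 ∈ Icc (Y p.1 + t) (Y p.1 + 2 * t)
    · rw [indicator_of_mem hp, indicator_of_mem]
      exact ⟨hp.1, hp.2⟩
    · rw [indicator_of_notMem hp, indicator_of_notMem]
      intro h2
      exact hp ⟨h2.1, h2.2⟩
  rw [h]
  apply measurable_const.indicator
  apply MeasurableSet.inter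
  · exact measurableSet_le ((hY.comp measurable_fst).add_const t) measurable_snd
  · exact measurableSet_le measurable_snd ((hY.comp measurable_fst).add_const (2 * t))

theorem measurable_occ (Y : ℝ → ℝ) (hY : Measurable Y) (A : Set ℝ) (t : ℝ) :
    Measurable (occ Y A t) := by
  unfold occ
  exact Measurable.lintegral_prod_left' (μ := volume.restrict A) (measurable_box Y hY t)

/-- energy estimate at a fixed height -/
theorem occ_sq_le (Y : ℝ → ℝ) (hY : Measurable Y) (A : Set ℝ) (t : ℝ) :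
    ∫⁻ x, occ Y A t x ^ 2 ≤ ∫⁻ c in A, ∫⁻ c' in A, ENNReal.ofReal (t - |Y c - Y c'|) := by
  have hb := measurable_box Y hY t
  have h1 : ∀ x, occ Y A t x ^ 2 = ∫⁻ c in A, ∫⁻ c' in A,
      (Icc (Y c + t) (Y c + 2 * t)).indicator (fun _ => (1 : ℝ≥0∞)) x *
      (Icc (Y c' + t) (Y c' + 2 * t)).indicator (fun _ => (1 : ℝ≥0∞)) x := by
    intro x
    have hx : Measurable (fun c : ℝ =>
        (Icc (Y c + t) (Y c + 2 * t)).indicator (fun _ => (1 : ℝ≥0∞)) x) :=
      hb.comp (measurable_id.prodMk measurable_const)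
    rw [sq]
    unfold occ
    rw [← lintegral_mul_const _ hx]
    apply lintegral_congr
    intro c
    rw [← lintegral_const_mul _ hx]
  simp_rw [h1]
  have hm3 : Measurable (fun q : ℝ × ℝ × ℝ =>
      (Icc (Y q.2.1 + t) (Y q.2.1 + 2 * t)).indicator (fun _ => (1 : ℝ≥0∞)) q.1 *
      (Icc (Y q.2.2 + t) (Y q.2.2 + 2 * t)).indicator (fun _ => (1 : ℝ≥0∞)) q.1) := by
    apply Measurable.mul
    · exact hb.comp ((measurable_fst.comp measurable_snd).prodMk measurable_fst)
    · exact hb.comp ((measurable_snd.comp measurable_snd).prodMk measurable_fst)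
  have h2 : ∫⁻ x, ∫⁻ c in A, ∫⁻ c' in A,
      (Icc (Y c + t) (Y c + 2 * t)).indicator (fun _ => (1 : ℝ≥0∞)) x *
      (Icc (Y c' + t) (Y c' + 2 * t)).indicator (fun _ => (1 : ℝ≥0∞)) x =
      ∫⁻ c in A, ∫⁻ x, ∫⁻ c' in A,
      (Icc (Y c + t) (Y c + 2 * t)).indicator (fun _ => (1 : ℝ≥0∞)) x *
      (Icc (Y c' + t) (Y c' + 2 * t)).indicator (fun _ => (1 : ℝ≥0∞)) x := by
    apply lintegral_lintegral_swap
    apply Measurable.aemeasurable
    apply Measurable.lintegral_prod_right'
      (f := fun r : (ℝ × ℝ) × ℝ =>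
      (Icc (Y r.1.2 + t) (Y r.1.2 + 2 * t)).indicator (fun _ => (1 : ℝ≥0∞)) r.1.1 *
      (Icc (Y r.2 + t) (Y r.2 + 2 * t)).indicator (fun _ => (1 : ℝ≥0∞)) r.1.1)
    exact hm3.comp ((measurable_fst.comp measurable_fst).prodMk
      ((measurable_snd.comp measurable_fst).prodMk measurable_snd))
  rw [h2]
  apply lintegral_mono
  intro c
  simp only
  have h3 : ∫⁻ x, ∫⁻ c' in A,
      (Icc (Y c + t) (Y c + 2 * t)).indicator (fun _ => (1 : ℝ≥0∞)) x *
      (Icc (Y c' + t) (Y c' + 2 * t)).indicator (fun _ => (1 : ℝ≥0∞)) x =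
      ∫⁻ c' in A, ∫⁻ x,
      (Icc (Y c + t) (Y c + 2 * t)).indicator (fun _ => (1 : ℝ≥0∞)) x *
      (Icc (Y c' + t) (Y c' + 2 * t)).indicator (fun _ => (1 : ℝ≥0∞)) x := by
    apply lintegral_lintegral_swap
    apply Measurable.aemeasurable
    exact hm3.comp (measurable_fst.prodMk (measurable_const.prodMk measurable_snd))
  rw [h3]
  apply lintegral_mono
  intro c'
  simp only
  calc ∫⁻ x, (Icc (Y c + t) (Y c + 2 * t)).indicator (fun _ => (1 : ℝ≥0∞)) x *
      (Icc (Y c' + t) (Y c' + 2 * t)).indicator (fun _ => (1 : ℝ≥0∞)) x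
      = ∫⁻ x, (Icc (Y c + t) (Y c + 2 * t) ∩ Icc (Y c' + t) (Y c' + 2 * t)).indicator
          (fun _ => (1 : ℝ≥0∞)) x := by
        apply lintegral_congr
        intro x
        by_cases h4 : x ∈ Icc (Y c + t) (Y c + 2 * t)
        · by_cases h5 : x ∈ Icc (Y c' + t) (Y c' + 2 * t)
          · have h6 : x ∈ Icc (Y c + t) (Y c + 2 * t) ∩ Icc (Y c' + t) (Y c' + 2 * t) := ⟨h4, h5⟩
            rw [indicator_of_mem h4, indicator_of_mem h5, indicator_of_mem h6]
            simp
          · have h6 : x ∉ Icc (Y c + t) (Y c + 2 * t) ∩ Icc (Y c' + t) (Y c' + 2 * t) :=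
              fun h => h5 h.2
            rw [indicator_of_mem h4, indicator_of_notMem h5, indicator_of_notMem h6]
            simp
        · have h6 : x ∉ Icc (Y c + t) (Y c + 2 * t) ∩ Icc (Y c' + t) (Y c' + 2 * t) :=
            fun h => h4 h.1
          rw [indicator_of_notMem h4, indicator_of_notMem h6]
          simp
    _ = volume (Icc (Y c + t) (Y c + 2 * t) ∩ Icc (Y c' + t) (Y c' + 2 * t)) := by
        rw [lintegral_indicator (measurableSet_Icc.inter measurableSet_Icc)]
        simp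
    _ ≤ ENNReal.ofReal (t - |Y c - Y c'|) := inter_le _ _ _

/-- averaging over starting point and slope, at a fixed height -/
theorem occ_avg (Y : ℝ → ℝ) (hY : Measurable Y) (A : Set ℝ) (f : ℝ → ℝ≥0∞) (hf : Measurable f)
    (t : ℝ) (ht : 0 < t) :
    ∫⁻ c in A, ∫⁻ s in Icc (1:ℝ) 2, f (Y c + s * t) =
      ∫⁻ x, f x * (ENNReal.ofReal t⁻¹ * occ Y A t x) := by
  have hb := measurable_box Y hY t
  have h1 : ∀ c, ∫⁻ s in Icc (1:ℝ) 2, f (Y c + s * t) =
      ∫⁻ x, (ENNReal.ofReal t⁻¹ * f x) *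
        (Icc (Y c + t) (Y c + 2 * t)).indicator (fun _ => (1 : ℝ≥0∞)) x := by
    intro c
    rw [slope_avg f hf (Y c) t ht, ← lintegral_const_mul _ (hf.indicator measurableSet_Icc)]
    apply lintegral_congr
    intro x
    by_cases hx : x ∈ Icc (Y c + t) (Y c + 2 * t)
    · simp [indicator_of_mem hx]
    · simp [indicator_of_notMem hx]
  simp_rw [h1]
  have h2 : ∫⁻ c in A, ∫⁻ x, (ENNReal.ofReal t⁻¹ * f x) *
        (Icc (Y c + t) (Y c + 2 * t)).indicator (fun _ => (1 : ℝ≥0∞)) x =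
      ∫⁻ x, ∫⁻ c in A, (ENNReal.ofReal t⁻¹ * f x) *
        (Icc (Y c + t) (Y c + 2 * t)).indicator (fun _ => (1 : ℝ≥0∞)) x := by
    apply lintegral_lintegral_swap
    apply Measurable.aemeasurable
    apply Measurable.mul
    · exact (hf.comp measurable_snd).const_mul _
    · exact hb
  rw [h2]
  apply lintegral_congr
  intro x
  have hx : Measurable (fun c : ℝ =>
        (Icc (Y c + t) (Y c + 2 * t)).indicator (fun _ => (1 : ℝ≥0∞)) x) :=
      hb.comp (measurable_id.prodMk measurable_const)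
  rw [lintegral_const_mul _ hx]
  unfold occ
  ring

/-- weighted estimate at a fixed height -/
theorem occ_avg_le (Y : ℝ → ℝ) (hY : Measurable Y) (A : Set ℝ) (f : ℝ → ℝ≥0∞) (hf : Measurable f)
    (t : ℝ) (ht : 0 < t) (κ : ℝ≥0∞) (h0 : κ ≠ 0) (h1 : κ ≠ ∞) :
    ∫⁻ c in A, ∫⁻ s in Icc (1:ℝ) 2, f (Y c + s * t) ≤
      κ * (∫⁻ x, f x ^ 2) + κ⁻¹ * (ENNReal.ofReal t⁻¹ ^ 2 *
        ∫⁻ c in A, ∫⁻ c' in A, ENNReal.ofReal (t - |Y c - Y c'|)) := by
  rw [occ_avg Y hY A f hf t ht]
  calc ∫⁻ x, f x * (ENNReal.ofReal t⁻¹ * occ Y A t x)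
      ≤ ∫⁻ x, (κ * f x ^ 2 + κ⁻¹ * (ENNReal.ofReal t⁻¹ * occ Y A t x) ^ 2) :=
        lintegral_mono (fun x => mul_le_sq _ _ κ h0 h1)
    _ = κ * (∫⁻ x, f x ^ 2) + κ⁻¹ * (ENNReal.ofReal t⁻¹ ^ 2 * (∫⁻ x, occ Y A t x ^ 2)) := by
        rw [lintegral_add_left ((hf.pow_const 2).const_mul κ), lintegral_const_mul _ (hf.pow_const 2)]
        congr 1
        have hm := measurable_occ Y hY A t
        rw [← lintegral_const_mul _ (hm.pow_const 2), ← lintegral_const_mul]
        · apply lintegral_congr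
          intro x
          ring
        · exact (hm.pow_const 2).const_mul _
    _ ≤ _ := by
        gcongr _ + _ * (_ * ?_)
        exact occ_sq_le Y hY A t

/-- the energy of the parameter set `A` at scale `T` -/
noncomputable def energy (Y : ℝ → ℝ) (A : Set ℝ) (T : ℝ) : ℝ≥0∞ :=
  ∫⁻ c in A, ∫⁻ c' in A, ENNReal.ofReal (Real.log (T / |Y c - Y c'|))

/-- **averaged ray integrals are bounded by the energy** -/
theorem avg_ray_le (ρ : ℝ × ℝ → ℝ≥0∞) (hρ : Measurable ρ) (Y : ℝ → ℝ) (hY : Measurable Y)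
    (A : Set ℝ) (hA : MeasurableSet A) (T : ℝ) (κ : ℝ≥0∞) (h0 : κ ≠ 0) (h1 : κ ≠ ∞)
    (hpos : ∀ u ∈ A, ∀ v ∈ A, u ≠ v → Y u ≠ Y v) :
    ∫⁻ c in A, ∫⁻ s in Icc (1:ℝ) 2, ray ρ (Y c) s T ≤
      κ * (∫⁻ z, ρ z ^ 2) + κ⁻¹ * energy Y A T := by
  have hm : Measurable (fun q : ℝ × ℝ × ℝ => ρ (Y q.1 + q.2.1 * q.2.2, q.2.2)) := by
    apply hρ.comp
    apply Measurable.prodMk
    · exact (hY.comp measurable_fst).add
        ((measurable_fst.comp measurable_snd).mul (measurable_snd.comp measurable_snd))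
    · exact measurable_snd.comp measurable_snd
  -- move the integration over `t` to the outside
  have e1 : ∫⁻ c in A, ∫⁻ s in Icc (1:ℝ) 2, ray ρ (Y c) s T =
      ∫⁻ t in Ioo 0 T, ∫⁻ c in A, ∫⁻ s in Icc (1:ℝ) 2, ρ (Y c + s * t, t) := by
    unfold ray
    have e2 : ∀ c, ∫⁻ s in Icc (1:ℝ) 2, ∫⁻ t in Ioo 0 T, ρ (Y c + s * t, t) =
        ∫⁻ t in Ioo 0 T, ∫⁻ s in Icc (1:ℝ) 2, ρ (Y c + s * t, t) := by
      intro c
      apply lintegral_lintegral_swap
      apply Measurable.aemeasurable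
      exact hm.comp (measurable_const.prodMk (measurable_fst.prodMk measurable_snd))
    simp_rw [e2]
    apply lintegral_lintegral_swap
    apply Measurable.aemeasurable
    apply Measurable.lintegral_prod_right'
      (f := fun r : (ℝ × ℝ) × ℝ => ρ (Y r.1.1 + r.2 * r.1.2, r.1.2))
    exact hm.comp ((measurable_fst.comp measurable_fst).prodMk
      (measurable_snd.prodMk (measurable_snd.comp measurable_fst)))
  rw [e1]
  have e3 : ∫⁻ t in Ioo 0 T, ∫⁻ c in A, ∫⁻ s in Icc (1:ℝ) 2, ρ (Y c + s * t, t) ≤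
      ∫⁻ t in Ioo 0 T, (κ * (∫⁻ x, ρ (x, t) ^ 2) + κ⁻¹ * (ENNReal.ofReal t⁻¹ ^ 2 *
        ∫⁻ c in A, ∫⁻ c' in A, ENNReal.ofReal (t - |Y c - Y c'|))) := by
    apply setLIntegral_mono' measurableSet_Ioo
    intro t ht
    exact occ_avg_le Y hY A (fun x => ρ (x, t)) (hρ.comp (measurable_id.prodMk measurable_const))
      t ht.1 κ h0 h1
  refine e3.trans ?_
  have hm4 : Measurable (fun t : ℝ => κ * (∫⁻ x, ρ (x, t) ^ 2)) := by
    apply Measurable.const_mul
    exact Measurable.lintegral_prod_left' (μ := volume) (f := fun p : ℝ × ℝ => ρ (p.1, p.2) ^ 2)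
      ((hρ.comp (measurable_fst.prodMk measurable_snd)).pow_const 2)
  rw [lintegral_add_left hm4]
  apply add_le_add
  · calc ∫⁻ t in Ioo 0 T, κ * (∫⁻ x, ρ (x, t) ^ 2)
        ≤ ∫⁻ t, κ * (∫⁻ x, ρ (x, t) ^ 2) := setLIntegral_le_lintegral _ _
      _ = κ * ∫⁻ t, ∫⁻ x, ρ (x, t) ^ 2 := by
          rw [lintegral_const_mul]
          exact Measurable.lintegral_prod_left' (μ := volume)
            (f := fun p : ℝ × ℝ => ρ (p.1, p.2) ^ 2)
            ((hρ.comp (measurable_fst.prodMk measurable_snd)).pow_const 2)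
      _ = κ * ∫⁻ z, ρ z ^ 2 := by
          congr 1
          have h6 := lintegral_prod_symm (μ := (volume : Measure ℝ)) (ν := (volume : Measure ℝ))
            (fun z : ℝ × ℝ => ρ z ^ 2) (hρ.pow_const 2).aemeasurable
          rw [← h6]
          rfl
  · -- the energy part
    set k : ℝ × ℝ × ℝ → ℝ≥0∞ := fun q =>
      ENNReal.ofReal q.2.2⁻¹ ^ 2 * ENNReal.ofReal (q.2.2 - |Y q.1 - Y q.2.1|) with hk
    have hk1 : Measurable (fun q : ℝ × ℝ × ℝ => ENNReal.ofReal q.2.2⁻¹ ^ 2) :=
      ((measurable_snd.comp measurable_snd).inv.ennreal_ofReal).pow_const 2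
    have hk2 : Measurable (fun q : ℝ × ℝ × ℝ =>
        ENNReal.ofReal (q.2.2 - |Y q.1 - Y q.2.1|)) := by
      apply Measurable.ennreal_ofReal
      apply (measurable_snd.comp measurable_snd).sub
      exact ((hY.comp measurable_fst).sub (hY.comp (measurable_fst.comp measurable_snd))).norm
    have hkm : Measurable k := hk1.mul hk2
    have e5 : ∀ t, ENNReal.ofReal t⁻¹ ^ 2 *
        ∫⁻ c in A, ∫⁻ c' in A, ENNReal.ofReal (t - |Y c - Y c'|) =
        ∫⁻ c in A, ∫⁻ c' in A, k (c, c', t) := by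
      intro t
      rw [← lintegral_const_mul]
      · apply lintegral_congr
        intro c
        rw [← lintegral_const_mul]
        apply Measurable.ennreal_ofReal
        exact measurable_const.sub ((measurable_const.sub hY).norm)
      · apply Measurable.lintegral_prod_right'
          (f := fun r : ℝ × ℝ => ENNReal.ofReal (t - |Y r.1 - Y r.2|))
        apply Measurable.ennreal_ofReal
        exact measurable_const.sub (((hY.comp measurable_fst).sub (hY.comp measurable_snd)).norm)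
    simp_rw [e5]
    have hkt : Measurable (fun t : ℝ => ∫⁻ c in A, ∫⁻ c' in A, k (c, c', t)) := by
      apply Measurable.lintegral_prod_right'
        (f := fun r : ℝ × ℝ => ∫⁻ c' in A, k (r.2, c', r.1))
      apply Measurable.lintegral_prod_right'
        (f := fun r : (ℝ × ℝ) × ℝ => k (r.1.2, r.2, r.1.1))
      exact hkm.comp ((measurable_snd.comp measurable_fst).prodMk
        (measurable_snd.prodMk (measurable_fst.comp measurable_fst)))
    rw [lintegral_const_mul _ hkt]
    gcongr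
    have e6 : ∫⁻ t in Ioo 0 T, ∫⁻ c in A, ∫⁻ c' in A, k (c, c', t) =
        ∫⁻ c in A, ∫⁻ c' in A, ∫⁻ t in Ioo 0 T, k (c, c', t) := by
      have e7 : ∫⁻ t in Ioo 0 T, ∫⁻ c in A, ∫⁻ c' in A, k (c, c', t) =
          ∫⁻ c in A, ∫⁻ t in Ioo 0 T, ∫⁻ c' in A, k (c, c', t) := by
        apply lintegral_lintegral_swap
        apply Measurable.aemeasurable
        apply Measurable.lintegral_prod_right'
          (f := fun r : (ℝ × ℝ) × ℝ => k (r.1.2, r.2, r.1.1))
        exact hkm.comp ((measurable_snd.comp measurable_fst).prodMk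
          (measurable_snd.prodMk (measurable_fst.comp measurable_fst)))
      rw [e7]
      apply lintegral_congr
      intro c
      apply lintegral_lintegral_swap
      apply Measurable.aemeasurable
      exact hkm.comp (measurable_const.prodMk (measurable_snd.prodMk measurable_fst))
    rw [e6]
    unfold energy
    apply setLIntegral_mono' hA
    intro c hc
    apply lintegral_mono_ae
    rw [ae_restrict_iff' hA]
    have hne : ∀ᵐ c' : ℝ, c' ≠ c := by
      rw [ae_iff]
      simp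
    filter_upwards [hne] with c' hc' hmem
    have hd : 0 < |Y c - Y c'| := abs_pos.mpr (sub_ne_zero.mpr (hpos c hc c' hmem (Ne.symm hc')))
    exact kernel_le _ T hd

end Pool.Agent.H.MP_4bdd60_an.LP
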