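import Mathlib
import Pool.Agent.H.MP_4bdd60_an.Occupation

set_option autoImplicit false

namespace Pool.Agent.H.MP_4bdd60_an.LP

open MeasureTheory Set
open scoped ENNReal

/-- the index of the dyadic interval of level `n` containing `w` -/
noncomputable def idx (n : ℕ) (w : ℝ) : ℤ := ⌊w * 2 ^ n⌋

/-- length (in the coordinate `Y`) of the dyadic interval number `k` of level `n` -/
noncomputable def len (Y : ℝ → ℝ) (n : ℕ) (k : ℤ) : ℝ :=
  Y (((k : ℝ) + 1) / 2 ^ n) - Y ((k : ℝ) / 2 ^ n)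

/-- logarithm of the reciprocal of the length of the dyadic interval containing `w` -/
noncomputable def lam (Y : ℝ → ℝ) (n : ℕ) (w : ℝ) : ℝ := -Real.log (len Y n (idx n w))

/-- `Y` is nondecreasing and `Y v - Y u ≥ c (v - u) ^ β` on the unit interval -/
structure Inv (Y : ℝ → ℝ) (c β : ℝ) : Prop where
  mono : Monotone Y
  cpos : 0 < c
  βpos : 0 ≤ β
  low : ∀ u v, 0 ≤ u → u ≤ v → v ≤ 1 → c * (v - u) ^ β ≤ Y v - Y u

theorem Inv.lt {Y : ℝ → ℝ} {c β : ℝ} (h : Inv Y c β) {u v : ℝ} (h0 : 0 ≤ u) (huv : u < v)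
    (h1 : v ≤ 1) : Y u < Y v := by
  have := h.low u v h0 huv.le h1
  have h2 : 0 < c * (v - u) ^ β := mul_pos h.cpos (Real.rpow_pos_of_pos (by linarith) _)
  linarith

theorem measurable_idx (n : ℕ) : Measurable (idx n) :=
  Int.measurable_floor.comp (measurable_mul_const _)

theorem measurable_lam (Y : ℝ → ℝ) (n : ℕ) : Measurable (lam Y n) := by
  have h1 : Measurable (fun k : ℤ => -Real.log (len Y n k)) := measurable_of_countable _
  exact h1.comp (measurable_idx n)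

theorem idx_le (n : ℕ) (w : ℝ) : (idx n w : ℝ) / 2 ^ n ≤ w := by
  rw [div_le_iff₀ (by positivity)]
  exact Int.floor_le _

theorem lt_idx (n : ℕ) (w : ℝ) : w < ((idx n w : ℝ) + 1) / 2 ^ n := by
  rw [lt_div_iff₀ (by positivity)]
  exact Int.lt_floor_add_one _

theorem idx_nonneg (n : ℕ) {w : ℝ} (h : 0 ≤ w) : 0 ≤ idx n w :=
  Int.floor_nonneg.mpr (by positivity)

theorem idx_add_one_le (n : ℕ) {w : ℝ} (h : w < 1) : (idx n w : ℝ) + 1 ≤ 2 ^ n := by
  have h1 : idx n w < (2 : ℤ) ^ n := by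
    unfold idx
    rw [Int.floor_lt]
    push_cast
    have : (0 : ℝ) < 2 ^ n := by positivity
    nlinarith
  have h2 : idx n w + 1 ≤ (2 : ℤ) ^ n := by omega
  exact_mod_cast h2

theorem idx_mono (n : ℕ) {u v : ℝ} (h : u ≤ v) : idx n u ≤ idx n v := by
  unfold idx
  apply Int.floor_mono
  have : (0 : ℝ) < 2 ^ n := by positivity
  nlinarith

/-- nesting of dyadic intervals -/
theorem nest_left (n i : ℕ) (w : ℝ) :
    (idx n w : ℝ) / 2 ^ n ≤ (idx (n + i) w : ℝ) / 2 ^ (n + i) := by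
  have h1 : idx n w * 2 ^ i ≤ idx (n + i) w := by
    unfold idx
    rw [Int.le_floor]
    push_cast
    have := Int.floor_le (w * 2 ^ n)
    have h2 : (0 : ℝ) < 2 ^ i := by positivity
    calc (⌊w * 2 ^ n⌋ : ℝ) * 2 ^ i ≤ (w * 2 ^ n) * 2 ^ i := by gcongr
      _ = w * 2 ^ (n + i) := by rw [pow_add]; ring
  have h3 : (idx n w : ℝ) * 2 ^ i ≤ (idx (n + i) w : ℝ) := by exact_mod_cast h1
  rw [pow_add, div_le_div_iff₀ (by positivity) (by positivity)]
  have h4 : (0 : ℝ) < 2 ^ n := by positivity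
  nlinarith

theorem nest_right (n i : ℕ) (w : ℝ) :
    ((idx (n + i) w : ℝ) + 1) / 2 ^ (n + i) ≤ ((idx n w : ℝ) + 1) / 2 ^ n := by
  have h1 : idx (n + i) w < (idx n w + 1) * 2 ^ i := by
    unfold idx
    rw [Int.floor_lt]
    push_cast
    have := Int.lt_floor_add_one (w * 2 ^ n)
    have h2 : (0 : ℝ) < 2 ^ i := by positivity
    calc w * 2 ^ (n + i) = (w * 2 ^ n) * 2 ^ i := by rw [pow_add]; ring
      _ < ((⌊w * 2 ^ n⌋ : ℝ) + 1) * 2 ^ i := by gcongr
  have h2 : idx (n + i) w + 1 ≤ (idx n w + 1) * 2 ^ i := by omega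
  have h3 : (idx (n + i) w : ℝ) + 1 ≤ ((idx n w : ℝ) + 1) * 2 ^ i := by exact_mod_cast h2
  rw [pow_add, div_le_div_iff₀ (by positivity) (by positivity)]
  have h4 : (0 : ℝ) < 2 ^ n := by positivity
  nlinarith

theorem len_nest {Y : ℝ → ℝ} (hY : Monotone Y) (n i : ℕ) (w : ℝ) :
    len Y (n + i) (idx (n + i) w) ≤ len Y n (idx n w) := by
  unfold len
  have h1 := hY (nest_left n i w)
  have h2 := hY (nest_right n i w)
  linarith

theorem len_low {Y : ℝ → ℝ} {c β : ℝ} (h : Inv Y c β) (n : ℕ) {w : ℝ} (h0 : 0 ≤ w) (h1 : w < 1) :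
    c * ((1 / 2 ^ n : ℝ)) ^ β ≤ len Y n (idx n w) := by
  have h2 := h.low ((idx n w : ℝ) / 2 ^ n) (((idx n w : ℝ) + 1) / 2 ^ n) (by
    have : (0 : ℝ) ≤ (idx n w : ℝ) := by exact_mod_cast idx_nonneg n h0
    positivity) (by gcongr; linarith) (by
    rw [div_le_one (by positivity)]
    exact idx_add_one_le n h1)
  have h3 : ((idx n w : ℝ) + 1) / 2 ^ n - (idx n w : ℝ) / 2 ^ n = 1 / 2 ^ n := by ring
  rw [h3] at h2
  exact h2

theorem len_pos {Y : ℝ → ℝ} {c β : ℝ} (h : Inv Y c β) (n : ℕ) {w : ℝ} (h0 : 0 ≤ w) (h1 : w < 1) :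
    0 < len Y n (idx n w) := by
  refine lt_of_lt_of_le ?_ (len_low h n h0 h1)
  exact mul_pos h.cpos (Real.rpow_pos_of_pos (by positivity) _)

theorem lam_mono {Y : ℝ → ℝ} {c β : ℝ} (h : Inv Y c β) (n i : ℕ) {w : ℝ} (h0 : 0 ≤ w)
    (h1 : w < 1) : lam Y n w ≤ lam Y (n + i) w := by
  unfold lam
  apply neg_le_neg
  exact Real.log_le_log (len_pos h (n + i) h0 h1) (len_nest h.mono n i w)

theorem lam_le {Y : ℝ → ℝ} {c β : ℝ} (h : Inv Y c β) (n : ℕ) {w : ℝ} (h0 : 0 ≤ w) (h1 : w < 1) :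
    lam Y n w ≤ -Real.log c + n * (β * Real.log 2) := by
  unfold lam
  have h2 := Real.log_le_log (mul_pos h.cpos (Real.rpow_pos_of_pos (by positivity) _))
    (len_low h n h0 h1)
  rw [Real.log_mul (ne_of_gt h.cpos) (ne_of_gt (Real.rpow_pos_of_pos (by positivity) _)),
    Real.log_rpow (by positivity), one_div, Real.log_inv, Real.log_pow] at h2
  linarith

theorem lam_zero {Y : ℝ → ℝ} {w : ℝ} (h0 : 0 ≤ w) (h1 : w < 1) :
    lam Y 0 w = -Real.log (Y 1 - Y 0) := by
  have : idx 0 w = 0 := by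
    unfold idx
    rw [Int.floor_eq_zero_iff]
    simp [h0, h1]
  unfold lam len
  rw [this]
  simp

/-- increments of the averaged logarithmic length -/
noncomputable def D (Y : ℝ → ℝ) (n m : ℕ) : ℝ≥0∞ :=
  ∫⁻ w in Ico (0:ℝ) 1, ENNReal.ofReal (lam Y m w - lam Y n w)

theorem D_add {Y : ℝ → ℝ} {c β : ℝ} (h : Inv Y c β) (n i j : ℕ) :
    D Y n (n + i + j) = D Y n (n + i) + D Y (n + i) (n + i + j) := by
  unfold D
  rw [← lintegral_add_left]
  · apply setLIntegral_congr_fun measurableSet_Ico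
    intro w hw
    simp only
    rw [← ENNReal.ofReal_add]
    · congr 1; ring
    · linarith [lam_mono h n i hw.1 hw.2]
    · linarith [lam_mono h (n + i) j hw.1 hw.2]
  · exact ((measurable_lam Y _).sub (measurable_lam Y _)).ennreal_ofReal

theorem D_zero_le {Y : ℝ → ℝ} {c β : ℝ} (h : Inv Y c β) :
    ∃ B : ℝ, 0 ≤ B ∧ ∀ m : ℕ, D Y 0 m ≤ ENNReal.ofReal (B * (m + 1)) := by
  refine ⟨|Real.log c| + |Real.log (Y 1 - Y 0)| + β * Real.log 2, ?_, ?_⟩
  · have := h.βpos
    have h2 : 0 ≤ Real.log 2 := Real.log_nonneg (by norm_num)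
    positivity
  · intro m
    unfold D
    calc ∫⁻ w in Ico (0:ℝ) 1, ENNReal.ofReal (lam Y m w - lam Y 0 w)
        ≤ ∫⁻ w in Ico (0:ℝ) 1, ENNReal.ofReal
            ((|Real.log c| + |Real.log (Y 1 - Y 0)| + β * Real.log 2) * (m + 1)) := by
          apply setLIntegral_mono' measurableSet_Ico
          intro w hw
          apply ENNReal.ofReal_le_ofReal
          have h1 := lam_le h m hw.1 hw.2
          rw [lam_zero hw.1 hw.2]
          have h2 : 0 ≤ Real.log 2 := Real.log_nonneg (by norm_num)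
          have h3 := h.βpos
          have h4 : (0:ℝ) ≤ m := Nat.cast_nonneg m
          have h5 := neg_abs_le (Real.log c)
          have h6 := le_abs_self (Real.log (Y 1 - Y 0))
          have h7 : 0 ≤ |Real.log c| * m := by positivity
          have h8 : 0 ≤ |Real.log (Y 1 - Y 0)| * m := by positivity
          have h9 : 0 ≤ β * Real.log 2 := by positivity
          nlinarith
      _ = ENNReal.ofReal
            ((|Real.log c| + |Real.log (Y 1 - Y 0)| + β * Real.log 2) * (m + 1)) := by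
          rw [setLIntegral_const, Real.volume_Ico]
          simp

end Pool.Agent.H.MP_4bdd60_an.LP
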