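import Pool.Agent.H.MP_4bdd60_an.Defs
import Pool.Agent.H.MP_09f213_an.CoV

/-!
# MP_4bdd60_an, part E: finite energies
-/

open Set Filter Topology Metric MeasureTheory
open scoped ENNReal Real

namespace Pool.Agent.H.MP_4bdd60_an

/-- Change of variables under an injective holomorphic map (`lintegral_comp_holomorphic` in `MP_09f213_an.CoV`). -/
theorem energy {Ψ : ℂ → ℂ} {X : Set ℂ} (hX : IsOpen X) (h : DifferentiableOn ℂ Ψ X) (hi : InjOn Ψ X)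
    (k : ℂ → ℂ) : ∫⁻ w in X, ‖k (Ψ w) * deriv Ψ w‖ₑ ^ 2 = ∫⁻ z in Ψ '' X, ‖k z‖ₑ ^ 2 := by
  rw [← MP_09f213_an.lintegral_comp_holomorphic hX h hi (fun z => ‖k z‖ₑ ^ 2)]
  congr 1
  funext w
  rw [enorm_mul, mul_pow, ENNReal.ofReal_pow (norm_nonneg _), ofReal_norm_eq_enorm, mul_comm]

theorem E1_bound {Ψ : ℂ → ℂ} {C X : Set ℂ} (hC : IsCompact C) (hXC : X ⊆ C) (hc : ContinuousOn Ψ C) :
    ∃ R : ℝ, Ψ '' X ⊆ ball 0 R := by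
  obtain ⟨R, hR⟩ := (hC.image_of_continuousOn hc).isBounded.subset_ball 0
  exact ⟨R, (image_mono hXC).trans hR⟩

theorem E1_fin {Ψ : ℂ → ℂ} {C X : Set ℂ} (hC : IsCompact C) (hXC : X ⊆ C) (hc : ContinuousOn Ψ C)
    (hX : IsOpen X) (hd : DifferentiableOn ℂ Ψ X) (hi : InjOn Ψ X)
    {K L : Set ℂ} {f : ℂ ≃ₜ ℂ} {k1 k2 : ℂ → ℂ}
    (hF : Form K L f k1 k2) (hmaps : ∀ w ∈ X, Ψ w ∉ K) :
    ∫⁻ w in X, ‖k1 (Ψ w) * deriv Ψ w‖ₑ ^ 2 < ∞ := by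
  obtain ⟨R, hR⟩ := E1_bound hC hXC hc
  rw [energy hX hd hi k1]
  refine lt_of_le_of_lt (lintegral_mono_set ?_) (hF.fin R)
  intro z hz
  refine ⟨?_, hR hz⟩
  obtain ⟨w, hw, rfl⟩ := hz
  exact hmaps w hw

/-- The inner side has finite energy: `φ '' ball 0 1` is a bounded subset of the complement of `K`. -/
theorem energy_p {φ χ : ℂ → ℂ} (h : Curve φ χ) {K L : Set ℂ} {f : ℂ ≃ₜ ℂ} {k1 k2 : ℂ → ℂ}
    (hF : Form K L f k1 k2) (hmaps : ∀ w ∈ ball (0 : ℂ) 1, φ w ∉ K) :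
    ∫⁻ w in ball (0 : ℂ) 1, ‖k1 (φ w) * deriv φ w‖ₑ ^ 2 < ∞ :=
  E1_fin (isCompact_closedBall 0 1) ball_subset_closedBall h.φ_cont isOpen_ball h.φ_hol
    (h.φ_inj.mono ball_subset_closedBall) hF hmaps

/-- The outer side: `χ` is bounded on the compact set `1/2 ≤ ‖w‖ ≤ 1`. -/
theorem energy_m {φ χ : ℂ → ℂ} (h : Curve φ χ) {K L : Set ℂ} {f : ℂ ≃ₜ ℂ} {k1 k2 : ℂ → ℂ}
    (hF : Form K L f k1 k2) (hmaps : ∀ w ∈ ball (0 : ℂ) 1 \ {0}, χ w ∉ K) :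
    ∫⁻ w in ball (0 : ℂ) 1 \ closedBall 0 (1 / 2), ‖k1 (χ w) * deriv χ w‖ₑ ^ 2 < ∞ := by
  have h0 : ∀ w : ℂ, w ∉ ball (0 : ℂ) (1 / 2) → w ≠ 0 := by
    intro w hw h0
    apply hw
    rw [h0]
    exact mem_ball_self (by norm_num)
  have h1 : closedBall (0 : ℂ) 1 \ ball 0 (1 / 2) ⊆ closedBall (0 : ℂ) 1 \ {0} :=
    fun w hw => ⟨hw.1, fun hw0 => h0 w hw.2 hw0⟩
  have h2 : ball (0 : ℂ) 1 \ closedBall 0 (1 / 2) ⊆ closedBall (0 : ℂ) 1 \ ball 0 (1 / 2) :=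
    fun w hw => ⟨ball_subset_closedBall hw.1, fun hw0 => hw.2 (ball_subset_closedBall hw0)⟩
  have h3 : ball (0 : ℂ) 1 \ closedBall 0 (1 / 2) ⊆ ball (0 : ℂ) 1 \ {0} :=
    fun w hw => ⟨hw.1, fun hw0 => h0 w (fun hb => hw.2 (ball_subset_closedBall hb)) hw0⟩
  exact E1_fin ((isCompact_closedBall 0 1).diff isOpen_ball) h2 (h.χ_cont.mono h1)
    (isOpen_ball.sdiff isClosed_closedBall) (h.χ_hol.mono h3) (h.χ_inj.mono (h2.trans h1)) hF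
    (fun w hw => hmaps w (h3 hw))

end Pool.Agent.H.MP_4bdd60_an
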