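import Pool.Agent.H.MP_4bdd60_an.E1
import Pool.Agent.H.MP_4bdd60_an.S2
import Pool.Agent.H.MP_4bdd60_an.Ray

/-!
# MP_4bdd60_an, part E: the length density in the Cayley chart
-/

open Set Filter Topology Metric MeasureTheory
open scoped ENNReal Real

namespace Pool.Agent.H.MP_4bdd60_an

/-- the region of the chart: upper half plane points whose image is outside the disc of radius `1/2` -/
def chartSet : Set (ℝ × ℝ) := {p | 0 < p.2 ∧ 1 / 2 < ‖cayc ⟨p.1, p.2⟩‖}

/-- the density `‖g(cayc w)‖ ‖cayc' w‖` at `w = κ x + i t`, cut off (`cayc` has the same norm at `w` and at its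
reflection, so the cut off does not depend on `κ`) -/
noncomputable def rho (g : ℂ → ℂ) (κ : ℝ) : ℝ × ℝ → ℝ≥0∞ :=
  chartSet.indicator fun p => ‖g (cayc ⟨κ * p.1, p.2⟩)‖ₑ * ‖deriv cayc ⟨κ * p.1, p.2⟩‖ₑ

theorem E1b_norm {κ : ℝ} (hκ : κ = 1 ∨ κ = -1) (x t : ℝ) :
    ‖cayc ⟨κ * x, t⟩‖ = ‖cayc ⟨x, t⟩‖ := by
  rcases hκ with h | h
  · rw [h, one_mul]
  · rw [h]
    have e1 : (⟨-1 * x, t⟩ : ℂ) = -(starRingEnd ℂ) ⟨x, t⟩ := by
      apply Complex.ext <;> simp
    have e2 : (starRingEnd ℂ) (cayc (-(starRingEnd ℂ) ⟨x, t⟩)) = cayc ⟨x, t⟩ := by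
      unfold cayc
      rw [map_div₀, map_sub, map_add, map_neg, Complex.conj_conj, Complex.conj_I]
      rw [show (-(⟨x, t⟩ : ℂ) - -Complex.I) = -((⟨x, t⟩ : ℂ) - Complex.I) by ring,
        show (-(⟨x, t⟩ : ℂ) + -Complex.I) = -((⟨x, t⟩ : ℂ) + Complex.I) by ring, neg_div_neg_eq]
    rw [e1, ← e2, Complex.norm_conj]

/-- the region in the complex upper half plane -/
def E1b_Y : Set ℂ := {w | 0 < w.im ∧ 1 / 2 < ‖cayc w‖}

theorem E1b_chart {κ : ℝ} (hκ : κ = 1 ∨ κ = -1) (p : ℝ × ℝ) :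
    (⟨κ * p.1, p.2⟩ : ℂ) ∈ E1b_Y ↔ p ∈ chartSet := by
  show (0 < p.2 ∧ 1 / 2 < ‖cayc ⟨κ * p.1, p.2⟩‖) ↔ (0 < p.2 ∧ 1 / 2 < ‖cayc ⟨p.1, p.2⟩‖)
  rw [E1b_norm hκ]

theorem E1b_contOn : ContinuousOn cayc {w : ℂ | 0 < w.im} := fun _ hw =>
  (cayc_hasDerivAt (le_of_lt hw)).continuousAt.continuousWithinAt

theorem E1b_open : IsOpen E1b_Y := by
  have h1 : IsOpen {w : ℂ | 0 < w.im} := isOpen_lt continuous_const Complex.continuous_im
  have h2 := (E1b_contOn.norm).isOpen_inter_preimage h1 (isOpen_Ioi (a := (1 / 2 : ℝ)))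
  exact h2

theorem E1b_maps : MapsTo cayc E1b_Y (ball 0 1 \ closedBall 0 (1 / 2)) := by
  intro w hw
  refine ⟨?_, ?_⟩
  · rw [mem_ball_zero_iff]
    exact cayc_norm_lt hw.1
  · rw [mem_closedBall_zero_iff, not_le]
    exact hw.2

theorem E1b_deriv : ContinuousOn (deriv cayc) E1b_Y := by
  have h : ContinuousOn (fun w : ℂ => 2 * Complex.I / (w + Complex.I) ^ 2) E1b_Y := by
    apply ContinuousOn.div continuousOn_const
    · exact ((continuous_id.add continuous_const).pow 2).continuousOn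
    · intro w hw
      exact pow_ne_zero 2 (cayc_den (le_of_lt hw.1))
  exact h.congr fun w hw => (cayc_hasDerivAt (le_of_lt hw.1)).deriv

theorem E1b_rho (g : ℂ → ℂ) {κ : ℝ} (hκ : κ = 1 ∨ κ = -1) (p : ℝ × ℝ) :
    rho g κ p = E1b_Y.indicator (fun w => ‖g (cayc w) * deriv cayc w‖ₑ) ⟨κ * p.1, p.2⟩ := by
  unfold rho
  by_cases hp : p ∈ chartSet
  · rw [indicator_of_mem hp, indicator_of_mem ((E1b_chart hκ p).2 hp), enorm_mul]
  · rw [indicator_of_notMem hp, indicator_of_notMem (fun h => hp ((E1b_chart hκ p).1 h))]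

theorem E1b_emb {κ : ℝ} (hκ : κ = 1 ∨ κ = -1) : ∃ e : ℝ × ℝ ≃ᵐ ℂ,
    (∀ p, e p = ⟨κ * p.1, p.2⟩) ∧ MeasurePreserving e volume volume := by
  have h0 : MeasurePreserving Complex.measurableEquivRealProd.symm volume volume :=
    Complex.volume_preserving_equiv_real_prod.symm
  rcases hκ with h | h
  · refine ⟨Complex.measurableEquivRealProd.symm, ?_, h0⟩
    intro p
    rw [h, one_mul]
    rfl
  · refine ⟨((MeasurableEquiv.neg ℝ).prodCongr (MeasurableEquiv.refl ℝ)).trans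
      Complex.measurableEquivRealProd.symm, ?_, ?_⟩
    · intro p
      rw [h, neg_one_mul]
      rfl
    · refine h0.comp ?_
      exact (Measure.measurePreserving_neg (volume : Measure ℝ)).prod (MeasurePreserving.id _)

/-- `chartSet` is open (relatively to `0 < p.2`, where `cayc` is continuous) and the function is continuous on it. -/
theorem rho_meas {g : ℂ → ℂ} (hg : ContinuousOn g (ball 0 1 \ {0})) {κ : ℝ} (hκ : κ = 1 ∨ κ = -1) :
    Measurable (rho g κ) := by
  classical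
  obtain ⟨e, he, _⟩ := E1b_emb hκ
  have h1 : ContinuousOn (fun w => ‖g (cayc w) * deriv cayc w‖ₑ) E1b_Y := by
    have h2 : ContinuousOn (fun w => g (cayc w)) E1b_Y := by
      apply hg.comp (E1b_contOn.mono fun w hw => hw.1)
      intro w hw
      have h3 := E1b_maps hw
      refine ⟨h3.1, ?_⟩
      intro h4
      apply h3.2
      rw [h4]
      exact mem_closedBall_self (by norm_num)
    exact continuous_enorm.comp_continuousOn (h2.mul E1b_deriv)
  have h5 : Measurable (E1b_Y.indicator (fun w => ‖g (cayc w) * deriv cayc w‖ₑ)) := by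
    have h6 := h1.measurable_piecewise (g := 0) continuousOn_const
      E1b_open.measurableSet
    rw [piecewise_eq_indicator] at h6
    exact h6
  have h7 : rho g κ = fun p => (E1b_Y.indicator (fun w => ‖g (cayc w) * deriv cayc w‖ₑ)) (e p) := by
    funext p
    rw [he p, E1b_rho g hκ]
  rw [h7]
  exact h5.comp e.measurable

/-- Change of variables by the reflection (measure preserving), the identification of `ℂ` with `ℝ × ℝ`
(`Complex.volume_preserving_equiv_real_prod`), and `energy` for `cayc` (`energy` with `k = g`, `Ψ = cayc`: the energy of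
`g (cayc w) cayc'(w)` on the open set of `w` with `0 < w.im`, `1/2 < ‖cayc w‖` is the energy of `g` on its image). -/
theorem rho_energy {g : ℂ → ℂ} (hg : ∫⁻ w in ball (0 : ℂ) 1 \ closedBall 0 (1 / 2), ‖g w‖ₑ ^ 2 < ∞)
    {κ : ℝ} (hκ : κ = 1 ∨ κ = -1) : ∫⁻ p, rho g κ p ^ 2 ≠ ∞ := by
  obtain ⟨e, he, hme⟩ := E1b_emb hκ
  have h1 : ∀ p, rho g κ p ^ 2 =
      (E1b_Y.indicator (fun w => ‖g (cayc w) * deriv cayc w‖ₑ ^ 2)) (e p) := by
    intro p
    rw [he p, E1b_rho g hκ]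
    by_cases hp : (⟨κ * p.1, p.2⟩ : ℂ) ∈ E1b_Y
    · rw [indicator_of_mem hp, indicator_of_mem hp]
    · rw [indicator_of_notMem hp, indicator_of_notMem hp, zero_pow two_ne_zero]
  simp_rw [h1]
  rw [hme.lintegral_comp_emb e.measurableEmbedding, lintegral_indicator E1b_open.measurableSet,
    energy E1b_open (fun w hw => (cayc_hasDerivAt (le_of_lt hw.1)).differentiableAt.differentiableWithinAt)
      (cayc_inj.mono fun w hw => le_of_lt hw.1) g]
  refine (lt_of_le_of_lt (lintegral_mono_set ?_) hg).ne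
  rintro z ⟨w, hw, rfl⟩
  exact E1b_maps hw

end Pool.Agent.H.MP_4bdd60_an
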