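import Pool.Agent.H.MP_4bdd60_an.E1b

/-!
# MP_4bdd60_an, part E: fundamental theorem of calculus along a ray in the Cayley chart
-/

open Set Filter Topology Metric MeasureTheory
open scoped ENNReal Real

namespace Pool.Agent.H.MP_4bdd60_an

/-- the straight path in the half plane -/
def E3_q (κ x σ s : ℝ) : ℂ := ⟨κ * (x + σ * s), s⟩

theorem E3_q_eq (κ x σ s : ℝ) : E3_q κ x σ s = ((κ * x : ℝ) : ℂ) + (s : ℂ) * ⟨κ * σ, 1⟩ := by
  apply Complex.ext
  · simp [E3_q]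
    ring
  · simp [E3_q]

theorem E3_q_deriv (κ x σ s : ℝ) : HasDerivAt (E3_q κ x σ) ⟨κ * σ, 1⟩ s := by
  have h1 : E3_q κ x σ = fun s : ℝ => ((κ * x : ℝ) : ℂ) + (s : ℂ) * ⟨κ * σ, 1⟩ := by
    funext s
    exact E3_q_eq κ x σ s
  rw [h1]
  have h2 : HasDerivAt (fun s : ℝ => (s : ℂ)) 1 s := Complex.ofRealCLM.hasDerivAt
  have h3 := (h2.mul_const (⟨κ * σ, 1⟩ : ℂ)).const_add ((κ * x : ℝ) : ℂ)
  rw [one_mul] at h3
  exact h3

theorem E3_dir {κ σ : ℝ} (hκ : κ = 1 ∨ κ = -1) (hσ : |σ| ≤ 2) : ‖(⟨κ * σ, 1⟩ : ℂ)‖ₑ ≤ 3 := by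
  have h1 : ‖(⟨κ * σ, 1⟩ : ℂ)‖ ≤ 3 := by
    refine (Complex.norm_le_abs_re_add_abs_im _).trans ?_
    show |κ * σ| + |(1 : ℝ)| ≤ 3
    have h2 : |κ * σ| = |σ| := by
      rcases hκ with h | h
      · rw [h, one_mul]
      · rw [h, neg_one_mul, abs_neg]
    rw [h2, abs_one]
    linarith
  rw [← ofReal_norm_eq_enorm]
  calc ENNReal.ofReal ‖(⟨κ * σ, 1⟩ : ℂ)‖ ≤ ENNReal.ofReal 3 := ENNReal.ofReal_le_ofReal h1
    _ = 3 := by simp

/-- The path `γ(t) = cayc (κ (x + σ t) + i t)`, `0 ≤ t ≤ τ ≤ 1/10`, starts at `cay (κ x)` on the circle, not in `T`, and is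
in the ball minus `0` for `t > 0` (`cayc_norm_lt`, `cayc_half`); its derivative is `cayc' (κ σ + i)` of norm
`‖cayc'‖ (1 + σ²)^(1/2) ≤ 3 ‖cayc'‖`.  So `‖G(γ t) - G(γ 0)‖ ≤ ∫_0^t ‖g(γ)‖ ‖cayc'‖ · 3 ≤ 3 · ray (rho g κ) x σ τ` (for
`0 < t ≤ 1/10` the point is in `chartSet`).  If the right side is infinite nothing is to prove; otherwise `(G ∘ γ)'` is
integrable on `Ioo 0 t` (measurable as a derivative, `measurable_deriv`, or continuous if `g` is continuous) and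
`G ∘ γ` is continuous on `Icc 0 t`: `intervalIntegral.integral_eq_sub_of_hasDerivAt_of_le`-type theorem. -/
theorem ray_ftc {G g : ℂ → ℂ} {S T : Set ℂ} (hS : S ⊆ {0}) (hT : T ⊆ sphere 0 1)
    (hG : ContinuousOn G (closedBall 0 1 \ (S ∪ T)))
    (hg : ∀ w ∈ ball (0 : ℂ) 1 \ S, HasDerivAt G (g w) w) {κ : ℝ} (hκ : κ = 1 ∨ κ = -1) {x σ τ : ℝ}
    (hσ : |σ| ≤ 2) (hx : cay (κ * x) ∉ T) (hτ : τ ≤ 1 / 10) {t : ℝ} (ht : t ∈ Icc 0 τ) :
    ‖G (cayc ⟨κ * (x + σ * t), t⟩) - G (cay (κ * x))‖ₑ ≤ 3 * ray (rho g κ) x σ τ := by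
  set F : ℝ → ℂ := G ∘ cayc ∘ E3_q κ x σ with hF
  have hq0 : E3_q κ x σ 0 = ((κ * x : ℝ) : ℂ) := by
    rw [E3_q_eq, Complex.ofReal_zero, zero_mul, add_zero]
  have hF0 : F 0 = G (cay (κ * x)) := by
    show G (cayc (E3_q κ x σ 0)) = _
    rw [hq0]
    rfl
  have hFt : F t = G (cayc ⟨κ * (x + σ * t), t⟩) := rfl
  rw [← hFt, ← hF0]
  by_cases htop : ray (rho g κ) x σ τ = ⊤
  · rw [htop, ENNReal.mul_top (by norm_num)]
    exact le_top
  have ht10 : t ≤ 1 / 10 := ht.2.trans hτ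
  -- points of the path
  have hpt : ∀ s : ℝ, 0 < s → s ≤ 1 / 10 → cayc (E3_q κ x σ s) ∈ ball (0 : ℂ) 1 \ S := by
    intro s hs hs'
    refine ⟨?_, fun h => ?_⟩
    · rw [mem_ball, dist_zero_right]
      exact cayc_norm_lt hs
    · have h1 : cayc (E3_q κ x σ s) = 0 := hS h
      have h2 : 1 / 2 < ‖cayc (E3_q κ x σ s)‖ := cayc_half (w := E3_q κ x σ s) hs.le hs'
      rw [h1, norm_zero] at h2
      norm_num at h2
  have hcay : ∀ s : ℝ, 0 ≤ s → HasDerivAt cayc (deriv cayc (E3_q κ x σ s)) (E3_q κ x σ s) := by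
    intro s hs
    exact (cayc_hasDerivAt (w := E3_q κ x σ s) hs).differentiableAt.hasDerivAt
  have hder : ∀ s : ℝ, 0 < s → s ≤ 1 / 10 → HasDerivAt F
      (g (cayc (E3_q κ x σ s)) * (deriv cayc (E3_q κ x σ s) * ⟨κ * σ, 1⟩)) s := by
    intro s hs hs'
    have h1 : HasDerivAt (cayc ∘ E3_q κ x σ) (deriv cayc (E3_q κ x σ s) * ⟨κ * σ, 1⟩) s :=
      (hcay s hs.le).comp s (E3_q_deriv κ x σ s)
    exact (hg _ (hpt s hs hs')).comp s h1
  have hcont : ContinuousOn F (Icc 0 t) := by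
    refine hG.comp (t := closedBall (0 : ℂ) 1 \ (S ∪ T)) (s := Icc (0 : ℝ) t)
      (f := cayc ∘ E3_q κ x σ) ?_ ?_
    · intro s hs
      refine ContinuousAt.continuousWithinAt ?_
      exact (hcay s hs.1).continuousAt.comp (E3_q_deriv κ x σ s).continuousAt
    · intro s hs
      rcases eq_or_lt_of_le hs.1 with h0 | h0
      · show cayc (E3_q κ x σ s) ∈ _
        rw [← h0, hq0]
        refine ⟨?_, ?_⟩
        · rw [mem_closedBall, dist_zero_right]
          exact (cay_norm (κ * x)).le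
        · rintro (h | h)
          · have h1 : cay (κ * x) = 0 := hS h
            have h2 := cay_norm (κ * x)
            rw [h1, norm_zero] at h2
            exact zero_ne_one h2
          · exact hx h
      · have h1 := hpt s h0 (hs.2.trans ht10)
        refine ⟨ball_subset_closedBall h1.1, ?_⟩
        rintro (h | h)
        · exact h1.2 h
        · have h2 := hT h
          have h3 : cayc (E3_q κ x σ s) ∈ ball (0 : ℂ) 1 := h1.1
          rw [mem_ball] at h3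
          rw [mem_sphere] at h2
          exact absurd h2 (ne_of_lt h3)
  -- the bound of the derivative
  have hbd : ∀ s ∈ Ioo (0 : ℝ) t, ‖deriv F s‖ₑ ≤ 3 * rho g κ (x + σ * s, s) := by
    intro s hs
    have hs' : s ≤ 1 / 10 := hs.2.le.trans ht10
    rw [(hder s hs.1 hs').deriv]
    have hmem : ((x + σ * s, s) : ℝ × ℝ) ∈ chartSet :=
      ⟨hs.1, cayc_half (w := ⟨x + σ * s, s⟩) hs.1.le hs'⟩
    rw [rho, indicator_of_mem hmem, enorm_mul, enorm_mul, ← mul_assoc, mul_comm]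
    exact mul_le_mul' (E3_dir hκ hσ) le_rfl
  have hle : ∫⁻ s in Ioo 0 t, ‖deriv F s‖ₑ ≤ 3 * ray (rho g κ) x σ τ := by
    calc ∫⁻ s in Ioo 0 t, ‖deriv F s‖ₑ ≤ ∫⁻ s in Ioo 0 t, 3 * rho g κ (x + σ * s, s) :=
          setLIntegral_mono' measurableSet_Ioo hbd
      _ = 3 * ∫⁻ s in Ioo 0 t, rho g κ (x + σ * s, s) := lintegral_const_mul' _ _ (by norm_num)
      _ ≤ 3 * ray (rho g κ) x σ τ := by
          refine mul_le_mul' le_rfl ?_
          exact lintegral_mono_set (Ioo_subset_Ioo le_rfl ht.2)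
  have hle' : ∫⁻ s in Ioc 0 t, ‖deriv F s‖ₑ ≤ 3 * ray (rho g κ) x σ τ := by
    rw [← restrict_Ioo_eq_restrict_Ioc]
    exact hle
  have hint : IntervalIntegrable (deriv F) volume 0 t := by
    rw [intervalIntegrable_iff_integrableOn_Ioc_of_le ht.1]
    refine ⟨(stronglyMeasurable_deriv F).aestronglyMeasurable, ?_⟩
    exact hle'.trans_lt (ENNReal.mul_lt_top (by norm_num) (lt_top_iff_ne_top.2 htop))
  have key : ∫ s in (0 : ℝ)..t, deriv F s = F t - F 0 :=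
    intervalIntegral.integral_eq_sub_of_hasDerivAt_of_le ht.1 hcont
      (fun s hs => (hder s hs.1 (hs.2.le.trans ht10)).differentiableAt.hasDerivAt) hint
  rw [← key, intervalIntegral.integral_of_le ht.1]
  exact (enorm_integral_le_lintegral_enorm _).trans hle'

end Pool.Agent.H.MP_4bdd60_an
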