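import Pool.Agent.H.MP_4bdd60_an.Defs

/-!
# MP_4bdd60_an, part F: topology of a curve
-/

open Set Filter Topology Metric MeasureTheory Function
open scoped ENNReal Real

namespace Pool.Agent.H.MP_4bdd60_an

variable {φ χ : ℂ → ℂ}

theorem closed_p (h : Curve φ χ) {A : Set ℂ} (hA : IsClosed A) (hAb : A ⊆ closedBall 0 1) :
    IsCompact (φ '' A) :=
  ((isCompact_closedBall (0 : ℂ) 1).of_isClosed_subset hA hAb).image_of_continuousOn
    (h.φ_cont.mono hAb)

theorem compact_m (h : Curve φ χ) {A : Set ℂ} (hA : IsClosed A) (hAb : A ⊆ closedBall 0 1 \ {0}) :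
    IsCompact (χ '' A) :=
  ((isCompact_closedBall (0 : ℂ) 1).of_isClosed_subset hA
    (fun _ hx => (hAb hx).1)).image_of_continuousOn (h.χ_cont.mono hAb)

/-- `χ` is large near `0` -/
theorem F1a_large_near (h : Curve φ χ) (R : ℝ) :
    ∃ r : ℝ, 0 < r ∧ ∀ u : ℂ, u ≠ 0 → ‖u‖ < r → R < ‖χ u‖ := by
  have h1 : ∀ᶠ u in 𝓝[≠] (0 : ℂ), χ u ∈ (closedBall (0 : ℂ) R)ᶜ :=
    h.χ_inf (isCompact_closedBall (0 : ℂ) R).compl_mem_cocompact
  rw [eventually_nhdsWithin_iff, Metric.eventually_nhds_iff] at h1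
  obtain ⟨r, hr, hr1⟩ := h1
  refine ⟨r, hr, fun u hu hur => ?_⟩
  have h2 := hr1 (by simpa using hur : dist u 0 < r) hu
  simpa using h2

/-- `z_n = χ u_n → z` with `u_n ∈ A \ {0}`: a subsequence of `u_n` converges to `u ∈ A` (compactness) and `u ≠ 0` because
`χ → ∞` at `0`; then `z = χ u`. -/
theorem closed_m (h : Curve φ χ) {A : Set ℂ} (hA : IsClosed A) (hAb : A ⊆ closedBall 0 1) :
    IsClosed (χ '' (A \ {0})) := by
  refine isClosed_of_closure_subset fun z hz => ?_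
  obtain ⟨r, hr, hr1⟩ := F1a_large_near h (‖z‖ + 1)
  have hK : IsCompact (χ '' (A \ ball 0 r)) := by
    refine compact_m h (hA.sdiff isOpen_ball) fun x hx => ⟨hAb hx.1, fun h0 => hx.2 ?_⟩
    rw [mem_singleton_iff] at h0
    rw [h0]
    exact mem_ball_self hr
  have h1 : z ∈ closure (ball z 1 ∩ χ '' (A \ {0})) := by
    rw [mem_closure_iff_nhds] at hz ⊢
    intro t ht
    obtain ⟨y, hy1, hy2⟩ := hz (t ∩ ball z 1) (inter_mem ht (ball_mem_nhds z one_pos))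
    exact ⟨y, hy1.1, hy1.2, hy2⟩
  have h2 : ball z 1 ∩ χ '' (A \ {0}) ⊆ χ '' (A \ ball 0 r) := by
    rintro y ⟨hy, u, hu, rfl⟩
    refine ⟨u, ⟨hu.1, fun hub => ?_⟩, rfl⟩
    have h3 := hr1 u hu.2 (by simpa using hub)
    have h4 : ‖χ u‖ ≤ ‖χ u - z‖ + ‖z‖ := by
      simpa using norm_add_le (χ u - z) z
    rw [mem_ball, dist_eq_norm] at hy
    linarith
  have h5 := closure_mono h2 h1
  rw [hK.isClosed.closure_eq] at h5
  obtain ⟨u, hu, rfl⟩ := h5
  refine ⟨u, ⟨hu.1, fun h0 => hu.2 ?_⟩, rfl⟩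
  rw [mem_singleton_iff] at h0
  rw [h0]
  exact mem_ball_self hr

/-- the inverse of a continuous injective map on a compact set is continuous -/
theorem inv_p (h : Curve φ χ) :
    ContinuousOn (invFunOn φ (closedBall 0 1)) (φ '' closedBall 0 1) := by
  rw [continuousOn_iff_isClosed]
  intro t ht
  refine ⟨φ '' (t ∩ closedBall 0 1),
    (closed_p h (ht.inter isClosed_closedBall) inter_subset_right).isClosed, ?_⟩
  ext z
  constructor
  · rintro ⟨h1, u, hu, rfl⟩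
    have h2 : invFunOn φ (closedBall 0 1) (φ u) = u :=
      h.φ_inj.leftInvOn_invFunOn hu
    rw [mem_preimage, h2] at h1
    exact ⟨⟨u, ⟨h1, hu⟩, rfl⟩, u, hu, rfl⟩
  · rintro ⟨⟨u, ⟨h1, hu⟩, rfl⟩, h3⟩
    have h2 : invFunOn φ (closedBall 0 1) (φ u) = u :=
      h.φ_inj.leftInvOn_invFunOn hu
    refine ⟨?_, h3⟩
    rw [mem_preimage, h2]
    exact h1

/-- Same for `χ`: if `χ u_n → χ u` then the limit points of `u_n` in the compact closed ball are not `0`, so they are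
equal to `u` by continuity and injectivity. -/
theorem inv_m (h : Curve φ χ) :
    ContinuousOn (invFunOn χ (closedBall 0 1 \ {0})) (χ '' (closedBall 0 1 \ {0})) := by
  rw [continuousOn_iff_isClosed]
  intro t ht
  refine ⟨χ '' ((t ∩ closedBall 0 1) \ {0}),
    closed_m h (ht.inter isClosed_closedBall) inter_subset_right, ?_⟩
  ext z
  constructor
  · rintro ⟨h1, u, hu, rfl⟩
    have h2 : invFunOn χ (closedBall 0 1 \ {0}) (χ u) = u :=
      h.χ_inj.leftInvOn_invFunOn hu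
    rw [mem_preimage, h2] at h1
    exact ⟨⟨u, ⟨⟨h1, hu.1⟩, hu.2⟩, rfl⟩, u, hu, rfl⟩
  · rintro ⟨⟨u, ⟨⟨h1, hu⟩, hu0⟩, rfl⟩, h3⟩
    have h2 : invFunOn χ (closedBall 0 1 \ {0}) (χ u) = u :=
      h.χ_inj.leftInvOn_invFunOn ⟨hu, hu0⟩
    refine ⟨?_, h3⟩
    rw [mem_preimage, h2]
    exact h1

/-- Large points of the plane are values of `χ` near `0`: `φ '' closedBall 0 1` is bounded, and `χ` is bounded on
`closedBall 0 1 \ ball 0 r` for every `r > 0`. -/
theorem large (h : Curve φ χ) {N : Set ℂ} (hN : N ∈ 𝓝[≠] (0 : ℂ)) :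
    ∃ R : ℝ, ∀ z, R < ‖z‖ → ∃ u ∈ N, u ∈ ball (0 : ℂ) 1 \ {0} ∧ χ u = z := by
  obtain ⟨r, hr, hrN⟩ := Metric.mem_nhdsWithin_iff.1 hN
  set s : ℝ := min r 1 with hs
  have hs0 : 0 < s := lt_min hr one_pos
  obtain ⟨R1, hR1⟩ := (closed_p h isClosed_closedBall subset_rfl).isBounded.exists_norm_le
  have hK : IsCompact (χ '' (closedBall 0 1 \ ball 0 s)) := by
    refine compact_m h (isClosed_closedBall.sdiff isOpen_ball) fun x hx => ⟨hx.1, fun h0 => hx.2 ?_⟩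
    rw [mem_singleton_iff] at h0
    rw [h0]
    exact mem_ball_self hs0
  obtain ⟨R2, hR2⟩ := hK.isBounded.exists_norm_le
  refine ⟨max R1 R2, fun z hz => ?_⟩
  have hcov : z ∈ φ '' closedBall 0 1 ∪ χ '' (closedBall 0 1 \ {0}) := by
    rw [h.cover]
    exact mem_univ z
  rcases hcov with h1 | ⟨u, hu, hu1⟩
  · have := hR1 z h1
    exact absurd (lt_of_le_of_lt (le_max_left R1 R2) hz) (not_lt.2 this)
  · have hub : u ∈ ball (0 : ℂ) s := by
      by_contra hub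
      have := hR2 z ⟨u, ⟨hu.1, hub⟩, hu1⟩
      exact absurd (lt_of_le_of_lt (le_max_right R1 R2) hz) (not_lt.2 this)
    refine ⟨u, hrN ⟨ball_subset_ball (min_le_left r 1) hub, hu.2⟩,
      ⟨ball_subset_ball (min_le_right r 1) hub, hu.2⟩, hu1⟩

end Pool.Agent.H.MP_4bdd60_an
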