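import Mathlib
import Pool.Agent.H.MP_4bdd60_an.Dyadic

set_option autoImplicit false

namespace Pool.Agent.H.MP_4bdd60_an.LP

open MeasureTheory Set
open scoped ENNReal

theorem sum_D_one {Y : ℝ → ℝ} {c β : ℝ} (h : Inv Y c β) (i N : ℕ) :
    ∑ n ∈ Finset.range N, D Y (n + i) (n + i + 1) ≤ D Y 0 (N + i) := by
  have h1 : ∀ N, ∑ n ∈ Finset.range N, D Y (n + i) (n + i + 1) + D Y 0 i = D Y 0 (N + i) := by
    intro N
    induction N with
    | zero => simp
    | succ N ih =>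
      rw [Finset.sum_range_succ]
      have h2 := D_add h 0 (N + i) 1
      rw [zero_add] at h2
      rw [show N + 1 + i = N + i + 1 by ring, h2, ← ih]
      ring
  rw [← h1 N]
  exact le_self_add

theorem sum_D_le {Y : ℝ → ℝ} {c β : ℝ} (h : Inv Y c β) {B : ℝ} (hB : 0 ≤ B)
    (hD : ∀ m : ℕ, D Y 0 m ≤ ENNReal.ofReal (B * (m + 1))) (N i : ℕ) :
    ∑ n ∈ Finset.range N, D Y n (n + i) ≤ i * ENNReal.ofReal (B * (N + i + 1)) := by
  induction i with
  | zero =>
    have : ∀ n, D Y n n = 0 := by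
      intro n
      unfold D
      simp
    simp [this]
  | succ i ih =>
    have h1 : ∀ n ∈ Finset.range N, D Y n (n + (i + 1)) = D Y n (n + i) + D Y (n + i) (n + i + 1) :=
      fun n _ => D_add h n i 1
    rw [Finset.sum_congr rfl h1, Finset.sum_add_distrib]
    have h2 := (sum_D_one h i N).trans (hD (N + i))
    push_cast
    calc ∑ n ∈ Finset.range N, D Y n (n + i) + ∑ n ∈ Finset.range N, D Y (n + i) (n + i + 1)
        ≤ i * ENNReal.ofReal (B * (N + i + 1)) + ENNReal.ofReal (B * ((N + i : ℕ) + 1)) :=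
          add_le_add ih h2
      _ ≤ i * ENNReal.ofReal (B * (N + (i + 1) + 1)) + 1 * ENNReal.ofReal (B * (N + (i + 1) + 1)) := by
          rw [one_mul]
          gcongr
          · linarith
          · push_cast
            linarith
      _ = (i + 1) * ENNReal.ofReal (B * (N + (i + 1) + 1)) := by ring

/-- the constant in the summed estimate -/
noncomputable def KK (B : ℝ) : ℝ≥0∞ :=
  8 * (ENNReal.ofReal B * ∑' i : ℕ, (2 : ℝ≥0∞)⁻¹ ^ i * (i * (i + 1)))

theorem tsum_lt_top : ∑' i : ℕ, (2 : ℝ≥0∞)⁻¹ ^ i * (i * (i + 1)) ≠ ∞ := by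
  have h1 : Summable (fun i : ℕ => (1 / 2 : ℝ) ^ i * (i * (i + 1))) := by
    have h2 := summable_pow_mul_geometric_of_norm_lt_one 2 (r := (1 / 2 : ℝ)) (by norm_num)
    have h3 := summable_pow_mul_geometric_of_norm_lt_one 1 (r := (1 / 2 : ℝ)) (by norm_num)
    have h4 := h2.add h3
    refine h4.congr (fun i => ?_)
    ring
  have h5 : ∀ i : ℕ, (2 : ℝ≥0∞)⁻¹ ^ i * (i * (i + 1)) =
      ENNReal.ofReal ((1 / 2 : ℝ) ^ i * (i * (i + 1))) := by
    intro i
    rw [ENNReal.ofReal_mul (by positivity), ENNReal.ofReal_mul (by positivity),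
      ENNReal.ofReal_pow (by norm_num), ENNReal.ofReal_add (by positivity) (by norm_num),
      ENNReal.ofReal_natCast, ENNReal.ofReal_one, one_div, ENNReal.ofReal_inv_of_pos (by norm_num)]
    norm_num
  simp_rw [h5]
  rw [← ENNReal.ofReal_tsum_of_nonneg (fun i => by positivity) h1]
  exact ENNReal.ofReal_ne_top

theorem KK_ne_top (B : ℝ) : KK B ≠ ∞ := by
  unfold KK
  exact ENNReal.mul_ne_top (by norm_num) (ENNReal.mul_ne_top ENNReal.ofReal_ne_top tsum_lt_top)

/-- the summed series -/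
theorem sum_series_le {Y : ℝ → ℝ} {c β : ℝ} (h : Inv Y c β) {B : ℝ} (hB : 0 ≤ B)
    (hD : ∀ m : ℕ, D Y 0 m ≤ ENNReal.ofReal (B * (m + 1))) (N : ℕ) :
    ∑ n ∈ Finset.range N, (8 * ∑' i : ℕ, (2 : ℝ≥0∞)⁻¹ ^ i * D Y n (n + i)) ≤ KK B * (N + 1) := by
  rw [← Finset.mul_sum]
  unfold KK
  rw [mul_assoc]
  gcongr
  calc ∑ n ∈ Finset.range N, ∑' i : ℕ, (2 : ℝ≥0∞)⁻¹ ^ i * D Y n (n + i)
      = ∑' i : ℕ, ∑ n ∈ Finset.range N, (2 : ℝ≥0∞)⁻¹ ^ i * D Y n (n + i) := by
        rw [Summable.tsum_finsetSum (fun _ _ => ENNReal.summable)]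
    _ ≤ ∑' i : ℕ, ENNReal.ofReal B * ((2 : ℝ≥0∞)⁻¹ ^ i * (i * (i + 1))) * (N + 1) := by
        apply ENNReal.tsum_le_tsum
        intro i
        rw [← Finset.mul_sum]
        calc (2 : ℝ≥0∞)⁻¹ ^ i * ∑ n ∈ Finset.range N, D Y n (n + i)
            ≤ (2 : ℝ≥0∞)⁻¹ ^ i * (i * ENNReal.ofReal (B * (N + i + 1))) := by
              gcongr
              exact sum_D_le h hB hD N i
          _ ≤ (2 : ℝ≥0∞)⁻¹ ^ i * (i * (ENNReal.ofReal B * ((i + 1) * (N + 1)))) := by
              gcongr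
              rw [ENNReal.ofReal_mul hB]
              gcongr
              calc ENNReal.ofReal ((N : ℝ) + i + 1) ≤ ENNReal.ofReal (((i : ℝ) + 1) * (N + 1)) := by
                    apply ENNReal.ofReal_le_ofReal
                    have : (0 : ℝ) ≤ N := Nat.cast_nonneg _
                    have : (0 : ℝ) ≤ i := Nat.cast_nonneg _
                    nlinarith [mul_nonneg (Nat.cast_nonneg (α := ℝ) N) (Nat.cast_nonneg (α := ℝ) i)]
                _ = ((i : ℝ≥0∞) + 1) * (N + 1) := by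
                    rw [ENNReal.ofReal_mul (by positivity), ENNReal.ofReal_add (by positivity)
                      (by norm_num), ENNReal.ofReal_add (by positivity) (by norm_num)]
                    simp
          _ = ENNReal.ofReal B * ((2 : ℝ≥0∞)⁻¹ ^ i * (i * (i + 1))) * (N + 1) := by ring
    _ = ENNReal.ofReal B * (∑' i : ℕ, (2 : ℝ≥0∞)⁻¹ ^ i * (i * (i + 1))) * (N + 1) := by
        rw [ENNReal.tsum_mul_right, ENNReal.tsum_mul_left]

end Pool.Agent.H.MP_4bdd60_an.LP
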