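import Mathlib
import Pool.Agent.H.MP_4bdd60_an.Telescope

set_option autoImplicit false

namespace Pool.Agent.H.MP_4bdd60_an.LP

open MeasureTheory Set
open scoped ENNReal

/-- the logarithmic kernel of level `n` -/
noncomputable def ker (Y : ℝ → ℝ) (n : ℕ) (u v : ℝ) : ℝ≥0∞ :=
  if idx n u = idx n v then ENNReal.ofReal (Real.log (len Y n (idx n u) / |Y u - Y v|)) else 0

/-- its part above the diagonal -/
noncomputable def kerlt (Y : ℝ → ℝ) (n : ℕ) (u v : ℝ) : ℝ≥0∞ :=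
  if u < v then ker Y n u v else 0

theorem ker_comm (Y : ℝ → ℝ) (n : ℕ) (u v : ℝ) : ker Y n u v = ker Y n v u := by
  unfold ker
  by_cases h : idx n u = idx n v
  · rw [if_pos h, if_pos h.symm, h, abs_sub_comm]
  · rw [if_neg h, if_neg (fun h2 => h h2.symm)]

theorem ker_self (Y : ℝ → ℝ) (n : ℕ) (u : ℝ) : ker Y n u u = 0 := by
  unfold ker
  simp

theorem ker_le (Y : ℝ → ℝ) (n : ℕ) (u v : ℝ) : ker Y n u v ≤ kerlt Y n u v + kerlt Y n v u := by
  rcases lt_trichotomy u v with h | h | h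
  · unfold kerlt
    rw [if_pos h]
    exact le_self_add
  · subst h
    rw [ker_self]
    exact bot_le
  · unfold kerlt
    rw [if_pos h, ker_comm]
    exact le_add_self

theorem measurable_ker {Y : ℝ → ℝ} (hY : Measurable Y) (n : ℕ) :
    Measurable (fun p : ℝ × ℝ => ker Y n p.1 p.2) := by
  unfold ker
  apply Measurable.ite
  · exact measurableSet_eq_fun ((measurable_idx n).comp measurable_fst)
      ((measurable_idx n).comp measurable_snd)
  · apply Measurable.ennreal_ofReal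
    apply Real.measurable_log.comp
    apply Measurable.div
    · have h1 : Measurable (fun k : ℤ => len Y n k) := measurable_of_countable _
      exact h1.comp ((measurable_idx n).comp measurable_fst)
    · exact ((hY.comp measurable_fst).sub (hY.comp measurable_snd)).norm
  · exact measurable_const

theorem measurable_kerlt {Y : ℝ → ℝ} (hY : Measurable Y) (n : ℕ) :
    Measurable (fun p : ℝ × ℝ => kerlt Y n p.1 p.2) := by
  unfold kerlt
  apply Measurable.ite
  · exact measurableSet_lt measurable_fst measurable_snd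
  · exact measurable_ker hY n
  · exact measurable_const

/-- total energy of level `n` -/
noncomputable def EN (Y : ℝ → ℝ) (n : ℕ) : ℝ≥0∞ :=
  ∫⁻ u in Ico (0:ℝ) 1, ∫⁻ v in Ico (0:ℝ) 1, ker Y n u v

theorem EN_le {Y : ℝ → ℝ} (hY : Measurable Y) (n : ℕ) :
    EN Y n ≤ 2 * ∫⁻ u in Ico (0:ℝ) 1, ∫⁻ v in Ico (0:ℝ) 1, kerlt Y n u v := by
  have hm := measurable_kerlt hY n
  calc EN Y n ≤ ∫⁻ u in Ico (0:ℝ) 1, ∫⁻ v in Ico (0:ℝ) 1, (kerlt Y n u v + kerlt Y n v u) :=
        lintegral_mono (fun u => lintegral_mono (fun v => ker_le Y n u v))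
    _ = (∫⁻ u in Ico (0:ℝ) 1, ∫⁻ v in Ico (0:ℝ) 1, kerlt Y n u v) +
          (∫⁻ u in Ico (0:ℝ) 1, ∫⁻ v in Ico (0:ℝ) 1, kerlt Y n v u) := by
        rw [← lintegral_add_left]
        · apply lintegral_congr
          intro u
          rw [lintegral_add_left]
          exact hm.comp (measurable_const.prodMk measurable_id)
        · exact Measurable.lintegral_prod_right' (f := fun p : ℝ × ℝ => kerlt Y n p.1 p.2) hm
    _ = 2 * ∫⁻ u in Ico (0:ℝ) 1, ∫⁻ v in Ico (0:ℝ) 1, kerlt Y n u v := by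
        rw [two_mul]
        congr 1
        apply lintegral_lintegral_swap
        apply Measurable.aemeasurable
        exact hm.comp (measurable_snd.prodMk measurable_fst)

/-- the increments, extended by zero -/
noncomputable def φφ (Y : ℝ → ℝ) (n m : ℕ) (w : ℝ) : ℝ≥0∞ :=
  (Ico (0:ℝ) 1).indicator (fun w => ENNReal.ofReal (lam Y m w - lam Y n w)) w

theorem measurable_φφ (Y : ℝ → ℝ) (n m : ℕ) : Measurable (φφ Y n m) :=
  (((measurable_lam Y _).sub (measurable_lam Y _)).ennreal_ofReal).indicator measurableSet_Ico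

/-- majorant -/
noncomputable def GG (Y : ℝ → ℝ) (n i : ℕ) (u v : ℝ) : ℝ≥0∞ :=
  (Ioo u (u + 4 / 2 ^ (n + i))).indicator (fun _ => φφ Y n (n + i) (u + 1 / 2 ^ (n + i))) v

theorem measurable_GG (Y : ℝ → ℝ) (n i : ℕ) : Measurable (fun p : ℝ × ℝ => GG Y n i p.1 p.2) := by
  have h : (fun p : ℝ × ℝ => GG Y n i p.1 p.2) =
      ({p : ℝ × ℝ | p.1 < p.2 ∧ p.2 < p.1 + 4 / 2 ^ (n + i)}).indicator
        (fun p => φφ Y n (n + i) (p.1 + 1 / 2 ^ (n + i))) := by
    funext p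
    unfold GG
    by_cases hp : p.2 ∈ Ioo p.1 (p.1 + 4 / 2 ^ (n + i))
    · rw [indicator_of_mem hp, indicator_of_mem]
      exact ⟨hp.1, hp.2⟩
    · rw [indicator_of_notMem hp, indicator_of_notMem]
      intro h2
      exact hp ⟨h2.1, h2.2⟩
  rw [h]
  apply Measurable.indicator
  · exact (measurable_φφ Y n (n + i)).comp (measurable_fst.add_const _)
  · apply MeasurableSet.inter
    · exact measurableSet_lt measurable_fst measurable_snd
    · exact measurableSet_lt measurable_snd (measurable_fst.add_const _)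

/-- the scale of a positive number -/
theorem exists_scale (d : ℝ) (hd : 0 < d) (n : ℕ) (hdn : d < 1 / 2 ^ n) :
    ∃ i : ℕ, 2 / 2 ^ (n + i) ≤ d ∧ d < 4 / 2 ^ (n + i) := by
  have hex : ∃ m : ℕ, 2 / 2 ^ (n + m) ≤ d := by
    obtain ⟨m, hm⟩ := exists_pow_lt_of_lt_one (show 0 < d / 2 by linarith)
      (show (1 / 2 : ℝ) < 1 by norm_num)
    refine ⟨m, ?_⟩
    have h1 : (1 / 2 : ℝ) ^ (n + m) ≤ (1 / 2 : ℝ) ^ m := by
      apply pow_le_pow_of_le_one (by norm_num) (by norm_num)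
      omega
    have h2 : (2 : ℝ) / 2 ^ (n + m) = 2 * (1 / 2 : ℝ) ^ (n + m) := by
      rw [one_div, inv_pow]; ring
    rw [h2]
    linarith
  classical
  let m := Nat.find hex
  have hm : 2 / 2 ^ (n + m) ≤ d := Nat.find_spec hex
  refine ⟨m, hm, ?_⟩
  rcases Nat.eq_zero_or_pos m with h0 | h0
  · rw [h0, add_zero]
    have : (1 : ℝ) / 2 ^ n ≤ 4 / 2 ^ n := by gcongr; norm_num
    linarith
  · have h1 : ¬ (2 / 2 ^ (n + (m - 1)) ≤ d) := Nat.find_min hex (by omega)
    push Not at h1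
    have h2 : (2 : ℝ) / 2 ^ (n + (m - 1)) = 4 / 2 ^ (n + m) := by
      have : n + m = n + (m - 1) + 1 := by omega
      rw [this, pow_succ]
      field_simp
      norm_num
    linarith

/-- equal indices: small distance -/
theorem dist_lt_of_idx {n : ℕ} {u v : ℝ} (h : idx n u = idx n v) : v - u < 1 / 2 ^ n := by
  have h1 := lt_idx n v
  have h2 := idx_le n u
  rw [h] at h2
  have h3 : ((idx n v : ℝ) + 1) / 2 ^ n = (idx n v : ℝ) / 2 ^ n + 1 / 2 ^ n := by ring
  linarith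

theorem kerlt_le {Y : ℝ → ℝ} {c β : ℝ} (h : Inv Y c β) (n : ℕ) {u v : ℝ} (hu : 0 ≤ u)
    (hv : v < 1) : kerlt Y n u v ≤ ∑' i : ℕ, GG Y n i u v := by
  unfold kerlt
  by_cases huv : u < v
  swap
  · rw [if_neg huv]; exact bot_le
  rw [if_pos huv]
  unfold ker
  by_cases hi : idx n u = idx n v
  swap
  · rw [if_neg hi]; exact bot_le
  rw [if_pos hi]
  obtain ⟨i, hi1, hi2⟩ := exists_scale (v - u) (by linarith) n (dist_lt_of_idx hi)
  refine le_trans ?_ (ENNReal.le_tsum i)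
  unfold GG
  have hmem : v ∈ Ioo u (u + 4 / 2 ^ (n + i)) := ⟨huv, by linarith⟩
  rw [indicator_of_mem hmem]
  set w := u + 1 / 2 ^ (n + i) with hw
  have hp : (0 : ℝ) < 1 / 2 ^ (n + i) := by positivity
  have h22 : (2 : ℝ) / 2 ^ (n + i) = 2 * (1 / 2 ^ (n + i)) := by ring
  have hwv : w < v := by rw [hw]; linarith
  have hw0 : 0 ≤ w := by rw [hw]; linarith
  have hw1 : w < 1 := by linarith
  have hidx : idx n w = idx n u := by
    apply le_antisymm
    · rw [hi]; exact idx_mono n hwv.le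
    · exact idx_mono n (by rw [hw]; linarith)
  unfold φφ
  rw [indicator_of_mem (show w ∈ Ico (0:ℝ) 1 from ⟨hw0, hw1⟩)]
  apply ENNReal.ofReal_le_ofReal
  have hlen : len Y (n + i) (idx (n + i) w) ≤ Y v - Y u := by
    unfold len
    have a1 := lt_idx (n + i) w
    have a2 := idx_le (n + i) w
    have a3 : ((idx (n + i) w : ℝ) + 1) / 2 ^ (n + i) = (idx (n + i) w : ℝ) / 2 ^ (n + i) +
      1 / 2 ^ (n + i) := by ring
    have b1 : Y u ≤ Y ((idx (n + i) w : ℝ) / 2 ^ (n + i)) := h.mono (by linarith)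
    have b2 : Y (((idx (n + i) w : ℝ) + 1) / 2 ^ (n + i)) ≤ Y v := h.mono (by linarith)
    linarith
  have hlp := len_pos h (n + i) hw0 hw1
  have hln := len_pos h n hu (huv.trans hv)
  have hYuv : 0 < Y v - Y u := lt_of_lt_of_le hlp hlen
  rw [abs_sub_comm, abs_of_pos hYuv, Real.log_div (ne_of_gt hln) (ne_of_gt hYuv)]
  unfold lam
  rw [hidx]
  have := Real.log_le_log hlp hlen
  linarith

theorem int_GG_le (Y : ℝ → ℝ) (n i : ℕ) :
    ∫⁻ u in Ico (0:ℝ) 1, ∫⁻ v in Ico (0:ℝ) 1, GG Y n i u v ≤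
      ENNReal.ofReal (4 / 2 ^ (n + i)) * D Y n (n + i) := by
  have h1 : ∀ u, ∫⁻ v in Ico (0:ℝ) 1, GG Y n i u v ≤
      ENNReal.ofReal (4 / 2 ^ (n + i)) * φφ Y n (n + i) (u + 1 / 2 ^ (n + i)) := by
    intro u
    calc ∫⁻ v in Ico (0:ℝ) 1, GG Y n i u v ≤ ∫⁻ v, GG Y n i u v := setLIntegral_le_lintegral _ _
      _ = ENNReal.ofReal (4 / 2 ^ (n + i)) * φφ Y n (n + i) (u + 1 / 2 ^ (n + i)) := by
          unfold GG
          rw [lintegral_indicator measurableSet_Ioo, setLIntegral_const, Real.volume_Ioo,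
            mul_comm]
          congr 2
          ring
  have hm := measurable_φφ Y n (n + i)
  calc ∫⁻ u in Ico (0:ℝ) 1, ∫⁻ v in Ico (0:ℝ) 1, GG Y n i u v
      ≤ ∫⁻ u in Ico (0:ℝ) 1, ENNReal.ofReal (4 / 2 ^ (n + i)) *
          φφ Y n (n + i) (u + 1 / 2 ^ (n + i)) := lintegral_mono h1
    _ ≤ ∫⁻ u, ENNReal.ofReal (4 / 2 ^ (n + i)) * φφ Y n (n + i) (u + 1 / 2 ^ (n + i)) :=
        setLIntegral_le_lintegral _ _
    _ = ENNReal.ofReal (4 / 2 ^ (n + i)) * ∫⁻ u, φφ Y n (n + i) (u + 1 / 2 ^ (n + i)) := by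
        rw [lintegral_const_mul]
        exact hm.comp (measurable_add_const _)
    _ = ENNReal.ofReal (4 / 2 ^ (n + i)) * ∫⁻ w, φφ Y n (n + i) w := by
        rw [lintegral_add_right_eq_self (fun w => φφ Y n (n + i) w)]
    _ = ENNReal.ofReal (4 / 2 ^ (n + i)) * D Y n (n + i) := by
        unfold φφ D
        rw [lintegral_indicator measurableSet_Ico]

/-- **the energy of level `n` is bounded by the increments** -/
theorem EN_bound {Y : ℝ → ℝ} {c β : ℝ} (h : Inv Y c β) (n : ℕ) :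
    2 ^ n * EN Y n ≤ 8 * ∑' i : ℕ, (2 : ℝ≥0∞)⁻¹ ^ i * D Y n (n + i) := by
  have hY : Measurable Y := h.mono.measurable
  have h1 : ∫⁻ u in Ico (0:ℝ) 1, ∫⁻ v in Ico (0:ℝ) 1, kerlt Y n u v ≤
      ∑' i : ℕ, ENNReal.ofReal (4 / 2 ^ (n + i)) * D Y n (n + i) := by
    calc ∫⁻ u in Ico (0:ℝ) 1, ∫⁻ v in Ico (0:ℝ) 1, kerlt Y n u v
        ≤ ∫⁻ u in Ico (0:ℝ) 1, ∫⁻ v in Ico (0:ℝ) 1, ∑' i : ℕ, GG Y n i u v := by
          apply setLIntegral_mono' measurableSet_Ico
          intro u hu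
          apply setLIntegral_mono' measurableSet_Ico
          intro v hv
          exact kerlt_le h n hu.1 hv.2
      _ = ∫⁻ u in Ico (0:ℝ) 1, ∑' i : ℕ, ∫⁻ v in Ico (0:ℝ) 1, GG Y n i u v := by
          apply lintegral_congr
          intro u
          rw [lintegral_tsum]
          intro i
          exact ((measurable_GG Y n i).comp (measurable_const.prodMk measurable_id)).aemeasurable
      _ = ∑' i : ℕ, ∫⁻ u in Ico (0:ℝ) 1, ∫⁻ v in Ico (0:ℝ) 1, GG Y n i u v := by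
          rw [lintegral_tsum]
          intro i
          exact (Measurable.lintegral_prod_right' (f := fun p : ℝ × ℝ => GG Y n i p.1 p.2)
            (measurable_GG Y n i)).aemeasurable
      _ ≤ ∑' i : ℕ, ENNReal.ofReal (4 / 2 ^ (n + i)) * D Y n (n + i) :=
          ENNReal.tsum_le_tsum (fun i => int_GG_le Y n i)
  have h2 : ∀ i : ℕ, ENNReal.ofReal (4 / 2 ^ (n + i)) =
      4 * ((2 : ℝ≥0∞)⁻¹ ^ n * (2 : ℝ≥0∞)⁻¹ ^ i) := by
    intro i
    rw [← pow_add, ENNReal.ofReal_div_of_pos (by positivity), ENNReal.div_eq_inv_mul,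
      ENNReal.ofReal_pow (by norm_num), ← ENNReal.inv_pow]
    norm_num
    ring
  calc 2 ^ n * EN Y n ≤ 2 ^ n * (2 * ∑' i : ℕ, ENNReal.ofReal (4 / 2 ^ (n + i)) * D Y n (n + i)) := by
        gcongr
        exact (EN_le hY n).trans (by gcongr)
    _ = 2 ^ n * (2 * ∑' i : ℕ, (4 * (2 : ℝ≥0∞)⁻¹ ^ n) * ((2 : ℝ≥0∞)⁻¹ ^ i * D Y n (n + i))) := by
        congr 2
        apply tsum_congr
        intro i
        rw [h2]
        ring
    _ = (2 ^ n * (2 : ℝ≥0∞)⁻¹ ^ n) * (8 * ∑' i : ℕ, (2 : ℝ≥0∞)⁻¹ ^ i * D Y n (n + i)) := by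
        rw [ENNReal.tsum_mul_left]
        ring
    _ = 8 * ∑' i : ℕ, (2 : ℝ≥0∞)⁻¹ ^ i * D Y n (n + i) := by
        rw [← mul_pow, ENNReal.mul_inv_cancel (by norm_num) (by norm_num), one_pow, one_mul]

end Pool.Agent.H.MP_4bdd60_an.LP
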