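import Mathlib
import Pool.Agent.H.MP_4bdd60_an.LevelEnergy

set_option autoImplicit false

namespace Pool.Agent.H.MP_4bdd60_an.LP

open MeasureTheory Set Filter
open scoped ENNReal

/-- the dyadic interval of level `n` containing `w` -/
def cell (n : ℕ) (w : ℝ) : Set ℝ := Ico ((idx n w : ℝ) / 2 ^ n) (((idx n w : ℝ) + 1) / 2 ^ n)

theorem mem_cell {n : ℕ} {w u : ℝ} : u ∈ cell n w ↔ idx n u = idx n w := by
  unfold cell
  constructor
  · intro h
    have h1 := h.1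
    have h2 := h.2
    rw [div_le_iff₀ (by positivity)] at h1
    rw [lt_div_iff₀ (by positivity)] at h2
    unfold idx at *
    exact Int.floor_eq_iff.mpr ⟨h1, h2⟩
  · intro h
    rw [← h]
    exact ⟨idx_le n u, lt_idx n u⟩

theorem volume_cell (n : ℕ) (w : ℝ) : volume (cell n w) = (2 : ℝ≥0∞)⁻¹ ^ n := by
  unfold cell
  rw [Real.volume_Ico]
  have : ((idx n w : ℝ) + 1) / 2 ^ n - (idx n w : ℝ) / 2 ^ n = (2⁻¹ : ℝ) ^ n := by
    rw [inv_pow]; ring
  rw [this, ENNReal.ofReal_pow (by norm_num), ENNReal.ofReal_inv_of_pos (by norm_num)]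
  norm_num

theorem cell_subset {n : ℕ} {w : ℝ} (h0 : 0 ≤ w) (h1 : w < 1) : cell n w ⊆ Ico 0 1 := by
  intro u hu
  unfold cell at hu
  constructor
  · refine le_trans ?_ hu.1
    have : (0 : ℝ) ≤ (idx n w : ℝ) := by exact_mod_cast idx_nonneg n h0
    positivity
  · refine lt_of_lt_of_le hu.2 ?_
    rw [div_le_one (by positivity)]
    exact idx_add_one_le n h1

/-- indicator of equal indices -/
noncomputable def J (n : ℕ) (u w : ℝ) : ℝ≥0∞ := if idx n u = idx n w then 1 else 0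

theorem measurable_J (n : ℕ) : Measurable (fun p : ℝ × ℝ => J n p.1 p.2) := by
  unfold J
  apply Measurable.ite
  · exact measurableSet_eq_fun ((measurable_idx n).comp measurable_fst)
      ((measurable_idx n).comp measurable_snd)
  · exact measurable_const
  · exact measurable_const

/-- normalised energy of the dyadic interval of level `n` containing `w` -/
noncomputable def avg (Y : ℝ → ℝ) (n : ℕ) (w : ℝ) : ℝ≥0∞ :=
  4 ^ n * ∫⁻ u in Ico (0:ℝ) 1, J n u w * ∫⁻ v in Ico (0:ℝ) 1, ker Y n u v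

theorem measurable_pot {Y : ℝ → ℝ} (hY : Measurable Y) (n : ℕ) :
    Measurable (fun u : ℝ => ∫⁻ v in Ico (0:ℝ) 1, ker Y n u v) :=
  Measurable.lintegral_prod_right' (f := fun p : ℝ × ℝ => ker Y n p.1 p.2) (measurable_ker hY n)

theorem measurable_avg {Y : ℝ → ℝ} (hY : Measurable Y) (n : ℕ) : Measurable (avg Y n) := by
  unfold avg
  apply Measurable.const_mul
  exact Measurable.lintegral_prod_right'
    (f := fun p : ℝ × ℝ => J n p.2 p.1 * ∫⁻ v in Ico (0:ℝ) 1, ker Y n p.2 v)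
    (((measurable_J n).comp (measurable_snd.prodMk measurable_fst)).mul
      ((measurable_pot hY n).comp measurable_snd))

theorem energy_le_avg (Y : ℝ → ℝ) (n : ℕ) {w : ℝ} (h0 : 0 ≤ w) (h1 : w < 1) :
    4 ^ n * energy Y (cell n w) (len Y n (idx n w)) ≤ avg Y n w := by
  unfold avg energy
  gcongr _ * ?_
  have hc : MeasurableSet (cell n w) := measurableSet_Ico
  have hsub := cell_subset (n := n) h0 h1
  calc ∫⁻ u in cell n w, ∫⁻ v in cell n w,
        ENNReal.ofReal (Real.log (len Y n (idx n w) / |Y u - Y v|))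
      ≤ ∫⁻ u in cell n w, J n u w * ∫⁻ v in Ico (0:ℝ) 1, ker Y n u v := by
        apply setLIntegral_mono' hc
        intro u hu
        rw [mem_cell] at hu
        unfold J
        rw [if_pos hu, one_mul]
        calc ∫⁻ v in cell n w, ENNReal.ofReal (Real.log (len Y n (idx n w) / |Y u - Y v|))
            ≤ ∫⁻ v in cell n w, ker Y n u v := by
              apply setLIntegral_mono' hc
              intro v hv
              rw [mem_cell] at hv
              unfold ker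
              rw [if_pos (hu.trans hv.symm), hu]
          _ ≤ ∫⁻ v in Ico (0:ℝ) 1, ker Y n u v := lintegral_mono_set hsub
    _ ≤ ∫⁻ u in Ico (0:ℝ) 1, J n u w * ∫⁻ v in Ico (0:ℝ) 1, ker Y n u v := lintegral_mono_set hsub

theorem int_avg_le {Y : ℝ → ℝ} (hY : Measurable Y) (n : ℕ) :
    ∫⁻ w in Ico (0:ℝ) 1, avg Y n w ≤ 2 ^ n * EN Y n := by
  unfold avg
  have hp := measurable_pot hY n
  have hJ := measurable_J n
  have hm : Measurable (fun p : ℝ × ℝ => J n p.2 p.1 * ∫⁻ v in Ico (0:ℝ) 1, ker Y n p.2 v) :=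
    (hJ.comp (measurable_snd.prodMk measurable_fst)).mul (hp.comp measurable_snd)
  rw [lintegral_const_mul]
  swap
  · exact Measurable.lintegral_prod_right' hm
  have h1 : ∫⁻ w in Ico (0:ℝ) 1, ∫⁻ u in Ico (0:ℝ) 1, J n u w * ∫⁻ v in Ico (0:ℝ) 1, ker Y n u v =
      ∫⁻ u in Ico (0:ℝ) 1, ∫⁻ w in Ico (0:ℝ) 1, J n u w * ∫⁻ v in Ico (0:ℝ) 1, ker Y n u v := by
    apply lintegral_lintegral_swap
    exact hm.aemeasurable
  rw [h1]
  have h2 : ∀ u, ∫⁻ w in Ico (0:ℝ) 1, J n u w * ∫⁻ v in Ico (0:ℝ) 1, ker Y n u v ≤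
      (2 : ℝ≥0∞)⁻¹ ^ n * ∫⁻ v in Ico (0:ℝ) 1, ker Y n u v := by
    intro u
    rw [lintegral_mul_const]
    swap
    · exact hJ.comp (measurable_const.prodMk measurable_id)
    gcongr
    calc ∫⁻ w in Ico (0:ℝ) 1, J n u w ≤ ∫⁻ w, J n u w := setLIntegral_le_lintegral _ _
      _ = ∫⁻ w, (cell n u).indicator (fun _ => 1) w := by
          apply lintegral_congr
          intro w
          unfold J
          by_cases h : idx n u = idx n w
          · rw [if_pos h, indicator_of_mem (mem_cell.mpr h.symm)]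
          · rw [if_neg h, indicator_of_notMem (fun h2 => h (mem_cell.mp h2).symm)]
      _ = (2 : ℝ≥0∞)⁻¹ ^ n := by
          have hc : MeasurableSet (cell n u) := measurableSet_Ico
          rw [lintegral_indicator hc, setLIntegral_const, one_mul]
          exact volume_cell n u
  calc 4 ^ n * ∫⁻ u in Ico (0:ℝ) 1, ∫⁻ w in Ico (0:ℝ) 1, J n u w *
          ∫⁻ v in Ico (0:ℝ) 1, ker Y n u v
      ≤ 4 ^ n * ∫⁻ u in Ico (0:ℝ) 1, (2 : ℝ≥0∞)⁻¹ ^ n * ∫⁻ v in Ico (0:ℝ) 1, ker Y n u v := by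
        gcongr with u
        exact h2 u
    _ = (4 ^ n * (2 : ℝ≥0∞)⁻¹ ^ n) * EN Y n := by
        rw [lintegral_const_mul _ hp]
        unfold EN
        ring
    _ = 2 ^ n * EN Y n := by
        congr 1
        rw [← mul_pow]
        congr 1
        rw [show (4 : ℝ≥0∞) = 2 * 2 by norm_num, mul_assoc,
          ENNReal.mul_inv_cancel (by norm_num) (by norm_num), mul_one]

/-- many levels have bounded energy -/
theorem freq_le (a : ℕ → ℝ≥0∞) (K : ℝ≥0∞) (hK : K ≠ ∞)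
    (h : ∀ N : ℕ, ∑ n ∈ Finset.range N, a n ≤ K * (N + 1)) : ∃ᶠ n in atTop, a n ≤ 2 * K + 1 := by
  intro hcon
  rw [eventually_atTop] at hcon
  obtain ⟨n₀, hn₀⟩ := hcon
  lift K to NNReal using hK
  have h1 := h (2 * n₀ + 2)
  have h2 : ((n₀ + 2 : ℕ) : ℝ≥0∞) * (2 * K + 1) ≤ ∑ n ∈ Finset.range (2 * n₀ + 2), a n := by
    calc ((n₀ + 2 : ℕ) : ℝ≥0∞) * (2 * K + 1)
        = ∑ n ∈ Finset.Ico n₀ (2 * n₀ + 2), (2 * (K : ℝ≥0∞) + 1) := by
          rw [Finset.sum_const, Nat.card_Ico, nsmul_eq_mul]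
          congr 2
          omega
      _ ≤ ∑ n ∈ Finset.Ico n₀ (2 * n₀ + 2), a n := by
          apply Finset.sum_le_sum
          intro n hn
          have := hn₀ n (Finset.mem_Ico.mp hn).1
          exact (not_le.mp this).le
      _ ≤ ∑ n ∈ Finset.range (2 * n₀ + 2), a n := by
          apply Finset.sum_le_sum_of_subset
          intro n hn
          rw [Finset.mem_range]
          exact (Finset.mem_Ico.mp hn).2
  have h3 := h2.trans h1
  have h4 : ((n₀ + 2 : ℕ) : NNReal) * (2 * K + 1) ≤ K * ((2 * n₀ + 2 : ℕ) + 1) := by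
    exact_mod_cast h3
  have h5 : ((n₀ : ℝ) + 2) * (2 * K + 1) ≤ K * (2 * n₀ + 2 + 1) := by
    exact_mod_cast h4
  have h6 : (0 : ℝ) ≤ K := K.2
  have h7 : (0 : ℝ) ≤ n₀ := Nat.cast_nonneg _
  nlinarith [mul_nonneg h6 h7]

/-- the middle half of the dyadic intervals of level `n` -/
def mid (n : ℕ) : Set ℝ := {w | 1 / 4 ≤ w * 2 ^ n - idx n w ∧ w * 2 ^ n - idx n w < 3 / 4}

theorem measurableSet_mid (n : ℕ) : MeasurableSet (mid n) := by
  have h1 : Measurable (fun w : ℝ => w * 2 ^ n - (idx n w : ℝ)) := by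
    apply (measurable_mul_const _).sub
    exact (measurable_of_countable (fun k : ℤ => (k : ℝ))).comp (measurable_idx n)
  exact (measurableSet_le measurable_const h1).inter (measurableSet_lt h1 measurable_const)

theorem volume_not_mid (n : ℕ) : volume (Ico (0:ℝ) 1 \ mid n) ≤ 2⁻¹ := by
  have hsub : Ico (0:ℝ) 1 \ mid n ⊆ ⋃ k ∈ Finset.range (2 ^ n),
      (Ico ((k : ℝ) / 2 ^ n) (((k : ℝ) + 1 / 4) / 2 ^ n) ∪
        Ico (((k : ℝ) + 3 / 4) / 2 ^ n) (((k : ℝ) + 1) / 2 ^ n)) := by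
    intro w hw
    have h0 := idx_nonneg n hw.1.1
    have h1 := idx_add_one_le n hw.1.2
    obtain ⟨k, hk⟩ := Int.eq_ofNat_of_zero_le h0
    have hkr : (idx n w : ℝ) = (k : ℝ) := by rw [hk]; simp
    rw [hkr] at h1
    have hk2 : k < 2 ^ n := by
      have : ((k + 1 : ℕ) : ℝ) ≤ ((2 ^ n : ℕ) : ℝ) := by push_cast; exact h1
      have := Nat.cast_le.mp this
      omega
    simp only [mem_iUnion, Finset.mem_range]
    refine ⟨k, hk2, ?_⟩
    have h2 := idx_le n w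
    have h3 := lt_idx n w
    rw [hkr] at h2 h3
    have hp : (0 : ℝ) < 2 ^ n := by positivity
    by_cases h4 : w * 2 ^ n - k < 1 / 4
    · left
      refine ⟨h2, ?_⟩
      rw [lt_div_iff₀ hp]
      linarith
    · right
      have h5 : ¬ (w * 2 ^ n - k < 3 / 4) := by
        intro h5
        apply hw.2
        unfold mid
        rw [Set.mem_ofPred_eq, hkr]
        exact ⟨by linarith, h5⟩
      refine ⟨?_, h3⟩
      rw [div_le_iff₀ hp]
      linarith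
  refine (measure_mono hsub).trans ?_
  refine (measure_biUnion_finset_le _ _).trans ?_
  have h6 : ∀ k ∈ Finset.range (2 ^ n), volume (Ico ((k : ℝ) / 2 ^ n) (((k : ℝ) + 1 / 4) / 2 ^ n) ∪
        Ico (((k : ℝ) + 3 / 4) / 2 ^ n) (((k : ℝ) + 1) / 2 ^ n)) ≤ 2⁻¹ * (2 : ℝ≥0∞)⁻¹ ^ n := by
    intro k _
    refine (measure_union_le _ _).trans ?_
    rw [Real.volume_Ico, Real.volume_Ico, ← ENNReal.ofReal_add]
    · have e1 : ((k : ℝ) + 1 / 4) / 2 ^ n - (k : ℝ) / 2 ^ n +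
          (((k : ℝ) + 1) / 2 ^ n - ((k : ℝ) + 3 / 4) / 2 ^ n) = 2⁻¹ * (2⁻¹ : ℝ) ^ n := by
        rw [inv_pow]; ring
      rw [e1, ENNReal.ofReal_mul (by norm_num), ENNReal.ofReal_pow (by norm_num),
        ENNReal.ofReal_inv_of_pos (by norm_num)]
      norm_num
    · have : (k : ℝ) / 2 ^ n ≤ ((k : ℝ) + 1 / 4) / 2 ^ n := by gcongr; linarith
      linarith
    · have : ((k : ℝ) + 3 / 4) / 2 ^ n ≤ ((k : ℝ) + 1) / 2 ^ n := by gcongr; linarith
      linarith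
  refine (Finset.sum_le_sum h6).trans ?_
  rw [Finset.sum_const, Finset.card_range, nsmul_eq_mul]
  push_cast
  apply le_of_eq
  calc (2 : ℝ≥0∞) ^ n * (2⁻¹ * (2 : ℝ≥0∞)⁻¹ ^ n) = (2 ^ n * (2 : ℝ≥0∞)⁻¹ ^ n) * 2⁻¹ := by ring
    _ = 2⁻¹ := by
        rw [← mul_pow, ENNReal.mul_inv_cancel (by norm_num) (by norm_num), one_pow, one_mul]

/-- good points of level `n` -/
def Gd (Y₁ Y₂ : ℝ → ℝ) (M : ℝ≥0∞) (n : ℕ) : Set ℝ :=
  (Ico (0:ℝ) 1 ∩ mid n) ∩ {w | avg Y₁ n w + avg Y₂ n w < 4 * M}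

theorem measurableSet_Gd {Y₁ Y₂ : ℝ → ℝ} (h1 : Measurable Y₁) (h2 : Measurable Y₂) (M : ℝ≥0∞)
    (n : ℕ) : MeasurableSet (Gd Y₁ Y₂ M n) :=
  (measurableSet_Ico.inter (measurableSet_mid n)).inter
    (measurableSet_lt ((measurable_avg h1 n).add (measurable_avg h2 n)) measurable_const)

theorem volume_Gd {Y₁ Y₂ : ℝ → ℝ} (h1 : Measurable Y₁) (h2 : Measurable Y₂) {M : ℝ≥0∞}
    (hM0 : M ≠ 0) (hM1 : M ≠ ∞) {n : ℕ} (hn : 2 ^ n * EN Y₁ n + 2 ^ n * EN Y₂ n ≤ M) :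
    4⁻¹ ≤ volume (Gd Y₁ Y₂ M n) := by
  have hb : volume (Ico (0:ℝ) 1 ∩ {w | 4 * M ≤ avg Y₁ n w + avg Y₂ n w}) ≤ 4⁻¹ := by
    have hm : Measurable (fun w => avg Y₁ n w + avg Y₂ n w) :=
      (measurable_avg h1 n).add (measurable_avg h2 n)
    have h3 := mul_meas_ge_le_lintegral (μ := volume.restrict (Ico (0:ℝ) 1)) hm (4 * M)
    rw [Measure.restrict_apply (measurableSet_le measurable_const hm),
      lintegral_add_left (measurable_avg h1 n), inter_comm] at h3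
    have h4 : 4 * M * volume (Ico (0:ℝ) 1 ∩ {w | 4 * M ≤ avg Y₁ n w + avg Y₂ n w}) ≤ M :=
      h3.trans ((add_le_add (int_avg_le h1 n) (int_avg_le h2 n)).trans hn)
    have h5 : M * (4 * volume (Ico (0:ℝ) 1 ∩ {w | 4 * M ≤ avg Y₁ n w + avg Y₂ n w})) ≤ M * 1 := by
      calc M * (4 * volume (Ico (0:ℝ) 1 ∩ {w | 4 * M ≤ avg Y₁ n w + avg Y₂ n w}))
          = 4 * M * volume (Ico (0:ℝ) 1 ∩ {w | 4 * M ≤ avg Y₁ n w + avg Y₂ n w}) := by ring
        _ ≤ M := h4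
        _ = M * 1 := by rw [mul_one]
    have h6 := (ENNReal.mul_le_mul_iff_right hM0 hM1).mp h5
    rw [← ENNReal.mul_le_mul_iff_right (a := 4) (by norm_num) (by norm_num),
      ENNReal.mul_inv_cancel (by norm_num) (by norm_num)]
    exact h6
  have hcov : Ico (0:ℝ) 1 ⊆ Gd Y₁ Y₂ M n ∪ ((Ico (0:ℝ) 1 \ mid n) ∪
      (Ico (0:ℝ) 1 ∩ {w | 4 * M ≤ avg Y₁ n w + avg Y₂ n w})) := by
    intro w hw
    by_cases hm : w ∈ mid n
    · by_cases ha : avg Y₁ n w + avg Y₂ n w < 4 * M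
      · left; exact ⟨⟨hw, hm⟩, ha⟩
      · right; right; exact ⟨hw, not_lt.mp ha⟩
    · right; left; exact ⟨hw, hm⟩
  have h7 : (1 : ℝ≥0∞) ≤ volume (Gd Y₁ Y₂ M n) + (2⁻¹ + 4⁻¹) := by
    calc (1 : ℝ≥0∞) = volume (Ico (0:ℝ) 1) := by simp
      _ ≤ _ := measure_mono hcov
      _ ≤ _ := measure_union_le _ _
      _ ≤ volume (Gd Y₁ Y₂ M n) + (2⁻¹ + 4⁻¹) := by
          gcongr
          exact (measure_union_le _ _).trans (add_le_add (volume_not_mid n) hb)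
  have h8 : (1 : ℝ≥0∞) = 4⁻¹ + (2⁻¹ + 4⁻¹) := by
    have : (4 : ℝ≥0∞)⁻¹ + 4⁻¹ = 2⁻¹ := by
      rw [← two_mul, show (4 : ℝ≥0∞) = 2 * 2 by norm_num,
        ENNReal.mul_inv (by norm_num) (by norm_num), ← mul_assoc,
        ENNReal.mul_inv_cancel (by norm_num) (by norm_num), one_mul]
    calc (1 : ℝ≥0∞) = 2⁻¹ + 2⁻¹ := (ENNReal.inv_two_add_inv_two).symm
      _ = 2⁻¹ + (4⁻¹ + 4⁻¹) := by rw [this]
      _ = 4⁻¹ + (2⁻¹ + 4⁻¹) := by ring
  rw [h8] at h7
  have h9 : (2⁻¹ + 4⁻¹ : ℝ≥0∞) ≠ ∞ := by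
    apply ENNReal.add_ne_top.mpr
    constructor <;> simp
  exact (ENNReal.add_le_add_iff_right h9).mp h7

/-- two points which are good infinitely often, off any given countable set -/
theorem two_points {Y₁ Y₂ : ℝ → ℝ} (h1 : Measurable Y₁) (h2 : Measurable Y₂) {M : ℝ≥0∞}
    (hM0 : M ≠ 0) (hM1 : M ≠ ∞)
    (hfr : ∃ᶠ n in atTop, 2 ^ n * EN Y₁ n + 2 ^ n * EN Y₂ n ≤ M) (Z : Set ℝ) (hZ : Z.Countable) :
    ∃ y y' : ℝ, y < y' ∧ y ∉ Z ∧ y' ∉ Z ∧ (∃ᶠ n in atTop, y ∈ Gd Y₁ Y₂ M n) ∧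
      (∃ᶠ n in atTop, y' ∈ Gd Y₁ Y₂ M n) := by
  set U : ℕ → Set ℝ := fun m => ⋃ n ≥ m, Gd Y₁ Y₂ M n with hU
  have hUm : ∀ m, MeasurableSet (U m) := fun m =>
    MeasurableSet.iUnion (fun n => MeasurableSet.iUnion (fun _ => measurableSet_Gd h1 h2 M n))
  have hUa : Antitone U := by
    intro m m' hmm' w hw
    simp only [hU, mem_iUnion] at hw ⊢
    obtain ⟨n, hn, hw⟩ := hw
    exact ⟨n, le_trans hmm' hn, hw⟩
  have hUv : ∀ m, 4⁻¹ ≤ volume (U m) := by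
    intro m
    obtain ⟨n, hn, hle⟩ := frequently_atTop.mp hfr m
    refine (volume_Gd h1 h2 hM0 hM1 hle).trans (measure_mono ?_)
    intro w hw
    simp only [hU, mem_iUnion]
    exact ⟨n, hn, hw⟩
  have hfin : volume (U 0) ≠ ∞ := by
    have hs : U 0 ⊆ Ico (0:ℝ) 1 := by
      intro w hw
      simp only [hU, mem_iUnion] at hw
      obtain ⟨n, _, hw⟩ := hw
      exact hw.1.1
    exact ne_top_of_le_ne_top (by simp) (measure_mono hs)
  have hI : 4⁻¹ ≤ volume (⋂ m, U m) := by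
    rw [hUa.measure_iInter (fun m => (hUm m).nullMeasurableSet) ⟨0, hfin⟩]
    exact le_iInf hUv
  have hI2 : volume ((⋂ m, U m) \ Z) ≠ 0 := by
    rw [measure_sdiff_null (hZ.measure_zero volume)]
    intro h0
    rw [h0] at hI
    simp at hI
  have hns : ¬ ((⋂ m, U m) \ Z).Subsingleton := fun h => hI2 (h.measure_zero volume)
  rw [not_subsingleton_iff] at hns
  obtain ⟨y, hy, y', hy', hne⟩ := hns
  have hf : ∀ w ∈ ⋂ m, U m, ∃ᶠ n in atTop, w ∈ Gd Y₁ Y₂ M n := by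
    intro w hw
    rw [frequently_atTop]
    intro m
    have := mem_iInter.mp hw m
    simp only [hU, mem_iUnion] at this
    obtain ⟨n, hn, hw2⟩ := this
    exact ⟨n, hn, hw2⟩
  rcases lt_or_gt_of_ne hne with h | h
  · exact ⟨y, y', h, hy.2, hy'.2, hf y hy.1, hf y' hy'.1⟩
  · exact ⟨y', y, h, hy'.2, hy.2, hf y' hy'.1, hf y hy.1⟩

end Pool.Agent.H.MP_4bdd60_an.LP
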