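import Mathlib
import Pool.Agent.H.MP_4bdd60_an.Select

set_option autoImplicit false

namespace Pool.Agent.H.MP_4bdd60_an.LP

open MeasureTheory Set Filter Topology
open scoped ENNReal

theorem ray_mono (ρ : ℝ × ℝ → ℝ≥0∞) (x σ : ℝ) {T T' : ℝ} (h : T ≤ T') :
    ray ρ x σ T ≤ ray ρ x σ T' :=
  lintegral_mono_set (Ioo_subset_Ioo le_rfl h)

theorem measurable_ray {ρ : ℝ × ℝ → ℝ≥0∞} (hρ : Measurable ρ) (T : ℝ) :
    Measurable (fun p : ℝ × ℝ => ray ρ p.1 p.2 T) := by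
  unfold ray
  apply Measurable.lintegral_prod_right'
    (f := fun r : (ℝ × ℝ) × ℝ => ρ (r.1.1 + r.1.2 * r.2, r.2))
  apply hρ.comp
  apply Measurable.prodMk
  · exact (measurable_fst.comp measurable_fst).add
      ((measurable_snd.comp measurable_fst).mul measurable_snd)
  · exact measurable_snd

/-- slope average of the integrals over right rays -/
noncomputable def rayR (ρ : ℝ × ℝ → ℝ≥0∞) (x T : ℝ) : ℝ≥0∞ :=
  ∫⁻ s in Icc (1:ℝ) 2, ray ρ x s T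

/-- slope average of the integrals over left rays -/
noncomputable def rayL (ρ : ℝ × ℝ → ℝ≥0∞) (x T : ℝ) : ℝ≥0∞ :=
  ∫⁻ s in Icc (1:ℝ) 2, ray ρ x (-s) T

theorem measurable_rayR {ρ : ℝ × ℝ → ℝ≥0∞} (hρ : Measurable ρ) (T : ℝ) :
    Measurable (fun x : ℝ => rayR ρ x T) :=
  Measurable.lintegral_prod_right' (f := fun p : ℝ × ℝ => ray ρ p.1 p.2 T) (measurable_ray hρ T)

theorem measurable_rayL {ρ : ℝ × ℝ → ℝ≥0∞} (hρ : Measurable ρ) (T : ℝ) :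
    Measurable (fun x : ℝ => rayL ρ x T) :=
  Measurable.lintegral_prod_right' (f := fun p : ℝ × ℝ => ray ρ p.1 (-p.2) T)
    ((measurable_ray hρ T).comp (measurable_fst.prodMk measurable_snd.neg))

theorem energy_mono (Y : ℝ → ℝ) {A B : Set ℝ} (h : A ⊆ B) (T : ℝ) :
    energy Y A T ≤ energy Y B T := by
  unfold energy
  calc ∫⁻ c in A, ∫⁻ c' in A, ENNReal.ofReal (Real.log (T / |Y c - Y c'|))
      ≤ ∫⁻ c in A, ∫⁻ c' in B, ENNReal.ofReal (Real.log (T / |Y c - Y c'|)) :=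
        lintegral_mono (fun c => lintegral_mono_set h)
    _ ≤ _ := lintegral_mono_set h

theorem energy_neg (Y : ℝ → ℝ) (A : Set ℝ) (T : ℝ) :
    energy (fun c => -Y c) A T = energy Y A T := by
  unfold energy
  have : ∀ c c' : ℝ, |-Y c - -Y c'| = |Y c - Y c'| := by
    intro c c'
    rw [← abs_neg]
    congr 1
    ring
  simp_rw [this]

/-- normalised form of the energy estimate on part of a dyadic interval -/
theorem quarter_aux {Y : ℝ → ℝ} (n : ℕ) {y : ℝ} (h0 : 0 ≤ y)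
    (h1 : y < 1) {A : Set ℝ} (hA : A ⊆ cell n y) {M' : ℝ≥0∞} (hav : avg Y n y ≤ M') (L : ℝ≥0∞)
    (hL0 : L ≠ 0) (hL1 : L ≠ ∞) (I : ℝ≥0∞) :
    (L * (2 : ℝ≥0∞)⁻¹ ^ n) * I + (L * (2 : ℝ≥0∞)⁻¹ ^ n)⁻¹ * energy Y A (len Y n (idx n y)) ≤
      (2 : ℝ≥0∞)⁻¹ ^ n * (L * I + L⁻¹ * M') := by
  have e1 : 4 ^ n * energy Y A (len Y n (idx n y)) ≤ M' := by
    calc 4 ^ n * energy Y A (len Y n (idx n y))
        ≤ 4 ^ n * energy Y (cell n y) (len Y n (idx n y)) := by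
          gcongr _ * ?_
          exact energy_mono Y hA _
      _ ≤ avg Y n y := energy_le_avg Y n h0 h1
      _ ≤ M' := hav
  have e2 : (L * (2 : ℝ≥0∞)⁻¹ ^ n)⁻¹ = L⁻¹ * 2 ^ n := by
    rw [ENNReal.mul_inv (Or.inl hL0) (Or.inl hL1), ENNReal.inv_pow, inv_inv]
  have e3 : (2 : ℝ≥0∞) ^ n = (2 : ℝ≥0∞)⁻¹ ^ n * 4 ^ n := by
    rw [← mul_pow]
    congr 1
    rw [show (4 : ℝ≥0∞) = 2 * 2 by norm_num, ← mul_assoc,
      ENNReal.inv_mul_cancel (by norm_num) (by norm_num), one_mul]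
  rw [e2]
  calc (L * (2 : ℝ≥0∞)⁻¹ ^ n) * I + L⁻¹ * 2 ^ n * energy Y A (len Y n (idx n y))
      = (2 : ℝ≥0∞)⁻¹ ^ n * (L * I) +
          (2 : ℝ≥0∞)⁻¹ ^ n * (L⁻¹ * (4 ^ n * energy Y A (len Y n (idx n y)))) := by
        rw [e3]; ring
    _ ≤ (2 : ℝ≥0∞)⁻¹ ^ n * (L * I) + (2 : ℝ≥0∞)⁻¹ ^ n * (L⁻¹ * M') := by gcongr
    _ = _ := by ring

theorem Inv.ne {Y : ℝ → ℝ} {c β : ℝ} (h : Inv Y c β) {u v : ℝ} (hu : u ∈ Ico (0:ℝ) 1)
    (hv : v ∈ Ico (0:ℝ) 1) (huv : u ≠ v) : Y u ≠ Y v := by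
  rcases lt_or_gt_of_ne huv with h1 | h1
  · exact ne_of_lt (h.lt hu.1 h1 hv.2.le)
  · exact ne_of_gt (h.lt hv.1 h1 hu.2.le)

theorem quarterR {Y : ℝ → ℝ} {c β : ℝ} (h : Inv Y c β) {ρ : ℝ × ℝ → ℝ≥0∞} (hρ : Measurable ρ)
    (n : ℕ) {y : ℝ} (h0 : 0 ≤ y) (h1 : y < 1) {A : Set ℝ} (hAm : MeasurableSet A)
    (hA : A ⊆ cell n y) {M' : ℝ≥0∞} (hav : avg Y n y ≤ M') (L : ℝ≥0∞) (hL0 : L ≠ 0)
    (hL1 : L ≠ ∞) :
    ∫⁻ c in A, rayR ρ (Y c) (len Y n (idx n y)) ≤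
      (2 : ℝ≥0∞)⁻¹ ^ n * (L * (∫⁻ z, ρ z ^ 2) + L⁻¹ * M') := by
  refine le_trans ?_ (quarter_aux n h0 h1 hA hav L hL0 hL1 (∫⁻ z, ρ z ^ 2))
  unfold rayR
  apply avg_ray_le ρ hρ Y h.mono.measurable A hAm
  · exact mul_ne_zero hL0 (pow_ne_zero _ (by simp))
  · exact ENNReal.mul_ne_top hL1 (ENNReal.pow_ne_top (by simp))
  · intro u hu v hv huv
    exact h.ne (cell_subset h0 h1 (hA hu)) (cell_subset h0 h1 (hA hv)) huv

theorem refl_sq {ρ : ℝ × ℝ → ℝ≥0∞} (hρ : Measurable ρ) :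
    ∫⁻ z : ℝ × ℝ, ρ (-z.1, z.2) ^ 2 = ∫⁻ z, ρ z ^ 2 := by
  have hp : MeasurePreserving (fun z : ℝ × ℝ => ((-z.1, z.2) : ℝ × ℝ)) volume volume :=
    (Measure.measurePreserving_neg (volume : Measure ℝ)).prod (MeasurePreserving.id volume)
  exact hp.lintegral_comp (hρ.pow_const 2)

theorem quarterL {Y : ℝ → ℝ} {c β : ℝ} (h : Inv Y c β) {ρ : ℝ × ℝ → ℝ≥0∞} (hρ : Measurable ρ)
    (n : ℕ) {y : ℝ} (h0 : 0 ≤ y) (h1 : y < 1) {A : Set ℝ} (hAm : MeasurableSet A)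
    (hA : A ⊆ cell n y) {M' : ℝ≥0∞} (hav : avg Y n y ≤ M') (L : ℝ≥0∞) (hL0 : L ≠ 0)
    (hL1 : L ≠ ∞) :
    ∫⁻ c in A, rayL ρ (Y c) (len Y n (idx n y)) ≤
      (2 : ℝ≥0∞)⁻¹ ^ n * (L * (∫⁻ z, ρ z ^ 2) + L⁻¹ * M') := by
  refine le_trans ?_ (quarter_aux n h0 h1 hA hav L hL0 hL1 (∫⁻ z, ρ z ^ 2))
  have hρ' : Measurable (fun z : ℝ × ℝ => ρ (-z.1, z.2)) :=
    hρ.comp (measurable_fst.neg.prodMk measurable_snd)
  have e1 : ∀ x s T : ℝ, ray ρ x (-s) T = ray (fun z => ρ (-z.1, z.2)) (-x) s T := by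
    intro x s T
    unfold ray
    apply lintegral_congr
    intro t
    simp only
    congr 2
    ring
  unfold rayL
  simp_rw [e1]
  rw [← refl_sq hρ, ← energy_neg Y A]
  apply avg_ray_le (fun z => ρ (-z.1, z.2)) hρ' (fun c => -Y c) h.mono.measurable.neg A hAm
  · exact mul_ne_zero hL0 (pow_ne_zero _ (by simp))
  · exact ENNReal.mul_ne_top hL1 (ENNReal.pow_ne_top (by simp))
  · intro u hu v hv huv
    simp only [ne_eq, neg_inj]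
    exact h.ne (cell_subset h0 h1 (hA hu)) (cell_subset h0 h1 (hA hv)) huv

/-- choosing a point below the average -/
theorem pick {A : Set ℝ} (hA : MeasurableSet A) (F : ℝ → ℝ≥0∞) (e : ℝ≥0∞)
    (h : ∫⁻ c in A, F c < e * volume A) : ∃ c ∈ A, F c < e := by
  by_contra hcon
  push Not at hcon
  have h1 : e * volume A ≤ ∫⁻ c in A, F c := by
    rw [← setLIntegral_const]
    exact setLIntegral_mono' hA hcon
  exact absurd h (not_lt.mpr h1)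

/-- the half box of size `r` over `x` -/
def box (x r : ℝ) : Set (ℝ × ℝ) := Ioo (x - r) (x + r) ×ˢ Ioo 0 r

theorem measurableSet_box (x r : ℝ) : MeasurableSet (box x r) :=
  measurableSet_Ioo.prod measurableSet_Ioo

/-- small boxes carry little mass -/
theorem box_small (ρ : ℝ × ℝ → ℝ≥0∞) (h2 : ∫⁻ z, ρ z ^ 2 ≠ ∞) (x : ℝ)
    (δ : ℝ≥0∞) (hδ : 0 < δ) : ∃ r₀ : ℝ, 0 < r₀ ∧ ∀ r, r ≤ r₀ →
      ∫⁻ z in box x r, ρ z ^ 2 ≤ δ := by
  have hv : Tendsto (volume ∘ fun m : ℕ => box x (1 / ((m : ℝ) + 1))) atTop (𝓝 0) := by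
    have h3 : ∀ m : ℕ, (volume ∘ fun m : ℕ => box x (1 / ((m : ℝ) + 1))) m =
        ENNReal.ofReal (2 * (1 / ((m : ℝ) + 1)) * (1 / ((m : ℝ) + 1))) := by
      intro m
      simp only [Function.comp]
      unfold box
      rw [Measure.volume_eq_prod, Measure.prod_prod, Real.volume_Ioo, Real.volume_Ioo,
        ← ENNReal.ofReal_mul]
      · congr 1
        ring
      · have : (0 : ℝ) < 1 / ((m : ℝ) + 1) := by positivity
        linarith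
    rw [show (volume ∘ fun m : ℕ => box x (1 / ((m : ℝ) + 1))) = fun m : ℕ =>
        ENNReal.ofReal (2 * (1 / ((m : ℝ) + 1)) * (1 / ((m : ℝ) + 1))) from funext h3]
    rw [← ENNReal.ofReal_zero]
    apply ENNReal.tendsto_ofReal
    have h4 : Tendsto (fun m : ℕ => 1 / ((m : ℝ) + 1)) atTop (𝓝 0) :=
      tendsto_one_div_add_atTop_nhds_zero_nat
    have h5 := (h4.const_mul 2).mul h4
    simpa using h5
  have h6 := tendsto_setLIntegral_zero h2 hv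
  have h7 := (ENNReal.tendsto_nhds_zero.mp h6) δ hδ
  obtain ⟨m, hm⟩ := h7.exists
  refine ⟨1 / ((m : ℝ) + 1), by positivity, ?_⟩
  intro r hr
  refine le_trans (lintegral_mono_set ?_) hm
  unfold box
  apply Set.prod_mono
  · exact Ioo_subset_Ioo (by linarith) (by linarith)
  · exact Ioo_subset_Ioo le_rfl hr

end Pool.Agent.H.MP_4bdd60_an.LP
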