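import Mathlib
import Pool.Agent.H.MP_4bdd60_an.Rays

set_option autoImplicit false

namespace Pool.Agent.H.MP_4bdd60_an.LP

open MeasureTheory Set Filter Topology
open scoped ENNReal

/-- small loops at the parameter `y` -/
def LoopParam (Y₁ Y₂ : ℝ → ℝ) (y : ℝ) : Prop :=
  ∀ ρ1 ρ2 : ℝ × ℝ → ℝ≥0∞, Measurable ρ1 → Measurable ρ2 → ∫⁻ p, ρ1 p ^ 2 ≠ ∞ →
    ∫⁻ p, ρ2 p ^ 2 ≠ ∞ → ∀ ε : ℝ≥0∞, 0 < ε → ∀ η : ℝ, 0 < η →
      ∃ c x s1 s2 : ℝ, 0 ≤ c ∧ c < y ∧ y < x ∧ x ≤ 1 ∧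
        Y₁ y - η < Y₁ c ∧ Y₁ x < Y₁ y + η ∧ Y₂ y - η < Y₂ c ∧ Y₂ x < Y₂ y + η ∧
        1 ≤ s1 ∧ s1 ≤ 2 ∧ 1 ≤ s2 ∧ s2 ≤ 2 ∧
        ray ρ1 (Y₁ c) s1 (Y₁ x - Y₁ c) ≤ ε ∧ ray ρ1 (Y₁ x) (-s1) (Y₁ x - Y₁ c) ≤ ε ∧
        ray ρ2 (Y₂ c) s2 (Y₂ x - Y₂ c) ≤ ε ∧ ray ρ2 (Y₂ x) (-s2) (Y₂ x - Y₂ c) ≤ ε

/-- constants -/
theorem exists_const {M e : ℝ≥0∞} (hM0 : M ≠ 0) (hM1 : M ≠ ∞) (he0 : e ≠ 0) (he1 : e ≠ ∞) :
    ∃ L δ : ℝ≥0∞, L ≠ 0 ∧ L ≠ ∞ ∧ 0 < δ ∧ L⁻¹ * (4 * M) ≤ e / 32 ∧ L * δ ≤ e / 64 := by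
  have h4 : 4 * M ≠ 0 := mul_ne_zero (by norm_num) hM0
  have h5 : 4 * M ≠ ∞ := ENNReal.mul_ne_top (by norm_num) hM1
  have h6 : e / 32 ≠ 0 := by
    rw [ENNReal.div_ne_zero]
    exact ⟨he0, by norm_num⟩
  have h7 : e / 32 ≠ ∞ := ENNReal.div_ne_top he1 (by norm_num)
  have hL0 : 4 * M / (e / 32) ≠ 0 := by
    rw [ENNReal.div_ne_zero]
    exact ⟨h4, h7⟩
  have hL1 : 4 * M / (e / 32) ≠ ∞ := ENNReal.div_ne_top h5 h6
  refine ⟨4 * M / (e / 32), (e / 64) / (4 * M / (e / 32)), hL0, hL1, ?_, ?_, ?_⟩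
  · rw [pos_iff_ne_zero, ENNReal.div_ne_zero]
    refine ⟨?_, hL1⟩
    rw [ENNReal.div_ne_zero]
    exact ⟨he0, by norm_num⟩
  · rw [ENNReal.inv_div (Or.inl h7) (Or.inl h6), ENNReal.div_mul_cancel h4 h5]
  · rw [ENNReal.mul_div_cancel hL0 hL1]

theorem const_lt {e : ℝ≥0∞} (he0 : e ≠ 0) (he1 : e ≠ ∞) (n : ℕ) {a b : ℝ≥0∞}
    (ha : a ≤ (2 : ℝ≥0∞)⁻¹ ^ n * (e / 64 + e / 32)) (hb : b ≤ (2 : ℝ≥0∞)⁻¹ ^ n * (e / 64 + e / 32)) :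
    a + b < (e / 2) * (4⁻¹ * (2 : ℝ≥0∞)⁻¹ ^ n) := by
  have h1 : (2 : ℝ≥0∞)⁻¹ ^ n ≠ 0 := pow_ne_zero _ (by simp)
  have h2 : (2 : ℝ≥0∞)⁻¹ ^ n ≠ ∞ := ENNReal.pow_ne_top (by simp)
  have h3 : e / 64 + e / 32 + (e / 64 + e / 32) < e / 2 * 4⁻¹ := by
    lift e to NNReal using he1
    have he : (0 : ℝ) < e := by
      have : e ≠ 0 := by exact_mod_cast he0
      exact_mod_cast pos_iff_ne_zero.mpr this
    have h4 : e / 64 + e / 32 + (e / 64 + e / 32) < e / 2 * 4⁻¹ := by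
      rw [← NNReal.coe_lt_coe]
      push_cast
      linarith
    have e1 : (e : ℝ≥0∞) / 64 = ((e / 64 : NNReal) : ℝ≥0∞) := by
      rw [ENNReal.coe_div (by norm_num)]; rfl
    have e2 : (e : ℝ≥0∞) / 32 = ((e / 32 : NNReal) : ℝ≥0∞) := by
      rw [ENNReal.coe_div (by norm_num)]; rfl
    have e3 : (e : ℝ≥0∞) / 2 = ((e / 2 : NNReal) : ℝ≥0∞) := by
      rw [ENNReal.coe_div (by norm_num)]; rfl
    have e4 : (4 : ℝ≥0∞)⁻¹ = ((4⁻¹ : NNReal) : ℝ≥0∞) := by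
      rw [ENNReal.coe_inv (by norm_num)]; rfl
    rw [e1, e2, e3, e4, ← ENNReal.coe_add, ← ENNReal.coe_add, ← ENNReal.coe_mul]
    exact ENNReal.coe_lt_coe.mpr h4
  calc a + b ≤ (2 : ℝ≥0∞)⁻¹ ^ n * (e / 64 + e / 32) + (2 : ℝ≥0∞)⁻¹ ^ n * (e / 64 + e / 32) :=
        add_le_add ha hb
    _ = (2 : ℝ≥0∞)⁻¹ ^ n * (e / 64 + e / 32 + (e / 64 + e / 32)) := by ring
    _ < (2 : ℝ≥0∞)⁻¹ ^ n * (e / 2 * 4⁻¹) := (ENNReal.mul_lt_mul_iff_right h1 h2).mpr h3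
    _ = (e / 2) * (4⁻¹ * (2 : ℝ≥0∞)⁻¹ ^ n) := by ring

theorem ray_indicator (ρ : ℝ × ℝ → ℝ≥0∞) {S : Set (ℝ × ℝ)} {x σ T : ℝ}
    (h : ∀ t ∈ Ioo 0 T, (x + σ * t, t) ∈ S) : ray (S.indicator ρ) x σ T = ray ρ x σ T := by
  unfold ray
  apply setLIntegral_congr_fun measurableSet_Ioo
  intro t ht
  simp only
  rw [indicator_of_mem (h t ht)]

theorem lintegral_indicator_sq (ρ : ℝ × ℝ → ℝ≥0∞) {S : Set (ℝ × ℝ)} (hS : MeasurableSet S) :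
    ∫⁻ z, S.indicator ρ z ^ 2 = ∫⁻ z in S, ρ z ^ 2 := by
  rw [← lintegral_indicator hS]
  apply lintegral_congr
  intro z
  by_cases hz : z ∈ S
  · rw [indicator_of_mem hz, indicator_of_mem hz]
  · rw [indicator_of_notMem hz, indicator_of_notMem hz]
    simp

/-- choice of the slope -/
theorem pick_slope {ρ : ℝ × ℝ → ℝ≥0∞} (hρ : Measurable ρ) (x x' T : ℝ) {e : ℝ≥0∞}
    (h : rayR ρ x T + rayL ρ x' T < e) :
    ∃ s : ℝ, 1 ≤ s ∧ s ≤ 2 ∧ ray ρ x s T + ray ρ x' (-s) T < e := by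
  have h1 : ∫⁻ s in Icc (1:ℝ) 2, (ray ρ x s T + ray ρ x' (-s) T) < e * volume (Icc (1:ℝ) 2) := by
    have hm : Measurable (fun s : ℝ => ray ρ x s T) :=
      (measurable_ray hρ T).comp (measurable_const.prodMk measurable_id)
    rw [lintegral_add_left hm,
      Real.volume_Icc, show (2:ℝ) - 1 = 1 by norm_num, ENNReal.ofReal_one, mul_one]
    exact h
  obtain ⟨s, hs, hlt⟩ := pick measurableSet_Icc _ _ h1
  exact ⟨s, hs.1, hs.2, hlt⟩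

theorem in_boxR {y x s t r T : ℝ} (h1 : y - r / 4 < x) (h2 : x ≤ y) (hs1 : 1 ≤ s) (hs2 : s ≤ 2)
    (ht : t ∈ Ioo 0 T) (hT : T < r / 2) : (x + s * t, t) ∈ box y r := by
  have ht0 := ht.1
  have ht1 := ht.2
  have h3 : s * t ≤ 2 * t := mul_le_mul_of_nonneg_right hs2 ht0.le
  have h4 : 0 ≤ s * t := mul_nonneg (by linarith) ht0.le
  refine ⟨⟨?_, ?_⟩, ht0, ?_⟩
  · show y - r < x + s * t
    linarith
  · show x + s * t < y + r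
    linarith
  · show t < r
    linarith

theorem in_boxL {y x s t r T : ℝ} (h1 : y ≤ x) (h2 : x < y + r / 4) (hs1 : 1 ≤ s) (hs2 : s ≤ 2)
    (ht : t ∈ Ioo 0 T) (hT : T < r / 2) : (x + -s * t, t) ∈ box y r := by
  have ht0 := ht.1
  have ht1 := ht.2
  have h3 : s * t ≤ 2 * t := mul_le_mul_of_nonneg_right hs2 ht0.le
  have h4 : 0 ≤ s * t := mul_nonneg (by linarith) ht0.le
  refine ⟨⟨?_, ?_⟩, ht0, ?_⟩
  · show y - r < x + -s * t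
    linarith
  · show x + -s * t < y + r
    linarith
  · show t < r
    linarith

theorem loops_at {Y₁ Y₂ : ℝ → ℝ} {c₁ β₁ c₂ β₂ : ℝ} (h₁ : Inv Y₁ c₁ β₁) (h₂ : Inv Y₂ c₂ β₂)
    {M : ℝ≥0∞} (hM0 : M ≠ 0) (hM1 : M ≠ ∞) {y : ℝ} (hc₁ : ContinuousAt Y₁ y)
    (hc₂ : ContinuousAt Y₂ y) (hfr : ∃ᶠ n in atTop, y ∈ Gd Y₁ Y₂ M n) : LoopParam Y₁ Y₂ y := by
  intro ρ₁ ρ₂ hρ₁ hρ₂ hI₁ hI₂ ε hε η hη
  -- the accuracy
  set e : ℝ≥0∞ := min ε 1 with he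
  have he0 : e ≠ 0 := by
    rw [he]
    exact ne_of_gt (lt_min hε one_pos)
  have he1 : e ≠ ∞ := ne_top_of_le_ne_top ENNReal.one_ne_top (min_le_right _ _)
  have heε : e ≤ ε := min_le_left _ _
  obtain ⟨L, δ, hL0, hL1, hδ, hLM, hLδ⟩ := exists_const hM0 hM1 he0 he1
  obtain ⟨r₁, hr₁, hb₁⟩ := box_small ρ₁ hI₁ (Y₁ y) δ hδ
  obtain ⟨r₂, hr₂, hb₂⟩ := box_small ρ₂ hI₂ (Y₂ y) δ hδ
  set r : ℝ := min (min r₁ r₂) η with hr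
  have hr0 : 0 < r := lt_min (lt_min hr₁ hr₂) hη
  have hrη : r ≤ η := min_le_right _ _
  have hB₁ := hb₁ r ((min_le_left _ _).trans (min_le_left _ _))
  have hB₂ := hb₂ r ((min_le_left _ _).trans (min_le_right _ _))
  -- the level
  obtain ⟨γ₁, hγ₁, hcc₁⟩ := Metric.continuousAt_iff.mp hc₁ (r / 4) (by linarith)
  obtain ⟨γ₂, hγ₂, hcc₂⟩ := Metric.continuousAt_iff.mp hc₂ (r / 4) (by linarith)
  have hev : ∀ᶠ n : ℕ in atTop, (1 / 2 : ℝ) ^ n < min γ₁ γ₂ :=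
    (tendsto_pow_atTop_nhds_zero_of_lt_one (by norm_num) (by norm_num)).eventually
      (gt_mem_nhds (lt_min hγ₁ hγ₂))
  obtain ⟨n, hGn, hn⟩ := (hfr.and_eventually hev).exists
  obtain ⟨⟨hyI, hmid⟩, hav⟩ := hGn
  have hy0 : 0 ≤ y := hyI.1
  have hy1 : y < 1 := hyI.2
  have hav₁ : avg Y₁ n y ≤ 4 * M := (le_self_add.trans_lt hav).le
  have hav₂ : avg Y₂ n y ≤ 4 * M := (le_add_self.trans_lt hav).le
  have hp : (0 : ℝ) < 2 ^ n := by positivity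
  set a : ℝ := (idx n y : ℝ) / 2 ^ n with ha
  set d : ℝ := 1 / 2 ^ n with hd
  have hd0 : 0 < d := by positivity
  have hdγ : d < min γ₁ γ₂ := by rw [hd, ← one_div_pow]; exact hn
  have hb : ((idx n y : ℝ) + 1) / 2 ^ n = a + d := by rw [ha, hd]; ring
  have hay : a ≤ y := idx_le n y
  have hyb : y < a + d := by rw [← hb]; exact lt_idx n y
  have ha0 : 0 ≤ a := by
    have : (0 : ℝ) ≤ (idx n y : ℝ) := by exact_mod_cast idx_nonneg n hy0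
    positivity
  have hab1 : a + d ≤ 1 := by
    rw [← hb, div_le_one hp]
    exact idx_add_one_le n hy1
  have hy4 : a + d / 4 ≤ y := by
    have h1 : 1 / 4 ≤ y * 2 ^ n - idx n y := hmid.1
    have h2 : a + d / 4 = ((idx n y : ℝ) + 1 / 4) / 2 ^ n := by rw [ha, hd]; ring
    rw [h2, div_le_iff₀ hp]
    linarith
  have hy34 : y < a + 3 * d / 4 := by
    have h1 : y * 2 ^ n - idx n y < 3 / 4 := hmid.2
    have h2 : a + 3 * d / 4 = ((idx n y : ℝ) + 3 / 4) / 2 ^ n := by rw [ha, hd]; ring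
    rw [h2, lt_div_iff₀ hp]
    linarith
  -- lengths
  have hlen₁ : len Y₁ n (idx n y) = Y₁ (a + d) - Y₁ a := by unfold len; rw [hb]
  have hlen₂ : len Y₂ n (idx n y) = Y₂ (a + d) - Y₂ a := by unfold len; rw [hb]
  set T₁ : ℝ := len Y₁ n (idx n y) with hT₁
  set T₂ : ℝ := len Y₂ n (idx n y) with hT₂
  have hda : dist a y < min γ₁ γ₂ := by
    rw [Real.dist_eq, abs_of_nonpos (by linarith)]; linarith
  have hdb : dist (a + d) y < min γ₁ γ₂ := by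
    rw [Real.dist_eq, abs_of_nonneg (by linarith)]; linarith
  have k1 := hcc₁ (hda.trans_le (min_le_left _ _))
  have k2 := hcc₁ (hdb.trans_le (min_le_left _ _))
  have k3 := hcc₂ (hda.trans_le (min_le_right _ _))
  have k4 := hcc₂ (hdb.trans_le (min_le_right _ _))
  rw [Real.dist_eq, abs_lt] at k1 k2 k3 k4
  have hT₁r : T₁ < r / 2 := by rw [hlen₁]; linarith [k1.1, k2.2]
  have hT₂r : T₂ < r / 2 := by rw [hlen₂]; linarith [k3.1, k4.2]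
  -- quarters
  set A : Set ℝ := Ico a (a + d / 4) with hA
  set B : Set ℝ := Ico (a + 3 * d / 4) (a + d) with hB
  have hcell : cell n y = Ico a (a + d) := by unfold cell; rw [hb]
  have hAc : A ⊆ cell n y := by
    rw [hcell]; exact Ico_subset_Ico_right (by linarith)
  have hBc : B ⊆ cell n y := by
    rw [hcell]; exact Ico_subset_Ico_left (by linarith)
  have hdE : ENNReal.ofReal (d / 4) = 4⁻¹ * (2 : ℝ≥0∞)⁻¹ ^ n := by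
    have : d / 4 = 4⁻¹ * (2⁻¹ : ℝ) ^ n := by rw [hd, inv_pow]; ring
    rw [this, ENNReal.ofReal_mul (by norm_num), ENNReal.ofReal_pow (by norm_num),
      ENNReal.ofReal_inv_of_pos (by norm_num), ENNReal.ofReal_inv_of_pos (by norm_num)]
    norm_num
  have hvA : volume A = 4⁻¹ * (2 : ℝ≥0∞)⁻¹ ^ n := by
    rw [hA, Real.volume_Ico, ← hdE]; congr 1; ring
  have hvB : volume B = 4⁻¹ * (2 : ℝ≥0∞)⁻¹ ^ n := by
    rw [hB, Real.volume_Ico, ← hdE]; congr 1; ring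
  -- localised densities
  set σ₁ : ℝ × ℝ → ℝ≥0∞ := (box (Y₁ y) r).indicator ρ₁ with hσ₁
  set σ₂ : ℝ × ℝ → ℝ≥0∞ := (box (Y₂ y) r).indicator ρ₂ with hσ₂
  have hσm₁ : Measurable σ₁ := hρ₁.indicator (measurableSet_box _ _)
  have hσm₂ : Measurable σ₂ := hρ₂.indicator (measurableSet_box _ _)
  have hσI₁ : ∫⁻ z, σ₁ z ^ 2 ≤ δ := by
    rw [hσ₁, lintegral_indicator_sq ρ₁ (measurableSet_box _ _)]; exact hB₁
  have hσI₂ : ∫⁻ z, σ₂ z ^ 2 ≤ δ := by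
    rw [hσ₂, lintegral_indicator_sq ρ₂ (measurableSet_box _ _)]; exact hB₂
  have hfin : ∀ I : ℝ≥0∞, I ≤ δ →
      (2 : ℝ≥0∞)⁻¹ ^ n * (L * I + L⁻¹ * (4 * M)) ≤ (2 : ℝ≥0∞)⁻¹ ^ n * (e / 64 + e / 32) := by
    intro I hI
    have h5 : L * I + L⁻¹ * (4 * M) ≤ e / 64 + e / 32 :=
      add_le_add ((by gcongr : L * I ≤ L * δ).trans hLδ) hLM
    gcongr
  have qA₁ := (quarterR h₁ hσm₁ n hy0 hy1 (A := A) measurableSet_Ico hAc hav₁ L hL0 hL1).trans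
    (hfin _ hσI₁)
  have qA₂ := (quarterR h₂ hσm₂ n hy0 hy1 (A := A) measurableSet_Ico hAc hav₂ L hL0 hL1).trans
    (hfin _ hσI₂)
  have qB₁ := (quarterL h₁ hσm₁ n hy0 hy1 (A := B) measurableSet_Ico hBc hav₁ L hL0 hL1).trans
    (hfin _ hσI₁)
  have qB₂ := (quarterL h₂ hσm₂ n hy0 hy1 (A := B) measurableSet_Ico hBc hav₂ L hL0 hL1).trans
    (hfin _ hσI₂)
  have hm₁ : Measurable Y₁ := h₁.mono.measurable
  have hsumA : ∫⁻ c in A, (rayR σ₁ (Y₁ c) T₁ + rayR σ₂ (Y₂ c) T₂) < (e / 2) * volume A := by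
    have hmm : Measurable (fun c => rayR σ₁ (Y₁ c) T₁) := (measurable_rayR hσm₁ T₁).comp hm₁
    rw [lintegral_add_left hmm, hvA]
    exact const_lt he0 he1 n qA₁ qA₂
  have hsumB : ∫⁻ x in B, (rayL σ₁ (Y₁ x) T₁ + rayL σ₂ (Y₂ x) T₂) < (e / 2) * volume B := by
    have hmm : Measurable (fun c => rayL σ₁ (Y₁ c) T₁) := (measurable_rayL hσm₁ T₁).comp hm₁
    rw [lintegral_add_left hmm, hvB]
    exact const_lt he0 he1 n qB₁ qB₂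
  obtain ⟨c, hcA, hc⟩ := pick measurableSet_Ico _ _ hsumA
  obtain ⟨x, hxB, hx⟩ := pick measurableSet_Ico _ _ hsumB
  have hhalf : e / 2 + e / 2 = e := ENNReal.add_halves e
  have hS₁ : rayR σ₁ (Y₁ c) T₁ + rayL σ₁ (Y₁ x) T₁ < e := by
    rw [← hhalf]
    exact ENNReal.add_lt_add (lt_of_le_of_lt le_self_add hc) (lt_of_le_of_lt le_self_add hx)
  have hS₂ : rayR σ₂ (Y₂ c) T₂ + rayL σ₂ (Y₂ x) T₂ < e := by
    rw [← hhalf]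
    exact ENNReal.add_lt_add (lt_of_le_of_lt le_add_self hc) (lt_of_le_of_lt le_add_self hx)
  obtain ⟨s₁, hs₁1, hs₁2, hlt₁⟩ := pick_slope hσm₁ _ _ _ hS₁
  obtain ⟨s₂, hs₂1, hs₂2, hlt₂⟩ := pick_slope hσm₂ _ _ _ hS₂
  -- order
  have hcy : c < y := lt_of_lt_of_le hcA.2 hy4
  have hyx : y < x := lt_of_lt_of_le hy34 hxB.1
  have hac : a ≤ c := hcA.1
  have hxb : x < a + d := hxB.2
  have m1 := h₁.mono hac
  have m2 := h₁.mono hcy.le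
  have m3 := h₁.mono hyx.le
  have m4 := h₁.mono hxb.le
  have m5 := h₂.mono hac
  have m6 := h₂.mono hcy.le
  have m7 := h₂.mono hyx.le
  have m8 := h₂.mono hxb.le
  have b1 : ray σ₁ (Y₁ c) s₁ T₁ = ray ρ₁ (Y₁ c) s₁ T₁ :=
    ray_indicator _ (fun t ht => in_boxR (by linarith [k1.1]) m2 hs₁1 hs₁2 ht hT₁r)
  have b2 : ray σ₁ (Y₁ x) (-s₁) T₁ = ray ρ₁ (Y₁ x) (-s₁) T₁ :=
    ray_indicator _ (fun t ht => in_boxL m3 (by linarith [k2.2]) hs₁1 hs₁2 ht hT₁r)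
  have b3 : ray σ₂ (Y₂ c) s₂ T₂ = ray ρ₂ (Y₂ c) s₂ T₂ :=
    ray_indicator _ (fun t ht => in_boxR (by linarith [k3.1]) m6 hs₂1 hs₂2 ht hT₂r)
  have b4 : ray σ₂ (Y₂ x) (-s₂) T₂ = ray ρ₂ (Y₂ x) (-s₂) T₂ :=
    ray_indicator _ (fun t ht => in_boxL m7 (by linarith [k4.2]) hs₂1 hs₂2 ht hT₂r)
  have hle₁ : Y₁ x - Y₁ c ≤ T₁ := by rw [hlen₁]; linarith
  have hle₂ : Y₂ x - Y₂ c ≤ T₂ := by rw [hlen₂]; linarith
  refine ⟨c, x, s₁, s₂, by linarith, hcy, hyx, by linarith, by linarith [k1.1], by linarith [k2.2],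
    by linarith [k3.1], by linarith [k4.2], hs₁1, hs₁2, hs₂1, hs₂2, ?_, ?_, ?_, ?_⟩
  · refine (ray_mono _ _ _ hle₁).trans ?_
    rw [← b1]
    exact (le_self_add.trans hlt₁.le).trans heε
  · refine (ray_mono _ _ _ hle₁).trans ?_
    rw [← b2]
    exact (le_add_self.trans hlt₁.le).trans heε
  · refine (ray_mono _ _ _ hle₂).trans ?_
    rw [← b3]
    exact (le_self_add.trans hlt₂.le).trans heε
  · refine (ray_mono _ _ _ hle₂).trans ?_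
    rw [← b4]
    exact (le_add_self.trans hlt₂.le).trans heε

/-- **two loop parameters** -/
theorem exists_loopParams {Y₁ Y₂ : ℝ → ℝ} {c₁ β₁ c₂ β₂ : ℝ} (h₁ : Inv Y₁ c₁ β₁)
    (h₂ : Inv Y₂ c₂ β₂) :
    ∃ y y' : ℝ, 0 ≤ y ∧ y < y' ∧ y' < 1 ∧ LoopParam Y₁ Y₂ y ∧ LoopParam Y₁ Y₂ y' := by
  obtain ⟨B₁, hB₁, hD₁⟩ := D_zero_le h₁
  obtain ⟨B₂, hB₂, hD₂⟩ := D_zero_le h₂
  set K : ℝ≥0∞ := KK B₁ + KK B₂ with hK
  have hKt : K ≠ ∞ := ENNReal.add_ne_top.mpr ⟨KK_ne_top B₁, KK_ne_top B₂⟩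
  have hsum : ∀ N : ℕ, ∑ n ∈ Finset.range N, (2 ^ n * EN Y₁ n + 2 ^ n * EN Y₂ n) ≤ K * (N + 1) := by
    intro N
    rw [Finset.sum_add_distrib, hK, add_mul]
    apply add_le_add
    · exact (Finset.sum_le_sum (fun n _ => EN_bound h₁ n)).trans (sum_series_le h₁ hB₁ hD₁ N)
    · exact (Finset.sum_le_sum (fun n _ => EN_bound h₂ n)).trans (sum_series_le h₂ hB₂ hD₂ N)
  have hfr := freq_le _ K hKt hsum
  have hM0 : 2 * K + 1 ≠ 0 := by simp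
  have hM1 : 2 * K + 1 ≠ ∞ :=
    ENNReal.add_ne_top.mpr ⟨ENNReal.mul_ne_top (by norm_num) hKt, ENNReal.one_ne_top⟩
  obtain ⟨y, y', hyy', hy, hy', hf, hf'⟩ := two_points h₁.mono.measurable h₂.mono.measurable hM0 hM1
    hfr ({y | ¬ ContinuousAt Y₁ y} ∪ {y | ¬ ContinuousAt Y₂ y})
    (h₁.mono.countable_not_continuousAt.union h₂.mono.countable_not_continuousAt)
  have c1 : ContinuousAt Y₁ y := by
    by_contra h; exact hy (Or.inl h)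
  have c2 : ContinuousAt Y₂ y := by
    by_contra h; exact hy (Or.inr h)
  have c3 : ContinuousAt Y₁ y' := by
    by_contra h; exact hy' (Or.inl h)
  have c4 : ContinuousAt Y₂ y' := by
    by_contra h; exact hy' (Or.inr h)
  obtain ⟨n, hn⟩ := hf.exists
  obtain ⟨n', hn'⟩ := hf'.exists
  exact ⟨y, y', hn.1.1.1, hyy', hn'.1.1.2, loops_at h₁ h₂ hM0 hM1 c1 c2 hf,
    loops_at h₁ h₂ hM0 hM1 c3 c4 hf'⟩

end Pool.Agent.H.MP_4bdd60_an.LP
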