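import Mathlib
import Pool.Agent.H.MP_4bdd60_an.LoopsCore

set_option autoImplicit false

namespace Pool.Agent.H.MP_4bdd60_an

open MeasureTheory Set Filter Topology
open scoped ENNReal

namespace LP

/-- quantile function -/
noncomputable def quant (ν : Measure ℝ) (u : ℝ) : ℝ := sInf {x | u ≤ ProbabilityTheory.cdf ν x}

section
variable (ν : Measure ℝ) [IsProbabilityMeasure ν]

theorem quant_nonempty {u : ℝ} (hu : u < 1) : {x | u ≤ ProbabilityTheory.cdf ν x}.Nonempty := by
  have h := (ProbabilityTheory.tendsto_cdf_atTop ν).eventually (lt_mem_nhds hu)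
  obtain ⟨x, hx⟩ := h.exists
  exact ⟨x, hx.le⟩

theorem quant_bdd {u : ℝ} (hu : 0 < u) : BddBelow {x | u ≤ ProbabilityTheory.cdf ν x} := by
  have h := (ProbabilityTheory.tendsto_cdf_atBot ν).eventually (gt_mem_nhds hu)
  obtain ⟨x, hx⟩ := h.exists
  refine ⟨x, ?_⟩
  intro z hz
  by_contra hc
  push Not at hc
  have := ProbabilityTheory.monotone_cdf ν hc.le
  have hz' : u ≤ ProbabilityTheory.cdf ν z := hz
  linarith

theorem quant_mono {u v : ℝ} (hu : 0 < u) (huv : u ≤ v) (hv : v < 1) :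
    quant ν u ≤ quant ν v := by
  unfold quant
  apply csInf_le_csInf (quant_bdd ν hu) (quant_nonempty ν hv)
  intro x hx
  exact huv.trans hx

theorem le_cdf_quant {u : ℝ} (hu : 0 < u) (hu1 : u < 1) :
    u ≤ ProbabilityTheory.cdf ν (quant ν u) := by
  have hr : ContinuousWithinAt (ProbabilityTheory.cdf ν) (Ici (quant ν u)) (quant ν u) :=
    (ProbabilityTheory.cdf ν).right_continuous _
  have hr2 : Tendsto (ProbabilityTheory.cdf ν) (𝓝[>] (quant ν u))
      (𝓝 (ProbabilityTheory.cdf ν (quant ν u))) :=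
    hr.mono_left (nhdsWithin_mono _ Ioi_subset_Ici_self)
  apply ge_of_tendsto hr2
  filter_upwards [self_mem_nhdsWithin] with x hx
  obtain ⟨z, hz, hzx⟩ := (csInf_lt_iff (quant_bdd ν hu) (quant_nonempty ν hu1)).mp hx
  exact le_trans hz (ProbabilityTheory.monotone_cdf ν hzx.le)

theorem cdf_lt_of_lt_quant {u x : ℝ} (hu : 0 < u) (hx : x < quant ν u) :
    ProbabilityTheory.cdf ν x < u := by
  by_contra hc
  push Not at hc
  have := csInf_le (quant_bdd ν hu) hc
  unfold quant at hx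
  linarith

theorem measure_Iio_quant {u : ℝ} (hu : 0 < u) : ν (Iio (quant ν u)) ≤ ENNReal.ofReal u := by
  have h1 : Iio (quant ν u) = ⋃ n : ℕ, Iic (quant ν u - 1 / ((n : ℝ) + 1)) := by
    ext x
    simp only [mem_Iio, mem_iUnion, mem_Iic]
    constructor
    · intro hx
      obtain ⟨n, hn⟩ := exists_nat_one_div_lt (show 0 < quant ν u - x by linarith)
      exact ⟨n, by linarith⟩
    · rintro ⟨n, hn⟩
      have : (0 : ℝ) < 1 / ((n : ℝ) + 1) := by positivity
      linarith
  have hmono : Monotone (fun n : ℕ => Iic (quant ν u - 1 / ((n : ℝ) + 1))) := by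
    intro m n hmn
    apply Iic_subset_Iic.mpr
    have : (1 : ℝ) / ((n : ℝ) + 1) ≤ 1 / ((m : ℝ) + 1) := by
      apply one_div_le_one_div_of_le (by positivity)
      have : (m : ℝ) ≤ n := by exact_mod_cast hmn
      linarith
    linarith
  rw [h1, hmono.measure_iUnion]
  apply iSup_le
  intro n
  rw [← ProbabilityTheory.ofReal_cdf]
  apply ENNReal.ofReal_le_ofReal
  apply (cdf_lt_of_lt_quant ν hu _).le
  have : (0 : ℝ) < 1 / ((n : ℝ) + 1) := by positivity
  linarith

theorem measure_Icc_quant {u v : ℝ} (hu : 0 < u) (huv : u ≤ v) (hv : v < 1) :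
    ENNReal.ofReal (v - u) ≤ ν (Icc (quant ν u) (quant ν v)) := by
  have h1 : ENNReal.ofReal v ≤ ν (Iic (quant ν v)) := by
    rw [← ProbabilityTheory.ofReal_cdf]
    exact ENNReal.ofReal_le_ofReal (le_cdf_quant ν (hu.trans_le huv) hv)
  have h2 : Iic (quant ν v) ⊆ Iio (quant ν u) ∪ Icc (quant ν u) (quant ν v) := by
    intro x hx
    rcases lt_or_ge x (quant ν u) with h | h
    · exact Or.inl h
    · exact Or.inr ⟨h, hx⟩
  have h3 : ENNReal.ofReal v = ENNReal.ofReal u + ENNReal.ofReal (v - u) := by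
    rw [← ENNReal.ofReal_add hu.le (by linarith)]
    congr 1
    ring
  have h4 : ENNReal.ofReal u + ENNReal.ofReal (v - u) ≤
      ENNReal.ofReal u + ν (Icc (quant ν u) (quant ν v)) := by
    rw [← h3]
    exact h1.trans ((measure_mono h2).trans ((measure_union_le _ _).trans
      (add_le_add (measure_Iio_quant ν hu) le_rfl)))
  exact (ENNReal.add_le_add_iff_left ENNReal.ofReal_ne_top).mp h4

/-- the quantile function on the middle half, clamped -/
noncomputable def YY (w : ℝ) : ℝ := quant ν (1 / 4 + (max 0 (min 1 w)) / 2)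

theorem YY_mono : Monotone (YY ν) := by
  intro u v huv
  unfold YY
  have h0 : ∀ w : ℝ, 0 ≤ max 0 (min 1 w) := fun w => le_max_left _ _
  have h1 : ∀ w : ℝ, max 0 (min 1 w) ≤ 1 := fun w => max_le (by norm_num) (min_le_left _ _)
  have h2 : max 0 (min 1 u) ≤ max 0 (min 1 v) := max_le_max le_rfl (min_le_min le_rfl huv)
  apply quant_mono ν
  · linarith [h0 u]
  · linarith
  · linarith [h1 v]

theorem YY_mass {u v : ℝ} (hu : 0 ≤ u) (huv : u ≤ v) (hv : v ≤ 1) :
    ENNReal.ofReal ((v - u) / 2) ≤ ν (Icc (YY ν u) (YY ν v)) := by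
  unfold YY
  have e1 : max 0 (min 1 u) = u := by
    rw [min_eq_right (huv.trans hv), max_eq_right hu]
  have e2 : max 0 (min 1 v) = v := by
    rw [min_eq_right hv, max_eq_right (hu.trans huv)]
  rw [e1, e2]
  have h := measure_Icc_quant ν (u := 1 / 4 + u / 2) (v := 1 / 4 + v / 2) (by linarith) (by linarith)
    (by linarith)
  refine le_trans (le_of_eq ?_) h
  congr 1
  ring

end

theorem inv_of {Y : ℝ → ℝ} (hm : Monotone Y) {C α : ℝ} (hα : 0 < α)
    (h : ∀ u v, 0 ≤ u → u ≤ v → v ≤ 1 →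
      ENNReal.ofReal ((v - u) / 2) ≤ ENNReal.ofReal (C * (Y v - Y u) ^ α)) :
    ∃ c β : ℝ, Inv Y c β := by
  set C' : ℝ := max C 1 with hC'
  have hC1 : 1 ≤ C' := le_max_right _ _
  have hC0 : 0 < C' := by linarith
  refine ⟨(1 / (2 * C')) ^ (1 / α), 1 / α, hm, by positivity, by positivity, ?_⟩
  intro u v hu huv hv
  set d : ℝ := Y v - Y u with hd
  have hd0 : 0 ≤ d := by rw [hd]; linarith [hm huv]
  have h1 := h u v hu huv hv
  have hdα : 0 ≤ d ^ α := Real.rpow_nonneg hd0 _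
  have h2 : (v - u) / 2 ≤ C' * d ^ α := by
    have h3 : ENNReal.ofReal ((v - u) / 2) ≤ ENNReal.ofReal (C' * d ^ α) :=
      h1.trans (ENNReal.ofReal_le_ofReal (mul_le_mul_of_nonneg_right (le_max_left _ _) hdα))
    exact (ENNReal.ofReal_le_ofReal_iff (by positivity)).mp h3
  have h4 : 1 / (2 * C') * (v - u) ≤ d ^ α := by
    rw [one_div, inv_mul_le_iff₀ (by positivity)]
    linarith
  have h5 : (1 / (2 * C') * (v - u)) ^ (1 / α) ≤ (d ^ α) ^ (1 / α) :=
    Real.rpow_le_rpow (by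
      have : 0 ≤ v - u := by linarith
      positivity) h4 (by positivity)
  rw [Real.mul_rpow (by positivity) (by linarith), ← Real.rpow_mul hd0,
    mul_one_div_cancel (ne_of_gt hα), Real.rpow_one] at h5
  exact h5

end LP

open LP in
/-- **Small loops.** If one probability measure on the line is bounded by a power of the length in
both coordinates `x` and `h x`, then there are two points around which there are arbitrarily small
triangular loops of arbitrarily small length for all square integrable densities. -/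
theorem exists_loopPoints (h : ℝ → ℝ) (hh : StrictMono h) (ν : Measure ℝ) [IsProbabilityMeasure ν]
    (C α : ℝ) (hα : 0 < α) (h1 : ∀ u v, u ≤ v → ν (Icc u v) ≤ ENNReal.ofReal (C * (v - u) ^ α))
    (h2 : ∀ u v, u ≤ v → ν (Icc u v) ≤ ENNReal.ofReal (C * (h v - h u) ^ α)) :
    ∃ a b : ℝ, a < b ∧ LoopPoint h a ∧ LoopPoint h b := by
  have hm := YY_mono ν
  obtain ⟨c₁, β₁, i₁⟩ := inv_of hm (C := C) hα (fun u v hu huv hv =>
    (YY_mass ν hu huv hv).trans (h1 _ _ (hm huv)))
  obtain ⟨c₂, β₂, i₂⟩ := inv_of (Y := fun w => h (YY ν w)) (hh.monotone.comp hm) (C := C) hα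
    (fun u v hu huv hv => (YY_mass ν hu huv hv).trans (h2 _ _ (hm huv)))
  obtain ⟨y, y', hy0, hyy', hy1, hy, hy'⟩ := exists_loopParams i₁ i₂
  have key : ∀ w : ℝ, w ≤ 1 → LoopParam (YY ν) (fun w => h (YY ν w)) w →
      LoopPoint h (YY ν w) := by
    intro w hw1 hw ρ1 ρ2 hρ1 hρ2 hI1 hI2 ε hε η hη
    obtain ⟨c, x, s1, s2, p0, p1, p2, p3, p4, p5, p6, p7, q1, q2, q3, q4, r1, r2, r3, r4⟩ :=
      hw ρ1 ρ2 hρ1 hρ2 hI1 hI2 ε hε η hη
    exact ⟨YY ν c, YY ν x, s1, s2, p4, i₁.lt p0 p1 hw1, i₁.lt (p0.trans p1.le) p2 p3, p5, p6, p7,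
      q1, q2, q3, q4, r1, r2, r3, r4⟩
  exact ⟨YY ν y, YY ν y', i₁.lt hy0 hyy' hy1.le, key y (hyy'.le.trans hy1.le) hy, key y' hy1.le hy'⟩

end Pool.Agent.H.MP_4bdd60_an
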