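import Pool.Agent.H.MP_4bdd60_an.Defs

/-!
# MP_4bdd60_an, part S: from the two Riemann maps to `Curve`
-/

open Set Filter Topology Metric MeasureTheory
open scoped ENNReal Real

namespace Pool.Agent.H.MP_4bdd60_an

theorem S1_inv_cl {u : ℂ} (hu : u ∈ closedBall (0 : ℂ) 1 \ {0}) : u⁻¹ ∈ (ball (0 : ℂ) 1)ᶜ := by
  have h0 : u ≠ 0 := hu.2
  have h1 : ‖u‖ ≤ 1 := mem_closedBall_zero_iff.1 hu.1
  rw [mem_compl_iff, mem_ball_zero_iff, not_lt, norm_inv]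
  exact (one_le_inv₀ (norm_pos_iff.2 h0)).2 h1

theorem S1_inv_op {u : ℂ} (hu : u ∈ ball (0 : ℂ) 1 \ {0}) : u⁻¹ ∈ (closedBall (0 : ℂ) 1)ᶜ := by
  have h0 : u ≠ 0 := hu.2
  have h1 : ‖u‖ < 1 := mem_ball_zero_iff.1 hu.1
  rw [mem_compl_iff, mem_closedBall_zero_iff, not_le, norm_inv]
  exact (one_lt_inv₀ (norm_pos_iff.2 h0)).2 h1

theorem S1_inv_sp {u : ℂ} (hu : u ∈ sphere (0 : ℂ) 1) : u⁻¹ ∈ sphere (0 : ℂ) 1 := by
  rw [mem_sphere_zero_iff_norm] at hu ⊢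
  rw [norm_inv, hu, inv_one]

theorem S1_inv_back {w : ℂ} (hw : w ∈ (ball (0 : ℂ) 1)ᶜ) : w⁻¹ ∈ closedBall (0 : ℂ) 1 \ {0} := by
  rw [mem_compl_iff, mem_ball_zero_iff, not_lt] at hw
  have h0 : w ≠ 0 := norm_pos_iff.1 (lt_of_lt_of_le one_pos hw)
  refine ⟨?_, inv_ne_zero h0⟩
  rw [mem_closedBall_zero_iff, norm_inv]
  exact inv_le_one_of_one_le₀ hw

/-- `χ u = ψ (u⁻¹)`: `u ↦ u⁻¹` maps the closed disc minus `0` to the complement of the open disc, the open disc minus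
`0` to the complement of the closed disc, the circle to itself; `u⁻¹ → ∞` as `u → 0`. -/
theorem curve_of_data (φ ψ : ℂ → ℂ)
    (hφc : ContinuousOn φ (closedBall 0 1)) (hφi : InjOn φ (closedBall 0 1))
    (hφd : DifferentiableOn ℂ φ (ball 0 1))
    (hψc : ContinuousOn ψ (ball 0 1)ᶜ) (hψi : InjOn ψ (ball 0 1)ᶜ)
    (hψd : DifferentiableOn ℂ ψ (closedBall 0 1)ᶜ)
    (hψt : Tendsto ψ (cocompact ℂ) (cocompact ℂ))
    (hΓ : φ '' sphere 0 1 = ψ '' sphere 0 1)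
    (hdisj : Disjoint (φ '' ball 0 1) (ψ '' (closedBall 0 1)ᶜ))
    (hcover : φ '' closedBall 0 1 ∪ ψ '' (ball 0 1)ᶜ = univ) :
    Curve φ (fun u => ψ u⁻¹) := by
  refine ⟨hφc, hφi, hφd, ?_, ?_, ?_, ?_, ?_, ?_, ?_⟩
  · refine hψc.comp (fun u hu => ?_) fun u hu => S1_inv_cl hu
    exact (continuousAt_inv₀ hu.2).continuousWithinAt
  · intro u hu v hv huv
    exact inv_injective (hψi (S1_inv_cl hu) (S1_inv_cl hv) huv)
  · refine hψd.comp (fun u hu => ?_) fun u hu => S1_inv_op hu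
    exact (differentiableAt_inv hu.2).differentiableWithinAt
  · refine hψt.comp ?_
    rw [← Metric.cobounded_eq_cocompact]
    exact tendsto_inv₀_nhdsNE_zero
  · rw [hΓ]
    ext w
    constructor
    · rintro ⟨u, hu, rfl⟩
      exact ⟨u⁻¹, S1_inv_sp hu, by simp only [inv_inv]⟩
    · rintro ⟨u, hu, rfl⟩
      exact ⟨u⁻¹, S1_inv_sp hu, rfl⟩
  · intro z hz u hu h
    exact Set.disjoint_left.1 hdisj ⟨z, hz, rfl⟩ ⟨u⁻¹, S1_inv_op hu, h.symm⟩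
  · rw [eq_univ_iff_forall]
    intro w
    have hw : w ∈ φ '' closedBall 0 1 ∪ ψ '' (ball 0 1)ᶜ := hcover ▸ mem_univ w
    rcases hw with hw | ⟨v, hv, rfl⟩
    · exact Or.inl hw
    · exact Or.inr ⟨v⁻¹, S1_inv_back hv, by simp only [inv_inv]⟩

theorem S1_rot_norm {u0 : ℂ} (hu : ‖u0‖ = 1) (u : ℂ) : ‖u0 * u‖ = ‖u‖ := by
  rw [norm_mul, hu, one_mul]

theorem S1_rot_cl {u0 : ℂ} (hu : ‖u0‖ = 1) {u : ℂ} (h : u ∈ closedBall (0 : ℂ) 1 \ {0}) :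
    u0 * u ∈ closedBall (0 : ℂ) 1 \ {0} := by
  have hu0 : u0 ≠ 0 := norm_pos_iff.1 (by rw [hu]; exact one_pos)
  refine ⟨?_, mul_ne_zero hu0 h.2⟩
  have h1 : ‖u‖ ≤ 1 := mem_closedBall_zero_iff.1 h.1
  rw [mem_closedBall_zero_iff, S1_rot_norm hu]
  exact h1

theorem S1_rot_op {u0 : ℂ} (hu : ‖u0‖ = 1) {u : ℂ} (h : u ∈ ball (0 : ℂ) 1 \ {0}) :
    u0 * u ∈ ball (0 : ℂ) 1 \ {0} := by
  have hu0 : u0 ≠ 0 := norm_pos_iff.1 (by rw [hu]; exact one_pos)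
  refine ⟨?_, mul_ne_zero hu0 h.2⟩
  have h1 : ‖u‖ < 1 := mem_ball_zero_iff.1 h.1
  rw [mem_ball_zero_iff, S1_rot_norm hu]
  exact h1

theorem S1_rot_sp {u0 : ℂ} (hu : ‖u0‖ = 1) {u : ℂ} (h : u ∈ sphere (0 : ℂ) 1) :
    u0 * u ∈ sphere (0 : ℂ) 1 := by
  rw [mem_sphere_zero_iff_norm] at h ⊢
  rw [S1_rot_norm hu, h]

/-- Rotation of the second parameter. -/
theorem curve_rot {φ χ : ℂ → ℂ} (h : Curve φ χ) {u0 : ℂ} (hu : ‖u0‖ = 1) :
    Curve φ (fun u => χ (u0 * u)) := by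
  have hu0 : u0 ≠ 0 := norm_pos_iff.1 (by rw [hu]; exact one_pos)
  have hu' : ‖u0⁻¹‖ = 1 := by rw [norm_inv, hu, inv_one]
  refine ⟨h.φ_cont, h.φ_inj, h.φ_hol, ?_, ?_, ?_, ?_, ?_, ?_, ?_⟩
  · exact h.χ_cont.comp (continuous_const.mul continuous_id).continuousOn fun u hx => S1_rot_cl hu hx
  · intro u hx v hy huv
    exact mul_left_cancel₀ hu0 (h.χ_inj (S1_rot_cl hu hx) (S1_rot_cl hu hy) huv)
  · exact h.χ_hol.comp ((differentiable_const u0).mul differentiable_id).differentiableOn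
      fun u hx => S1_rot_op hu hx
  · refine h.χ_inf.comp ?_
    refine tendsto_nhdsWithin_iff.2 ⟨?_, ?_⟩
    · have h1 : Tendsto (fun u : ℂ => u0 * u) (𝓝 0) (𝓝 (u0 * 0)) :=
        (continuous_const.mul continuous_id).tendsto 0
      rw [mul_zero] at h1
      exact h1.mono_left nhdsWithin_le_nhds
    · filter_upwards [self_mem_nhdsWithin] with u hx
      exact mul_ne_zero hu0 hx
  · rw [h.bdry]
    ext w
    constructor
    · rintro ⟨u, hx, rfl⟩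
      exact ⟨u0⁻¹ * u, S1_rot_sp hu' hx, by simp only [mul_inv_cancel_left₀ hu0]⟩
    · rintro ⟨u, hx, rfl⟩
      exact ⟨u0 * u, S1_rot_sp hu hx, rfl⟩
  · intro z hz u hx
    exact h.disj z hz _ (S1_rot_op hu hx)
  · rw [eq_univ_iff_forall]
    intro w
    have hw : w ∈ φ '' closedBall 0 1 ∪ χ '' (closedBall 0 1 \ {0}) := h.cover ▸ mem_univ w
    rcases hw with hw | ⟨v, hv, rfl⟩
    · exact Or.inl hw
    · exact Or.inr ⟨u0⁻¹ * v, S1_rot_cl hu' hv, by simp only [mul_inv_cancel_left₀ hu0]⟩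

end Pool.Agent.H.MP_4bdd60_an
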