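import Pool.Agent.H.MP_4bdd60_an.S2

/-!
# MP_4bdd60_an, part S: the welding on the real line
-/

open Set Filter Topology Metric MeasureTheory
open scoped ENNReal Real

namespace Pool.Agent.H.MP_4bdd60_an

theorem S5_cay_ne_one (s : ℝ) : cay s ≠ 1 :=
  cayc_ne_one (w := (s : ℂ)) (by simp)

/-- The welding in Cayley coordinates.  `u0` is the point of the circle with `χ u0 = φ 1` (`bdry`).  For real `s` there is
exactly one `u` on the circle with `χ u = φ (cay s)`, and `u ≠ u0`, so `u = u0 * cay (k0 s)` (`cay_surj` for `u / u0`).  `k0` is a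
bijection of `ℝ` (`bdry`, injectivity of `φ`, `χ`, `cay`).  Continuity: the inverse of the continuous injective `χ` on the
compact circle is continuous on its image, and the inverse of `cay` is `s = re (i (1 + z)/(1 - z))`, continuous on the
circle minus `1`. -/
theorem exists_line {φ χ : ℂ → ℂ} (h : Curve φ χ) :
    ∃ (u0 : ℂ) (k0 : ℝ → ℝ), ‖u0‖ = 1 ∧ Continuous k0 ∧ Function.Bijective k0 ∧
      (∀ s : ℝ, χ (u0 * cay (k0 s)) = φ (cay s)) ∧ χ u0 = φ 1 := by
  have sub1 : sphere (0 : ℂ) 1 ⊆ closedBall 0 1 := sphere_subset_closedBall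
  have sub2 : sphere (0 : ℂ) 1 ⊆ closedBall 0 1 \ {0} := by
    intro z hz
    refine ⟨sub1 hz, ?_⟩
    rintro rfl
    simp at hz
  have one_mem : (1 : ℂ) ∈ sphere (0 : ℂ) 1 := by simp
  -- the inverse of `χ` on the curve
  have ex : ∀ z ∈ sphere (0 : ℂ) 1, ∃ u ∈ sphere (0 : ℂ) 1, χ u = φ z := by
    intro z hz
    have h1 : φ z ∈ φ '' sphere 0 1 := ⟨z, hz, rfl⟩
    rw [h.bdry] at h1
    obtain ⟨u, hu, he⟩ := h1
    exact ⟨u, hu, he⟩
  obtain ⟨u0, hu0, hu0e⟩ := ex 1 one_mem
  have nu0 : ‖u0‖ = 1 := by simpa using hu0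
  have u0ne : u0 ≠ 0 := by
    intro h0
    rw [h0] at nu0
    simp at nu0
  choose! G0 hG0m hG0 using ex
  let G : ℝ → sphere (0 : ℂ) 1 := fun s => ⟨G0 (cay s), hG0m _ (cay_mem s)⟩
  let e : sphere (0 : ℂ) 1 → ℂ := fun u => χ u
  have he : Continuous e := by
    have h1 : ContinuousOn χ (sphere 0 1) := h.χ_cont.mono sub2
    exact continuousOn_iff_continuous_restrict.1 h1
  have hinj : Function.Injective e := by
    intro a b hab
    exact Subtype.ext (h.χ_inj (sub2 a.2) (sub2 b.2) hab)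
  have hemb : Topology.IsEmbedding e := (he.isClosedEmbedding hinj).isEmbedding
  have hGe : ∀ s, e (G s) = φ (cay s) := fun s => hG0 _ (cay_mem s)
  have hGc : Continuous G := by
    rw [hemb.continuous_iff]
    have h1 : e ∘ G = fun s => φ (cay s) := funext hGe
    rw [h1]
    have h2 : ContinuousOn φ (closedBall 0 1) := h.φ_cont
    exact h2.comp_continuous cay_continuous fun s => sub1 (cay_mem s)
  have hGne : ∀ s, ((G s : sphere (0 : ℂ) 1) : ℂ) / u0 ≠ 1 := by
    intro s h1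
    rw [div_eq_one_iff_eq u0ne] at h1
    have h2 : φ (cay s) = φ 1 := by
      rw [← hGe s, ← hu0e, ← h1]
    exact S5_cay_ne_one s (h.φ_inj (sub1 (cay_mem s)) (sub1 one_mem) h2)
  have hGn : ∀ s, ‖((G s : sphere (0 : ℂ) 1) : ℂ) / u0‖ = 1 := by
    intro s
    have h1 : ‖((G s : sphere (0 : ℂ) 1) : ℂ)‖ = 1 := by
      have := (G s).2
      simpa using this
    rw [norm_div, h1, nu0, div_one]
  let k0 : ℝ → ℝ := fun s => (Complex.I * (1 + ((G s : sphere (0 : ℂ) 1) : ℂ) / u0) /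
    (1 - ((G s : sphere (0 : ℂ) 1) : ℂ) / u0)).re
  have hk0 : ∀ s, cay (k0 s) = ((G s : sphere (0 : ℂ) 1) : ℂ) / u0 := by
    intro s
    obtain ⟨t, ht1, ht2⟩ := cay_surj (hGn s) (hGne s)
    have h1 : k0 s = t := ht2.symm
    rw [h1]
    exact ht1
  refine ⟨u0, k0, nu0, ?_, ⟨?_, ?_⟩, ?_, hu0e⟩
  · have h1 : Continuous fun s => ((G s : sphere (0 : ℂ) 1) : ℂ) / u0 :=
      (continuous_subtype_val.comp hGc).div_const u0
    refine Complex.continuous_re.comp ?_
    refine Continuous.div (continuous_const.mul (continuous_const.add h1))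
      (continuous_const.sub h1) ?_
    intro s h2
    exact hGne s (sub_eq_zero.1 h2).symm
  · intro s t hst
    have h1 : ((G s : sphere (0 : ℂ) 1) : ℂ) / u0 = ((G t : sphere (0 : ℂ) 1) : ℂ) / u0 := by
      rw [← hk0 s, ← hk0 t, hst]
    have h2 : ((G s : sphere (0 : ℂ) 1) : ℂ) = ((G t : sphere (0 : ℂ) 1) : ℂ) := by
      field_simp at h1
      exact h1
    have h3 : φ (cay s) = φ (cay t) := by
      rw [← hGe s, ← hGe t, Subtype.ext h2]
    exact cay_injective (h.φ_inj (sub1 (cay_mem s)) (sub1 (cay_mem t)) h3)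
  · intro t
    have hum : u0 * cay t ∈ sphere (0 : ℂ) 1 := by
      have h1 : ‖u0 * cay t‖ = 1 := by rw [norm_mul, nu0, cay_norm, one_mul]
      simpa using h1
    have h1 : χ (u0 * cay t) ∈ χ '' sphere 0 1 := ⟨_, hum, rfl⟩
    rw [← h.bdry] at h1
    obtain ⟨z, hz, hze⟩ := h1
    have hz1 : z ≠ 1 := by
      intro h2
      rw [h2, ← hu0e] at hze
      have h3 := h.χ_inj (sub2 hu0) (sub2 hum) hze
      have h4 : cay t = 1 := by
        have h5 : u0 * cay t = u0 * 1 := by rw [mul_one]; exact h3.symm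
        exact mul_left_cancel₀ u0ne h5
      exact S5_cay_ne_one t h4
    have hzn : ‖z‖ = 1 := by simpa using hz
    obtain ⟨s, hs, -⟩ := cay_surj hzn hz1
    refine ⟨s, ?_⟩
    have h2 : ((G s : sphere (0 : ℂ) 1) : ℂ) = u0 * cay t := by
      refine h.χ_inj (sub2 (G s).2) (sub2 hum) ?_
      have h3 := hGe s
      rw [hs, hze] at h3
      exact h3
    refine cay_injective ?_
    rw [hk0 s, h2]
    field_simp
  · intro s
    rw [hk0 s]
    have h1 : u0 * (((G s : sphere (0 : ℂ) 1) : ℂ) / u0) = ((G s : sphere (0 : ℂ) 1) : ℂ) := by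
      field_simp
    rw [h1]
    exact hGe s

end Pool.Agent.H.MP_4bdd60_an
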