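import Pool.Agent.H.MP_4bdd60_an.S2

/-!
# MP_4bdd60_an, part S: a marked curve from two real parameters
-/

open Set Filter Topology Metric MeasureTheory
open scoped ENNReal Real

namespace Pool.Agent.H.MP_4bdd60_an

theorem S6_cay_ne_one (s : ℝ) : cay s ≠ 1 := by
  unfold cay
  exact cayc_ne_one (by simp)

theorem S6_cay_sub (s : ℝ) : cay s - 1 = -(2 * Complex.I) * ((s : ℂ) + Complex.I)⁻¹ := by
  have h : (s : ℂ) + Complex.I ≠ 0 := cayc_den (w := (s : ℂ)) (by simp)
  unfold cay cayc
  field_simp
  ring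

theorem S6_tendsto {l : Filter ℝ} (hl : Tendsto (fun s : ℝ => |s|) l atTop) :
    Tendsto cay l (𝓝 1) := by
  rw [tendsto_iff_norm_sub_tendsto_zero]
  have h1 : Tendsto (fun s : ℝ => 2 * |s|⁻¹) l (𝓝 0) := by
    have := (tendsto_inv_atTop_zero.comp hl).const_mul (2 : ℝ)
    simpa using this
  refine tendsto_of_tendsto_of_tendsto_of_le_of_le' tendsto_const_nhds h1 ?_ ?_
  · exact Eventually.of_forall (fun s => norm_nonneg _)
  · filter_upwards [hl.eventually_gt_atTop 0] with s hs
    rw [S6_cay_sub]
    simp only [norm_mul, norm_neg, norm_inv, Complex.norm_I, mul_one]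
    have h2 : ‖(2 : ℂ)‖ = 2 := by simp
    rw [h2]
    apply mul_le_mul_of_nonneg_left _ (by norm_num)
    apply inv_anti₀ hs
    have h3 := Complex.abs_re_le_norm ((s : ℂ) + Complex.I)
    simpa using h3

theorem S6_tendsto_atTop : Tendsto cay atTop (𝓝 1) := S6_tendsto tendsto_abs_atTop_atTop

theorem S6_tendsto_atBot : Tendsto cay atBot (𝓝 1) := S6_tendsto tendsto_abs_atBot_atTop

theorem S6_rho (s : ℝ) : (Complex.I * (1 + cay s) / (1 - cay s)).re = s := by
  obtain ⟨s', h1, h2⟩ := cay_surj (cay_norm s) (S6_cay_ne_one s)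
  rw [← h2]
  exact cay_injective h1

theorem S6_image (y1 y2 : ℝ) : ∃ O : Set ℂ, IsOpen O ∧ cay '' Ioo y1 y2 = sphere (0 : ℂ) 1 ∩ O := by
  set ρ : ℂ → ℝ := fun z => (Complex.I * (1 + z) / (1 - z)).re with hρ
  have hc : ContinuousOn ρ {z : ℂ | z ≠ 1} := by
    apply Complex.continuous_re.comp_continuousOn
    apply ContinuousOn.div
    · exact (continuous_const.mul (continuous_const.add continuous_id)).continuousOn
    · exact (continuous_const.sub continuous_id).continuousOn
    · intro z hz h0
      exact hz (sub_eq_zero.mp h0).symm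
  refine ⟨{z : ℂ | z ≠ 1} ∩ ρ ⁻¹' Ioo y1 y2, hc.isOpen_inter_preimage isOpen_ne isOpen_Ioo, ?_⟩
  ext z
  constructor
  · rintro ⟨s, hs, rfl⟩
    refine ⟨cay_mem s, S6_cay_ne_one s, ?_⟩
    show ρ (cay s) ∈ Ioo y1 y2
    rw [hρ]
    simp only
    rw [S6_rho]
    exact hs
  · rintro ⟨hz, h1, h2⟩
    obtain ⟨s, hs, hs2⟩ := cay_surj (by simpa using hz) h1
    refine ⟨s, ?_, hs⟩
    rw [hs2]
    exact h2

theorem S6_closed (y1 y2 : ℝ) : IsClosed (sphere (0 : ℂ) 1 \ cay '' Ioo y1 y2) := by
  obtain ⟨O, hO, h⟩ := S6_image y1 y2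
  have : sphere (0 : ℂ) 1 \ cay '' Ioo y1 y2 = sphere (0 : ℂ) 1 ∩ Oᶜ := by
    rw [h]
    ext z
    simp only [mem_diff, mem_inter_iff, mem_compl_iff, not_and]
    constructor
    · rintro ⟨h1, h2⟩
      exact ⟨h1, h2 h1⟩
    · rintro ⟨h1, h2⟩
      exact ⟨h1, fun _ => h2⟩
  rw [this]
  exact isClosed_sphere.inter hO.isClosed_compl

theorem S6_weld {φ χ : ℂ → ℂ} (h : Curve φ χ) : ∃ g : ℂ → ℂ,
    (∀ z ∈ sphere (0 : ℂ) 1, g z ∈ sphere (0 : ℂ) 1) ∧ ContinuousOn g (sphere 0 1) ∧
    (∀ z ∈ sphere (0 : ℂ) 1, χ (g z) = φ z) := by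
  classical
  have hex : ∀ z : sphere (0 : ℂ) 1, ∃ u : sphere (0 : ℂ) 1, χ u = φ z := by
    intro z
    have : φ z ∈ φ '' sphere 0 1 := mem_image_of_mem _ z.2
    rw [h.bdry] at this
    obtain ⟨u, hu, hu2⟩ := this
    exact ⟨⟨u, hu⟩, hu2⟩
  choose G hG using hex
  have hsub : sphere (0 : ℂ) 1 ⊆ closedBall 0 1 \ {0} := by
    intro z hz
    refine ⟨sphere_subset_closedBall hz, ?_⟩
    intro h0
    rw [mem_singleton_iff] at h0
    rw [h0] at hz
    simp at hz
  have hcont : Continuous (fun u : sphere (0 : ℂ) 1 => χ u) :=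
    continuousOn_iff_continuous_domRestrict.mp (h.χ_cont.mono hsub)
  have hinj : Function.Injective (fun u : sphere (0 : ℂ) 1 => χ u) := by
    intro u v huv
    exact Subtype.ext (h.χ_inj (hsub u.2) (hsub v.2) huv)
  have : CompactSpace (sphere (0 : ℂ) 1) := isCompact_iff_compactSpace.mp (isCompact_sphere 0 1)
  have hemb := hcont.isClosedEmbedding hinj
  have hGc : Continuous G := by
    rw [hemb.isInducing.continuous_iff]
    have h2 : (fun u : sphere (0 : ℂ) 1 => χ u) ∘ G = fun z : sphere (0 : ℂ) 1 => φ z := by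
      funext z
      exact hG z
    rw [h2]
    exact continuousOn_iff_continuous_domRestrict.mp (h.φ_cont.mono sphere_subset_closedBall)
  refine ⟨fun z => if hz : z ∈ sphere (0 : ℂ) 1 then (G ⟨z, hz⟩ : ℂ) else 0, ?_, ?_, ?_⟩
  · intro z hz
    simp only
    rw [dif_pos hz]
    exact (G ⟨z, hz⟩).2
  · rw [continuousOn_iff_continuous_domRestrict]
    have h3 : (sphere (0 : ℂ) 1).domRestrict
        (fun z => if hz : z ∈ sphere (0 : ℂ) 1 then (G ⟨z, hz⟩ : ℂ) else 0) =
        fun z => (G z : ℂ) := by
      funext z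
      simp only [domRestrict_apply]
      rw [dif_pos z.2]
    rw [h3]
    exact continuous_subtype_val.comp hGc
  · intro z hz
    simp only
    rw [dif_pos hz]
    exact hG ⟨z, hz⟩

/-- `I = cay '' Ioo y1 y2`, `J = cay '' Iio y1 ∪ {1} ∪ cay '' Ioi y2`.  `I` is preconnected (image of an interval); `cay '' Iio y1`
is preconnected and `1` is in its closure (`cay s → 1` as `s → -∞`), so `cay '' Iio y1 ∪ {1}` is preconnected
(`IsPreconnected.subset_closure`), same for the other part, and the union of two preconnected sets with a common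
point.  `I ∪ {cay y1, cay y2} = cay '' Icc y1 y2` is compact; `J ∪ {cay y1, cay y2}` is the complement of `cay '' Ioo y1 y2` in the
circle, closed: `cay '' Ioo y1 y2` is relatively open in the circle (its points `z` are characterised by `z ≠ 1` and
`y1 < re (i (1+z)/(1-z)) < y2`, an open condition; near `1` the values are large in absolute value; or: `J ∪ {...}` is the union of the
closures `cay '' Iic y1 ∪ {1}` and `cay '' Ici y2 ∪ {1}`).
`g z` = the point `u` of the circle with `χ u = φ z`; `g` is continuous on the circle (the inverse of `χ` on the compact circle is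
continuous), `g (cay s) = cay (k0 s)` by injectivity of `χ`, `g 1 = 1`. -/
theorem exists_marked {φ χ : ℂ → ℂ} (h : Curve φ χ) {k0 : ℝ → ℝ}
    (hw : ∀ s : ℝ, χ (cay (k0 s)) = φ (cay s)) (h1 : χ 1 = φ 1) {y1 y2 : ℝ} (h12 : y1 < y2) :
    ∃ (I J : Set ℂ) (g : ℂ → ℂ), Marked φ χ (cay y1) (cay y2) I J g ∧ (∀ s : ℝ, g (cay s) = cay (k0 s)) ∧
      (∀ s, y1 < s → s < y2 → cay s ∈ I) ∧ (∀ s, s < y1 → cay s ∈ J) ∧ (∀ s, y2 < s → cay s ∈ J) := by
  obtain ⟨g, g1, g2, g3⟩ := S6_weld h
  have hsub : sphere (0 : ℂ) 1 ⊆ closedBall 0 1 \ {0} := by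
    intro z hz
    refine ⟨sphere_subset_closedBall hz, ?_⟩
    intro h0
    rw [mem_singleton_iff] at h0
    rw [h0] at hz
    simp at hz
  have hcc : Continuous cay := cay_continuous
  have h1s : (1 : ℂ) ∈ sphere (0 : ℂ) 1 := by simp
  have hcl1 : (1 : ℂ) ∈ closure (cay '' Iio y1) := by
    refine mem_closure_of_tendsto S6_tendsto_atBot ?_
    filter_upwards [eventually_lt_atBot y1] with s hs
    exact mem_image_of_mem _ hs
  have hcl2 : (1 : ℂ) ∈ closure (cay '' Ioi y2) := by
    refine mem_closure_of_tendsto S6_tendsto_atTop ?_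
    filter_upwards [eventually_gt_atTop y2] with s hs
    exact mem_image_of_mem _ hs
  have hp1 : IsPreconnected (cay '' Iio y1 ∪ {1}) := by
    refine (isPreconnected_Iio.image cay hcc.continuousOn).subset_closure subset_union_left ?_
    refine union_subset subset_closure ?_
    rw [singleton_subset_iff]
    exact hcl1
  have hp2 : IsPreconnected (cay '' Ioi y2 ∪ {1}) := by
    refine (isPreconnected_Ioi.image cay hcc.continuousOn).subset_closure subset_union_left ?_
    refine union_subset subset_closure ?_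
    rw [singleton_subset_iff]
    exact hcl2
  have hJ : cay '' Iio y1 ∪ {1} ∪ cay '' Ioi y2 = (cay '' Iio y1 ∪ {1}) ∪ (cay '' Ioi y2 ∪ {1}) := by
    ext z
    simp only [mem_union, mem_singleton_iff]
    tauto
  refine ⟨cay '' Ioo y1 y2, cay '' Iio y1 ∪ {1} ∪ cay '' Ioi y2, g, ?_, ?_, ?_, ?_, ?_⟩
  · refine { toCurve := h, α_mem := cay_mem y1, β_mem := cay_mem y2, αβ := ?_, g_maps := g1, g_cont := g2,
             g_eq := g3, conI := ?_, conJ := ?_, neI := ?_, neJ := ?_, union := ?_, IJ := ?_, αI := ?_,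
             βI := ?_, αJ := ?_, βJ := ?_, clI := ?_, clJ := ?_ }
    · intro h0
      exact absurd (cay_injective h0) h12.ne
    · exact isPreconnected_Ioo.image cay hcc.continuousOn
    · rw [hJ]
      exact hp1.union 1 (Or.inr rfl) (Or.inr rfl) hp2
    · exact ⟨cay ((y1 + y2) / 2), mem_image_of_mem _ ⟨by linarith, by linarith⟩⟩
    · exact ⟨1, Or.inl (Or.inr rfl)⟩
    · apply Subset.antisymm
      · rintro z (((⟨s, _, rfl⟩) | ((⟨s, _, rfl⟩ | h0) | ⟨s, _, rfl⟩)) | (h0 | h0))
        · exact cay_mem s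
        · exact cay_mem s
        · rw [mem_singleton_iff] at h0; rw [h0]; exact h1s
        · exact cay_mem s
        · rw [h0]; exact cay_mem y1
        · rw [mem_singleton_iff] at h0; rw [h0]; exact cay_mem y2
      · intro z hz
        by_cases hz1 : z = 1
        · exact Or.inl (Or.inr (Or.inl (Or.inr hz1)))
        · obtain ⟨s, rfl, _⟩ := cay_surj (by simpa using hz) hz1
          rcases lt_trichotomy s y1 with h3 | h3 | h3
          · exact Or.inl (Or.inr (Or.inl (Or.inl (mem_image_of_mem _ h3))))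
          · rw [h3]; exact Or.inr (Or.inl rfl)
          · rcases lt_trichotomy s y2 with h4 | h4 | h4
            · exact Or.inl (Or.inl (mem_image_of_mem _ ⟨h3, h4⟩))
            · rw [h4]; exact Or.inr (Or.inr rfl)
            · exact Or.inl (Or.inr (Or.inr (mem_image_of_mem _ h4)))
    · rw [Set.disjoint_left]
      rintro z ⟨s, hs, rfl⟩ ((⟨t, ht, h0⟩ | h0) | ⟨t, ht, h0⟩)
      · have := cay_injective h0
        subst this
        exact absurd (lt_trans ht hs.1) (lt_irrefl _)
      · exact S6_cay_ne_one s h0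
      · have := cay_injective h0
        subst this
        exact absurd (lt_trans hs.2 ht) (lt_irrefl _)
    · rintro ⟨s, hs, h0⟩
      have := cay_injective h0
      subst this
      exact lt_irrefl _ hs.1
    · rintro ⟨s, hs, h0⟩
      have := cay_injective h0
      subst this
      exact lt_irrefl _ hs.2
    · rintro ((⟨t, ht, h0⟩ | h0) | ⟨t, ht, h0⟩)
      · have := cay_injective h0
        subst this
        exact lt_irrefl _ (mem_Iio.mp ht)
      · exact S6_cay_ne_one y1 h0
      · have := cay_injective h0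
        subst this
        exact lt_irrefl _ (lt_trans h12 ht)
    · rintro ((⟨t, ht, h0⟩ | h0) | ⟨t, ht, h0⟩)
      · have := cay_injective h0
        subst this
        exact lt_irrefl _ (lt_trans h12 ht)
      · exact S6_cay_ne_one y2 h0
      · have := cay_injective h0
        subst this
        exact lt_irrefl _ (mem_Ioi.mp ht)
    · have h3 : cay '' Ioo y1 y2 ∪ {cay y1, cay y2} = cay '' Icc y1 y2 := by
        rw [← image_pair, ← image_union, Ioo_union_both h12.le]
      rw [h3]
      exact (isCompact_Icc.image hcc).isClosed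
    · have h3 : cay '' Iio y1 ∪ {1} ∪ cay '' Ioi y2 ∪ {cay y1, cay y2} =
          sphere (0 : ℂ) 1 \ cay '' Ioo y1 y2 := by
        apply Subset.antisymm
        · rintro z (((⟨s, hs, rfl⟩ | h0) | ⟨s, hs, rfl⟩) | (h0 | h0))
          · refine ⟨cay_mem s, ?_⟩
            rintro ⟨t, ht, h0⟩
            have := cay_injective h0
            subst this
            exact lt_irrefl _ (lt_trans ht.1 hs)
          · rw [mem_singleton_iff] at h0
            subst h0
            refine ⟨h1s, ?_⟩
            rintro ⟨t, ht, h0⟩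
            exact S6_cay_ne_one t h0
          · refine ⟨cay_mem s, ?_⟩
            rintro ⟨t, ht, h0⟩
            have := cay_injective h0
            subst this
            exact lt_irrefl _ (lt_trans hs ht.2)
          · subst h0
            refine ⟨cay_mem y1, ?_⟩
            rintro ⟨t, ht, h0⟩
            have := cay_injective h0
            subst this
            exact lt_irrefl _ ht.1
          · rw [mem_singleton_iff] at h0
            subst h0
            refine ⟨cay_mem y2, ?_⟩
            rintro ⟨t, ht, h0⟩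
            have := cay_injective h0
            subst this
            exact lt_irrefl _ ht.2
        · rintro z ⟨hz, hz2⟩
          by_cases hz1 : z = 1
          · exact Or.inl (Or.inl (Or.inr hz1))
          · obtain ⟨s, rfl, _⟩ := cay_surj (by simpa using hz) hz1
            rcases lt_trichotomy s y1 with h3 | h3 | h3
            · exact Or.inl (Or.inl (Or.inl (mem_image_of_mem _ h3)))
            · rw [h3]; exact Or.inr (Or.inl rfl)
            · rcases lt_trichotomy s y2 with h4 | h4 | h4
              · exact absurd (mem_image_of_mem cay (show s ∈ Ioo y1 y2 from ⟨h3, h4⟩)) hz2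
              · rw [h4]; exact Or.inr (Or.inr rfl)
              · exact Or.inl (Or.inr (mem_image_of_mem _ h4))
      rw [h3]
      exact S6_closed y1 y2
  · intro s
    apply h.χ_inj (hsub (g1 _ (cay_mem s))) (hsub (cay_mem (k0 s)))
    rw [g3 _ (cay_mem s), hw s]
  · intro s h3 h4
    exact mem_image_of_mem _ ⟨h3, h4⟩
  · intro s h3
    exact Or.inl (Or.inl (mem_image_of_mem _ h3))
  · intro s h3
    exact Or.inr (mem_image_of_mem _ h3)

end Pool.Agent.H.MP_4bdd60_an
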