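import Pool.Agent.H.MP_4bdd60_an.Core2
import Pool.Agent.H.MP_4bdd60_an.I1
import Pool.Agent.H.MP_4bdd60_an.S1
import Pool.Agent.H.MP_4bdd60_an.S5
import Pool.Agent.H.MP_4bdd60_an.S6
import Pool.Agent.H.MP_4bdd60_an.Loops

/-!
# MP_4bdd60_an: Theorem A+ in the chart form
-/

open Set Filter Topology Metric MeasureTheory
open scoped ENNReal Real

namespace Pool.Agent.H.MP_4bdd60_an

/-- Two loop points of the welding give the dichotomy. -/
theorem of_loopPoints {φ χ : ℂ → ℂ} (hC : Curve φ χ) {k0 : ℝ → ℝ} (hk : Continuous k0)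
    (hw : ∀ s : ℝ, χ (cay (k0 s)) = φ (cay s)) (h1 : χ 1 = φ 1)
    {κ : ℝ} (hκ : κ = 1 ∨ κ = -1) (hmono : StrictMono (fun s => κ * k0 s)) {y1 y2 : ℝ} (h12 : y1 < y2)
    (hl1 : LoopPoint (fun s => κ * k0 s) y1) (hl2 : LoopPoint (fun s => κ * k0 s) y2)
    (f : ℂ ≃ₜ ℂ) (hf : DifferentiableOn ℂ f (φ '' sphere 0 1)ᶜ) (hfn : ¬ Differentiable ℂ f) :
    ∃ K : Set ℂ, K ⊆ φ '' sphere 0 1 ∧ K ≠ φ '' sphere 0 1 ∧ IsClosed K ∧
      ∃ g : ℂ ≃ₜ ℂ, DifferentiableOn ℂ g Kᶜ ∧ ¬ Differentiable ℂ g := by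
  obtain ⟨I, J, g, hM, hg, hI, hJ1, hJ2⟩ := exists_marked hC hw h1 h12
  have hκ2 : κ * κ = 1 := by rcases hκ with rfl | rfl <;> norm_num
  have hc : Chart g (fun s => κ * k0 s) κ := by
    refine ⟨hmono, continuous_const.mul hk, hκ, fun x => ?_⟩
    rw [hg, ← mul_assoc, hκ2, one_mul]
  have hs1 : Sep (cay y1) (cay y2) I J y1 := by
    refine ⟨y2 - y1, by linarith, ?_, ?_⟩
    · intro u v _ hu hv hv'
      exact Or.inl ⟨hJ1 u hu, hI v hv (by linarith)⟩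
    · intro x _ hx hne
      exact ⟨fun e => hne (cay_injective e), fun e => by have := cay_injective e; linarith⟩
  have hs2 : Sep (cay y1) (cay y2) I J y2 := by
    refine ⟨y2 - y1, by linarith, ?_, ?_⟩
    · intro u v hu hu' hv _
      exact Or.inr ⟨hI u (by linarith) hu', hJ2 v hv⟩
    · intro x hx _ hne
      exact ⟨fun e => by have := cay_injective e; linarith, fun e => hne (cay_injective e)⟩
  have hKc := isCompact_arcI hM
  have hLc := isCompact_arcJ hM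
  have hun := arc_union hM
  obtain ⟨F, hF1, hF2⟩ := core (f := f) hM hc rfl rfl hs1 hs2 hl1 hl2 (by rw [hun]; exact hf)
  by_cases hFd : Differentiable ℂ F
  · refine ⟨arc φ J (cay y1) (cay y2), (arc_sub hM).2, (arc_ne hM).2, hLc.isClosed, f, ?_, hfn⟩
    exact endgame f F hLc.isClosed hFd hF2
  · exact ⟨arc φ I (cay y1) (cay y2), (arc_sub hM).1, (arc_ne hM).1, hKc.isClosed, F, hF1, hFd⟩

/-- Theorem A+ for a `Curve`, with the measure on the line. -/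
theorem of_curve {φ χ : ℂ → ℂ} (hC : Curve φ χ) {u0 : ℂ} {k0 : ℝ → ℝ} (hu : ‖u0‖ = 1) (hk : Continuous k0)
    (hb : Function.Bijective k0) (hw : ∀ s : ℝ, χ (u0 * cay (k0 s)) = φ (cay s)) (h1 : χ u0 = φ 1)
    (nu : Measure ℝ) [IsProbabilityMeasure nu] (C α : ℝ) (hα : 0 < α)
    (n1 : ∀ u v : ℝ, u ≤ v → nu (Icc u v) ≤ ENNReal.ofReal (C * (v - u) ^ α))
    (n2 : ∀ u v : ℝ, u ≤ v → nu (Icc u v) ≤ ENNReal.ofReal (C * |k0 v - k0 u| ^ α))
    (f : ℂ ≃ₜ ℂ) (hf : DifferentiableOn ℂ f (φ '' sphere 0 1)ᶜ) (hfn : ¬ Differentiable ℂ f) :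
    ∃ K : Set ℂ, K ⊆ φ '' sphere 0 1 ∧ K ≠ φ '' sphere 0 1 ∧ IsClosed K ∧
      ∃ g : ℂ ≃ₜ ℂ, DifferentiableOn ℂ g Kᶜ ∧ ¬ Differentiable ℂ g := by
  have hC' : Curve φ (fun u => χ (u0 * u)) := curve_rot hC hu
  have hmono : ∃ κ : ℝ, (κ = 1 ∨ κ = -1) ∧ StrictMono (fun s => κ * k0 s) := by
    rcases hk.strictMono_of_inj hb.1 with hm | hm
    · exact ⟨1, Or.inl rfl, by simpa using hm⟩
    · refine ⟨-1, Or.inr rfl, ?_⟩
      intro x y hxy
      have := hm hxy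
      simp only
      linarith
  obtain ⟨κ, hκ, hmono⟩ := hmono
  have n2' : ∀ u v : ℝ, u ≤ v → nu (Icc u v) ≤
      ENNReal.ofReal (C * ((fun s => κ * k0 s) v - (fun s => κ * k0 s) u) ^ α) := by
    intro u v huv
    have h0 : 0 ≤ κ * k0 v - κ * k0 u := sub_nonneg.2 (hmono.monotone huv)
    have e : κ * k0 v - κ * k0 u = |k0 v - k0 u| := by
      rw [← abs_of_nonneg h0, ← mul_sub, abs_mul]
      rcases hκ with rfl | rfl <;> simp
    simp only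
    rw [e]
    exact n2 u v huv
  obtain ⟨y1, y2, h12, hl1, hl2⟩ := exists_loopPoints (fun s => κ * k0 s) hmono nu C α hα n1 n2'
  refine of_loopPoints hC' hk hw ?_ hκ hmono h12 hl1 hl2 f hf hfn
  simp only [mul_one]
  exact h1

end Pool.Agent.H.MP_4bdd60_an
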