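import Pool.Agent.H.MP_4bdd60_an.S2

/-!
# MP_4bdd60_an, part G: triangles in the Cayley chart
-/

open Set Filter Topology Metric MeasureTheory Function
open scoped ENNReal Real

namespace Pool.Agent.H.MP_4bdd60_an

/-- isosceles triangle with base `(u, v)` on the real line, without the two sides -/
def Tri (u v s : ℝ) : Set ℂ := {w | 0 ≤ w.im ∧ u + s * w.im < w.re ∧ w.re < v - s * w.im}

/-- with the two sides -/
def TriC (u v s : ℝ) : Set ℂ := {w | 0 ≤ w.im ∧ u + s * w.im ≤ w.re ∧ w.re ≤ v - s * w.im}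

/-- its image in the closed disc, after a reflection if `κ = -1` -/
noncomputable def Dt (κ u v s : ℝ) : Set ℂ := (fun w => cayc (refl κ w)) '' Tri u v s

noncomputable def DtC (κ u v s : ℝ) : Set ℂ := (fun w => cayc (refl κ w)) '' TriC u v s

variable {κ u v s : ℝ}

theorem G1a_refl_im (κ : ℝ) (w : ℂ) : (refl κ w).im = w.im := rfl

theorem G1a_refl_re (κ : ℝ) (w : ℂ) : (refl κ w).re = κ * w.re := rfl

theorem G1a_refl_refl (hκ : κ = 1 ∨ κ = -1) (w : ℂ) : refl κ (refl κ w) = w := by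
  apply Complex.ext
  · rw [G1a_refl_re, G1a_refl_re]
    rcases hκ with h | h <;> rw [h] <;> ring
  · rfl

theorem G1a_refl_real (κ x : ℝ) : ((κ * x : ℝ) : ℂ) = refl κ (x : ℂ) := by
  apply Complex.ext
  · rw [G1a_refl_re, Complex.ofReal_re, Complex.ofReal_re]
  · rw [G1a_refl_im, Complex.ofReal_im, Complex.ofReal_im]

theorem G1a_refl_cont (κ : ℝ) : Continuous (refl κ) := by
  have h : refl κ = fun w : ℂ => ((κ * w.re : ℝ) : ℂ) + (w.im : ℂ) * Complex.I := by
    funext w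
    exact Complex.mk_eq_add_mul_I _ _
  rw [h]
  fun_prop

/-- coordinates on the triangle -/
theorem G1a_coord (hs : 1 ≤ s) {w : ℂ} (hw : w ∈ TriC u v s) :
    0 ≤ w.im ∧ 2 * w.im ≤ v - u ∧ u ≤ w.re ∧ w.re ≤ v := by
  obtain ⟨h1, h2, h3⟩ := hw
  have h4 : w.im ≤ s * w.im := by nlinarith
  exact ⟨h1, by linarith, by linarith, by linarith⟩

theorem G1a_sub : Tri u v s ⊆ TriC u v s := fun _ hw => ⟨hw.1, hw.2.1.le, hw.2.2.le⟩

theorem Dt_sub (hκ : κ = 1 ∨ κ = -1) : Dt κ u v s ⊆ closedBall 0 1 := by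
  rintro z ⟨w, hw, rfl⟩
  rw [mem_closedBall_zero_iff]
  exact cayc_norm_le (w := refl κ w) hw.1

/-- Height of the triangle: `w.im ≤ (v - u) / (2 s) < 1`, so the point `i` is not in it (`cayc w = 0` only for `w = i`). -/
theorem DtC_sub (hκ : κ = 1 ∨ κ = -1) (hs : 1 ≤ s) (huv : v - u < 1) :
    DtC κ u v s ⊆ closedBall 0 1 \ {0} := by
  rintro z ⟨w, hw, rfl⟩
  obtain ⟨h1, h2, -, -⟩ := G1a_coord hs hw
  refine ⟨?_, fun h => ?_⟩
  · rw [mem_closedBall_zero_iff]
    exact cayc_norm_le (w := refl κ w) h1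
  · have h3 : cayc (refl κ w) = 0 := h
    rw [cayc, div_eq_zero_iff] at h3
    rcases h3 with h3 | h3
    · have h4 := congrArg Complex.im h3
      rw [Complex.sub_im, Complex.I_im, Complex.zero_im, G1a_refl_im] at h4
      linarith
    · exact cayc_den (w := refl κ w) h1 h3

theorem Dt_sub_DtC : Dt κ u v s ⊆ DtC κ u v s := image_mono G1a_sub

/-- the chart on the closed disc minus `1` -/
theorem G1a_mem (hκ : κ = 1 ∨ κ = -1) {z : ℂ} (hz : ‖z‖ ≤ 1) :
    z ∈ Dt κ u v s ↔ z ≠ 1 ∧ u + s * (refl κ (Complex.I * (1 + z) / (1 - z))).im <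
        (refl κ (Complex.I * (1 + z) / (1 - z))).re ∧
      (refl κ (Complex.I * (1 + z) / (1 - z))).re <
        v - s * (refl κ (Complex.I * (1 + z) / (1 - z))).im := by
  constructor
  · rintro ⟨w, hw, rfl⟩
    have h0 : cayc (refl κ w) ≠ 1 := cayc_ne_one (w := refl κ w) hw.1
    obtain ⟨w1, hw1, h2, h3⟩ := cayc_surj hz h0
    have h4 : w1 = refl κ w := cayc_inj hw1 (show (0 : ℝ) ≤ (refl κ w).im from hw.1) h2
    simp only at h3 ⊢
    rw [← h3, h4, G1a_refl_refl hκ]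
    exact ⟨h0, hw.2⟩
  · rintro ⟨h0, h1, h2⟩
    obtain ⟨w1, hw1, h3, h4⟩ := cayc_surj hz h0
    rw [← h4] at h1 h2
    refine ⟨refl κ w1, ⟨hw1, h1, h2⟩, ?_⟩
    show cayc (refl κ (refl κ w1)) = z
    rw [G1a_refl_refl hκ, h3]

/-- The complement in the closed ball is closed: a point `z` of the closed ball is in `Dt` iff `z ≠ 1` and the reflection
of the point `i (1 + z) / (1 - z)` satisfies strict inequalities, an open condition on `z ≠ 1`; and near `z = 1` the point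
`i (1 + z)/(1 - z)` is large, not in the bounded set `Tri` (`s ≥ 1`). -/
theorem Dt_closed (hκ : κ = 1 ∨ κ = -1) (hs : 1 ≤ s) : IsClosed (closedBall 0 1 \ Dt κ u v s) := by
  have hG : ContinuousOn (fun z : ℂ => refl κ (Complex.I * (1 + z) / (1 - z))) {z | z ≠ 1} := by
    refine (G1a_refl_cont κ).comp_continuousOn (ContinuousOn.div ?_ ?_ ?_)
    · fun_prop
    · fun_prop
    · intro z hz h
      exact hz (sub_eq_zero.1 h).symm
  have hV : IsOpen {w : ℂ | u + s * w.im < w.re ∧ w.re < v - s * w.im} := by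
    refine IsOpen.and ?_ ?_
    · exact isOpen_lt (by fun_prop) (by fun_prop)
    · exact isOpen_lt (by fun_prop) (by fun_prop)
  have hU := hG.isOpen_inter_preimage isOpen_ne hV
  have he : closedBall (0 : ℂ) 1 \ Dt κ u v s = closedBall 0 1 ∩ ({z | z ≠ 1} ∩
      (fun z : ℂ => refl κ (Complex.I * (1 + z) / (1 - z))) ⁻¹'
        {w : ℂ | u + s * w.im < w.re ∧ w.re < v - s * w.im})ᶜ := by
    ext z
    constructor
    · rintro ⟨hz, hz'⟩
      refine ⟨hz, fun h => hz' ?_⟩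
      exact (G1a_mem hκ (mem_closedBall_zero_iff.1 hz)).2 ⟨h.1, h.2.1, h.2.2⟩
    · rintro ⟨hz, hz'⟩
      refine ⟨hz, fun h => hz' ?_⟩
      obtain ⟨h1, h2, h3⟩ := (G1a_mem hκ (mem_closedBall_zero_iff.1 hz)).1 h
      exact ⟨h1, h2, h3⟩
  rw [he]
  exact isClosed_closedBall.inter hU.isClosed_compl

theorem G1a_comp (κ : ℝ) (u v s : ℝ) :
    ContinuousOn (fun w => cayc (refl κ w)) (TriC u v s) := by
  intro w hw
  have h1 : ContinuousAt cayc (refl κ w) :=
    (cayc_hasDerivAt (w := refl κ w) hw.1).continuousAt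
  exact (ContinuousAt.comp (g := cayc) h1 (G1a_refl_cont κ).continuousAt).continuousWithinAt

/-- `TriC` is compact and `cayc` is continuous on it. -/
theorem DtC_closed (hκ : κ = 1 ∨ κ = -1) (hs : 1 ≤ s) : IsClosed (DtC κ u v s) := by
  have hc : IsClosed (TriC u v s) := by
    refine IsClosed.and ?_ (IsClosed.and ?_ ?_)
    · exact isClosed_le (by fun_prop) (by fun_prop)
    · exact isClosed_le (by fun_prop) (by fun_prop)
    · exact isClosed_le (by fun_prop) (by fun_prop)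
  have hk : IsCompact (TriC u v s) := by
    refine ((isCompact_Icc (a := u) (b := v)).reProdIm
      (isCompact_Icc (a := (0 : ℝ)) (b := (v - u) / 2))).of_isClosed_subset hc ?_
    intro w hw
    obtain ⟨h1, h2, h3, h4⟩ := G1a_coord hs hw
    exact ⟨⟨h3, h4⟩, ⟨h1, by linarith⟩⟩
  exact (hk.image_of_continuousOn (G1a_comp κ u v s)).isClosed

/-- Trace on the circle. -/
theorem Dt_trace (hκ : κ = 1 ∨ κ = -1) (hs : 1 ≤ s) (x : ℝ) :
    cay (κ * x) ∈ Dt κ u v s ↔ u < x ∧ x < v := by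
  rw [cay, G1a_refl_real]
  constructor
  · rintro ⟨w, hw, h⟩
    have h1 : refl κ w = refl κ (x : ℂ) :=
      cayc_inj (show (0 : ℝ) ≤ (refl κ w).im from hw.1)
        (show (0 : ℝ) ≤ (refl κ (x : ℂ)).im from (Complex.ofReal_im x).ge) h
    have h2 : w = (x : ℂ) := by
      rw [← G1a_refl_refl hκ w, h1, G1a_refl_refl hκ]
    rw [h2] at hw
    obtain ⟨-, h3, h4⟩ := hw
    rw [Complex.ofReal_im, Complex.ofReal_re] at h3 h4
    exact ⟨by linarith, by linarith⟩
  · rintro ⟨h1, h2⟩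
    refine ⟨(x : ℂ), ⟨(Complex.ofReal_im x).ge, ?_, ?_⟩, rfl⟩
    · rw [Complex.ofReal_im, Complex.ofReal_re]
      linarith
    · rw [Complex.ofReal_im, Complex.ofReal_re]
      linarith

/-- The point `1` is not in it, so every point of the trace is of the form `cay (κ * x)`. -/
theorem Dt_sphere (hκ : κ = 1 ∨ κ = -1) {z : ℂ} (hz : z ∈ sphere (0 : ℂ) 1) (h : z ∈ Dt κ u v s) :
    ∃ x : ℝ, z = cay (κ * x) := by
  obtain ⟨w, hw, rfl⟩ := h
  rw [mem_sphere_zero_iff_norm] at hz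
  have h1 : w.im = 0 := by
    by_contra hne
    have h2 : 0 < (refl κ w).im := lt_of_le_of_ne hw.1 (Ne.symm hne)
    exact absurd hz (cayc_norm_lt h2).ne
  refine ⟨w.re, ?_⟩
  rw [cay, G1a_refl_real]
  have h3 : w = (w.re : ℂ) := Complex.ext rfl (by rw [h1, Complex.ofReal_im])
  show cayc (refl κ w) = _
  rw [← h3]

/-- The difference consists of the two sides. -/
theorem DtC_diff (hκ : κ = 1 ∨ κ = -1) (hs : 1 ≤ s) {z : ℂ} (hz : z ∈ DtC κ u v s \ Dt κ u v s) :
    ∃ t ∈ Icc 0 (v - u), z = cayc ⟨κ * (u + s * t), t⟩ ∨ z = cayc ⟨κ * (v - s * t), t⟩ := by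
  obtain ⟨⟨w, hw, rfl⟩, hz2⟩ := hz
  obtain ⟨h1, h2, -, -⟩ := G1a_coord hs hw
  refine ⟨w.im, ⟨h1, by linarith⟩, ?_⟩
  by_cases h3 : u + s * w.im < w.re
  · right
    have h4 : w.re = v - s * w.im := by
      refine le_antisymm hw.2.2 ?_
      by_contra h5
      exact hz2 ⟨w, ⟨h1, h3, not_le.1 h5⟩, rfl⟩
    show cayc (refl κ w) = _
    rw [refl, h4]
  · left
    have h4 : w.re = u + s * w.im := le_antisymm (not_lt.1 h3) hw.2.1
    show cayc (refl κ w) = _
    rw [refl, h4]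

/-- Smallness: `cayc_lip`, the diameter of the triangle is at most `2 (v - u)`. -/
theorem DtC_small (hκ : κ = 1 ∨ κ = -1) (hs : 1 ≤ s) {y : ℝ} (hy : u ≤ y ∧ y ≤ v) {z : ℂ}
    (hz : z ∈ DtC κ u v s) : ‖z - cay (κ * y)‖ ≤ 4 * (v - u) := by
  obtain ⟨w, hw, rfl⟩ := hz
  obtain ⟨h1, h2, h3, h4⟩ := G1a_coord hs hw
  rw [cay, G1a_refl_real]
  have h5 := cayc_lip (w := refl κ w) (w' := refl κ (y : ℂ)) h1 (Complex.ofReal_im y).ge
  refine h5.trans ?_
  have h6 : ‖refl κ w - refl κ (y : ℂ)‖ ≤ |(refl κ w - refl κ (y : ℂ)).re| +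
      |(refl κ w - refl κ (y : ℂ)).im| := Complex.norm_le_abs_re_add_abs_im _
  have h7 : (refl κ w - refl κ (y : ℂ)).re = κ * (w.re - y) := by
    rw [Complex.sub_re, G1a_refl_re, G1a_refl_re, Complex.ofReal_re]
    ring
  have h8 : (refl κ w - refl κ (y : ℂ)).im = w.im := by
    rw [Complex.sub_im, G1a_refl_im, G1a_refl_im, Complex.ofReal_im, sub_zero]
  have h9 : |κ| = 1 := by
    rcases hκ with h | h <;> rw [h] <;> norm_num
  rw [h7, h8, abs_mul, h9, one_mul, abs_of_nonneg h1] at h6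
  have h10 : |w.re - y| ≤ v - u := by
    rw [abs_le]
    constructor <;> linarith [hy.1, hy.2]
  linarith

end Pool.Agent.H.MP_4bdd60_an
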