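import Mathlib

/-!
# MP_4bdd60_an, part G: an open map on a ring between two sets with small images
-/

open Set Filter Topology Metric

namespace Pool.Agent.H.MP_4bdd60_an

/-- The step for one coordinate `L` of the plane; `l c y` is the point with coordinate `c` and second coordinate `y`. -/
theorem G2a_coord {F : ℂ → ℂ} {A R γ γ' P : Set ℂ} (hA : IsCompact A) (hF : ContinuousOn F A)
    (hR : IsOpen R) (hRA : R ⊆ A) (hAR : A ⊆ R ∪ γ ∪ γ') (hopen : ∀ z ∈ R, ∀ N ∈ 𝓝 z, F '' N ∈ 𝓝 (F z))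
    {p p' : ℂ} {r : ℝ} (hp : ∀ z ∈ γ ∩ A, ‖F z - p‖ ≤ r) (hp' : ∀ z ∈ γ' ∩ A, ‖F z - p'‖ ≤ r)
    (hP : IsPreconnected P) (hPA : P ⊆ A) (h1 : (P ∩ γ).Nonempty) (h2 : (P ∩ γ').Nonempty)
    {L : ℂ → ℝ} {l : ℝ → ℝ → ℂ} (hL : Continuous L) (hl : ∀ c, Continuous (l c))
    (hLl : ∀ c y, L (l c y) = c) (hs : ∀ w, ∃ y, l (L w) y = w) (hb : ∀ c y, |y| ≤ ‖l c y‖)
    (hn : ∀ w w', |L w - L w'| ≤ ‖w - w'‖) :
    |L p - L p'| ≤ 2 * r ∧ ∀ z ∈ A, |L (F z) - L p| ≤ 3 * r := by
  have hcp : IsCompact (F '' A) := hA.image_of_continuousOn hF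
  have key : ∀ z ∈ A, |L (F z) - L p| ≤ r ∨ |L (F z) - L p'| ≤ r := by
    intro z₀ hz₀
    by_contra hcon
    push Not at hcon
    obtain ⟨hc1, hc2⟩ := hcon
    set c := L (F z₀) with hc
    have hclosed : IsClosed (l c ⁻¹' (F '' A)) := hcp.isClosed.preimage (hl c)
    have hopen' : IsOpen (l c ⁻¹' (F '' A)) := by
      rw [isOpen_iff_mem_nhds]
      rintro y ⟨z, hz, hzy⟩
      have hLz : L (F z) = c := by rw [hzy, hLl]
      have hzR : z ∈ R := by
        rcases hAR hz with (h | h) | h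
        · exact h
        · exfalso
          have e1 := hp z ⟨h, hz⟩
          have e2 := hn (F z) p
          rw [hLz] at e2
          linarith
        · exfalso
          have e1 := hp' z ⟨h, hz⟩
          have e2 := hn (F z) p'
          rw [hLz] at e2
          linarith
      have hN : F '' A ∈ 𝓝 (F z) := hopen z hzR A (mem_of_superset (hR.mem_nhds hzR) hRA)
      rw [hzy] at hN
      exact (hl c).continuousAt.preimage_mem_nhds hN
    have hne : (l c ⁻¹' (F '' A)).Nonempty := by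
      obtain ⟨y, hy⟩ := hs (F z₀)
      exact ⟨y, z₀, hz₀, hy.symm⟩
    have huniv : l c ⁻¹' (F '' A) = univ := IsClopen.eq_univ ⟨hclosed, hopen'⟩ hne
    obtain ⟨B, hB⟩ := hcp.isBounded.exists_norm_le
    have hmem : B + 1 ∈ l c ⁻¹' (F '' A) := by
      rw [huniv]
      trivial
    have e3 := hB _ hmem
    have e4 := hb c (B + 1)
    have e5 := le_abs_self (B + 1)
    linarith
  obtain ⟨z₁, hz₁, hz₁'⟩ := h1
  obtain ⟨z₂, hz₂, hz₂'⟩ := h2
  have a1 : |L (F z₁) - L p| ≤ r := (hn _ _).trans (hp z₁ ⟨hz₁', hPA hz₁⟩)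
  have a2 : |L (F z₂) - L p'| ≤ r := (hn _ _).trans (hp' z₂ ⟨hz₂', hPA hz₂⟩)
  have hconn : (( fun z => L (F z)) '' P).OrdConnected := by
    have h3 : ContinuousOn (fun z => L (F z)) P := hL.comp_continuousOn (hF.mono hPA)
    exact (hP.image _ h3).ordConnected
  have b1 : |L p - L p'| ≤ 2 * r := by
    by_contra hcon
    push Not at hcon
    have a1' := abs_le.1 a1
    have a2' := abs_le.1 a2
    have hmem : (L p + L p') / 2 ∈ (fun z => L (F z)) '' P := by
      rcases le_total (L p) (L p') with h | h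
      · rw [abs_of_nonpos (by linarith)] at hcon
        exact hconn.out ⟨z₁, hz₁, rfl⟩ ⟨z₂, hz₂, rfl⟩ ⟨by
          show L (F z₁) ≤ _
          linarith, by
          show _ ≤ L (F z₂)
          linarith⟩
      · rw [abs_of_nonneg (by linarith)] at hcon
        exact hconn.out ⟨z₂, hz₂, rfl⟩ ⟨z₁, hz₁, rfl⟩ ⟨by
          show L (F z₂) ≤ _
          linarith, by
          show _ ≤ L (F z₁)
          linarith⟩
    obtain ⟨z, hz, hzc⟩ := hmem
    have hzc' : L (F z) = (L p + L p') / 2 := hzc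
    have e1 : |L (F z) - L p| = |L p - L p'| / 2 := by
      rw [hzc', show (L p + L p') / 2 - L p = -((L p - L p') / 2) by ring, abs_neg, abs_div,
        abs_of_pos (by norm_num : (0 : ℝ) < 2)]
    have e2 : |L (F z) - L p'| = |L p - L p'| / 2 := by
      rw [hzc', show (L p + L p') / 2 - L p' = (L p - L p') / 2 by ring, abs_div,
        abs_of_pos (by norm_num : (0 : ℝ) < 2)]
    rcases key z (hPA hz) with h | h
    · rw [e1] at h
      linarith
    · rw [e2] at h
      linarith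
  refine ⟨b1, fun z hz => ?_⟩
  have hr : 0 ≤ r := (abs_nonneg _).trans a1
  rcases key z hz with h | h
  · linarith
  · have e1 : |L (F z) - L p| ≤ |L (F z) - L p'| + |L p' - L p| := abs_sub_le _ _ _
    rw [abs_sub_comm (L p') (L p)] at e1
    linarith

/-- `A` compact, `R ⊆ A` open in the plane, the rest of `A` in `γ ∪ γ'`, where the values of `F` are close to `p`, resp. `p'`; `P` is a
connected subset of `A` joining `γ` to `γ'`.
Proof, real parts (imaginary parts in the same way; or apply the real part statement to `i F`): let `c` be a real number with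
`|c - re p| > r` and `|c - re p'| > r`.  `F '' R ∩ {re = c}` is the intersection of the line with the open set `F '' R` and also with
the compact set `F '' A` (on `γ ∪ γ'` we have `re F ≠ c`); so the set of real `y` with `c + i y ∈ F '' A` is open, closed and
bounded, hence empty.  So `re F` takes values on `A` in the union of the intervals `[re p - r, re p + r]`,
`[re p' - r, re p' + r]`; the image of the connected set `P` is an interval which meets both, so the two intervals meet: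
`|re p - re p'| ≤ 2 r`, and `|re F z - re p| ≤ 3 r` for `z ∈ A`. -/
theorem ext_step {F : ℂ → ℂ} {A R γ γ' P : Set ℂ} (hA : IsCompact A) (hF : ContinuousOn F A)
    (hR : IsOpen R) (hRA : R ⊆ A) (hAR : A ⊆ R ∪ γ ∪ γ') (hopen : ∀ z ∈ R, ∀ N ∈ 𝓝 z, F '' N ∈ 𝓝 (F z))
    {p p' : ℂ} {r : ℝ} (hp : ∀ z ∈ γ ∩ A, ‖F z - p‖ ≤ r) (hp' : ∀ z ∈ γ' ∩ A, ‖F z - p'‖ ≤ r)
    (hP : IsPreconnected P) (hPA : P ⊆ A) (h1 : (P ∩ γ).Nonempty) (h2 : (P ∩ γ').Nonempty) :
    ‖p - p'‖ ≤ 4 * r ∧ ∀ z ∈ A, ‖F z - p‖ ≤ 6 * r := by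
  obtain ⟨c1, c2⟩ := G2a_coord hA hF hR hRA hAR hopen hp hp' hP hPA h1 h2 (L := Complex.re)
    (l := fun c y => ⟨c, y⟩) Complex.continuous_re (fun c => by
      have h : (fun y : ℝ => (⟨c, y⟩ : ℂ)) = fun y : ℝ => (c : ℂ) + y * Complex.I := by
        funext y
        apply Complex.ext <;> simp
      rw [h]
      fun_prop) (fun c y => rfl) (fun w => ⟨w.im, rfl⟩) (fun c y => Complex.abs_im_le_norm ⟨c, y⟩)
      (fun w w' => by
        rw [← Complex.sub_re]
        exact Complex.abs_re_le_norm _)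
  obtain ⟨d1, d2⟩ := G2a_coord hA hF hR hRA hAR hopen hp hp' hP hPA h1 h2 (L := Complex.im)
    (l := fun c y => ⟨y, c⟩) Complex.continuous_im (fun c => by
      have h : (fun y : ℝ => (⟨y, c⟩ : ℂ)) = fun y : ℝ => (y : ℂ) + c * Complex.I := by
        funext y
        apply Complex.ext <;> simp
      rw [h]
      fun_prop) (fun c y => rfl) (fun w => ⟨w.re, rfl⟩) (fun c y => Complex.abs_re_le_norm ⟨y, c⟩)
      (fun w w' => by
        rw [← Complex.sub_im]
        exact Complex.abs_im_le_norm _)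
  refine ⟨?_, fun z hz => ?_⟩
  · have h := Complex.norm_le_abs_re_add_abs_im (p - p')
    rw [Complex.sub_re, Complex.sub_im] at h
    linarith
  · have h := Complex.norm_le_abs_re_add_abs_im (F z - p)
    rw [Complex.sub_re, Complex.sub_im] at h
    have h3 := c2 z hz
    have h4 := d2 z hz
    linarith

end Pool.Agent.H.MP_4bdd60_an
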